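import Mathlib

/-!
# Periodic points of Hénon maps at a prime which is a simple pole of the constant coefficient
(helper912)
-/

set_option autoImplicit false
set_option linter.deprecated false

open Finset Polynomial IsDedekindDomain
open scoped NumberField

namespace Pool.Agent.H912.DY

/-- The Hénon map `(x, y) ↦ (y, F(y) - δ x)`. -/
def henon {L : Type} [Field L] (F : L[X]) (δ : L) (P : L × L) : L × L :=
  (P.2, F.eval P.2 - δ * P.1)

section orbit

variable {L : Type} [Field L] (F : L[X]) (δ : L) (P : L × L)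

/-- the first coordinates of the orbit -/
def orb (i : ℕ) : L := ((henon F δ)^[i] P).1

lemma orb_succ (i : ℕ) : orb F δ P (i + 1) = ((henon F δ)^[i] P).2 := by
  unfold orb
  rw [Function.iterate_succ_apply']
  rfl

lemma orb_rec (i : ℕ) : orb F δ P (i + 2) = F.eval (orb F δ P (i + 1)) - δ * orb F δ P i := by
  rw [orb_succ F δ P (i + 1), orb_succ F δ P i, Function.iterate_succ_apply']
  rfl

lemma orb_period {n : ℕ} (hP : (henon F δ)^[n] P = P) (i : ℕ) :
    orb F δ P (i + n) = orb F δ P i := by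
  unfold orb
  rw [Function.iterate_add_apply, hP]

lemma orb_mod {n : ℕ} (hP : (henon F δ)^[n] P = P) (i : ℕ) :
    orb F δ P i = orb F δ P (i % n) := by
  conv_lhs => rw [← Nat.mod_add_div i n]
  induction i / n with
  | zero => simp
  | succ k ih => rw [Nat.mul_succ, ← add_assoc, orb_period F δ P hP, ih]

/-- the largest value of an orbit -/
lemma orb_max {Γ : Type*} [LinearOrder Γ] (w : L → Γ) {n : ℕ} (hn : 0 < n)
    (hP : (henon F δ)^[n] P = P) :
    ∃ k, ∀ i, w (orb F δ P i) ≤ w (orb F δ P (k + 1)) := by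
  obtain ⟨j, hj, hmax⟩ := exists_max_image (range n) (fun i => w (orb F δ P i))
    ⟨0, mem_range.2 hn⟩
  refine ⟨j + n - 1, fun i => ?_⟩
  have h1 : j + n - 1 + 1 = j + n := by omega
  rw [h1, orb_period F δ P hP, orb_mod F δ P hP i]
  exact hmax _ (mem_range.2 (Nat.mod_lt _ hn))

end orbit

theorem henon_local {L : Type} {Γ : Type*} [Field L] [LinearOrderedCommGroupWithZero Γ]
    (w : Valuation L Γ) {F : L[X]} {d : ℕ} (hd : 2 ≤ d) (hF : F.natDegree = d)
    (h0 : 1 < w (F.coeff 0)) (hi : ∀ i, i ≠ 0 → w (F.coeff i) ≤ 1)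
    (hlead : w (F.coeff d) = 1) {δ : L} (hδ : w δ ≤ 1) {P : L × L} {n : ℕ} (hn : 0 < n)
    (hP : (henon F δ)^[n] P = P) : ∃ x : L, w x ^ d = w (F.coeff 0) := by
  obtain ⟨k, hk⟩ := orb_max F δ P w hn hP
  set x := orb F δ P (k + 1) with hx
  refine ⟨x, ?_⟩
  have hrec := orb_rec F δ P k
  rw [← hx, eval_eq_sum_range, hF, sum_range_succ, range_eq_Ico,
    sum_eq_sum_Ico_succ_bot (by omega : 0 < d), pow_zero, mul_one] at hrec
  have hδk : w (δ * orb F δ P k) ≤ w x := by
    rw [map_mul]
    exact (mul_le_mul' hδ (hk k)).trans (by rw [one_mul])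
  rcases le_or_gt (w x) 1 with hM | hM
  · exfalso
    have h1 : F.coeff 0 = orb F δ P (k + 2) + δ * orb F δ P k -
        ∑ i ∈ Ico 1 d, F.coeff i * x ^ i - F.coeff d * x ^ d := by
      rw [hrec]
      ring
    have h2 : w (F.coeff 0) ≤ 1 := by
      rw [h1]
      refine w.map_sub_le (w.map_sub_le (w.map_add_le ((hk _).trans hM) (hδk.trans hM)) ?_) ?_
      · refine w.map_sum_le fun i hi' => ?_
        rw [map_mul, map_pow]
        exact mul_le_one' (hi i (by have := mem_Ico.1 hi'; omega)) (pow_le_one' hM i)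
      · rw [map_mul, map_pow]
        exact mul_le_one' hlead.le (pow_le_one' hM d)
    exact absurd h2 (not_le.2 h0)
  · have hlt : ∀ i, i < d → w x ^ i < w x ^ d := fun i hi' => pow_lt_pow_right₀ hM hi'
    have hx1 : w x < w x ^ d := by simpa using hlt 1 (by omega)
    have hne : w x ^ d ≠ 0 := (lt_of_le_of_lt zero_le hx1).ne'
    have h1 : F.coeff 0 = (orb F δ P (k + 2) + δ * orb F δ P k -
        ∑ i ∈ Ico 1 d, F.coeff i * x ^ i) - F.coeff d * x ^ d := by
      rw [hrec]
      ring
    have h2 : w (orb F δ P (k + 2) + δ * orb F δ P k -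
        ∑ i ∈ Ico 1 d, F.coeff i * x ^ i) < w (F.coeff d * x ^ d) := by
      rw [map_mul, map_pow, hlead, one_mul]
      refine w.map_sub_lt (w.map_add_lt ((hk _).trans_lt hx1) (hδk.trans_lt hx1)) ?_
      refine w.map_sum_lt hne fun i hi' => ?_
      rw [mem_Ico] at hi'
      rw [map_mul, map_pow]
      exact (mul_le_mul' (hi i (by omega)) le_rfl).trans_lt (by rw [one_mul]; exact hlt i hi'.2)
    rw [h1, w.map_sub_eq_of_lt_right h2, map_mul, map_pow, hlead, one_mul]

/-- A `d`-th root of the value of a simple pole forces ramification. -/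
theorem dvd_ramification {K L : Type} [Field K] [NumberField K] [Field L] [NumberField L]
    [Algebra K L] (v : HeightOneSpectrum (𝓞 K)) (w : HeightOneSpectrum (𝓞 L))
    [w.asIdeal.LiesOver v.asIdeal] {α : K} (hα : v.valuation K α = WithZero.exp 1) {d : ℕ}
    {x : L} (hx : w.valuation L x ^ d = w.valuation L (algebraMap K L α)) :
    d ∣ v.asIdeal.ramificationIdx' w.asIdeal := by
  rw [← HeightOneSpectrum.valuation_liesOver L v w α, hα, ← WithZero.exp_nsmul] at hx
  have hd0 : w.valuation L x ≠ 0 ∨ d = 0 := by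
    by_contra hcon
    push Not at hcon
    rw [hcon.1, zero_pow hcon.2] at hx
    exact WithZero.exp_ne_zero hx.symm
  rcases hd0 with hx0 | rfl
  · obtain ⟨k, hk⟩ : ∃ k : ℤ, w.valuation L x = WithZero.exp k :=
      ⟨WithZero.log (w.valuation L x), (WithZero.exp_log hx0).symm⟩
    rw [hk, ← WithZero.exp_nsmul, WithZero.exp_inj] at hx
    rw [← Int.natCast_dvd_natCast]
    refine ⟨k, ?_⟩
    simpa using hx.symm
  · rw [pow_zero, ← WithZero.exp_zero, WithZero.exp_inj] at hx
    rw [zero_dvd_iff]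
    simpa using hx.symm

/-- If all ramification indices over `v` are divisible by `d` then the degree is. -/
theorem dvd_finrank {K L : Type} [Field K] [NumberField K] [Field L] [NumberField L]
    [Algebra K L] (v : HeightOneSpectrum (𝓞 K)) {d : ℕ}
    (h : ∀ w : HeightOneSpectrum (𝓞 L), w.asIdeal.LiesOver v.asIdeal →
      d ∣ v.asIdeal.ramificationIdx' w.asIdeal) : d ∣ Module.finrank K L := by
  have hmax : v.asIdeal.IsMaximal := v.isMaximal
  rw [← Ideal.sum_ramification_inertia (R := 𝓞 K) (S := 𝓞 L) K L v.ne_bot]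
  refine dvd_sum fun Q hQ => ?_
  rw [IsDedekindDomain.mem_primesOverFinset_iff v.ne_bot] at hQ
  have hp : Q.IsPrime := hQ.1
  have hl : Q.LiesOver v.asIdeal := hQ.2
  exact Dvd.dvd.mul_right (h ⟨Q, hp, Ideal.ne_bot_of_liesOver_of_ne_bot v.ne_bot Q⟩ hl) _

end Pool.Agent.H912.DY
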