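import Pool.Agent.H912.DY.S2
import Pool.Graph.R_seed8.H692R2.USS.T5

/-!
# A sieve over the prime ideals of degree one (helper912)
-/

set_option autoImplicit false
set_option linter.unusedSectionVars false

open Finset Filter Topology IsDedekindDomain
open scoped NumberField

namespace Pool.Agent.H912.DY

variable {K : Type} [Field K] [NumberField K] {J ι : Type} [Fintype J] [Fintype ι]

lemma finite_quot {I : Ideal (𝓞 K)} {M : ℕ} (hM : 0 < M) (hMI : (M : 𝓞 K) ∈ I) :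
    Finite (𝓞 K ⧸ I) := by
  refine Ideal.finiteQuotientOfFreeOfNeBot I ?_
  rintro rfl
  rw [Ideal.mem_bot] at hMI
  have : (M : 𝓞 K) ≠ 0 := by exact_mod_cast hM.ne'
  exact this hMI

lemma absNorm_pow_mem (v : HeightOneSpectrum (𝓞 K)) {p : ℕ} (hp : Ideal.absNorm v.asIdeal = p)
    (k : ℕ) : ((p ^ k : ℕ) : 𝓞 K) ∈ v.asIdeal ^ k := by
  rw [Nat.cast_pow]
  refine Ideal.pow_mem_pow ?_ k
  rw [← hp]
  exact Ideal.absNorm_mem _

/-- finitely many primes -/
theorem sieve_fin (ω : Module.Basis J ℤ (𝓞 K))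
    (E : ∀ v : HeightOneSpectrum (𝓞 K), Set (ι → 𝓞 K ⧸ v.asIdeal ^ 2)) {c : ℝ}
    (Q : Finset ℕ) (hQ : ∀ p ∈ Q, p.Prime) (v : Q → HeightOneSpectrum (𝓞 K))
    (hv : ∀ i : Q, Ideal.absNorm (v i).asIdeal = (i : ℕ))
    (hE : ∀ i : Q, c / (i : ℕ) * Nat.card (ι → 𝓞 K ⧸ (v i).asIdeal ^ 2) ≤ (E (v i)).ncard) :
    ∃ X₀ : ℕ, ∀ X : ℕ, X₀ ≤ X →
      ({a | a ∈ box ω ι X ∧ ∀ i : Q, (fun k => Ideal.Quotient.mk _ (a k)) ∉ E (v i)}.ncard : ℝ) ≤
        (∏ i : Q, (1 - c / (i : ℕ))) * (2 ^ Fintype.card (ι × J) * (box ω ι X).ncard) := by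
  classical
  have hinj : Pairwise fun i j : Q => v i ≠ v j := by
    intro i j hij h
    apply hij
    apply Subtype.ext
    rw [← hv i, ← hv j, h]
  set I : Ideal (𝓞 K) := ∏ i : Q, (v i).asIdeal ^ 2 with hI
  set M : ℕ := ∏ i : Q, (i : ℕ) ^ 2 with hMdef
  have hM : 0 < M := prod_pos fun i _ => pow_pos (hQ i i.2).pos 2
  have hMI : (M : 𝓞 K) ∈ I := by
    rw [hMdef, Nat.cast_prod, hI]
    exact Ideal.prod_mem_prod fun i _ => absNorm_pow_mem (v i) (hv i) 2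
  have hfinI : Finite (𝓞 K ⧸ I) := finite_quot hM hMI
  have hfin : ∀ i : Q, Finite (𝓞 K ⧸ (v i).asIdeal ^ 2) := fun i =>
    finite_quot (M := (i : ℕ) ^ 2) (pow_pos (hQ i i.2).pos 2) (absNorm_pow_mem (v i) (hv i) 2)
  let φ : 𝓞 K ⧸ I ≃+* ∀ i : Q, 𝓞 K ⧸ (v i).asIdeal ^ 2 :=
    HeightOneSpectrum.quotientEquivPiOfProdEq I v (fun _ => 2) hinj rfl
  have hφ : ∀ (x : 𝓞 K) (i : Q), φ (Ideal.Quotient.mk I x) i = Ideal.Quotient.mk _ x :=
    fun x i => rfl
  let S : Set (ι → 𝓞 K ⧸ I) := {g | ∀ i : Q, (fun k => φ (g k) i) ∉ E (v i)}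
  have : ∀ i : Q, Fintype (𝓞 K ⧸ (v i).asIdeal ^ 2) := fun i => Fintype.ofFinite _
  have : Fintype (𝓞 K ⧸ I) := Fintype.ofFinite _
  -- the number of elements of `S`
  have hS : (S.ncard : ℝ) ≤ (∏ i : Q, (1 - c / (i : ℕ))) * Nat.card (ι → 𝓞 K ⧸ I) := by
    have h1 : S.ncard ≤ (Fintype.piFinset fun i : Q =>
        (univ : Finset (ι → 𝓞 K ⧸ (v i).asIdeal ^ 2)).filter (fun g => g ∉ E (v i))).card := by
      rw [← Set.ncard_coe_finset]
      refine Set.ncard_le_ncard_of_injOn (fun g i k => φ (g k) i) ?_ ?_ (Finset.finite_toSet _)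
      · intro g hg
        rw [mem_coe, Fintype.mem_piFinset]
        intro i
        rw [mem_filter]
        exact ⟨mem_univ _, hg i⟩
      · intro g _ g' _ h
        funext k
        apply φ.injective
        funext i
        exact congrFun (congrFun h i) k
    rw [Fintype.card_piFinset] at h1
    have h2 : ∀ i : Q, (((univ : Finset (ι → 𝓞 K ⧸ (v i).asIdeal ^ 2)).filter
        (fun g => g ∉ E (v i))).card : ℝ) ≤
        (1 - c / (i : ℕ)) * Nat.card (ι → 𝓞 K ⧸ (v i).asIdeal ^ 2) := by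
      intro i
      have h3 := card_filter_add_card_filter_not
        (s := (univ : Finset (ι → 𝓞 K ⧸ (v i).asIdeal ^ 2))) (fun g => g ∈ E (v i))
      have h4 : (E (v i)).ncard = ((univ : Finset (ι → 𝓞 K ⧸ (v i).asIdeal ^ 2)).filter
          (fun g => g ∈ E (v i))).card := by
        rw [← Set.ncard_coe_finset]
        congr 1
        ext g
        simp
      have h5 := hE i
      rw [h4] at h5
      rw [card_univ, ← Nat.card_eq_fintype_card] at h3
      have h6 : (((univ : Finset (ι → 𝓞 K ⧸ (v i).asIdeal ^ 2)).filter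
          (fun g => g ∈ E (v i))).card : ℝ) +
          ((univ : Finset (ι → 𝓞 K ⧸ (v i).asIdeal ^ 2)).filter
          (fun g => g ∉ E (v i))).card = Nat.card (ι → 𝓞 K ⧸ (v i).asIdeal ^ 2) := by
        exact_mod_cast h3
      linarith
    have h3 : (Nat.card (ι → 𝓞 K ⧸ I) : ℝ) =
        ∏ i : Q, (Nat.card (ι → 𝓞 K ⧸ (v i).asIdeal ^ 2) : ℝ) := by
      have h4 : Nat.card (ι → 𝓞 K ⧸ I) = ∏ i : Q, Nat.card (ι → 𝓞 K ⧸ (v i).asIdeal ^ 2) := by
        rw [← Nat.card_pi]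
        refine Nat.card_congr ?_
        exact (Equiv.arrowCongr (Equiv.refl ι) φ.toEquiv).trans
          { toFun := fun g i k => g k i
            invFun := fun g k i => g i k
            left_inv := fun _ => rfl
            right_inv := fun _ => rfl }
      rw [h4]
      push_cast
      rfl
    calc (S.ncard : ℝ) ≤ ((∏ i : Q, ((univ : Finset (ι → 𝓞 K ⧸ (v i).asIdeal ^ 2)).filter
          (fun g => g ∉ E (v i))).card : ℕ) : ℝ) := by exact_mod_cast h1
      _ = ∏ i : Q, (((univ : Finset (ι → 𝓞 K ⧸ (v i).asIdeal ^ 2)).filter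
          (fun g => g ∉ E (v i))).card : ℝ) := by push_cast; rfl
      _ ≤ ∏ i : Q, ((1 - c / (i : ℕ)) * Nat.card (ι → 𝓞 K ⧸ (v i).asIdeal ^ 2)) :=
          prod_le_prod (fun _ _ => by positivity) fun i _ => h2 i
      _ = _ := by rw [prod_mul_distrib, h3]
  refine ⟨M, fun X hX => ?_⟩
  have h1 := count_box (ι := ι) ω I hM hMI S X (by omega)
  have h2 : {a | a ∈ box ω ι X ∧ (fun i => Ideal.Quotient.mk I (a i)) ∈ S} =
      {a | a ∈ box ω ι X ∧ ∀ i : Q, (fun k => Ideal.Quotient.mk _ (a k)) ∉ E (v i)} := by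
    ext a
    rfl
  rw [h2] at h1
  have h3 : (0 : ℝ) < Nat.card (ι → 𝓞 K ⧸ I) := by
    have : 0 < Nat.card (ι → 𝓞 K ⧸ I) := Nat.card_pos
    exact_mod_cast this
  have h4 : ({a | a ∈ box ω ι X ∧ ∀ i : Q, (fun k => Ideal.Quotient.mk _ (a k)) ∉
      E (v i)}.ncard : ℝ) * Nat.card (ι → 𝓞 K ⧸ I) ≤
      S.ncard * (2 ^ Fintype.card (ι × J) * (box ω ι X).ncard) := by exact_mod_cast h1
  have h5 : (S.ncard : ℝ) * (2 ^ Fintype.card (ι × J) * (box ω ι X).ncard) ≤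
      ((∏ i : Q, (1 - c / (i : ℕ))) * Nat.card (ι → 𝓞 K ⧸ I)) *
        (2 ^ Fintype.card (ι × J) * (box ω ι X).ncard) :=
    mul_le_mul_of_nonneg_right hS (by positivity)
  have h6 := h4.trans h5
  have h7 : ((∏ i : Q, (1 - c / (i : ℕ))) * Nat.card (ι → 𝓞 K ⧸ I)) *
        (2 ^ Fintype.card (ι × J) * (box ω ι X).ncard) =
      ((∏ i : Q, (1 - c / (i : ℕ))) *
        (2 ^ Fintype.card (ι × J) * (box ω ι X).ncard)) * Nat.card (ι → 𝓞 K ⧸ I) := by ring
  rw [h7] at h6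
  exact le_of_mul_le_mul_right h6 h3

/-- **The sieve.** -/
theorem sieve (ω : Module.Basis J ℤ (𝓞 K))
    (E : ∀ v : HeightOneSpectrum (𝓞 K), Set (ι → 𝓞 K ⧸ v.asIdeal ^ 2)) {c : ℝ} (hc : 0 < c)
    (p₀ : ℕ) (hE : ∀ (v : HeightOneSpectrum (𝓞 K)) (p : ℕ), p.Prime → p₀ ≤ p →
      Ideal.absNorm v.asIdeal = p →
        c / p * Nat.card (ι → 𝓞 K ⧸ v.asIdeal ^ 2) ≤ (E v).ncard)
    {ε : ℝ} (hε : 0 < ε) : ∃ X₀ : ℕ, ∀ X : ℕ, X₀ ≤ X →
      ({a | a ∈ box ω ι X ∧ ∀ (v : HeightOneSpectrum (𝓞 K)) (p : ℕ), p.Prime → p₀ ≤ p →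
        Ideal.absNorm v.asIdeal = p → (fun k => Ideal.Quotient.mk _ (a k)) ∉ E v}.ncard : ℝ) ≤
        ε * (box ω ι X).ncard := by
  classical
  obtain ⟨c', C', hc', hmass⟩ := Pool.Agent.H692R2.USS.massK Pool.Agent.H692R2.USS.bt K
  set Z : ℝ := ∑ p ∈ range p₀, (1 : ℝ) / p with hZ
  have hlim : Tendsto (fun L : ℕ => c' * Real.log L - C' - Z) atTop atTop := by
    have h1 : Tendsto (fun L : ℕ => c' * Real.log L) atTop atTop :=
      (Real.tendsto_log_atTop.comp tendsto_natCast_atTop_atTop).const_mul_atTop hc'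
    have h2 : (fun L : ℕ => c' * Real.log L - C' - Z) =
        fun L : ℕ => c' * Real.log L + (-C' - Z) := by
      funext L
      ring
    rw [h2]
    exact tendsto_atTop_add_const_right _ _ h1
  set T : ℝ := Real.log (2 ^ Fintype.card (ι × J) / ε) / c with hT
  obtain ⟨L, hL1, hL2⟩ := ((eventually_ge_atTop 1).and (hlim.eventually_ge_atTop T)).exists
  set Q : Finset ℕ := (range (2 ^ L)).filter
    (fun p => (p.Prime ∧ Pool.Agent.H692R2.USS.HasDegOne K p) ∧ p₀ ≤ p) with hQ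
  have hsum : T ≤ ∑ p ∈ Q, (1 : ℝ) / p := by
    have h1 := hmass L hL1
    have h2 : ∑ p ∈ (range (2 ^ L)).filter
        (fun p => p.Prime ∧ Pool.Agent.H692R2.USS.HasDegOne K p), (1 : ℝ) / p ≤
        ∑ p ∈ Q, (1 : ℝ) / p + Z := by
      rw [hZ, ← sum_filter_add_sum_filter_not ((range (2 ^ L)).filter
        (fun p => p.Prime ∧ Pool.Agent.H692R2.USS.HasDegOne K p)) (fun p => p₀ ≤ p),
        filter_filter]
      refine add_le_add le_rfl ?_
      refine sum_le_sum_of_subset_of_nonneg ?_ fun _ _ _ => by positivity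
      intro p hp
      rw [mem_filter] at hp
      rw [mem_range]
      exact not_le.1 hp.2
    linarith
  have hQp : ∀ p ∈ Q, p.Prime := fun p hp => (mem_filter.1 hp).2.1.1
  have hQv : ∀ i : Q, ∃ v : HeightOneSpectrum (𝓞 K), Ideal.absNorm v.asIdeal = (i : ℕ) :=
    fun i => (mem_filter.1 i.2).2.1.2
  choose v hv using hQv
  have hQ0 : ∀ i : Q, p₀ ≤ (i : ℕ) := fun i => (mem_filter.1 i.2).2.2
  obtain ⟨X₀, hX₀⟩ := sieve_fin ω E (c := c) Q hQp v hv
    (fun i => hE (v i) i (hQp i i.2) (hQ0 i) (hv i))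
  refine ⟨X₀, fun X hX => ?_⟩
  have h1 := hX₀ X hX
  have h2 : ({a | a ∈ box ω ι X ∧ ∀ (v : HeightOneSpectrum (𝓞 K)) (p : ℕ), p.Prime → p₀ ≤ p →
        Ideal.absNorm v.asIdeal = p → (fun k => Ideal.Quotient.mk _ (a k)) ∉ E v}.ncard : ℝ) ≤
      ({a | a ∈ box ω ι X ∧ ∀ i : Q, (fun k => Ideal.Quotient.mk _ (a k)) ∉
        E (v i)}.ncard : ℝ) := by
    have h3 : {a | a ∈ box ω ι X ∧ ∀ (v : HeightOneSpectrum (𝓞 K)) (p : ℕ), p.Prime → p₀ ≤ p →
        Ideal.absNorm v.asIdeal = p → (fun k => Ideal.Quotient.mk _ (a k)) ∉ E v} ⊆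
      {a | a ∈ box ω ι X ∧ ∀ i : Q, (fun k => Ideal.Quotient.mk _ (a k)) ∉ E (v i)} := by
      rintro a ⟨ha, ha'⟩
      exact ⟨ha, fun i => ha' (v i) i (hQp i i.2) (hQ0 i) (hv i)⟩
    exact_mod_cast Set.ncard_le_ncard h3 ((finite_box ω X).subset fun a ha => ha.1)
  refine h2.trans (h1.trans ?_)
  have h3 : (∏ i : Q, (1 - c / ((i : ℕ) : ℝ))) * 2 ^ Fintype.card (ι × J) ≤ ε := by
    have h4 : ∏ i : Q, (1 - c / ((i : ℕ) : ℝ)) ≤ Real.exp (-(c * T)) := by
      have h5 : ∏ i : Q, (1 - c / ((i : ℕ) : ℝ)) ≤ ∏ i : Q, Real.exp (-(c / ((i : ℕ) : ℝ))) := by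
        refine prod_le_prod (fun i _ => ?_) fun i _ => ?_
        · have h6 := hE (v i) i (hQp i i.2) (hQ0 i) (hv i)
          have hfin : Finite (𝓞 K ⧸ (v i).asIdeal ^ 2) :=
            finite_quot (M := (i : ℕ) ^ 2) (pow_pos (hQp i i.2).pos 2)
              (absNorm_pow_mem (v i) (hv i) 2)
          have h7 : ((E (v i)).ncard : ℝ) ≤ Nat.card (ι → 𝓞 K ⧸ (v i).asIdeal ^ 2) := by
            rw [← Set.ncard_univ]
            exact_mod_cast Set.ncard_le_ncard (Set.subset_univ _) (Set.toFinite _)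
          have h8 : (0 : ℝ) < Nat.card (ι → 𝓞 K ⧸ (v i).asIdeal ^ 2) := by
            have : 0 < Nat.card (ι → 𝓞 K ⧸ (v i).asIdeal ^ 2) := Nat.card_pos
            exact_mod_cast this
          have h9 : c / ((i : ℕ) : ℝ) * Nat.card (ι → 𝓞 K ⧸ (v i).asIdeal ^ 2) ≤
              1 * Nat.card (ι → 𝓞 K ⧸ (v i).asIdeal ^ 2) := by
            rw [one_mul]
            exact h6.trans h7
          have := le_of_mul_le_mul_right h9 h8
          linarith
        · have := Real.add_one_le_exp (-(c / ((i : ℕ) : ℝ)))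
          linarith
      refine h5.trans ?_
      rw [← Real.exp_sum]
      apply Real.exp_le_exp.2
      rw [sum_neg_distrib, neg_le_neg_iff]
      have h6 : ∑ i : Q, c / ((i : ℕ) : ℝ) = c * ∑ p ∈ Q, (1 : ℝ) / p := by
        rw [← sum_coe_sort Q (fun p => (1 : ℝ) / p), mul_sum]
        refine sum_congr rfl fun i _ => ?_
        rw [mul_one_div]
      rw [h6]
      exact mul_le_mul_of_nonneg_left hsum hc.le
    have h5 : Real.exp (-(c * T)) * 2 ^ Fintype.card (ι × J) = ε := by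
      have h6 : (0 : ℝ) < 2 ^ Fintype.card (ι × J) / ε := by positivity
      have h7 : c * T = Real.log (2 ^ Fintype.card (ι × J) / ε) := by
        rw [hT]
        field_simp
      rw [h7, Real.exp_neg, Real.exp_log h6]
      field_simp
    calc _ ≤ Real.exp (-(c * T)) * 2 ^ Fintype.card (ι × J) :=
          mul_le_mul_of_nonneg_right h4 (by positivity)
      _ = ε := h5
  rw [← mul_assoc]
  exact mul_le_mul_of_nonneg_right h3 (by positivity)

end Pool.Agent.H912.DY
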