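import Pool.Agent.H912.DY.H1
import Pool.Agent.H912.DY.S3

/-!
# Periodic points of Hénon maps: divisibility of the degree (helper912)
-/

set_option autoImplicit false

open Finset Polynomial IsDedekindDomain
open scoped NumberField

namespace Pool.Agent.H912.DY

/-- the divisibility of the ramification indices for one map and one prime -/
theorem henon_ram {K L : Type} [Field K] [NumberField K] [Field L] [NumberField L]
    [Algebra K L] (v : HeightOneSpectrum (𝓞 K)) {F : K[X]} {d : ℕ} (hd : 2 ≤ d)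
    (hF : F.natDegree = d) (h0 : v.valuation K (F.coeff 0) = WithZero.exp 1)
    (hi : ∀ i, i ≠ 0 → v.valuation K (F.coeff i) ≤ 1)
    (hlead : v.valuation K (F.coeff d) = 1) {δ : K} (hδ : v.valuation K δ ≤ 1) {P : L × L} {n : ℕ}
    (hn : 0 < n) (hP : (henon (F.map (algebraMap K L)) (algebraMap K L δ))^[n] P = P)
    (w : HeightOneSpectrum (𝓞 L)) (hw : w.asIdeal.LiesOver v.asIdeal) :
    d ∣ v.asIdeal.ramificationIdx' w.asIdeal := by
  have he : v.asIdeal.ramificationIdx' w.asIdeal ≠ 0 :=
    Ideal.IsDedekindDomain.ramificationIdx'_ne_zero_of_liesOver w.asIdeal v.ne_bot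
  have hval : ∀ x : K, w.valuation L (algebraMap K L x) =
      v.valuation K x ^ v.asIdeal.ramificationIdx' w.asIdeal := fun x =>
    (HeightOneSpectrum.valuation_liesOver L v w x).symm
  obtain ⟨x, hx⟩ := henon_local (w.valuation L) (F := F.map (algebraMap K L)) hd
    (by rw [natDegree_map, hF])
    (by
      rw [coeff_map, hval, h0]
      exact one_lt_pow₀ (by rw [← WithZero.exp_zero, WithZero.exp_lt_exp]; norm_num) he)
    (fun i hi' => by
      rw [coeff_map, hval]
      exact pow_le_one' (hi i hi') _)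
    (by rw [coeff_map, hval, hlead, one_pow])
    (δ := algebraMap K L δ) (by
      rw [hval]
      exact pow_le_one' hδ _) hn hP
  rw [coeff_map] at hx
  exact dvd_ramification v w h0 hx

/-- the divisibility for one map and one prime -/
theorem henon_dvd {K L : Type} [Field K] [NumberField K] [Field L] [NumberField L]
    [Algebra K L] (v : HeightOneSpectrum (𝓞 K)) {F : K[X]} {d : ℕ} (hd : 2 ≤ d)
    (hF : F.natDegree = d) (h0 : v.valuation K (F.coeff 0) = WithZero.exp 1)
    (hi : ∀ i, i ≠ 0 → v.valuation K (F.coeff i) ≤ 1)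
    (hlead : v.valuation K (F.coeff d) = 1) {δ : K} (hδ : v.valuation K δ ≤ 1) {P : L × L} {n : ℕ}
    (hn : 0 < n) (hP : (henon (F.map (algebraMap K L)) (algebraMap K L δ))^[n] P = P) :
    d ∣ Module.finrank K L :=
  dvd_finrank v fun w hw => henon_ram v hd hF h0 hi hlead hδ hn hP w hw

lemma henon_comm {L M : Type} [Field L] [Field M] (φ : L →+* M) (F : L[X]) (δ : L) (P : L × L) :
    Prod.map φ φ (henon F δ P) = henon (F.map φ) (φ δ) (Prod.map φ φ P) := by
  simp [henon, eval_map_apply]

lemma henon_iterate {L M : Type} [Field L] [Field M] (φ : L →+* M) (F : L[X]) (δ : L) (n : ℕ)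
    (P : L × L) :
    Prod.map φ φ ((henon F δ)^[n] P) = (henon (F.map φ) (φ δ))^[n] (Prod.map φ φ P) := by
  have h : Function.Semiconj (Prod.map φ φ) (henon F δ) (henon (F.map φ) (φ δ)) :=
    henon_comm φ F δ
  exact h.iterate_right n P

/-- the same for periodic points in the algebraic closure -/
theorem henon_dvd' {K : Type} [Field K] [NumberField K]
    (v : HeightOneSpectrum (𝓞 K)) {F : K[X]} {d : ℕ} (hd : 2 ≤ d)
    (hF : F.natDegree = d) (h0 : v.valuation K (F.coeff 0) = WithZero.exp 1)
    (hi : ∀ i, i ≠ 0 → v.valuation K (F.coeff i) ≤ 1)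
    (hlead : v.valuation K (F.coeff d) = 1) {δ : K} (hδ : v.valuation K δ ≤ 1)
    {P : AlgebraicClosure K × AlgebraicClosure K} {n : ℕ} (hn : 0 < n)
    (hP : (henon (F.map (algebraMap K (AlgebraicClosure K)))
      (algebraMap K (AlgebraicClosure K) δ))^[n] P = P) :
    d ∣ Module.finrank K (IntermediateField.adjoin K {P.1, P.2}) := by
  set L := IntermediateField.adjoin K {P.1, P.2} with hL
  have hfd : FiniteDimensional K L := by
    refine IntermediateField.finiteDimensional_adjoin fun y _ => ?_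
    exact Algebra.IsIntegral.isIntegral y
  have hfdQ : FiniteDimensional ℚ L := Module.Finite.trans K L
  have hnf : NumberField L := ⟨⟩
  have h1 : P.1 ∈ L := IntermediateField.subset_adjoin K _ (by simp)
  have h2 : P.2 ∈ L := IntermediateField.subset_adjoin K _ (by simp)
  let Q : L × L := (⟨P.1, h1⟩, ⟨P.2, h2⟩)
  let φ : L →+* AlgebraicClosure K := (algebraMap L (AlgebraicClosure K))
  have hQ : Prod.map φ φ Q = P := rfl
  refine henon_dvd (L := L) v hd hF h0 hi hlead hδ (P := Q) hn ?_
  have hinj : Function.Injective (Prod.map φ φ) := φ.injective.prodMap φ.injective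
  apply hinj
  rw [henon_iterate, hQ]
  have h3 : (F.map (algebraMap K L)).map φ = F.map (algebraMap K (AlgebraicClosure K)) := by
    rw [Polynomial.map_map]
    rfl
  rw [h3]
  exact hP

/-- elements of `v` outside `v ^ 2` -/
lemma val_simple {K : Type} [Field K] [NumberField K] (v : HeightOneSpectrum (𝓞 K)) {b : 𝓞 K}
    (h1 : b ∈ v.asIdeal) (h2 : b ∉ v.asIdeal ^ 2) :
    v.valuation K (algebraMap (𝓞 K) K b) = WithZero.exp (-1 : ℤ) := by
  rw [HeightOneSpectrum.valuation_of_algebraMap]
  have h3 : v.intValuation b ≤ WithZero.exp (-((1 : ℕ) : ℤ)) := by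
    rw [HeightOneSpectrum.intValuation_le_pow_iff_mem, pow_one]
    exact h1
  have h4 : ¬ v.intValuation b ≤ WithZero.exp (-((2 : ℕ) : ℤ)) := by
    rw [HeightOneSpectrum.intValuation_le_pow_iff_mem]
    exact h2
  have h5 : v.intValuation b ≠ 0 := by
    intro h
    apply h4
    rw [h]
    exact zero_le
  obtain ⟨k, hk⟩ : ∃ k : ℤ, v.intValuation b = WithZero.exp k :=
    ⟨WithZero.log (v.intValuation b), (WithZero.exp_log h5).symm⟩
  rw [hk, WithZero.exp_le_exp] at h3 h4
  rw [hk, WithZero.exp_inj]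
  push_cast at h3 h4
  omega

lemma val_unit {K : Type} [Field K] [NumberField K] (v : HeightOneSpectrum (𝓞 K)) {b : 𝓞 K}
    (h1 : b ∉ v.asIdeal) : v.valuation K (algebraMap (𝓞 K) K b) = 1 := by
  rw [HeightOneSpectrum.valuation_of_algebraMap]
  exact HeightOneSpectrum.intValuation_eq_one_iff.2 h1

/-- Exactly one coordinate is in `v`, and it is not in `v ^ 2`. -/
def SimplePole {K : Type} [Field K] [NumberField K] {ι : Type} (k₀ : ι) (a : ι → 𝓞 K)
    (v : HeightOneSpectrum (𝓞 K)) : Prop :=
  a k₀ ∈ v.asIdeal ∧ a k₀ ∉ v.asIdeal ^ 2 ∧ ∀ k, k ≠ k₀ → a k ∉ v.asIdeal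

end Pool.Agent.H912.DY
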