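import Pool.Agent.H912.DY.P5

/-!
# Periodic points of Hénon maps at a simple pole of a middle coefficient (helper912)
-/

set_option autoImplicit false

open Finset Polynomial IsDedekindDomain
open scoped NumberField

namespace Pool.Agent.H912.DY

/-- one term has the same value as the sum of the others -/
lemma val_cancel {L : Type} {Γ : Type*} [Field L] [LinearOrderedCommGroupWithZero Γ]
    (w : Valuation L Γ) {a b c : L} (h : a + b = c) (hc : w c < w a) : w b = w a := by
  have h1 : b = c - a := by rw [← h]; ring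
  rw [h1, w.map_sub_eq_of_lt_right hc]

/-- at a pole of a middle coefficient there are two types of periodic points -/
theorem henon_local2 {L : Type} {Γ : Type*} [Field L] [LinearOrderedCommGroupWithZero Γ]
    (w : Valuation L Γ) {F : L[X]} {d j : ℕ} (hj : 1 ≤ j) (hjd : j < d) (hF : F.natDegree = d)
    (h0 : w (F.coeff 0) = 1) (hpole : 1 < w (F.coeff j)) (hi : ∀ i, i ≠ j → w (F.coeff i) ≤ 1)
    (hlead : w (F.coeff d) = 1) {δ : L} (hδ : w δ ≤ 1) {P : L × L} {n : ℕ} (hn : 0 < n)
    (hP : (henon F δ)^[n] P = P) :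
    (∃ x : L, w x ^ (d - j) = w (F.coeff j)) ∨ ∃ x : L, w x ^ j = w (F.coeff j) := by
  obtain ⟨k, hk⟩ := orb_max F δ P w hn hP
  set x := orb F δ P (k + 1) with hx
  have hrec := orb_rec F δ P k
  have hjm : j ∈ range d := mem_range.2 hjd
  rw [← hx, eval_eq_sum_range, hF, sum_range_succ, ← add_sum_erase _ _ hjm] at hrec
  have hδk : w (δ * orb F δ P k) ≤ w x := by
    rw [map_mul]
    exact (mul_le_mul' hδ (hk k)).trans (by rw [one_mul])
  rcases le_or_gt (w x) 1 with hM | hM
  · right
    have h0m : 0 ∈ (range d).erase j := mem_erase.2 ⟨by omega, mem_range.2 (by omega)⟩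
    rw [← add_sum_erase _ _ h0m, pow_zero, mul_one] at hrec
    -- the other terms
    have hother : ∀ r : Γ, w x ≤ r → ∀ i ∈ ((range d).erase j).erase 0,
        w (F.coeff i * x ^ i) ≤ r := by
      intro r hr i hi'
      have hi0 : i ≠ 0 := ne_of_mem_erase hi'
      have hij : i ≠ j := ne_of_mem_erase (mem_of_mem_erase hi')
      rw [map_mul, map_pow]
      refine (mul_le_mul' (hi i hij) le_rfl).trans ?_
      rw [one_mul]
      exact (pow_le_of_le_one zero_le hM hi0).trans hr
    have hlast : w (F.coeff d * x ^ d) ≤ w x := by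
      rw [map_mul, hlead, one_mul, map_pow]
      exact pow_le_of_le_one zero_le hM (by omega)
    have hM1 : w x < 1 := by
      refine lt_of_le_of_ne hM fun hM1 => ?_
      have h1 : F.coeff j * x ^ j = orb F δ P (k + 2) + δ * orb F δ P k - (F.coeff 0 +
          ∑ i ∈ ((range d).erase j).erase 0, F.coeff i * x ^ i) - F.coeff d * x ^ d := by
        rw [hrec]
        ring
      have h2 : w (F.coeff j * x ^ j) ≤ 1 := by
        rw [h1]
        refine w.map_sub_le (w.map_sub_le (w.map_add_le ((hk _).trans hM) (hδk.trans hM)) ?_)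
          (hlast.trans hM)
        exact w.map_add_le h0.le (w.map_sum_le fun i hi' => hother 1 hM i hi')
      rw [map_mul, map_pow, hM1, one_pow, mul_one] at h2
      exact absurd h2 (not_le.2 hpole)
    have h1 : F.coeff 0 + F.coeff j * x ^ j = orb F δ P (k + 2) + δ * orb F δ P k -
        (∑ i ∈ ((range d).erase j).erase 0, F.coeff i * x ^ i) - F.coeff d * x ^ d := by
      rw [hrec]
      ring
    have h2 : w (orb F δ P (k + 2) + δ * orb F δ P k -
        (∑ i ∈ ((range d).erase j).erase 0, F.coeff i * x ^ i) - F.coeff d * x ^ d) <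
        w (F.coeff 0) := by
      rw [h0]
      refine lt_of_le_of_lt ?_ hM1
      exact w.map_sub_le (w.map_sub_le (w.map_add_le (hk _) hδk)
        (w.map_sum_le fun i hi' => hother _ le_rfl i hi')) hlast
    have h3 := val_cancel w h1 h2
    rw [h0, map_mul, map_pow] at h3
    refine ⟨x⁻¹, ?_⟩
    rw [map_inv₀, inv_pow]
    exact (eq_inv_of_mul_eq_one_left h3).symm
  · left
    refine ⟨x, ?_⟩
    have hlt : ∀ i, i < d → w x ^ i < w x ^ d := fun i hi' => pow_lt_pow_right₀ hM hi'
    have hx1 : w x < w x ^ d := by simpa using hlt 1 (by omega)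
    have hne : w x ^ d ≠ 0 := (lt_of_le_of_lt zero_le hx1).ne'
    have hx0 : w x ≠ 0 := by
      intro h
      rw [h] at hM
      exact not_lt.2 zero_le hM
    have h1 : F.coeff d * x ^ d + F.coeff j * x ^ j = orb F δ P (k + 2) + δ * orb F δ P k -
        ∑ i ∈ (range d).erase j, F.coeff i * x ^ i := by
      rw [hrec]
      ring
    have h2 : w (orb F δ P (k + 2) + δ * orb F δ P k -
        ∑ i ∈ (range d).erase j, F.coeff i * x ^ i) < w (F.coeff d * x ^ d) := by
      rw [map_mul, map_pow, hlead, one_mul]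
      refine w.map_sub_lt (w.map_add_lt ((hk _).trans_lt hx1) (hδk.trans_lt hx1)) ?_
      refine w.map_sum_lt hne fun i hi' => ?_
      rw [map_mul, map_pow]
      exact (mul_le_mul' (hi i (ne_of_mem_erase hi')) le_rfl).trans_lt
        (by rw [one_mul]; exact hlt i (mem_range.1 (mem_of_mem_erase hi')))
    have h3 := val_cancel w h1 h2
    rw [map_mul, map_mul, hlead, one_mul, map_pow, map_pow] at h3
    have h4 : w x ^ d = w x ^ (d - j) * w x ^ j := by
      rw [← pow_add]
      congr 1
      omega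
    rw [h4] at h3
    exact (mul_right_cancel₀ (pow_ne_zero j hx0) h3).symm

/-- a simple pole of a middle coefficient -/
theorem henon_exponent2 {K : Type} [Field K] [NumberField K] {f : ℕ}
    (v : HeightOneSpectrum (𝓞 K)) {p : ℕ} (hp : p.Prime)
    (hpv : v.valuation K (p : K) < 1) {F : K[X]} {d j : ℕ} (hpd : d < p) (hj : 1 ≤ j)
    (hjd : j < d) (hF : F.natDegree = d) (h0 : v.valuation K (F.coeff 0) = 1)
    (hpole : v.valuation K (F.coeff j) = WithZero.exp 1)
    (hi : ∀ i, i ≠ j → v.valuation K (F.coeff i) ≤ 1)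
    (hlead : v.valuation K (F.coeff d) = 1) {δ : K} (hδ : v.valuation K δ ≤ 1)
    {P : AlgebraicClosure K × AlgebraicClosure K} (hP : P ∈ perExp F δ f) :
    j ∣ f ∨ d - j ∣ f := by
  obtain ⟨⟨n, hn, hPn⟩, h1, h2⟩ := hP
  obtain ⟨N, hnf, hgal, hexp, Q, hQ, hQn⟩ := descend F δ hPn h1 h2
  have hvmax : v.asIdeal.IsMaximal := v.isMaximal
  obtain ⟨I, hIp, hIl⟩ := (inferInstance : Nonempty (v.asIdeal.primesOver (𝓞 N)))
  let w : HeightOneSpectrum (𝓞 N) := ⟨I, hIp, Ideal.ne_bot_of_liesOver_of_ne_bot v.ne_bot I⟩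
  have hw : w.asIdeal.LiesOver v.asIdeal := hIl
  have he0 : v.asIdeal.ramificationIdx' w.asIdeal ≠ 0 :=
    Ideal.IsDedekindDomain.ramificationIdx'_ne_zero_of_liesOver w.asIdeal v.ne_bot
  have hval : ∀ x : K, w.valuation N (algebraMap K N x) =
      v.valuation K x ^ v.asIdeal.ramificationIdx' w.asIdeal := fun x =>
    (HeightOneSpectrum.valuation_liesOver N v w x).symm
  have hloc := henon_local2 (w.valuation N) (F := F.map (algebraMap K N)) hj hjd
    (by rw [natDegree_map, hF])
    (by rw [coeff_map, hval, h0, one_pow])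
    (by
      rw [coeff_map, hval, hpole]
      exact one_lt_pow₀ (by rw [← WithZero.exp_zero, WithZero.exp_lt_exp]; norm_num) he0)
    (fun i hi' => by
      rw [coeff_map, hval]
      exact pow_le_one' (hi i hi') _)
    (by rw [coeff_map, hval, hlead, one_pow])
    (δ := algebraMap K N δ) (by
      rw [hval]
      exact pow_le_one' hδ _) hn hQn
  rw [coeff_map] at hloc
  rcases hloc with ⟨x, hx⟩ | ⟨x, hx⟩
  · right
    exact dvd_exponent hexp v w hw hp hpv
      (fun h => absurd (Nat.le_of_dvd (by omega) h) (by omega)) hpole hx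
  · left
    exact dvd_exponent hexp v w hw hp hpv
      (fun h => absurd (Nat.le_of_dvd (by omega) h) (by omega)) hpole hx

end Pool.Agent.H912.DY
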