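import Pool.Agent.H912.DY.H3

/-!
# Periodic points of Hénon maps at a simple pole of the linear coefficient (helper912)
-/

set_option autoImplicit false

open Finset Polynomial IsDedekindDomain
open scoped NumberField

namespace Pool.Agent.H912.DY

lemma seq_max {Γ : Type*} [LinearOrder Γ] (u : ℕ → Γ) {n : ℕ} (hn : 0 < n)
    (hu : ∀ i, u (i + n) = u i) : ∃ k, ∀ i, u i ≤ u (k + 1) := by
  have hmod : ∀ i, u i = u (i % n) := by
    intro i
    conv_lhs => rw [← Nat.mod_add_div i n]
    induction i / n with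
    | zero => simp
    | succ k ih => rw [Nat.mul_succ, ← add_assoc, hu, ih]
  obtain ⟨j, hj, hmax⟩ := exists_max_image (range n) u ⟨0, mem_range.2 hn⟩
  refine ⟨j + n - 1, fun i => ?_⟩
  have h1 : j + n - 1 + 1 = j + n := by omega
  rw [h1, hu, hmod i]
  exact hmax _ (mem_range.2 (Nat.mod_lt _ hn))

/-- integral polynomials do not increase distances -/
lemma val_eval_sub {L : Type} {Γ : Type*} [Field L] [LinearOrderedCommGroupWithZero Γ]
    (w : Valuation L Γ) {G : L[X]} (hG : ∀ i, w (G.coeff i) ≤ 1) {x y : L} (hx : w x ≤ 1)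
    (hy : w y ≤ 1) : w (G.eval x - G.eval y) ≤ w (x - y) := by
  have h1 : G.eval x - G.eval y = ∑ i ∈ range (G.natDegree + 1), G.coeff i * (x ^ i - y ^ i) := by
    rw [eval_eq_sum_range, eval_eq_sum_range, ← sum_sub_distrib]
    exact sum_congr rfl fun i _ => by ring
  rw [h1]
  refine w.map_sum_le fun i _ => ?_
  have h2 : x ^ i - y ^ i = (x - y) * ∑ k ∈ range i, x ^ k * y ^ (i - 1 - k) :=
    ((Commute.all x y).mul_geom_sum₂ i).symm
  rw [h2, map_mul, map_mul]
  have h3 : w (∑ k ∈ range i, x ^ k * y ^ (i - 1 - k)) ≤ 1 := by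
    refine w.map_sum_le fun k _ => ?_
    rw [map_mul, map_pow, map_pow]
    exact mul_le_one' (pow_le_one' hx _) (pow_le_one' hy _)
  calc w (G.coeff i) * (w (x - y) * w (∑ k ∈ range i, x ^ k * y ^ (i - 1 - k))) ≤
      1 * (w (x - y) * 1) := mul_le_mul' (hG i) (mul_le_mul' le_rfl h3)
    _ = w (x - y) := by rw [one_mul, mul_one]

/-- at a pole of the linear coefficient the fixed points are special -/
theorem henon_local1 {L : Type} {Γ : Type*} [Field L] [LinearOrderedCommGroupWithZero Γ]
    (w : Valuation L Γ) {F : L[X]} {d : ℕ} (hd : 2 ≤ d) (hF : F.natDegree = d)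
    (hpole : 1 < w (F.coeff 1)) (hi : ∀ i, i ≠ 1 → w (F.coeff i) ≤ 1)
    (hlead : w (F.coeff d) = 1) {δ : L} (hδ : w δ ≤ 1) {P : L × L} {n : ℕ} (hn : 0 < n)
    (hP : (henon F δ)^[n] P = P) :
    (∃ x : L, w x ^ (d - 1) = w (F.coeff 1)) ∨ henon F δ P = P := by
  obtain ⟨k, hk⟩ := orb_max F δ P w hn hP
  set x := orb F δ P (k + 1) with hx
  rcases le_or_gt (w x) 1 with hM | hM
  · right
    have hint : ∀ i, w (orb F δ P i) ≤ 1 := fun i => (hk i).trans hM
    -- the differences
    set u : ℕ → Γ := fun i => w (orb F δ P (i + 1) - orb F δ P i) with hu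
    have huper : ∀ i, u (i + n) = u i := by
      intro i
      simp only [hu]
      have h1 : i + n + 1 = i + 1 + n := by omega
      rw [h1, orb_period F δ P hP, orb_period F δ P hP]
    obtain ⟨m, hm⟩ := seq_max u hn huper
    set G : L[X] := F - C (F.coeff 1) * X with hG
    have hGi : ∀ i, w (G.coeff i) ≤ 1 := by
      intro i
      rw [hG, coeff_sub, coeff_C_mul, coeff_X]
      by_cases h : i = 1
      · subst h
        simp
      · rw [if_neg (Ne.symm h), mul_zero, sub_zero]
        exact hi i h
    have hev : ∀ y, F.eval y = F.coeff 1 * y + G.eval y := by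
      intro y
      rw [hG, eval_sub, eval_mul, eval_C, eval_X]
      ring
    have h1 : F.coeff 1 * (orb F δ P (m + 2) - orb F δ P (m + 1)) =
        (orb F δ P (m + 3) - orb F δ P (m + 2)) + δ * (orb F δ P (m + 1) - orb F δ P m) -
          (G.eval (orb F δ P (m + 2)) - G.eval (orb F δ P (m + 1))) := by
      have h2 := orb_rec F δ P (m + 1)
      have h3 := orb_rec F δ P m
      rw [hev] at h2 h3
      have h4 : m + 1 + 2 = m + 3 := rfl
      have h5 : m + 1 + 1 = m + 2 := rfl
      rw [h4, h5] at h2
      linear_combination h3 - h2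
    have h2 : w (F.coeff 1) * u (m + 1) ≤ u (m + 1) := by
      have h3 : w (F.coeff 1) * u (m + 1) =
          w (F.coeff 1 * (orb F δ P (m + 2) - orb F δ P (m + 1))) := by
        rw [map_mul]
      rw [h3, h1]
      refine w.map_sub_le (w.map_add_le (hm (m + 2)) ?_) ?_
      · rw [map_mul]
        exact (mul_le_mul' hδ (hm m)).trans (by rw [one_mul])
      · exact val_eval_sub w hGi (hint _) (hint _)
    have h3 : u (m + 1) = 0 := by
      by_contra h
      have h4 : 0 < u (m + 1) := zero_lt_iff.2 h
      have h5 : 1 * u (m + 1) < w (F.coeff 1) * u (m + 1) := mul_lt_mul_of_pos_right hpole h4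
      rw [one_mul] at h5
      exact absurd h2 (not_le.2 h5)
    have h4 : ∀ i, orb F δ P (i + 1) = orb F δ P i := by
      intro i
      have h5 := hm i
      rw [h3] at h5
      have h6 : w (orb F δ P (i + 1) - orb F δ P i) = 0 := le_antisymm h5 zero_le
      exact sub_eq_zero.1 ((map_eq_zero w).1 h6)
    have h5 : orb F δ P 0 = P.1 := rfl
    have h6 : orb F δ P 1 = P.2 := orb_succ F δ P 0
    have h7 : orb F δ P 2 = F.eval P.2 - δ * P.1 := by
      have := orb_rec F δ P 0
      rw [zero_add] at this
      rw [this]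
      have h8 : (0 : ℕ) + 1 = 1 := rfl
      rw [h8, h6, h5]
    unfold henon
    refine Prod.ext ?_ ?_
    · show P.2 = P.1
      rw [← h6, ← h5]
      exact h4 0
    · show F.eval P.2 - δ * P.1 = P.2
      rw [← h7, ← h6]
      exact h4 1
  · left
    refine ⟨x, ?_⟩
    have hrec := orb_rec F δ P k
    have hjm : 1 ∈ range d := mem_range.2 (by omega)
    rw [← hx, eval_eq_sum_range, hF, sum_range_succ, ← add_sum_erase _ _ hjm] at hrec
    have hδk : w (δ * orb F δ P k) ≤ w x := by
      rw [map_mul]
      exact (mul_le_mul' hδ (hk k)).trans (by rw [one_mul])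
    have hlt : ∀ i, i < d → w x ^ i < w x ^ d := fun i hi' => pow_lt_pow_right₀ hM hi'
    have hx1 : w x < w x ^ d := by simpa using hlt 1 (by omega)
    have hne : w x ^ d ≠ 0 := (lt_of_le_of_lt zero_le hx1).ne'
    have hx0 : w x ≠ 0 := by
      intro h
      rw [h] at hM
      exact not_lt.2 zero_le hM
    have h1 : F.coeff d * x ^ d + F.coeff 1 * x ^ 1 = orb F δ P (k + 2) + δ * orb F δ P k -
        ∑ i ∈ (range d).erase 1, F.coeff i * x ^ i := by
      rw [hrec]
      ring
    have h2 : w (orb F δ P (k + 2) + δ * orb F δ P k -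
        ∑ i ∈ (range d).erase 1, F.coeff i * x ^ i) < w (F.coeff d * x ^ d) := by
      rw [map_mul, map_pow, hlead, one_mul]
      refine w.map_sub_lt (w.map_add_lt ((hk _).trans_lt hx1) (hδk.trans_lt hx1)) ?_
      refine w.map_sum_lt hne fun i hi' => ?_
      rw [map_mul, map_pow]
      exact (mul_le_mul' (hi i (ne_of_mem_erase hi')) le_rfl).trans_lt
        (by rw [one_mul]; exact hlt i (mem_range.1 (mem_of_mem_erase hi')))
    have h3 := val_cancel w h1 h2
    rw [map_mul, map_mul, hlead, one_mul, map_pow, map_pow] at h3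
    have h4 : w x ^ d = w x ^ (d - 1) * w x ^ 1 := by
      rw [← pow_add]
      congr 1
      omega
    rw [h4] at h3
    exact (mul_right_cancel₀ (pow_ne_zero 1 hx0) h3).symm

/-- the prime `v` is a simple pole of the coefficient `a_j` and all other data are units at `v` -/
structure Pole {K : Type} [Field K] [NumberField K] (v : HeightOneSpectrum (𝓞 K)) (F : K[X])
    (δ : K) (d j : ℕ) : Prop where
  deg : F.natDegree = d
  pole : v.valuation K (F.coeff j) = WithZero.exp 1
  unit : ∀ i, i ≠ j → i ≤ d → v.valuation K (F.coeff i) = 1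
  delta : v.valuation K δ = 1

lemma Pole.le {K : Type} [Field K] [NumberField K] {v : HeightOneSpectrum (𝓞 K)} {F : K[X]}
    {δ : K} {d j : ℕ} (h : Pole v F δ d j) (i : ℕ) (hij : i ≠ j) :
    v.valuation K (F.coeff i) ≤ 1 := by
  by_cases hid : i ≤ d
  · exact (h.unit i hij hid).le
  · rw [coeff_eq_zero_of_natDegree_lt (by rw [h.deg]; omega), map_zero]
    exact zero_le

/-- the degrees of the periodic points which are not fixed points -/
theorem nonfixed_dvd {K : Type} [Field K] [NumberField K]
    (v : HeightOneSpectrum (𝓞 K)) {F : K[X]} {d : ℕ} (hd : 2 ≤ d) {δ : K} (hv : Pole v F δ d 1)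
    {P : AlgebraicClosure K × AlgebraicClosure K} {n : ℕ} (hn : 0 < n)
    (hP : (henon (F.map (algebraMap K (AlgebraicClosure K)))
      (algebraMap K (AlgebraicClosure K) δ))^[n] P = P)
    (hfix : henon (F.map (algebraMap K (AlgebraicClosure K)))
      (algebraMap K (AlgebraicClosure K) δ) P ≠ P) :
    d - 1 ∣ Module.finrank K (IntermediateField.adjoin K {P.1, P.2}) := by
  set L := IntermediateField.adjoin K {P.1, P.2} with hL
  have hfd : FiniteDimensional K L := by
    refine IntermediateField.finiteDimensional_adjoin fun y _ => ?_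
    exact Algebra.IsIntegral.isIntegral y
  have hfdQ : FiniteDimensional ℚ L := Module.Finite.trans K L
  have hnf : NumberField L := ⟨⟩
  have h1 : P.1 ∈ L := IntermediateField.subset_adjoin K _ (by simp)
  have h2 : P.2 ∈ L := IntermediateField.subset_adjoin K _ (by simp)
  let Q : L × L := (⟨P.1, h1⟩, ⟨P.2, h2⟩)
  let φ : L →+* AlgebraicClosure K := (algebraMap L (AlgebraicClosure K))
  have hQ : Prod.map φ φ Q = P := rfl
  have hinj : Function.Injective (Prod.map φ φ) := φ.injective.prodMap φ.injective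
  have h3 : (F.map (algebraMap K L)).map φ = F.map (algebraMap K (AlgebraicClosure K)) := by
    rw [Polynomial.map_map]
    rfl
  have hQn : (henon (F.map (algebraMap K L)) (algebraMap K L δ))^[n] Q = Q := by
    apply hinj
    rw [henon_iterate, hQ, h3]
    exact hP
  have hQf : henon (F.map (algebraMap K L)) (algebraMap K L δ) Q ≠ Q := by
    intro h
    apply hfix
    have h4 := congrArg (Prod.map φ φ) h
    rw [henon_comm, hQ, h3] at h4
    exact h4
  refine dvd_finrank v fun w hw => ?_
  have he0 : v.asIdeal.ramificationIdx' w.asIdeal ≠ 0 :=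
    Ideal.IsDedekindDomain.ramificationIdx'_ne_zero_of_liesOver w.asIdeal v.ne_bot
  have hval : ∀ x : K, w.valuation L (algebraMap K L x) =
      v.valuation K x ^ v.asIdeal.ramificationIdx' w.asIdeal := fun x =>
    (HeightOneSpectrum.valuation_liesOver L v w x).symm
  have hloc := henon_local1 (w.valuation L) (F := F.map (algebraMap K L)) hd
    (by rw [natDegree_map, hv.deg])
    (by
      rw [coeff_map, hval, hv.pole]
      exact one_lt_pow₀ (by rw [← WithZero.exp_zero, WithZero.exp_lt_exp]; norm_num) he0)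
    (fun i hi' => by
      rw [coeff_map, hval]
      exact pow_le_one' (hv.le i hi') _)
    (by rw [coeff_map, hval, hv.unit d (by omega) le_rfl, one_pow])
    (δ := algebraMap K L δ) (by
      rw [hval]
      exact pow_le_one' hv.delta.le _) hn hQn
  rcases hloc with ⟨x, hx⟩ | h
  · rw [coeff_map] at hx
    exact dvd_ramification v w hv.pole hx
  · exact absurd h hQf

/-- the exponent -/
theorem nonfixed_exponent {K : Type} [Field K] [NumberField K] {f : ℕ}
    (v : HeightOneSpectrum (𝓞 K)) {p : ℕ} (hp : p.Prime)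
    (hpv : v.valuation K (p : K) < 1) {F : K[X]} {d : ℕ} (hpd : d < p) (hd : 2 ≤ d)
    {δ : K} (hv : Pole v F δ d 1)
    {P : AlgebraicClosure K × AlgebraicClosure K} (hP : P ∈ perExp F δ f)
    (hfix : henon (F.map (algebraMap K (AlgebraicClosure K)))
      (algebraMap K (AlgebraicClosure K) δ) P ≠ P) : d - 1 ∣ f := by
  obtain ⟨⟨n, hn, hPn⟩, h1, h2⟩ := hP
  obtain ⟨N, hnf, hgal, hexp, Q, hQ, hQn⟩ := descend F δ hPn h1 h2
  have h3 : (F.map (algebraMap K N)).map (algebraMap N (AlgebraicClosure K)) =
      F.map (algebraMap K (AlgebraicClosure K)) := by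
    rw [Polynomial.map_map]
    rfl
  have hQf : henon (F.map (algebraMap K N)) (algebraMap K N δ) Q ≠ Q := by
    intro h
    apply hfix
    have h4 := congrArg (Prod.map (algebraMap N (AlgebraicClosure K))
      (algebraMap N (AlgebraicClosure K))) h
    rw [henon_comm, hQ, h3] at h4
    exact h4
  have hvmax : v.asIdeal.IsMaximal := v.isMaximal
  obtain ⟨I, hIp, hIl⟩ := (inferInstance : Nonempty (v.asIdeal.primesOver (𝓞 N)))
  let w : HeightOneSpectrum (𝓞 N) := ⟨I, hIp, Ideal.ne_bot_of_liesOver_of_ne_bot v.ne_bot I⟩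
  have hw : w.asIdeal.LiesOver v.asIdeal := hIl
  have he0 : v.asIdeal.ramificationIdx' w.asIdeal ≠ 0 :=
    Ideal.IsDedekindDomain.ramificationIdx'_ne_zero_of_liesOver w.asIdeal v.ne_bot
  have hval : ∀ x : K, w.valuation N (algebraMap K N x) =
      v.valuation K x ^ v.asIdeal.ramificationIdx' w.asIdeal := fun x =>
    (HeightOneSpectrum.valuation_liesOver N v w x).symm
  have hloc := henon_local1 (w.valuation N) (F := F.map (algebraMap K N)) hd
    (by rw [natDegree_map, hv.deg])
    (by
      rw [coeff_map, hval, hv.pole]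
      exact one_lt_pow₀ (by rw [← WithZero.exp_zero, WithZero.exp_lt_exp]; norm_num) he0)
    (fun i hi' => by
      rw [coeff_map, hval]
      exact pow_le_one' (hv.le i hi') _)
    (by rw [coeff_map, hval, hv.unit d (by omega) le_rfl, one_pow])
    (δ := algebraMap K N δ) (by
      rw [hval]
      exact pow_le_one' hv.delta.le _) hn hQn
  rcases hloc with ⟨x, hx⟩ | h
  · rw [coeff_map] at hx
    exact dvd_exponent hexp v w hw hp hpv
      (fun h => absurd (Nat.le_of_dvd (by omega) h) (by omega)) hv.pole hx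
  · exact absurd h hQf

end Pool.Agent.H912.DY
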