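import Pool.Agent.H912.DY.H4

/-!
# The fixed points of Hénon maps (helper912)
-/

set_option autoImplicit false

open Finset Polynomial IsDedekindDomain
open scoped NumberField

namespace Pool.Agent.H912.DY

section val

variable {L : Type} {Γ : Type*} [Field L] [LinearOrderedCommGroupWithZero Γ] (w : Valuation L Γ)

lemma int_mul {p q : L[X]} (hp : ∀ i, w (p.coeff i) ≤ 1) (hq : ∀ i, w (q.coeff i) ≤ 1) (i : ℕ) :
    w ((p * q).coeff i) ≤ 1 := by
  rw [coeff_mul]
  refine w.map_sum_le fun x _ => ?_
  rw [map_mul]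
  exact mul_le_one' (hp _) (hq _)

lemma int_prod (s : Multiset L) (hs : ∀ y ∈ s, w y ≤ 1) (i : ℕ) :
    w ((s.map (fun y => X - C y)).prod.coeff i) ≤ 1 := by
  induction s using Multiset.induction_on generalizing i with
  | empty =>
    rw [Multiset.map_zero, Multiset.prod_zero, coeff_one]
    split_ifs
    · rw [map_one]
    · rw [map_zero]
      exact zero_le
  | cons y s ih =>
    rw [Multiset.map_cons, Multiset.prod_cons]
    refine int_mul w (fun k => ?_) (ih fun z hz => hs z (Multiset.mem_cons_of_mem hz)) i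
    rw [coeff_sub, coeff_X, coeff_C]
    refine w.map_sub_le ?_ ?_
    · split_ifs
      · rw [map_one]
      · rw [map_zero]
        exact zero_le
    · split_ifs
      · exact hs y (Multiset.mem_cons_self y s)
      · rw [map_zero]
        exact zero_le

/-- the two types of roots of a polynomial with a pole in the middle -/
lemma root_types {H : L[X]} {d j : ℕ} (hj : 1 ≤ j) (hjd : j < d) (hH : H.natDegree = d)
    (h0 : w (H.coeff 0) = 1) (hi : ∀ i, i ≠ j → w (H.coeff i) ≤ 1)
    (hlead : w (H.coeff d) = 1) {y : L} (hy : H.eval y = 0) :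
    (1 < w y → w y ^ (d - j) = w (H.coeff j)) ∧ (w y < 1 → w y⁻¹ ^ j = w (H.coeff j)) := by
  have hjm : j ∈ range d := mem_range.2 hjd
  rw [eval_eq_sum_range, hH, sum_range_succ, ← add_sum_erase _ _ hjm] at hy
  refine ⟨fun hM => ?_, fun hM => ?_⟩
  · have hlt : ∀ i, i < d → w y ^ i < w y ^ d := fun i hi' => pow_lt_pow_right₀ hM hi'
    have hne : w y ^ d ≠ 0 := (lt_of_le_of_lt zero_le (hlt 0 (by omega))).ne'
    have hy0 : w y ≠ 0 := by
      intro h
      rw [h] at hM
      exact not_lt.2 zero_le hM
    have h1 : H.coeff d * y ^ d + H.coeff j * y ^ j =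
        -∑ i ∈ (range d).erase j, H.coeff i * y ^ i := by
      linear_combination hy
    have h2 : w (-∑ i ∈ (range d).erase j, H.coeff i * y ^ i) < w (H.coeff d * y ^ d) := by
      rw [w.map_neg, map_mul, map_pow, hlead, one_mul]
      refine w.map_sum_lt hne fun i hi' => ?_
      rw [map_mul, map_pow]
      exact (mul_le_mul' (hi i (ne_of_mem_erase hi')) le_rfl).trans_lt
        (by rw [one_mul]; exact hlt i (mem_range.1 (mem_of_mem_erase hi')))
    have h3 := val_cancel w h1 h2
    rw [map_mul, map_mul, hlead, one_mul, map_pow, map_pow] at h3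
    have h4 : w y ^ d = w y ^ (d - j) * w y ^ j := by
      rw [← pow_add]
      congr 1
      omega
    rw [h4] at h3
    exact (mul_right_cancel₀ (pow_ne_zero j hy0) h3).symm
  · have h0m : 0 ∈ (range d).erase j := mem_erase.2 ⟨by omega, mem_range.2 (by omega)⟩
    rw [← add_sum_erase _ _ h0m, pow_zero, mul_one] at hy
    have h1 : H.coeff 0 + H.coeff j * y ^ j =
        -(∑ i ∈ ((range d).erase j).erase 0, H.coeff i * y ^ i) - H.coeff d * y ^ d := by
      linear_combination hy
    have h2 : w (-(∑ i ∈ ((range d).erase j).erase 0, H.coeff i * y ^ i) - H.coeff d * y ^ d) <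
        w (H.coeff 0) := by
      rw [h0]
      refine lt_of_le_of_lt ?_ hM
      refine w.map_sub_le ?_ ?_
      · rw [w.map_neg]
        refine w.map_sum_le fun i hi' => ?_
        have hi0 : i ≠ 0 := ne_of_mem_erase hi'
        have hij : i ≠ j := ne_of_mem_erase (mem_of_mem_erase hi')
        rw [map_mul, map_pow]
        refine (mul_le_mul' (hi i hij) le_rfl).trans ?_
        rw [one_mul]
        exact pow_le_of_le_one zero_le hM.le hi0
      · rw [map_mul, hlead, one_mul, map_pow]
        exact pow_le_of_le_one zero_le hM.le (by omega)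
    have h3 := val_cancel w h1 h2
    rw [h0, map_mul, map_pow] at h3
    rw [map_inv₀, inv_pow]
    exact (eq_inv_of_mul_eq_one_left h3).symm

/-- both types of roots occur -/
lemma both_types {H : L[X]} (hs : H.Splits) {d j : ℕ} (hH : H.natDegree = d)
    (h0 : w (H.coeff 0) = 1) (hpole : 1 < w (H.coeff j))
    (hlead : w (H.coeff d) = 1) :
    (∃ y, H.eval y = 0 ∧ 1 < w y) ∧ ∃ y, H.eval y = 0 ∧ w y < 1 := by
  have hne : H ≠ 0 := by
    rintro rfl
    rw [coeff_zero, map_zero] at h0
    exact zero_ne_one h0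
  have hlc : w H.leadingCoeff = 1 := by rw [leadingCoeff, hH, hlead]
  have h1 : ∃ y, H.eval y = 0 ∧ 1 < w y := by
    by_contra hcon
    push Not at hcon
    have h2 : w (H.coeff j) ≤ 1 := by
      rw [hs.eq_prod_roots, coeff_C_mul, map_mul, hlc, one_mul]
      exact int_prod w _ (fun y hy => hcon y ((mem_roots hne).1 hy)) j
    exact absurd h2 (not_le.2 hpole)
  refine ⟨h1, ?_⟩
  by_contra hcon
  push Not at hcon
  have h2 := congrArg w hs.coeff_zero_eq_leadingCoeff_mul_prod_roots
  rw [h0, map_mul, map_mul, map_pow, w.map_neg, map_one, one_pow, one_mul, hlc, one_mul] at h2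
  obtain ⟨y, hy, hy1⟩ := h1
  obtain ⟨s, hs'⟩ := Multiset.exists_cons_of_mem ((mem_roots hne).2 hy)
  rw [hs', Multiset.prod_cons, map_mul] at h2
  have h3 : 1 ≤ w s.prod := by
    rw [map_multiset_prod]
    refine Multiset.one_le_prod_of_one_le fun z hz => ?_
    obtain ⟨z', hz', rfl⟩ := Multiset.mem_map.1 hz
    exact hcon z' ((mem_roots hne).1 (by rw [hs']; exact Multiset.mem_cons_of_mem hz'))
  have h4 : 1 < w y * w s.prod := by
    calc (1 : Γ) < w y := hy1
      _ = w y * 1 := (mul_one _).symm
      _ ≤ w y * w s.prod := mul_le_mul' le_rfl h3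
  rw [← h2] at h4
  exact lt_irrefl _ h4

end val

/-- the polynomial of the fixed points -/
noncomputable def fixP {L : Type} [Field L] (F : L[X]) (δ : L) : L[X] := F - C (1 + δ) * X

lemma fixP_natDegree {L : Type} [Field L] {F : L[X]} {d : ℕ} (hd : 2 ≤ d) (hF : F.natDegree = d)
    (δ : L) : (fixP F δ).natDegree = d := by
  unfold fixP
  rw [natDegree_sub_eq_left_of_natDegree_lt, hF]
  rw [hF]
  exact ((natDegree_C_mul_le _ _).trans natDegree_X_le).trans_lt (by omega)

lemma fixP_coeff {L : Type} [Field L] (F : L[X]) (δ : L) (i : ℕ) :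
    (fixP F δ).coeff i = F.coeff i - if i = 1 then 1 + δ else 0 := by
  unfold fixP
  rw [coeff_sub, coeff_C_mul, coeff_X]
  congr 1
  by_cases h : i = 1
  · subst h
    simp
  · rw [if_neg (Ne.symm h), if_neg h, mul_zero]

lemma fixP_map {L M : Type} [Field L] [Field M] (φ : L →+* M) (F : L[X]) (δ : L) :
    (fixP F δ).map φ = fixP (F.map φ) (φ δ) := by
  unfold fixP
  simp

lemma fix_iff {L : Type} [Field L] (F : L[X]) (δ : L) (P : L × L) :
    henon F δ P = P ↔ P.2 = P.1 ∧ (fixP F δ).eval P.1 = 0 := by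
  unfold henon fixP
  rw [Prod.ext_iff]
  simp only [eval_sub, eval_mul, eval_C, eval_X]
  constructor
  · rintro ⟨h1, h2⟩
    refine ⟨h1, ?_⟩
    rw [h1] at h2
    linear_combination h2
  · rintro ⟨h1, h2⟩
    refine ⟨h1, ?_⟩
    rw [h1]
    linear_combination h2

/-- the minimal polynomial of a point on the diagonal -/
lemma finrank_diag {K : Type} [Field K] (x : AlgebraicClosure K) :
    Module.finrank K (IntermediateField.adjoin K {x, x}) = (minpoly K x).natDegree := by
  rw [Set.pair_eq_singleton]
  exact IntermediateField.adjoin.finrank (Algebra.IsIntegral.isIntegral x)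

/-- if the degree of a root is at least the degree of the polynomial then it is irreducible -/
lemma irr_of_root {K : Type} [Field K] {H : K[X]} {x : AlgebraicClosure K} (hH : H ≠ 0)
    (hx : aeval x H = 0) (hd : H.natDegree ≤ (minpoly K x).natDegree) :
    Irreducible H ∧ (minpoly K x).natDegree = H.natDegree := by
  have hint : IsIntegral K x := Algebra.IsIntegral.isIntegral x
  obtain ⟨q, hq⟩ := minpoly.dvd K x hx
  have hq0 : q ≠ 0 := by
    rintro rfl
    exact hH (by rw [hq, mul_zero])
  have h1 := natDegree_mul (minpoly.ne_zero hint) hq0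
  rw [← hq] at h1
  have h2 : q.natDegree = 0 := by omega
  have h3 : IsUnit q := by
    rw [Polynomial.isUnit_iff_degree_eq_zero, degree_eq_natDegree hq0, h2]
    rfl
  refine ⟨?_, by omega⟩
  have h4 : Associated (minpoly K x) H := ⟨h3.unit, by rw [hq]; rfl⟩
  exact h4.irreducible (minpoly.irreducible hint)

/-- the number of the roots of an irreducible polynomial -/
lemma ncard_rootSet {K : Type} [Field K] [CharZero K] {H : K[X]} (hH : Irreducible H) :
    (H.rootSet (AlgebraicClosure K)).ncard = H.natDegree := by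
  rw [← Nat.card_coe_set_eq, Nat.card_eq_fintype_card]
  exact card_rootSet_eq_natDegree hH.separable (IsAlgClosed.splits _)

/-- **The fixed points.** -/
theorem fixed_points {K : Type} [Field K] [NumberField K] {F : K[X]} {d : ℕ} (hd : 2 ≤ d)
    (hF : F.natDegree = d) {δ : K}
    (hdvd : ∀ P : AlgebraicClosure K × AlgebraicClosure K,
      henon (F.map (algebraMap K (AlgebraicClosure K))) (algebraMap K (AlgebraicClosure K) δ) P = P →
        d ∣ Module.finrank K (IntermediateField.adjoin K {P.1, P.2})) :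
    Irreducible (fixP F δ) ∧
    {P : AlgebraicClosure K × AlgebraicClosure K | henon (F.map (algebraMap K (AlgebraicClosure K)))
      (algebraMap K (AlgebraicClosure K) δ) P = P}.ncard = d ∧
    ∀ P : AlgebraicClosure K × AlgebraicClosure K,
      henon (F.map (algebraMap K (AlgebraicClosure K))) (algebraMap K (AlgebraicClosure K) δ) P = P →
        Module.finrank K (IntermediateField.adjoin K {P.1, P.2}) = d := by
  set Ω := AlgebraicClosure K
  have hdeg := fixP_natDegree hd hF δ
  have hne : fixP F δ ≠ 0 := by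
    intro h
    rw [h, natDegree_zero] at hdeg
    omega
  have hroot : ∀ x : Ω, aeval x (fixP F δ) = 0 ↔
      (fixP (F.map (algebraMap K Ω)) (algebraMap K Ω δ)).eval x = 0 := by
    intro x
    rw [← fixP_map, eval_map_algebraMap]
  have hfix : ∀ x : Ω, aeval x (fixP F δ) = 0 →
      henon (F.map (algebraMap K Ω)) (algebraMap K Ω δ) (x, x) = (x, x) := by
    intro x hx
    rw [fix_iff]
    exact ⟨rfl, (hroot x).1 hx⟩
  have hmin : ∀ x : Ω, aeval x (fixP F δ) = 0 →
      Irreducible (fixP F δ) ∧ (minpoly K x).natDegree = (fixP F δ).natDegree := by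
    intro x hx
    refine irr_of_root hne hx ?_
    have h1 := hdvd (x, x) (hfix x hx)
    simp only at h1
    rw [finrank_diag] at h1
    rw [hdeg]
    exact Nat.le_of_dvd (minpoly.natDegree_pos (Algebra.IsIntegral.isIntegral x)) h1
  obtain ⟨x, hx⟩ : ∃ x : Ω, aeval x (fixP F δ) = 0 := by
    obtain ⟨x, hx⟩ := IsAlgClosed.exists_aeval_eq_zero Ω (fixP F δ) (by
      rw [degree_eq_natDegree hne, hdeg]
      exact_mod_cast (by omega : d ≠ 0))
    exact ⟨x, hx⟩
  have hirr := (hmin x hx).1
  refine ⟨hirr, ?_, ?_⟩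
  · have h1 : {P : Ω × Ω | henon (F.map (algebraMap K Ω)) (algebraMap K Ω δ) P = P} =
        (fun x : Ω => (x, x)) '' ((fixP F δ).rootSet Ω) := by
      ext P
      rw [Set.mem_image]
      constructor
      · intro hP
        obtain ⟨h2, h3⟩ := (fix_iff _ _ P).1 hP
        refine ⟨P.1, (mem_rootSet_of_ne hne).2 ((hroot _).2 h3), Prod.ext rfl h2.symm⟩
      · rintro ⟨y, hy, rfl⟩
        exact hfix y ((mem_rootSet_of_ne hne).1 hy)
    rw [h1, Set.ncard_image_of_injective _ (fun x y h => (Prod.ext_iff.1 h).1), ncard_rootSet hirr,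
      hdeg]
  · intro P hP
    obtain ⟨h2, h3⟩ := (fix_iff _ _ P).1 hP
    rw [h2, finrank_diag, (hmin _ ((hroot _).2 h3)).2, hdeg]

/-- the exponents of the fixed points -/
theorem fixed_exponent {K : Type} [Field K] [NumberField K] {f : ℕ}
    (v : HeightOneSpectrum (𝓞 K)) {p : ℕ} (hp : p.Prime)
    (hpv : v.valuation K (p : K) < 1) {F : K[X]} {d j : ℕ} (hpd : d < p) (hj : 1 ≤ j) (hjd : j < d)
    {δ : K} (hv : Pole v F δ d j) (hirr : Irreducible (fixP F δ))
    {P : AlgebraicClosure K × AlgebraicClosure K} (hP : P ∈ perExp F δ f)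
    (hfix : henon (F.map (algebraMap K (AlgebraicClosure K)))
      (algebraMap K (AlgebraicClosure K) δ) P = P) : j ∣ f ∧ d - j ∣ f := by
  obtain ⟨⟨n, hn, hPn⟩, h1, h2⟩ := hP
  obtain ⟨N, hnf, hgal, hexp, Q, hQ, hQn⟩ := descend F δ hPn h1 h2
  have h3 : (F.map (algebraMap K N)).map (algebraMap N (AlgebraicClosure K)) =
      F.map (algebraMap K (AlgebraicClosure K)) := by
    rw [Polynomial.map_map]
    rfl
  have hinj : Function.Injective (Prod.map (algebraMap N (AlgebraicClosure K))
      (algebraMap N (AlgebraicClosure K))) :=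
    (algebraMap N (AlgebraicClosure K)).injective.prodMap
      (algebraMap N (AlgebraicClosure K)).injective
  have hQf : henon (F.map (algebraMap K N)) (algebraMap K N δ) Q = Q := by
    apply hinj
    rw [henon_comm, hQ, h3]
    exact hfix
  have hd2 : 2 ≤ d := by omega
  have hdeg := fixP_natDegree hd2 hv.deg δ
  -- the polynomial splits over `N`
  have hx : aeval Q.1 (fixP F δ) = 0 := by
    have h4 := ((fix_iff _ _ Q).1 hQf).2
    rw [← fixP_map, eval_map_algebraMap] at h4
    exact h4
  have hsplit : ((fixP F δ).map (algebraMap K N)).Splits := by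
    have h4 := hgal.to_normal.splits Q.1
    have h5 := minpoly.eq_of_irreducible hirr hx
    rw [← h5, Polynomial.map_mul] at h4
    have h6 : (fixP F δ).leadingCoeff ≠ 0 := leadingCoeff_ne_zero.2 hirr.ne_zero
    have h7 : (fixP F δ).map (algebraMap K N) = ((fixP F δ).map (algebraMap K N) *
        (C (fixP F δ).leadingCoeff⁻¹).map (algebraMap K N)) *
          C (algebraMap K N (fixP F δ).leadingCoeff) := by
      rw [mul_assoc, map_C, ← C_mul, ← map_mul, inv_mul_cancel₀ h6, map_one, C_1, mul_one]
    rw [h7]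
    exact h4.mul (Splits.C _)
  have hvmax : v.asIdeal.IsMaximal := v.isMaximal
  obtain ⟨I, hIp, hIl⟩ := (inferInstance : Nonempty (v.asIdeal.primesOver (𝓞 N)))
  let w : HeightOneSpectrum (𝓞 N) := ⟨I, hIp, Ideal.ne_bot_of_liesOver_of_ne_bot v.ne_bot I⟩
  have hw : w.asIdeal.LiesOver v.asIdeal := hIl
  have he0 : v.asIdeal.ramificationIdx' w.asIdeal ≠ 0 :=
    Ideal.IsDedekindDomain.ramificationIdx'_ne_zero_of_liesOver w.asIdeal v.ne_bot
  have hval : ∀ x : K, w.valuation N (algebraMap K N x) =
      v.valuation K x ^ v.asIdeal.ramificationIdx' w.asIdeal := fun x =>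
    (HeightOneSpectrum.valuation_liesOver N v w x).symm
  -- the coefficients
  have hc1 : v.valuation K (if (1 : ℕ) = 1 then 1 + δ else 0) ≤ 1 := by
    rw [if_pos rfl]
    exact (v.valuation K).map_add_le (by rw [map_one]) hv.delta.le
  have hcj : v.valuation K ((fixP F δ).coeff j) = WithZero.exp 1 := by
    rw [fixP_coeff]
    by_cases h : j = 1
    · subst h
      rw [Valuation.map_sub_eq_of_lt_left, hv.pole]
      rw [hv.pole]
      refine lt_of_le_of_lt hc1 ?_
      rw [← WithZero.exp_zero, WithZero.exp_lt_exp]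
      norm_num
    · rw [if_neg h, sub_zero, hv.pole]
  have hc0 : v.valuation K ((fixP F δ).coeff 0) = 1 := by
    rw [fixP_coeff, if_neg (by norm_num), sub_zero]
    exact hv.unit 0 (by omega) (by omega)
  have hcd : v.valuation K ((fixP F δ).coeff d) = 1 := by
    rw [fixP_coeff, if_neg (by omega), sub_zero]
    exact hv.unit d (by omega) le_rfl
  have hci : ∀ i, i ≠ j → v.valuation K ((fixP F δ).coeff i) ≤ 1 := by
    intro i hi
    rw [fixP_coeff]
    refine (v.valuation K).map_sub_le (hv.le i hi) ?_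
    by_cases h : i = 1
    · subst h
      exact hc1
    · rw [if_neg h, map_zero]
      exact zero_le
  have hone : (1 : WithZero (Multiplicative ℤ)) < WithZero.exp (1 : ℤ) := by
    rw [← WithZero.exp_zero, WithZero.exp_lt_exp]
    norm_num
  have hb0 : w.valuation N (((fixP F δ).map (algebraMap K N)).coeff 0) = 1 := by
    rw [coeff_map, hval, hc0, one_pow]
  have hbj : 1 < w.valuation N (((fixP F δ).map (algebraMap K N)).coeff j) := by
    rw [coeff_map, hval, hcj]
    exact one_lt_pow₀ hone he0
  have hbd : w.valuation N (((fixP F δ).map (algebraMap K N)).coeff d) = 1 := by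
    rw [coeff_map, hval, hcd, one_pow]
  have hbi : ∀ i, i ≠ j → w.valuation N (((fixP F δ).map (algebraMap K N)).coeff i) ≤ 1 := by
    intro i hi
    rw [coeff_map, hval]
    exact pow_le_one' (hci i hi) _
  have hbdeg : ((fixP F δ).map (algebraMap K N)).natDegree = d := by
    rw [natDegree_map, hdeg]
  obtain ⟨⟨y, hy, hy1⟩, ⟨z, hz, hz1⟩⟩ := both_types (w.valuation N) hsplit hbdeg hb0 hbj hbd
  have hty := (root_types (w.valuation N) hj hjd hbdeg hb0 hbi hbd hy).1 hy1
  have htz := (root_types (w.valuation N) hj hjd hbdeg hb0 hbi hbd hz).2 hz1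
  rw [coeff_map] at hty htz
  exact ⟨dvd_exponent hexp v w hw hp hpv
      (fun h => absurd (Nat.le_of_dvd (by omega) h) (by omega)) hcj htz,
    dvd_exponent hexp v w hw hp hpv
      (fun h => absurd (Nat.le_of_dvd (by omega) h) (by omega)) hcj hty⟩

end Pool.Agent.H912.DY
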