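import Pool.Agent.H912.DY.H5

/-!
# The points of period two of Hénon maps (helper912)
-/

set_option autoImplicit false

open Finset Polynomial IsDedekindDomain
open scoped NumberField

namespace Pool.Agent.H912.DY

lemma two_iff {L : Type} [Field L] (F : L[X]) {δ : L} (hδ : 1 + δ ≠ 0) (P : L × L) :
    henon F δ (henon F δ P) = P ↔
      P.2 = (1 + δ)⁻¹ * F.eval P.1 ∧ F.eval P.2 = (1 + δ) * P.1 := by
  unfold henon
  rw [Prod.ext_iff]
  simp only
  constructor
  · rintro ⟨h1, h2⟩
    rw [h1] at h2
    refine ⟨?_, by linear_combination h1⟩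
    rw [eq_inv_mul_iff_mul_eq₀ hδ]
    linear_combination -h2
  · rintro ⟨h1, h2⟩
    rw [eq_inv_mul_iff_mul_eq₀ hδ] at h1
    have h3 : F.eval P.2 - δ * P.1 = P.1 := by linear_combination h2
    refine ⟨h3, ?_⟩
    rw [h3]
    linear_combination -h1

/-- half of the second iterate -/
noncomputable def halfP {L : Type} [Field L] (F : L[X]) (δ : L) : L[X] := C (1 + δ)⁻¹ * F

/-- the polynomial of the points with period dividing two -/
noncomputable def twoP {L : Type} [Field L] (F : L[X]) (δ : L) : L[X] :=
  F.comp (halfP F δ) - C (1 + δ) * X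

lemma twoP_natDegree {L : Type} [Field L] {F : L[X]} {d : ℕ} (hd : 2 ≤ d) (hF : F.natDegree = d)
    {δ : L} (hδ : 1 + δ ≠ 0) : (twoP F δ).natDegree = d * d := by
  have h1 : (F.comp (halfP F δ)).natDegree = d * d := by
    rw [natDegree_comp, halfP, natDegree_C_mul (inv_ne_zero hδ), hF]
  unfold twoP
  rw [natDegree_sub_eq_left_of_natDegree_lt, h1]
  rw [h1]
  exact ((natDegree_C_mul_le _ _).trans natDegree_X_le).trans_lt (by nlinarith)

lemma fixP_dvd_twoP {L : Type} [Field L] (F : L[X]) {δ : L} (hδ : 1 + δ ≠ 0) :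
    fixP F δ ∣ twoP F δ := by
  have h1 := sub_dvd_eval_sub (halfP F δ) X (F.map C)
  rw [eval_map, eval_map] at h1
  have h2 : eval₂ C (halfP F δ) F = F.comp (halfP F δ) := rfl
  have h3 : eval₂ C X F = F := comp_X
  rw [h2, h3] at h1
  have h4 : halfP F δ - X = C (1 + δ)⁻¹ * fixP F δ := by
    unfold halfP fixP
    rw [mul_sub, ← mul_assoc, ← C_mul, inv_mul_cancel₀ hδ, C_1, one_mul]
  have h5 : fixP F δ ∣ F.comp (halfP F δ) - F := by
    refine dvd_trans ?_ h1
    rw [h4]
    exact dvd_mul_left _ _
  have h6 : twoP F δ = (F.comp (halfP F δ) - F) + fixP F δ := by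
    unfold twoP fixP
    ring
  rw [h6]
  exact dvd_add h5 dvd_rfl

lemma natDegree_minpoly {K : Type} [Field K] {H : K[X]} (hirr : Irreducible H)
    {x : AlgebraicClosure K} (hx : aeval x H = 0) : (minpoly K x).natDegree = H.natDegree := by
  rw [← minpoly.eq_of_irreducible hirr hx,
    natDegree_mul_C (inv_ne_zero (leadingCoeff_ne_zero.2 hirr.ne_zero))]

/-- a double zero of the polynomial of the points of period two -/
lemma no_double {K : Type} [Field K] [CharZero K] {F : K[X]} {d : ℕ} (hd : 2 ≤ d)
    (hF : F.natDegree = d) {δ : K} (hδ : 1 + δ ≠ 0) (hirr : Irreducible (fixP F δ)) {R : K[X]}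
    (hR : twoP F δ = fixP F δ * R) {x : AlgebraicClosure K} (hx : aeval x R = 0) :
    aeval x (fixP F δ) ≠ 0 := by
  intro hH
  set c : (AlgebraicClosure K) := algebraMap K (AlgebraicClosure K) (1 + δ) with hc
  have hc0 : c ≠ 0 := by
    rw [hc, Ne, map_eq_zero]
    exact hδ
  -- the derivative
  have h1 : aeval x (derivative (twoP F δ)) = 0 := by
    rw [hR, derivative_mul, map_add, map_mul, map_mul, hx, hH, mul_zero, zero_mul, add_zero]
  have hG : aeval x (halfP F δ) = x := by
    have h2 : aeval x F = c * x := by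
      unfold fixP at hH
      rw [map_sub, map_mul, aeval_C, aeval_X, sub_eq_zero] at hH
      exact hH
    unfold halfP
    rw [map_mul, aeval_C, h2, map_inv₀, ← hc, inv_mul_cancel_left₀ hc0]
  have h2 : aeval x (derivative (twoP F δ)) =
      c⁻¹ * aeval x (derivative F) * aeval x (derivative F) - c := by
    unfold twoP
    rw [derivative_sub, derivative_comp, map_sub, map_mul, aeval_comp, hG]
    have h3 : derivative (halfP F δ) = C (1 + δ)⁻¹ * derivative F := by
      unfold halfP
      rw [derivative_C_mul]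
    have h4 : derivative (C (1 + δ) * X : K[X]) = C (1 + δ) := by
      rw [derivative_C_mul, derivative_X, mul_one]
    rw [h3, h4, map_mul, aeval_C, aeval_C, map_inv₀]
  rw [h2] at h1
  have h3 : (aeval x (derivative F) - c) * (aeval x (derivative F) + c) = 0 := by
    have h4 : c * (c⁻¹ * aeval x (derivative F) * aeval x (derivative F) - c) = 0 := by
      rw [h1, mul_zero]
    have h5 : c * (c⁻¹ * aeval x (derivative F) * aeval x (derivative F) - c) =
        aeval x (derivative F) * aeval x (derivative F) - c * c := by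
      rw [mul_sub, ← mul_assoc, ← mul_assoc, mul_inv_cancel₀ hc0, one_mul]
    rw [h5] at h4
    linear_combination h4
  rcases mul_eq_zero.1 h3 with h4 | h4
  · refine hirr.separable.aeval_derivative_ne_zero hH ?_
    unfold fixP
    rw [derivative_sub, derivative_C_mul, derivative_X, mul_one, map_sub, aeval_C]
    exact h4
  · have h5 : aeval x (derivative F + C (1 + δ)) = 0 := by
      rw [map_add, aeval_C]
      exact h4
    have h6 : (derivative F + C (1 + δ)).natDegree ≤ d - 1 := by
      refine (natDegree_add_le _ _).trans (max_le ?_ (by rw [natDegree_C]; omega))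
      rw [← hF]
      exact natDegree_derivative_le _
    have h7 : derivative F + C (1 + δ) ≠ 0 := by
      intro h
      have h8 := congrArg (fun p : K[X] => p.coeff (d - 1)) h
      simp only [coeff_add, coeff_derivative, coeff_C, coeff_zero] at h8
      rw [if_neg (by omega), add_zero] at h8
      have h9 : d - 1 + 1 = d := by omega
      rw [h9] at h8
      have h10 : F.coeff d ≠ 0 := by
        rw [← hF]
        intro h11
        have h12 : F = 0 := leadingCoeff_eq_zero.1 h11
        rw [h12, natDegree_zero] at hF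
        omega
      have h11 : ((d - 1 : ℕ) : K) + 1 ≠ 0 := by
        rw [← Nat.cast_succ]
        exact Nat.cast_ne_zero.2 (Nat.succ_ne_zero _)
      rcases mul_eq_zero.1 h8 with h12 | h12
      · exact h10 h12
      · exact h11 h12
    have h8 := (Polynomial.natDegree_le_of_dvd (minpoly.dvd K x h5) h7).trans h6
    have h9 := natDegree_minpoly hirr hH
    rw [fixP_natDegree hd hF] at h9
    omega

/-- a point whose second coordinate is a polynomial in the first -/
lemma finrank_graph {K : Type} [Field K] (G : K[X]) (x : AlgebraicClosure K) :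
    Module.finrank K (IntermediateField.adjoin K {x, aeval x G}) = (minpoly K x).natDegree := by
  have h1 : IntermediateField.adjoin K {x, aeval x G} = IntermediateField.adjoin K {x} := by
    refine le_antisymm ?_ ?_
    · rw [IntermediateField.adjoin_le_iff]
      have hx : x ∈ IntermediateField.adjoin K {x} :=
        IntermediateField.subset_adjoin K _ (Set.mem_singleton x)
      rintro y (rfl | hy)
      · exact hx
      · rw [Set.mem_singleton_iff] at hy
        rw [hy]
        have h2 := IntermediateField.aeval_coe (IntermediateField.adjoin K {x})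
          (⟨x, hx⟩ : IntermediateField.adjoin K {x}) G
        show aeval x G ∈ IntermediateField.adjoin K {x}
        rw [h2]
        exact (aeval (⟨x, hx⟩ : IntermediateField.adjoin K {x}) G).2
    · refine IntermediateField.adjoin.mono K _ _ ?_
      exact Set.singleton_subset_iff.2 (Set.mem_insert _ _)
  rw [h1]
  exact IntermediateField.adjoin.finrank (Algebra.IsIntegral.isIntegral x)

/-- **The points of period two.** -/
theorem two_points {K : Type} [Field K] [NumberField K] {F : K[X]} {d : ℕ} (hd : 2 ≤ d)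
    (hF : F.natDegree = d) {δ : K} (hδ : 1 + δ ≠ 0) (hirr : Irreducible (fixP F δ))
    (hdvd : ∀ P : AlgebraicClosure K × AlgebraicClosure K,
      (henon (F.map (algebraMap K (AlgebraicClosure K))) (algebraMap K (AlgebraicClosure K) δ))^[2] P
        = P →
      henon (F.map (algebraMap K (AlgebraicClosure K))) (algebraMap K (AlgebraicClosure K) δ) P ≠ P →
        d * (d - 1) ∣ Module.finrank K (IntermediateField.adjoin K {P.1, P.2})) :
    {P : AlgebraicClosure K × AlgebraicClosure K |
      (henon (F.map (algebraMap K (AlgebraicClosure K))) (algebraMap K (AlgebraicClosure K) δ))^[2] P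
        = P ∧ henon (F.map (algebraMap K (AlgebraicClosure K)))
          (algebraMap K (AlgebraicClosure K) δ) P ≠ P}.ncard = d * (d - 1) ∧
    ∀ P : AlgebraicClosure K × AlgebraicClosure K,
      (henon (F.map (algebraMap K (AlgebraicClosure K))) (algebraMap K (AlgebraicClosure K) δ))^[2] P
        = P →
      henon (F.map (algebraMap K (AlgebraicClosure K))) (algebraMap K (AlgebraicClosure K) δ) P ≠ P →
        Module.finrank K (IntermediateField.adjoin K {P.1, P.2}) = d * (d - 1) := by
  set Ω := AlgebraicClosure K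
  obtain ⟨R, hR⟩ := fixP_dvd_twoP F hδ
  have hfne : fixP F δ ≠ 0 := hirr.ne_zero
  have htdeg := twoP_natDegree hd hF hδ
  have htne : twoP F δ ≠ 0 := by
    intro h
    rw [h, natDegree_zero] at htdeg
    nlinarith
  have hRne : R ≠ 0 := by
    rintro rfl
    exact htne (by rw [hR, mul_zero])
  have hRdeg : R.natDegree = d * (d - 1) := by
    have h1 := natDegree_mul hfne hRne
    rw [← hR, htdeg, fixP_natDegree hd hF] at h1
    obtain ⟨e, rfl⟩ : ∃ e, d = e + 1 := ⟨d - 1, by omega⟩
    rw [Nat.add_sub_cancel]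
    nlinarith
  have hδ' : 1 + algebraMap K Ω δ ≠ 0 := by
    intro h
    apply hδ
    have h1 : algebraMap K Ω (1 + δ) = 0 := by rw [map_add, map_one, h]
    exact (map_eq_zero _).1 h1
  have hgr : ∀ x : Ω, (1 + algebraMap K Ω δ)⁻¹ * (F.map (algebraMap K Ω)).eval x =
      aeval x (halfP F δ) := by
    intro x
    unfold halfP
    rw [map_mul, aeval_C, eval_map_algebraMap, map_inv₀, map_add, map_one]
  have htwo : ∀ x : Ω, (F.map (algebraMap K Ω)).eval (aeval x (halfP F δ)) =
      (1 + algebraMap K Ω δ) * x ↔ aeval x (twoP F δ) = 0 := by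
    intro x
    unfold twoP
    rw [map_sub, aeval_comp, map_mul, aeval_C, aeval_X, sub_eq_zero, eval_map_algebraMap, map_add,
      map_one]
  -- the points are given by the roots of `R`
  have hiff : ∀ P : Ω × Ω, ((henon (F.map (algebraMap K Ω)) (algebraMap K Ω δ))^[2] P = P ∧
      henon (F.map (algebraMap K Ω)) (algebraMap K Ω δ) P ≠ P) ↔
      aeval P.1 R = 0 ∧ P.2 = aeval P.1 (halfP F δ) := by
    intro P
    have h0 : (henon (F.map (algebraMap K Ω)) (algebraMap K Ω δ))^[2] P =
        henon (F.map (algebraMap K Ω)) (algebraMap K Ω δ)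
          (henon (F.map (algebraMap K Ω)) (algebraMap K Ω δ) P) := rfl
    have hfi : henon (F.map (algebraMap K Ω)) (algebraMap K Ω δ) P = P ↔
        P.2 = P.1 ∧ aeval P.1 (fixP F δ) = 0 := by
      rw [fix_iff, ← fixP_map, eval_map_algebraMap]
    rw [h0, two_iff _ hδ', Ne, hfi, hgr]
    constructor
    · rintro ⟨⟨h1, h2⟩, h3⟩
      refine ⟨?_, h1⟩
      rw [h1, htwo, hR, map_mul] at h2
      refine (mul_eq_zero.1 h2).resolve_left fun h4 => h3 ⟨?_, h4⟩
      rw [h1, ← hgr]
      unfold fixP at h4
      rw [map_sub, map_mul, aeval_C, aeval_X, sub_eq_zero, map_add, map_one] at h4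
      rw [eval_map_algebraMap, h4, inv_mul_cancel_left₀ hδ']
    · rintro ⟨h1, h2⟩
      refine ⟨⟨h2, ?_⟩, fun h3 => no_double hd hF hδ hirr hR h1 h3.2⟩
      rw [h2, htwo, hR, map_mul, h1, mul_zero]
  have hmin : ∀ x : Ω, aeval x R = 0 → Irreducible R ∧
      (minpoly K x).natDegree = R.natDegree := by
    intro x hx
    refine irr_of_root hRne hx ?_
    obtain ⟨h1, h2⟩ := (hiff (x, aeval x (halfP F δ))).2 ⟨hx, rfl⟩
    have h3 := hdvd _ h1 h2
    simp only at h3
    rw [finrank_graph] at h3
    rw [hRdeg]
    exact Nat.le_of_dvd (minpoly.natDegree_pos (Algebra.IsIntegral.isIntegral x)) h3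
  obtain ⟨x, hx⟩ : ∃ x : Ω, aeval x R = 0 := by
    refine IsAlgClosed.exists_aeval_eq_zero Ω R ?_
    rw [degree_eq_natDegree hRne, hRdeg]
    have : d * (d - 1) ≠ 0 := Nat.mul_ne_zero (by omega) (by omega)
    exact_mod_cast this
  have hRirr := (hmin x hx).1
  refine ⟨?_, ?_⟩
  · have h1 : {P : Ω × Ω | (henon (F.map (algebraMap K Ω)) (algebraMap K Ω δ))^[2] P = P ∧
        henon (F.map (algebraMap K Ω)) (algebraMap K Ω δ) P ≠ P} =
        (fun x : Ω => (x, aeval x (halfP F δ))) '' (R.rootSet Ω) := by
      ext P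
      rw [Set.mem_image]
      constructor
      · intro hP
        obtain ⟨h2, h3⟩ := (hiff P).1 hP
        exact ⟨P.1, (mem_rootSet_of_ne hRne).2 h2, Prod.ext rfl h3.symm⟩
      · rintro ⟨y, hy, rfl⟩
        exact (hiff _).2 ⟨(mem_rootSet_of_ne hRne).1 hy, rfl⟩
    rw [h1, Set.ncard_image_of_injective _ (fun x y h => (Prod.ext_iff.1 h).1), ncard_rootSet hRirr,
      hRdeg]
  · intro P h2 h3
    obtain ⟨h4, h5⟩ := (hiff P).1 ⟨h2, h3⟩
    rw [h5, finrank_graph, (hmin _ h4).2, hRdeg]

end Pool.Agent.H912.DY
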