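import Mathlib

/-!
# Periods of Hénon maps over a local ring with finite residue field (helper912)
-/

set_option autoImplicit false
set_option linter.unusedSectionVars false

open Finset Polynomial IsLocalRing Matrix

namespace Pool.Agent.H912.DY

section Dp

variable {A : Type} [CommRing A] [IsLocalRing A]

/-- `M` is the differential of `G` at the residue class of `P`. -/
def Dp (G : (Fin 2 → A) → (Fin 2 → A)) (P : Fin 2 → A) (M : Matrix (Fin 2) (Fin 2) A) : Prop :=
  ∀ X Y : Fin 2 → A, (∀ i, X i - P i ∈ maximalIdeal A) → (∀ i, Y i - P i ∈ maximalIdeal A) →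
    ∀ I : Ideal A, (∀ i, Y i - X i ∈ I) →
      ∀ i, G Y i - G X i - (M *ᵥ (Y - X)) i ∈ maximalIdeal A * I

lemma mulVec_mem (M : Matrix (Fin 2) (Fin 2) A) {v : Fin 2 → A} {I : Ideal A} (hv : ∀ i, v i ∈ I)
    (i : Fin 2) : (M *ᵥ v) i ∈ I := by
  rw [mulVec, dotProduct]
  exact I.sum_mem fun j _ => I.mul_mem_left _ (hv j)

lemma mulVec_mem' {M : Matrix (Fin 2) (Fin 2) A} {v : Fin 2 → A} {I : Ideal A}
    (hM : ∀ i j, M i j ∈ maximalIdeal A) (hv : ∀ i, v i ∈ I) (i : Fin 2) :
    (M *ᵥ v) i ∈ maximalIdeal A * I := by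
  rw [mulVec, dotProduct]
  exact Ideal.sum_mem _ fun j _ => Ideal.mul_mem_mul (hM i j) (hv j)

lemma Dp.mem {G : (Fin 2 → A) → (Fin 2 → A)} {P : Fin 2 → A} {M : Matrix (Fin 2) (Fin 2) A}
    (h : Dp G P M) {X Y : Fin 2 → A} (hX : ∀ i, X i - P i ∈ maximalIdeal A)
    (hY : ∀ i, Y i - P i ∈ maximalIdeal A) {I : Ideal A} (hI : ∀ i, Y i - X i ∈ I) (i : Fin 2) :
    G Y i - G X i ∈ I := by
  have h1 := h X Y hX hY I hI i
  have h2 := mulVec_mem M (v := Y - X) (I := I) (fun i => hI i) i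
  have h3 : G Y i - G X i = (G Y i - G X i - (M *ᵥ (Y - X)) i) + (M *ᵥ (Y - X)) i := by ring
  have hle : maximalIdeal A * I ≤ I := Ideal.mul_le_right
  have h4 : G Y i - G X i - (M *ᵥ (Y - X)) i ∈ I := hle h1
  rw [h3]
  exact I.add_mem h4 h2

lemma Dp.comp {G G' : (Fin 2 → A) → (Fin 2 → A)} {P : Fin 2 → A}
    {M M' : Matrix (Fin 2) (Fin 2) A} (h : Dp G P M) (h' : Dp G' (G P) M') :
    Dp (G' ∘ G) P (M' * M) := by
  intro X Y hX hY I hI i
  have h0 : ∀ i, P i - P i ∈ maximalIdeal A := fun i => by rw [sub_self]; exact zero_mem _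
  have h1 := h' (G X) (G Y) (fun i => h.mem h0 hX hX i) (fun i => h.mem h0 hY hY i) I
    (fun i => h.mem hX hY hI i) i
  have h2 : (M' *ᵥ (G Y - G X - M *ᵥ (Y - X))) i ∈ maximalIdeal A * I :=
    mulVec_mem M' (I := maximalIdeal A * I) (fun j => h X Y hX hY I hI j) i
  have h3 : (G' ∘ G) Y i - (G' ∘ G) X i - ((M' * M) *ᵥ (Y - X)) i =
      (G' (G Y) i - G' (G X) i - (M' *ᵥ (G Y - G X)) i) +
        (M' *ᵥ (G Y - G X - M *ᵥ (Y - X))) i := by
    rw [mulVec_sub M' (G Y - G X), mulVec_mulVec]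
    simp only [Function.comp_apply, Pi.sub_apply]
    ring
  rw [h3]
  exact Ideal.add_mem _ h1 h2

lemma Dp.congr {G : (Fin 2 → A) → (Fin 2 → A)} {P Q : Fin 2 → A} {M : Matrix (Fin 2) (Fin 2) A}
    (h : Dp G P M) (hQ : ∀ i, Q i - P i ∈ maximalIdeal A) : Dp G Q M := by
  intro X Y hX hY I hI i
  refine h X Y (fun i => ?_) (fun i => ?_) I hI i
  · have := Ideal.add_mem _ (hX i) (hQ i)
    rwa [sub_add_sub_cancel] at this
  · have := Ideal.add_mem _ (hY i) (hQ i)
    rwa [sub_add_sub_cancel] at this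

lemma Dp.congr_mat {G : (Fin 2 → A) → (Fin 2 → A)} {P : Fin 2 → A}
    {M M' : Matrix (Fin 2) (Fin 2) A} (h : Dp G P M)
    (hM : ∀ i j, M i j - M' i j ∈ maximalIdeal A) : Dp G P M' := by
  intro X Y hX hY I hI i
  have h1 := h X Y hX hY I hI i
  have h2 : ((M - M') *ᵥ (Y - X)) i ∈ maximalIdeal A * I :=
    mulVec_mem' (fun i j => hM i j) (fun i => hI i) i
  have h3 : G Y i - G X i - (M' *ᵥ (Y - X)) i =
      (G Y i - G X i - (M *ᵥ (Y - X)) i) + ((M - M') *ᵥ (Y - X)) i := by
    rw [sub_mulVec]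
    simp only [Pi.sub_apply]
    ring
  rw [h3]
  exact Ideal.add_mem _ h1 h2

/-- iterates of a map which fixes the residue class of `P` -/
lemma Dp.iterate {G : (Fin 2 → A) → (Fin 2 → A)} {P : Fin 2 → A} {M : Matrix (Fin 2) (Fin 2) A}
    (h : Dp G P M) (hP : ∀ i, G P i - P i ∈ maximalIdeal A) (k : ℕ) :
    Dp G^[k] P (M ^ k) ∧ ∀ i, G^[k] P i - P i ∈ maximalIdeal A := by
  induction k with
  | zero =>
    refine ⟨fun X Y _ _ I _ i => ?_, fun i => ?_⟩
    · simp
    · simp
  | succ k ih =>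
    have h1 : Dp G (G^[k] P) M := h.congr ih.2
    constructor
    · rw [Function.iterate_succ', pow_succ']
      exact ih.1.comp h1
    · intro i
      have h0 : ∀ i, P i - P i ∈ maximalIdeal A := fun i => by rw [sub_self]; exact zero_mem _
      have h2 := h.mem h0 ih.2 ih.2 i
      rw [← Function.iterate_succ_apply' G k P] at h2
      have := Ideal.add_mem _ h2 (hP i)
      rwa [sub_add_sub_cancel] at this

/-- a map tangent to the identity has no cycles of length prime to the residue characteristic -/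
theorem Dp.fixed {G : (Fin 2 → A) → (Fin 2 → A)} {P : Fin 2 → A}
    (h : Dp G P 1) (hP : ∀ i, G P i - P i ∈ maximalIdeal A) {l : ℕ} (hl : IsUnit (l : A))
    (hper : G^[l] P = P) : G P = P := by
  have h0 : ∀ i, P i - P i ∈ maximalIdeal A := fun i => by rw [sub_self]; exact zero_mem _
  set x : Fin 2 → A := G P - P with hx
  set I : Ideal A := Ideal.span (Set.range x) with hI
  have hxI : ∀ i, x i ∈ I := fun i => Ideal.subset_span ⟨i, rfl⟩
  have hIm : I ≤ maximalIdeal A := by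
    rw [hI, Ideal.span_le]
    rintro _ ⟨i, rfl⟩
    exact hP i
  have key : ∀ k : ℕ, ∀ i, G^[k] P i - P i - (k : A) * x i ∈ maximalIdeal A * I := by
    intro k
    induction k with
    | zero =>
      intro i
      simp
    | succ k ih =>
      intro i
      have h1 : ∀ i, G^[k] P i - P i ∈ I := fun i => by
        have h2 : G^[k] P i - P i = (G^[k] P i - P i - (k : A) * x i) + (k : A) * x i := by ring
        have hle : maximalIdeal A * I ≤ I := Ideal.mul_le_right
        have h4 : G^[k] P i - P i - (k : A) * x i ∈ I := hle (ih i)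
        rw [h2]
        exact I.add_mem h4 (I.mul_mem_left _ (hxI i))
      have h2 := h P (G^[k] P) h0 (fun i => hIm (h1 i)) I h1 i
      rw [one_mulVec, ← Function.iterate_succ_apply' G k P] at h2
      have h3 : G^[k + 1] P i - P i - ((k + 1 : ℕ) : A) * x i =
          (G^[k + 1] P i - G P i - (G^[k] P - P) i) + (G^[k] P i - P i - (k : A) * x i) := by
        simp only [hx, Pi.sub_apply]
        push_cast
        ring
      rw [h3]
      exact Ideal.add_mem _ h2 (ih i)
  have h1 : ∀ i, x i ∈ maximalIdeal A * I := by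
    intro i
    have h2 := key l i
    rw [hper, sub_self, zero_sub, neg_mem_iff] at h2
    obtain ⟨u, hu⟩ := hl
    have h3 := (maximalIdeal A * I).mul_mem_left (↑u⁻¹ : A) h2
    rw [← mul_assoc, ← hu, Units.inv_mul, one_mul] at h3
    exact h3
  have h2 : I ≤ maximalIdeal A * I := by
    rw [hI, Ideal.span_le]
    rintro _ ⟨i, rfl⟩
    exact h1 i
  have h3 : I = ⊥ := by
    refine Submodule.eq_bot_of_le_smul_of_le_jacobson_bot (maximalIdeal A) I ?_ h2 ?_
    · exact ⟨(Set.range x).toFinite.toFinset, by simp [hI, Ideal.span]⟩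
    · exact IsLocalRing.maximalIdeal_le_jacobson _
  funext i
  have h4 := hxI i
  rw [h3, Ideal.mem_bot, hx, Pi.sub_apply, sub_eq_zero] at h4
  exact h4

/-- the Hénon map over a ring -/
def hmap (F : A[X]) (δ : A) (P : Fin 2 → A) : Fin 2 → A := ![P 1, F.eval (P 1) - δ * P 0]

lemma hmap_Dp (F : A[X]) (δ : A) (P : Fin 2 → A) :
    Dp (hmap F δ) P !![0, 1; -δ, F.derivative.eval (P 1)] := by
  intro X Y hX hY I hI i
  fin_cases i
  · simp [hmap, mulVec, dotProduct, Fin.sum_univ_two]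
  · simp only [hmap, mulVec, dotProduct, Fin.sum_univ_two, Fin.mk_one, Fin.isValue, cons_val_one,
      cons_val_fin_one, of_apply, cons_val', cons_val_zero, Pi.sub_apply]
    obtain ⟨k, hk⟩ := F.binomExpansion (X 1) (Y 1 - X 1)
    rw [add_sub_cancel] at hk
    have h1 : F.derivative.eval (X 1) - F.derivative.eval (P 1) ∈ maximalIdeal A := by
      obtain ⟨c, hc⟩ := Polynomial.sub_dvd_eval_sub (X 1) (P 1) F.derivative
      rw [hc]
      exact Ideal.mul_mem_right _ _ (hX 1)
    have h2 : Y 1 - X 1 ∈ maximalIdeal A := by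
      have := Ideal.sub_mem _ (hY 1) (hX 1)
      rwa [sub_sub_sub_cancel_right] at this
    have h3 : F.eval (Y 1) - δ * Y 0 - (F.eval (X 1) - δ * X 0) -
        (-δ * (Y 0 - X 0) + F.derivative.eval (P 1) * (Y 1 - X 1)) =
        (F.derivative.eval (X 1) - F.derivative.eval (P 1)) * (Y 1 - X 1) +
          (Y 1 - X 1) * (k * (Y 1 - X 1)) := by
      rw [hk]
      ring
    rw [h3]
    exact Ideal.add_mem _ (Ideal.mul_mem_mul h1 (hI 1))
      (Ideal.mul_mem_mul h2 (I.mul_mem_left _ (hI 1)))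

lemma hmap_iterate_Dp (F : A[X]) {δ : A} (hδ : IsUnit δ) (P : Fin 2 → A) (k : ℕ) :
    ∃ M : Matrix (Fin 2) (Fin 2) A, IsUnit M.det ∧ Dp (hmap F δ)^[k] P M := by
  induction k with
  | zero =>
    refine ⟨1, by simp, fun X Y _ _ I _ i => ?_⟩
    simp
  | succ k ih =>
    obtain ⟨M, hM, hD⟩ := ih
    refine ⟨_, ?_, by
      rw [Function.iterate_succ']
      exact hD.comp (hmap_Dp F δ ((hmap F δ)^[k] P))⟩
    rw [det_mul]
    refine IsUnit.mul ?_ hM
    rw [det_fin_two_of]
    simpa using hδ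

end Dp

end Pool.Agent.H912.DY
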