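import Pool.Agent.H912.DY.P1

/-!
# Periods of Hénon maps over a local ring with finite residue field, II (helper912)
-/

set_option autoImplicit false
set_option linter.unusedSectionVars false

open Finset Polynomial IsLocalRing Matrix Function

namespace Pool.Agent.H912.DY

lemma hmap_map {A B : Type} [CommRing A] [CommRing B] (π : A →+* B) (F : A[X]) (δ : A)
    (P : Fin 2 → A) :
    (fun i => π (hmap F δ P i)) = hmap (F.map π) (π δ) (fun i => π (P i)) := by
  funext i
  fin_cases i
  · simp [hmap]
  · simp [hmap, eval_map_apply]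

lemma hmap_map_iterate {A B : Type} [CommRing A] [CommRing B] (π : A →+* B) (F : A[X]) (δ : A)
    (n : ℕ) (P : Fin 2 → A) :
    (fun i => π ((hmap F δ)^[n] P i)) = (hmap (F.map π) (π δ))^[n] (fun i => π (P i)) := by
  have h : Semiconj (fun (P : Fin 2 → A) i => π (P i)) (hmap F δ) (hmap (F.map π) (π δ)) :=
    fun P => hmap_map π F δ P
  exact h.iterate_right n P

/-- the number which is a multiple of the periods, up to powers of the characteristic -/
def EE (S : ℕ) : ℕ := (S ^ 2).factorial * (S ^ 4).factorial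

lemma EE_pos (S : ℕ) : 0 < EE S := Nat.mul_pos (Nat.factorial_pos _) (Nat.factorial_pos _)

theorem period_local {A : Type} [CommRing A] [IsLocalRing A] {F : A[X]} {δ : A} (hδ : IsUnit δ)
    {P : Fin 2 → A} {n : ℕ} (hn : 0 < n) (hP : (hmap F δ)^[n] P = P) {S p : ℕ} (hp : p.Prime)
    [CharP (ResidueField A) p] [Finite (ResidueField A)]
    (hS : Nat.card (ResidueField A) ≤ S) :
    ∃ t, (hmap F δ)^[EE S * p ^ t] P = P := by
  classical
  have : Fintype (ResidueField A) := Fintype.ofFinite _
  rw [Nat.card_eq_fintype_card] at hS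
  set π := residue A with hπ
  -- the period of the reduction
  set H := hmap F δ with hH
  set H' := hmap (F.map π) (π δ) with hH'
  set P' : Fin 2 → ResidueField A := fun i => π (P i) with hP'
  have h1 : H'^[n] P' = P' := by
    have := hmap_map_iterate π F δ n P
    rw [← hH, hP] at this
    exact this.symm
  have h2 : minimalPeriod H' P' ≤ S ^ 2 := by
    refine minimalPeriod_le_card.trans ?_
    rw [Fintype.card_fun, Fintype.card_fin]
    exact Nat.pow_le_pow_left hS 2
  have h3 : 0 < minimalPeriod H' P' := IsPeriodicPt.minimalPeriod_pos hn h1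
  have h4 : H'^[(S ^ 2).factorial] P' = P' :=
    (isPeriodicPt_iff_minimalPeriod_dvd).2 (Nat.dvd_factorial h3 h2)
  set g := H^[(S ^ 2).factorial] with hg
  have h5 : ∀ i, g P i - P i ∈ maximalIdeal A := by
    intro i
    have h6 := hmap_map_iterate π F δ (S ^ 2).factorial P
    rw [← hH, ← hg, ← hH', ← hP', h4] at h6
    have h7 := congrFun h6 i
    rw [← Ideal.Quotient.eq_zero_iff_mem]
    have h8 : π (g P i - P i) = 0 := by
      rw [map_sub, sub_eq_zero]
      exact h7
    exact h8
  obtain ⟨M, hM, hD⟩ := hmap_iterate_Dp F hδ P (S ^ 2).factorial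
  rw [← hH, ← hg] at hD
  -- the order of the differential
  have h6 : ∀ i j, (M ^ (S ^ 4).factorial) i j - (1 : Matrix (Fin 2) (Fin 2) A) i j ∈
      maximalIdeal A := by
    have h7 : IsUnit (M.map π) := by
      rw [Matrix.isUnit_iff_isUnit_det]
      have h8 : (M.map π).det = π M.det := (RingHom.map_det π M).symm
      rw [h8]
      exact hM.map π
    obtain ⟨u, hu⟩ := h7
    have h8 : orderOf u ≤ S ^ 4 := by
      refine (orderOf_le_card_univ).trans ?_
      refine (Fintype.card_le_of_injective (fun u : (Matrix (Fin 2) (Fin 2) (ResidueField A))ˣ =>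
        (u : Matrix (Fin 2) (Fin 2) (ResidueField A))) Units.val_injective).trans ?_
      have h9 : Fintype.card (Matrix (Fin 2) (Fin 2) (ResidueField A)) =
          Fintype.card (ResidueField A) ^ 4 := by
        have h10 : Fintype.card (Matrix (Fin 2) (Fin 2) (ResidueField A)) =
          Fintype.card (Fin 2 → Fin 2 → ResidueField A) := Fintype.card_congr Matrix.of.symm
        rw [h10, Fintype.card_fun, Fintype.card_fun, Fintype.card_fin, ← pow_mul]
      rw [h9]
      exact Nat.pow_le_pow_left hS 4
    have h9 : u ^ (S ^ 4).factorial = 1 :=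
      orderOf_dvd_iff_pow_eq_one.1 (Nat.dvd_factorial (orderOf_pos u) h8)
    have h10 : (M ^ (S ^ 4).factorial).map π = 1 := by
      have h11 : (M ^ (S ^ 4).factorial).map π = (M.map π) ^ (S ^ 4).factorial := by
        exact map_pow (RingHom.mapMatrix π) M _
      rw [h11, ← hu, ← Units.val_pow_eq_pow_val, h9, Units.val_one]
    intro i j
    have h11 := congrFun (congrFun h10 i) j
    rw [← Ideal.Quotient.eq_zero_iff_mem]
    have h12 : π ((M ^ (S ^ 4).factorial) i j - (1 : Matrix (Fin 2) (Fin 2) A) i j) = 0 := by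
      rw [map_sub, sub_eq_zero]
      have h13 : π ((M ^ (S ^ 4).factorial) i j) = (1 : Matrix (Fin 2) (Fin 2) (ResidueField A)) i j :=
        h11
      rw [h13]
      by_cases hij : i = j
      · subst hij
        simp
      · rw [Matrix.one_apply_ne hij, Matrix.one_apply_ne hij, map_zero]
    exact h12
  have h7 := hD.iterate h5 (S ^ 4).factorial
  set G := g^[(S ^ 4).factorial] with hG
  have hD1 : Dp G P 1 := h7.1.congr_mat h6
  have hGH : ∀ k, G^[k] = H^[EE S * k] := by
    intro k
    rw [hG, hg, ← iterate_mul, ← iterate_mul, EE, mul_assoc]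
  have hGn : G^[n] P = P := by
    rw [hGH, mul_comm, iterate_mul]
    exact iterate_fixed hP _
  have hpos : 0 < minimalPeriod G P := IsPeriodicPt.minimalPeriod_pos hn hGn
  have huniq : ∀ {l : ℕ}, l.Prime → l ∣ minimalPeriod G P → l = p := by
    intro l hl hdvd
    by_contra hne
    have hlu : IsUnit (l : A) := by
      rw [← IsLocalRing.notMem_maximalIdeal, ← Ideal.Quotient.eq_zero_iff_mem]
      intro h8
      have h9 : π (l : A) = 0 := h8
      rw [map_natCast, CharP.cast_eq_zero_iff (ResidueField A) p] at h9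
      exact hne (((Nat.prime_dvd_prime_iff_eq hp hl).1 h9).symm)
    obtain ⟨k, hk⟩ := hdvd
    have hk0 : 0 < k := by
      rcases Nat.eq_zero_or_pos k with rfl | h
      · rw [hk, mul_zero] at hpos
        exact absurd hpos (lt_irrefl 0)
      · exact h
    have h8 := hD1.iterate h7.2 k
    rw [one_pow] at h8
    have h9 : (G^[k])^[l] P = P := by
      rw [← iterate_mul, mul_comm, ← hk]
      exact isPeriodicPt_minimalPeriod G P
    have h10 : G^[k] P = P := h8.1.fixed h8.2 hlu h9
    have h11 : minimalPeriod G P ≤ k := IsPeriodicPt.minimalPeriod_le hk0 h10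
    rw [hk] at h11
    have := hl.two_le
    nlinarith
  have h8 := Nat.eq_prime_pow_of_unique_prime_dvd hpos.ne' huniq
  refine ⟨(minimalPeriod G P).primeFactorsList.length, ?_⟩
  rw [← hGH, ← h8]
  exact isPeriodicPt_minimalPeriod G P

/-- two local periods bound the period -/
lemma dvd_of_two {n E p p' t t' : ℕ} (hp : p.Prime) (hp' : p'.Prime) (hpp : p ≠ p')
    (h : n ∣ E * p ^ t) (h' : n ∣ E * p' ^ t') : n ∣ E := by
  have h1 : n ∣ Nat.gcd (E * p ^ t) (E * p' ^ t') := Nat.dvd_gcd h h'
  rw [Nat.gcd_mul_left] at h1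
  have h2 : Nat.gcd (p ^ t) (p' ^ t') = 1 :=
    Nat.Coprime.pow _ _ ((Nat.coprime_primes hp hp').2 hpp)
  rwa [h2, mul_one] at h1

end Pool.Agent.H912.DY
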