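import Pool.Agent.H912.DY.P2
import Pool.Agent.H912.DY.H1

/-!
# Hénon maps over a field with a valuation ring with finite residue field (helper912)
-/

set_option autoImplicit false
set_option linter.unusedSectionVars false

open Finset Polynomial IsLocalRing Function

namespace Pool.Agent.H912.DY

/-- periodic points are integral at a place of good reduction -/
theorem henon_integral {L : Type} {Γ : Type*} [Field L] [LinearOrderedCommGroupWithZero Γ]
    (w : Valuation L Γ) {F : L[X]} {d : ℕ} (hd : 2 ≤ d) (hF : F.natDegree = d)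
    (hi : ∀ i, w (F.coeff i) ≤ 1) (hlead : w (F.coeff d) = 1) {δ : L} (hδ : w δ ≤ 1)
    {P : L × L} {n : ℕ} (hn : 0 < n) (hP : (henon F δ)^[n] P = P) (i : ℕ) :
    w (orb F δ P i) ≤ 1 := by
  obtain ⟨k, hk⟩ := orb_max F δ P w hn hP
  refine (hk i).trans ?_
  set x := orb F δ P (k + 1) with hx
  by_contra hM
  rw [not_le] at hM
  have hrec := orb_rec F δ P k
  rw [← hx, eval_eq_sum_range, hF, sum_range_succ] at hrec
  have hδk : w (δ * orb F δ P k) ≤ w x := by
    rw [map_mul]
    exact (mul_le_mul' hδ (hk k)).trans (by rw [one_mul])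
  have hlt : ∀ i, i < d → w x ^ i < w x ^ d := fun i hi' => pow_lt_pow_right₀ hM hi'
  have hx1 : w x < w x ^ d := by simpa using hlt 1 (by omega)
  have hne : w x ^ d ≠ 0 := (lt_of_le_of_lt zero_le hx1).ne'
  have h1 : F.coeff d * x ^ d = orb F δ P (k + 2) + δ * orb F δ P k -
      ∑ i ∈ range d, F.coeff i * x ^ i := by
    rw [hrec]
    ring
  have h2 : w (orb F δ P (k + 2) + δ * orb F δ P k -
      ∑ i ∈ range d, F.coeff i * x ^ i) < w x ^ d := by
    refine w.map_sub_lt (w.map_add_lt ((hk _).trans_lt hx1) (hδk.trans_lt hx1)) ?_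
    refine w.map_sum_lt hne fun i hi' => ?_
    rw [mem_range] at hi'
    rw [map_mul, map_pow]
    exact (mul_le_mul' (hi i) le_rfl).trans_lt (by rw [one_mul]; exact hlt i hi')
  rw [← h1, map_mul, map_pow, hlead, one_mul] at h2
  exact lt_irrefl _ h2

/-- the period at a place of good reduction -/
theorem period_val {L : Type} [Field L] (A : ValuationSubring L) {p S : ℕ} (hp : p.Prime)
    [CharP (ResidueField A) p] [Finite (ResidueField A)] (hS : Nat.card (ResidueField A) ≤ S)
    {F : L[X]} {d : ℕ} (hd : 2 ≤ d) (hF : F.natDegree = d)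
    (hi : ∀ i, A.valuation (F.coeff i) ≤ 1) (hlead : A.valuation (F.coeff d) = 1) {δ : L}
    (hδ : A.valuation δ = 1) {P : L × L} {n : ℕ} (hn : 0 < n) (hP : (henon F δ)^[n] P = P) :
    ∃ t, (henon F δ)^[EE S * p ^ t] P = P := by
  have hint := henon_integral A.valuation hd hF hi hlead hδ.le hn hP
  have h0 : P.1 ∈ A := (A.valuation_le_one_iff _).1 (hint 0)
  have h1 : P.2 ∈ A := by
    have := hint 1
    rw [orb_succ F δ P 0] at this
    exact (A.valuation_le_one_iff _).1 this
  obtain ⟨FA, hFA⟩ : ∃ FA : A[X], FA.map A.subtype = F := by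
    have : F ∈ Polynomial.lifts A.subtype := by
      rw [Polynomial.lifts_iff_coeff_lifts]
      exact fun i => ⟨⟨F.coeff i, (A.valuation_le_one_iff _).1 (hi i)⟩, rfl⟩
    exact this
  let δA : A := ⟨δ, (A.valuation_le_one_iff _).1 hδ.le⟩
  have hδA : IsUnit δA := by
    rw [A.valuation_eq_one_iff]
    exact hδ
  let Q : Fin 2 → A := ![⟨P.1, h0⟩, ⟨P.2, h1⟩]
  let toL : (Fin 2 → A) → L × L := fun Q => (A.subtype (Q 0), A.subtype (Q 1))
  have htoL : Injective toL := by
    intro Q Q' h
    have h2 := (Prod.ext_iff.1 h).1
    have h3 := (Prod.ext_iff.1 h).2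
    funext i
    fin_cases i
    · exact Subtype.coe_injective h2
    · exact Subtype.coe_injective h3
  have hsemi : Semiconj toL (hmap FA δA) (henon F δ) := by
    intro Q
    show (A.subtype ((hmap FA δA Q) 0), A.subtype ((hmap FA δA Q) 1)) =
      henon F δ (A.subtype (Q 0), A.subtype (Q 1))
    have h2 : (hmap FA δA Q) 0 = Q 1 := rfl
    have h3 : (hmap FA δA Q) 1 = FA.eval (Q 1) - δA * Q 0 := rfl
    rw [h2, h3, henon, ← hFA, eval_map_apply, map_sub, map_mul]
    rfl
  have hQ : toL Q = P := rfl
  have hQn : (hmap FA δA)^[n] Q = Q := by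
    apply htoL
    rw [hsemi.iterate_right n Q, hQ, hP]
  obtain ⟨t, ht⟩ := period_local hδA hn hQn hp hS
  refine ⟨t, ?_⟩
  rw [← hQ, ← hsemi.iterate_right _ Q, ht]

/-- monomials -/
def mon {L ι : Type} [Field L] [Fintype ι] (z : ι → L) (e : ι → ℕ) : L := ∏ i, z i ^ e i

lemma mon_add {L ι : Type} [Field L] [Fintype ι] [DecidableEq ι] (z : ι → L) (e : ι → ℕ) (k : ι)
    (j : ℕ) : mon z (e + Pi.single k j) = mon z e * z k ^ j := by
  unfold mon
  simp only [Pi.add_apply, pow_add, prod_mul_distrib]
  congr 1
  rw [prod_eq_single k]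
  · simp
  · intro i _ hi
    simp [hi]
  · exact fun h => absurd (mem_univ _) h

/-- the characters given by the points -/
def chi {L ι : Type} [Field L] [Fintype ι] (z : ι → L) : Multiplicative (ι → ℕ) →* L where
  toFun e := mon z e.toAdd
  map_one' := by simp [mon]
  map_mul' e e' := by simp [mon, pow_add, prod_mul_distrib]

lemma chi_injective {L ι : Type} [Field L] [Fintype ι] [DecidableEq ι] :
    Injective (chi (L := L) (ι := ι)) := by
  intro z z' h
  funext i
  have h1 := DFunLike.congr_fun h (Multiplicative.ofAdd (Pi.single i 1))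
  have h2 : ∀ z : ι → L, chi z (Multiplicative.ofAdd (Pi.single i 1)) = z i := by
    intro z
    show mon z (Pi.single i 1) = z i
    have := mon_add z 0 i 1
    rw [zero_add] at this
    rw [this]
    simp [mon]
  rwa [h2, h2] at h1

/-- the solutions of a system of equations with leading terms `x_i ^ d` -/
theorem count_aux {L ι : Type} [Field L] [Fintype ι] [DecidableEq ι] (σ τ : ι → ι) {F : L[X]}
    {d : ℕ} (hd : 2 ≤ d) (hF : F.natDegree = d) (δ : L) (Z : Set (ι → L))
    (hZ : ∀ z ∈ Z, ∀ i, F.eval (z i) = z (σ i) + δ * z (τ i)) :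
    Z.Finite ∧ Z.ncard ≤ d ^ Fintype.card ι := by
  have hlc : F.coeff d ≠ 0 := by
    intro h
    have h1 : F ≠ 0 := by
      rintro rfl
      rw [natDegree_zero] at hF
      omega
    apply h1
    rw [← leadingCoeff_eq_zero, leadingCoeff, hF]
    exact h
  let r : Z → ((ι → Fin d) → L) := fun z e => mon z.1 (fun i => (e i : ℕ))
  have hr : LinearIndependent L r := by
    rw [linearIndependent_iff']
    intro s g hg
    have key : ∀ m : ℕ, ∀ e : ι → ℕ, ∑ i, e i ≤ m → ∑ z ∈ s, g z * mon z.1 e = 0 := by
      intro m
      induction m with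
      | zero =>
        intro e he
        have he0 : ∀ i, e i < d := by
          intro i
          have := (sum_eq_zero_iff (s := univ) (f := e)).1 (by omega) i (mem_univ i)
          omega
        have h1 := congrFun hg (fun i => ⟨e i, he0 i⟩)
        simpa [r] using h1
      | succ m ih =>
        intro e he
        by_cases hred : ∀ i, e i < d
        · have h1 := congrFun hg (fun i => ⟨e i, hred i⟩)
          simpa [r] using h1
        · push Not at hred
          obtain ⟨i, hi⟩ := hred
          set e' : ι → ℕ := update e i (e i - d) with he'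
          have hee : e = e' + Pi.single i d := by
            funext k
            by_cases hk : k = i
            · subst hk
              simp [he']
              omega
            · simp [he', hk]
          have hsum : ∑ i, e' i + d ≤ m + 1 := by
            have h1 : ∑ k, e k = ∑ k, e' k + d := by
              conv_lhs => rw [hee]
              simp [sum_add_distrib]
            omega
          have hsingle : ∀ k j, j < d → ∑ z ∈ s, g z * mon z.1 (e' + Pi.single k j) = 0 := by
            intro k j hj
            apply ih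
            have h1 : ∑ l, (e' + (Pi.single k j : ι → ℕ)) l = ∑ l, e' l + j := by
              simp [sum_add_distrib]
            rw [h1]
            omega
          have h1 : F.coeff d * ∑ z ∈ s, g z * mon z.1 e = 0 := by
            have h2 : ∀ z ∈ s, F.coeff d * (g z * mon z.1 e) =
                g z * mon z.1 (e' + Pi.single (σ i) 1) + δ * (g z * mon z.1 (e' + Pi.single (τ i) 1)) -
                  ∑ j ∈ range d, F.coeff j * (g z * mon z.1 (e' + Pi.single i j)) := by
              intro z _
              have h3 := hZ z.1 z.2 i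
              rw [eval_eq_sum_range, hF, sum_range_succ] at h3
              have h4 : F.coeff d * z.1 i ^ d = z.1 (σ i) + δ * z.1 (τ i) -
                  ∑ j ∈ range d, F.coeff j * z.1 i ^ j := by
                rw [← h3]
                ring
              have h5 : ∑ j ∈ range d, F.coeff j * (g z * mon z.1 (e' + Pi.single i j)) =
                  (g z * mon z.1 e') * ∑ j ∈ range d, F.coeff j * z.1 i ^ j := by
                rw [mul_sum]
                refine sum_congr rfl fun j _ => ?_
                rw [mon_add]
                ring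
              rw [h5, hee, mon_add, mon_add, mon_add, pow_one, pow_one]
              linear_combination (g z * mon z.1 e') * h4
            rw [mul_sum, sum_congr rfl h2, sum_sub_distrib, sum_add_distrib, ← mul_sum,
              hsingle _ 1 (by omega), hsingle _ 1 (by omega), sum_comm]
            have h3 : ∑ j ∈ range d, ∑ z ∈ s, F.coeff j * (g z * mon z.1 (e' + Pi.single i j)) =
                0 := by
              refine sum_eq_zero fun j hj => ?_
              rw [← mul_sum, hsingle i j (mem_range.1 hj), mul_zero]
            rw [h3]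
            ring
          exact (mul_eq_zero.1 h1).resolve_left hlc
    have hli := (linearIndependent_monoidHom (Multiplicative (ι → ℕ)) L).comp
      (fun z : Z => chi z.1) (fun z z' h => Subtype.ext (chi_injective h))
    rw [linearIndependent_iff'] at hli
    refine hli s g ?_
    funext e
    have h1 := key (∑ i, e.toAdd i) e.toAdd le_rfl
    refine Eq.trans ?_ h1
    rw [Finset.sum_apply]
    rfl
  have hfin : Finite Z := hr.finite_of_isNoetherian
  refine ⟨Set.toFinite Z, ?_⟩
  have : Fintype Z := Fintype.ofFinite _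
  have h1 := hr.fintype_card_le_finrank
  rw [Module.finrank_fintype_fun_eq_card, Fintype.card_fun, Fintype.card_fin] at h1
  rw [← Nat.card_coe_set_eq, Nat.card_eq_fintype_card]
  exact h1

/-- the number of the fixed points of the iterates -/
theorem card_fixed {L : Type} [Field L] {F : L[X]} {d : ℕ} (hd : 2 ≤ d) (hF : F.natDegree = d)
    (δ : L) {n : ℕ} (hn : 0 < n) :
    {P : L × L | (henon F δ)^[n] P = P}.Finite ∧
      {P : L × L | (henon F δ)^[n] P = P}.ncard ≤ d ^ n := by
  let T : Set (L × L) := {P : L × L | (henon F δ)^[n] P = P}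
  let q : L × L → (Fin n → L) := fun P i => orb F δ P i
  have hq : Set.InjOn q T := by
    intro P hP P' hP' h
    have h1 : ∀ i, orb F δ P i = orb F δ P' i := by
      intro i
      rw [orb_mod F δ P hP i, orb_mod F δ P' hP' i]
      exact congrFun h ⟨i % n, Nat.mod_lt _ hn⟩
    have h2 : P.2 = P'.2 := by
      have := h1 1
      rwa [orb_succ F δ P 0, orb_succ F δ P' 0] at this
    exact Prod.ext (h1 0) h2
  obtain ⟨h1, h2⟩ := count_aux (ι := Fin n) (fun i => ⟨(i + 1) % n, Nat.mod_lt _ hn⟩)
    (fun i => ⟨(i + (n - 1)) % n, Nat.mod_lt _ hn⟩) hd hF δ (q '' T) (by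
      rintro _ ⟨P, hP, rfl⟩ i
      show F.eval (orb F δ P i) = orb F δ P ((i + 1) % n) + δ * orb F δ P ((i + (n - 1)) % n)
      rw [← orb_mod F δ P hP, ← orb_mod F δ P hP]
      have h3 := orb_rec F δ P (i + (n - 1))
      have h4 : (i : ℕ) + (n - 1) + 1 = i + n := by omega
      have h5 : (i : ℕ) + (n - 1) + 2 = i + 1 + n := by omega
      rw [h4, h5, orb_period F δ P hP, orb_period F δ P hP] at h3
      rw [h3]
      ring)
  rw [Fintype.card_fin] at h2
  refine ⟨Set.Finite.of_finite_image h1 hq, ?_⟩
  rw [← hq.ncard_image]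
  exact h2

end Pool.Agent.H912.DY
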