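import Pool.Agent.H912.DY.T2
import Pool.Agent.H912.DY.H2

/-!
# The exponent of a Galois group and the ramification indices, II (helper912)
-/

set_option autoImplicit false

open Finset IsDedekindDomain
open scoped NumberField

namespace Pool.Agent.H912.DY

lemma inertia_val {K N : Type} [Field K] [NumberField K] [Field N] [NumberField N]
    [Algebra K N] (w : HeightOneSpectrum (𝓞 N)) {σ : N ≃ₐ[K] N}
    (hσ : σ ∈ w.asIdeal.inertia (N ≃ₐ[K] N)) {z : N} (hz : w.valuation N z ≤ 1) :
    w.valuation N (σ z - z) < 1 := by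
  have hprime : w.asIdeal.IsPrime := w.isPrime
  obtain ⟨c, a, ha, i, hi⟩ := AE.scale (R := 𝓞 N) (L := N) w.asIdeal ![z, 1] (by
    intro h
    have := congrFun h 1
    simp at this)
  have h0 : algebraMap (𝓞 N) N (a 0) = c * z := ha 0
  have h1 : algebraMap (𝓞 N) N (a 1) = c := by
    have := ha 1
    simpa using this
  have ha1 : a 1 ∉ w.asIdeal := by
    intro h
    have h2 : i = 0 := by
      by_contra hi0
      have h3 : i = 1 := by
        fin_cases i
        · exact absurd rfl hi0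
        · rfl
      rw [h3] at hi
      exact hi h
    rw [h2] at hi
    have h3 := val_unit w hi
    rw [h0, map_mul, ← h1] at h3
    have h4 := (HeightOneSpectrum.valuation_lt_one_iff_mem w (K := N) (a 1)).2 h
    have h5 : w.valuation N (algebraMap (𝓞 N) N (a 1)) * w.valuation N z < 1 :=
      (mul_le_mul' le_rfl hz).trans_lt (by rwa [mul_one])
    rw [h3] at h5
    exact lt_irrefl _ h5
  have hu := val_unit w ha1
  have hs : ∀ b : 𝓞 N, w.valuation N (σ (algebraMap (𝓞 N) N b) - algebraMap (𝓞 N) N b) < 1 := by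
    intro b
    have h2 := hσ b
    have h3 := (HeightOneSpectrum.valuation_lt_one_iff_mem w (K := N) (σ • b - b)).2 h2
    have h4 : algebraMap (𝓞 N) N (σ • b - b) =
        σ (algebraMap (𝓞 N) N b) - algebraMap (𝓞 N) N b := by
      rw [map_sub]
      rfl
    rw [← h4]
    exact h3
  have hu' : w.valuation N (σ (algebraMap (𝓞 N) N (a 1))) = 1 := by
    rw [← hu]
    exact Valuation.map_eq_of_sub_lt _ (by rw [hu]; exact hs _)
  have hc0 : algebraMap (𝓞 N) N (a 1) ≠ 0 := by
    intro h
    rw [h, map_zero] at hu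
    exact zero_ne_one hu
  have hc0' : σ (algebraMap (𝓞 N) N (a 1)) ≠ 0 := by
    intro h
    rw [h, map_zero] at hu'
    exact zero_ne_one hu'
  have hz' : z = algebraMap (𝓞 N) N (a 0) / algebraMap (𝓞 N) N (a 1) := by
    rw [h0, h1, mul_comm, mul_div_cancel_right₀]
    rwa [← h1]
  have key : σ z - z = ((σ (algebraMap (𝓞 N) N (a 0)) - algebraMap (𝓞 N) N (a 0)) *
      algebraMap (𝓞 N) N (a 1) - algebraMap (𝓞 N) N (a 0) *
      (σ (algebraMap (𝓞 N) N (a 1)) - algebraMap (𝓞 N) N (a 1))) /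
      (algebraMap (𝓞 N) N (a 1) * σ (algebraMap (𝓞 N) N (a 1))) := by
    rw [hz', map_div₀]
    field_simp
    ring
  rw [key, map_div₀, map_mul (w.valuation N) (algebraMap (𝓞 N) N (a 1)), hu, hu', mul_one, div_one]
  refine Valuation.map_sub_lt _ ?_ ?_
  · rw [map_mul, hu, mul_one]
    exact hs _
  · rw [map_mul]
    exact (mul_le_mul' (HeightOneSpectrum.valuation_le_one w _) le_rfl).trans_lt
      (by rw [one_mul]; exact hs _)

lemma inertia_eq {K N : Type} [Field K] [NumberField K] [Field N] [NumberField N]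
    [Algebra K N] (v : HeightOneSpectrum (𝓞 K)) (w : HeightOneSpectrum (𝓞 N))
    (hw : w.asIdeal.LiesOver v.asIdeal) {σ : N ≃ₐ[K] N}
    (hσ : σ ∈ w.asIdeal.inertia (N ≃ₐ[K] N)) (x : N) :
    w.valuation N (σ x) = w.valuation N x := by
  by_cases hx : x = 0
  · rw [hx, map_zero]
  set e := v.asIdeal.ramificationIdx' w.asIdeal with he
  have he0 : e ≠ 0 :=
    Ideal.IsDedekindDomain.ramificationIdx'_ne_zero_of_liesOver w.asIdeal v.ne_bot
  have hwx : w.valuation N x ≠ 0 := (Valuation.ne_zero_iff _).2 hx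
  set m := WithZero.log (w.valuation N x) with hm
  have hwm : w.valuation N x = WithZero.exp m := (WithZero.exp_log hwx).symm
  obtain ⟨ϖ, hϖ⟩ := v.valuation_exists_uniformizer K
  have hϖ' : w.valuation N (algebraMap K N ϖ) = WithZero.exp (-(e : ℤ)) := by
    rw [← HeightOneSpectrum.valuation_liesOver N v w ϖ, hϖ, ← he, ← WithZero.exp_nsmul]
    congr 1
    simp
  have hz : w.valuation N (x ^ e * algebraMap K N ϖ ^ m) = 1 := by
    rw [map_mul, map_pow, map_zpow₀, hϖ', hwm, ← WithZero.exp_nsmul, ← WithZero.exp_zsmul,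
      ← WithZero.exp_add, ← WithZero.exp_zero]
    congr 1
    simp only [nsmul_eq_mul, smul_eq_mul]
    ring
  have hz' : w.valuation N (σ (x ^ e * algebraMap K N ϖ ^ m)) = 1 := by
    have h1 := Valuation.map_eq_of_sub_lt (w.valuation N) (x := x ^ e * algebraMap K N ϖ ^ m)
      (y := σ (x ^ e * algebraMap K N ϖ ^ m)) (by rw [hz]; exact inertia_val w hσ hz.le)
    rw [h1, hz]
  have h1 : w.valuation N (σ x) ^ e = w.valuation N x ^ e := by
    have h2 : w.valuation N (algebraMap K N ϖ ^ m) ≠ 0 := by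
      intro h
      rw [map_mul, h, mul_zero] at hz
      exact zero_ne_one hz
    have h3 := hz'.trans hz.symm
    rw [map_mul, map_pow, map_zpow₀, AlgEquiv.commutes, map_mul, map_mul (w.valuation N),
      map_pow, map_pow] at h3
    exact mul_right_cancel₀ h2 h3
  exact (pow_left_inj₀ zero_le zero_le he0).1 h1

theorem exponent_ram {K N : Type} [Field K] [NumberField K] [Field N] [NumberField N]
    [Algebra K N] [IsGalois K N] {f : ℕ} (hf : ∀ σ : N ≃ₐ[K] N, σ ^ f = 1)
    (v : HeightOneSpectrum (𝓞 K)) (w : HeightOneSpectrum (𝓞 N))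
    (hw : w.asIdeal.LiesOver v.asIdeal) {p : ℕ} (hp : p.Prime)
    (hpw : w.valuation N (p : N) < 1) {x : N} {m : ℤ} (hx : w.valuation N x = WithZero.exp m) :
    ∃ k : ℕ, ((v.asIdeal.ramificationIdx' w.asIdeal : ℕ) : ℤ) ∣ (p : ℤ) ^ k * f * m := by
  classical
  set I := w.asIdeal.inertia (N ≃ₐ[K] N) with hI
  have hfd : FiniteDimensional K N := Module.Finite.of_restrictScalars_finite ℚ K N
  have : Fintype I := Fintype.ofFinite _
  have he0 : v.asIdeal.ramificationIdx' w.asIdeal ≠ 0 :=
    Ideal.IsDedekindDomain.ramificationIdx'_ne_zero_of_liesOver w.asIdeal v.ne_bot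
  have hcard := card_inertia_eq v w hw
  rw [Nat.card_eq_fintype_card] at hcard
  obtain ⟨k, h, hph, hkh⟩ := Nat.exists_eq_pow_mul_and_not_dvd he0 p hp.ne_one
  have hx0 : x ≠ 0 := by
    rintro rfl
    rw [map_zero] at hx
    exact WithZero.exp_ne_zero hx.symm
  have hxf : x ^ f ≠ 0 := pow_ne_zero _ hx0
  have hwx : w.valuation N x ≠ 0 := (Valuation.ne_zero_iff _).2 hx0
  have ht : ∀ σ : I, w.valuation N ((σ : N ≃ₐ[K] N) (x ^ f) - x ^ f) < w.valuation N (x ^ f) := by
    rintro ⟨σ, hσ⟩
    set t := σ x / x with ht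
    have hwt : w.valuation N t = 1 := by
      rw [ht, map_div₀, inertia_eq v w hw hσ x, div_self hwx]
    have ht0 : t ≠ 0 := by
      intro h
      rw [h, map_zero] at hwt
      exact zero_ne_one hwt
    have htel : ∀ j : ℕ, (∏ i ∈ range j, (σ ^ i) t) * x = (σ ^ j) x := by
      intro j
      induction j with
      | zero => simp
      | succ j ih =>
        rw [prod_range_succ, mul_right_comm, ih, ← map_mul, ht, mul_div_cancel₀ _ hx0, pow_succ,
          AlgEquiv.mul_apply]
    have h1 : ∏ i ∈ range f, (σ ^ i) t = 1 := by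
      have h2 := htel f
      rw [hf, AlgEquiv.one_apply] at h2
      exact mul_right_cancel₀ hx0 (by rw [h2, one_mul])
    have h2 := prod_cong (w.valuation N) (range f) (fun i => (σ ^ i) t) ht0 (fun i _ => by
      rw [hwt]
      exact inertia_val w (Subgroup.pow_mem _ hσ i) hwt.le)
    rw [h1, hwt, one_pow, card_range] at h2
    have h3 : σ (x ^ f) - x ^ f = x ^ f * -(1 - t ^ f) := by
      rw [map_pow, ht, div_pow]
      field_simp
      ring
    show w.valuation N (σ (x ^ f) - x ^ f) < w.valuation N (x ^ f)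
    rw [h3, map_mul, Valuation.map_neg]
    have h4 : 0 < w.valuation N (x ^ f) := zero_lt_iff.2 ((Valuation.ne_zero_iff _).2 hxf)
    calc w.valuation N (x ^ f) * w.valuation N (1 - t ^ f) < w.valuation N (x ^ f) * 1 :=
          mul_lt_mul_of_pos_left h2 h4
      _ = w.valuation N (x ^ f) := mul_one _
  have h1 := val_esymm (w.valuation N) (H := I) (fun σ => (σ : N ≃ₐ[K] N) (x ^ f)) hxf ht hp hpw
    hph (hcard.trans hkh)
  set y := ∑ S ∈ powersetCard (p ^ k) (univ : Finset I), ∏ i ∈ S, (i : N ≃ₐ[K] N) (x ^ f) with hy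
  have hy0 : y ≠ 0 := by
    intro h
    rw [h, map_zero] at h1
    exact pow_ne_zero _ ((Valuation.ne_zero_iff _).2 hxf) h1.symm
  obtain ⟨j, hj⟩ := val_fixed v w hw hy0 (fun τ hτ => esymm_fixed I (x ^ f) (p ^ k) τ hτ)
  rw [h1, map_pow, hx, ← WithZero.exp_nsmul, ← WithZero.exp_nsmul, WithZero.exp_inj] at hj
  simp only [nsmul_eq_mul] at hj
  push_cast at hj
  exact ⟨k, j, by linear_combination hj⟩

/-- **The exponent.** -/
theorem dvd_exponent {K N : Type} [Field K] [NumberField K] [Field N] [NumberField N]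
    [Algebra K N] [IsGalois K N] {f : ℕ} (hf : ∀ σ : N ≃ₐ[K] N, σ ^ f = 1)
    (v : HeightOneSpectrum (𝓞 K)) (w : HeightOneSpectrum (𝓞 N))
    (hw : w.asIdeal.LiesOver v.asIdeal) {p : ℕ} (hp : p.Prime)
    (hpv : v.valuation K (p : K) < 1) {d : ℕ} (hpd : ¬ p ∣ d) {a : K}
    (ha : v.valuation K a = WithZero.exp 1) {x : N}
    (hx : w.valuation N x ^ d = w.valuation N (algebraMap K N a)) : d ∣ f := by
  set e := v.asIdeal.ramificationIdx' w.asIdeal with he
  have he0 : e ≠ 0 :=
    Ideal.IsDedekindDomain.ramificationIdx'_ne_zero_of_liesOver w.asIdeal v.ne_bot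
  have hd0 : d ≠ 0 := fun h => hpd (h ▸ dvd_zero p)
  have ha' : w.valuation N (algebraMap K N a) = WithZero.exp (e : ℤ) := by
    rw [← HeightOneSpectrum.valuation_liesOver N v w a, ha, ← he, ← WithZero.exp_nsmul]
    congr 1
    simp
  have hpw : w.valuation N (p : N) < 1 := by
    have h1 := HeightOneSpectrum.valuation_liesOver N v w (p : K)
    rw [map_natCast (algebraMap K N)] at h1
    rw [← h1]
    exact pow_lt_one₀ zero_le hpv he0
  rw [ha'] at hx
  have hwx : w.valuation N x ≠ 0 := by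
    intro h
    rw [h, zero_pow hd0] at hx
    exact WithZero.exp_ne_zero hx.symm
  have hxm : w.valuation N x = WithZero.exp (WithZero.log (w.valuation N x)) :=
    (WithZero.exp_log hwx).symm
  set m := WithZero.log (w.valuation N x) with hm
  rw [hxm, ← WithZero.exp_nsmul, WithZero.exp_inj, nsmul_eq_mul] at hx
  obtain ⟨k, j, hj⟩ := exponent_ram hf v w hw hp hpw hxm
  have he0' : (e : ℤ) ≠ 0 := by exact_mod_cast he0
  have h1 : (p : ℤ) ^ k * f = j * d := by
    apply mul_right_cancel₀ he0'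
    rw [← hx] at hj ⊢
    linear_combination (d : ℤ) * hj
  have h2 : (d : ℤ) ∣ (p : ℤ) ^ k * f := ⟨j, by rw [h1, mul_comm]⟩
  have h3 : d ∣ p ^ k * f := by exact_mod_cast h2
  refine Nat.Coprime.dvd_of_dvd_mul_left ?_ h3
  exact (Nat.Coprime.pow_left k ((Nat.Prime.coprime_iff_not_dvd hp).2 hpd)).symm

end Pool.Agent.H912.DY
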