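import Pool.Agent.H912.DY.P3
import Pool.Agent.H912.DY.T3
import Pool.Agent.H912.AE.Kg

/-!
# Periods of Hénon maps over Galois extensions of exponent `f` (helper912)
-/

set_option autoImplicit false

open Finset Polynomial IsDedekindDomain IsLocalRing
open scoped NumberField

namespace Pool.Agent.H912.DY

lemma exists_frac {N : Type} [Field N] [NumberField N] (w : HeightOneSpectrum (𝓞 N)) {z : N}
    (hz : w.valuation N z ≤ 1) :
    ∃ a b : 𝓞 N, b ∉ w.asIdeal ∧ algebraMap (𝓞 N) N b * z = algebraMap (𝓞 N) N a := by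
  have hprime : w.asIdeal.IsPrime := w.isPrime
  obtain ⟨c, a, ha, i, hi⟩ := AE.scale (R := 𝓞 N) (L := N) w.asIdeal ![z, 1] (by
    intro h
    have := congrFun h 1
    simp at this)
  have h0 : algebraMap (𝓞 N) N (a 0) = c * z := ha 0
  have h1 : algebraMap (𝓞 N) N (a 1) = c := by
    have := ha 1
    simpa using this
  refine ⟨a 0, a 1, ?_, by rw [h1, h0]⟩
  intro h
  have h2 : i = 0 := by
    by_contra hi0
    have h3 : i = 1 := by
      fin_cases i
      · exact absurd rfl hi0
      · rfl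
    rw [h3] at hi
    exact hi h
  rw [h2] at hi
  have h3 := val_unit w hi
  rw [h0, map_mul, ← h1] at h3
  have h4 := (HeightOneSpectrum.valuation_lt_one_iff_mem w (K := N) (a 1)).2 h
  have h5 : w.valuation N (algebraMap (𝓞 N) N (a 1)) * w.valuation N z < 1 :=
    (mul_le_mul' le_rfl hz).trans_lt (by rwa [mul_one])
  rw [h3] at h5
  exact lt_irrefl _ h5

lemma residue_eq_zero {N : Type} [Field N] {Γ : Type*} [LinearOrderedCommGroupWithZero Γ]
    (w : Valuation N Γ) (x : w.valuationSubring) : residue _ x = 0 ↔ w (x : N) < 1 := by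
  rw [residue_eq_zero_iff, ValuationSubring.valuation_lt_one_iff]
  exact (Valuation.isEquiv_valuation_valuationSubring w).lt_one_iff_lt_one.symm

lemma residue_pow {N : Type} [Field N] [NumberField N] (w : HeightOneSpectrum (𝓞 N)) {Q : ℕ}
    (hQ : ∀ a : 𝓞 N, (Ideal.Quotient.mk w.asIdeal a) ^ Q = Ideal.Quotient.mk w.asIdeal a)
    (x : ResidueField (w.valuation N).valuationSubring) : x ^ Q = x := by
  obtain ⟨z, rfl⟩ := residue_surjective x
  obtain ⟨a, b, hb, hab⟩ := exists_frac w (z := z) z.2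
  let ι : 𝓞 N → (w.valuation N).valuationSubring := fun c =>
    ⟨algebraMap (𝓞 N) N c, HeightOneSpectrum.valuation_le_one w c⟩
  have h1 : ∀ c : 𝓞 N, residue _ (ι c) ^ Q = residue _ (ι c) := by
    intro c
    rw [← sub_eq_zero, ← map_pow, ← map_sub, residue_eq_zero]
    have h2 : ((ι c ^ Q - ι c : (w.valuation N).valuationSubring) : N) =
        algebraMap (𝓞 N) N (c ^ Q - c) := by
      rw [map_sub, map_pow]
      rfl
    rw [h2]
    refine (HeightOneSpectrum.valuation_lt_one_iff_mem w (K := N) _).2 ?_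
    rw [← Ideal.Quotient.eq, map_pow]
    exact hQ c
  have h2 : residue _ (ι b) ≠ 0 := by
    rw [Ne, residue_eq_zero]
    show ¬ w.valuation N (algebraMap (𝓞 N) N b) < 1
    rw [val_unit w hb]
    exact lt_irrefl _
  have h3 : residue _ (ι b) * residue _ z = residue _ (ι a) := by
    rw [← map_mul]
    congr 1
    exact Subtype.ext hab
  have h4 := h1 a
  rw [← h3, mul_pow, h1 b] at h4
  exact mul_left_cancel₀ h2 h4

lemma card_of_pow {k : Type*} [Field k] {Q : ℕ} (hQ : 1 < Q) (h : ∀ x : k, x ^ Q = x) :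
    Finite k ∧ Nat.card k ≤ Q := by
  classical
  have hdeg := FiniteField.X_pow_card_sub_X_natDegree_eq k hQ
  have hne := FiniteField.X_pow_card_sub_X_ne_zero k hQ
  have hsub : (Set.univ : Set k) ⊆ ↑((X ^ Q - X : k[X]).roots.toFinset) := by
    intro x _
    rw [mem_coe, Multiset.mem_toFinset, mem_roots hne]
    simp [h x]
  have hfin : Finite k := Set.finite_univ_iff.1 ((Finset.finite_toSet _).subset hsub)
  refine ⟨hfin, ?_⟩
  rw [← Set.ncard_univ]
  refine (Set.ncard_le_ncard hsub (Finset.finite_toSet _)).trans ?_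
  rw [Set.ncard_coe_finset]
  exact (Multiset.toFinset_card_le _).trans ((card_roots' _).trans hdeg.le)

/-- good reduction -/
def GoodAt {K : Type} [Field K] [NumberField K] (v : HeightOneSpectrum (𝓞 K)) (F : K[X])
    (δ : K) : Prop :=
  (∀ i, v.valuation K (F.coeff i) ≤ 1) ∧ v.valuation K F.leadingCoeff = 1 ∧ v.valuation K δ = 1

theorem period_galois {K N : Type} [Field K] [NumberField K] [Field N] [NumberField N]
    [Algebra K N] [IsGalois K N] {f : ℕ} (hf1 : 1 ≤ f) (hf : ∀ σ : N ≃ₐ[K] N, σ ^ f = 1)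
    (v : HeightOneSpectrum (𝓞 K)) {p : ℕ} (hp : p.Prime)
    (hpv : v.valuation K (p : K) < 1) {q : ℕ} (hq : Ideal.absNorm v.asIdeal ≤ q) {F : K[X]} {d : ℕ}
    (hd : 2 ≤ d) (hF : F.natDegree = d) {δ : K} (hgood : GoodAt v F δ) {P : N × N} {n : ℕ}
    (hn : 0 < n) (hP : (henon (F.map (algebraMap K N)) (algebraMap K N δ))^[n] P = P) :
    ∃ t, (henon (F.map (algebraMap K N)) (algebraMap K N δ))^[EE (q ^ f) * p ^ t] P = P := by
  have hvmax : v.asIdeal.IsMaximal := v.isMaximal
  obtain ⟨Q, hQp, hQl⟩ := (inferInstance : Nonempty (v.asIdeal.primesOver (𝓞 N)))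
  let w : HeightOneSpectrum (𝓞 N) := ⟨Q, hQp, Ideal.ne_bot_of_liesOver_of_ne_bot v.ne_bot Q⟩
  have hw : w.asIdeal.LiesOver v.asIdeal := hQl
  have he0 : v.asIdeal.ramificationIdx' w.asIdeal ≠ 0 :=
    Ideal.IsDedekindDomain.ramificationIdx'_ne_zero_of_liesOver w.asIdeal v.ne_bot
  set A := (w.valuation N).valuationSubring with hA
  have hle : ∀ y : K, v.valuation K y ≤ 1 → A.valuation (algebraMap K N y) ≤ 1 := by
    intro y hy
    rw [ValuationSubring.valuation_le_one_iff]
    show w.valuation N (algebraMap K N y) ≤ 1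
    rw [← HeightOneSpectrum.valuation_liesOver N v w y]
    exact pow_le_one' hy _
  have heq : ∀ y : K, v.valuation K y = 1 → A.valuation (algebraMap K N y) = 1 := by
    intro y hy
    refine (Valuation.isEquiv_valuation_valuationSubring (w.valuation N)).eq_one_iff_eq_one.1 ?_
    rw [← HeightOneSpectrum.valuation_liesOver N v w y, hy, one_pow]
  have hchar : CharP (ResidueField A) p := by
    rw [CharP.charP_iff_prime_eq_zero hp, ← map_natCast (residue A), residue_eq_zero]
    have h1 := HeightOneSpectrum.valuation_liesOver N v w (p : K)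
    rw [map_natCast (algebraMap K N)] at h1
    show w.valuation N (p : N) < 1
    rw [← h1]
    exact pow_lt_one₀ zero_le hpv he0
  have hwmax : w.asIdeal.IsMaximal := w.isMaximal
  have hfin : Finite (𝓞 N ⧸ w.asIdeal) := Ideal.finiteQuotientOfFreeOfNeBot _ w.ne_bot
  have hnorm : Nat.card (𝓞 K ⧸ w.asIdeal.under (𝓞 K)) = Ideal.absNorm v.asIdeal := by
    rw [← hw.over, Ideal.absNorm_apply, Submodule.cardQuot_apply]
  have hN1 : 1 < Ideal.absNorm v.asIdeal := by
    have h1 : Ideal.absNorm v.asIdeal ≠ 0 := Ideal.absNorm_ne_zero_iff_mem_nonZeroDivisors.2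
      (mem_nonZeroDivisors_iff_ne_zero.2 v.ne_bot)
    have h2 : Ideal.absNorm v.asIdeal ≠ 1 := by
      rw [Ne, Ideal.absNorm_eq_one_iff]
      exact hvmax.ne_top
    omega
  have hpow : ∀ x : ResidueField A, x ^ (Ideal.absNorm v.asIdeal ^ f) = x :=
    residue_pow w (fun a => AE.frob_pow hf w.asIdeal hnorm a)
  obtain ⟨hfinR, hcard⟩ := card_of_pow (Nat.one_lt_pow (by omega) hN1) hpow
  refine period_val A hp (hcard.trans (Nat.pow_le_pow_left hq f)) hd (by rw [natDegree_map, hF])
    (fun i => ?_) ?_ (heq _ hgood.2.2) hn hP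
  · rw [coeff_map]
    exact hle _ (hgood.1 i)
  · rw [coeff_map]
    refine heq _ ?_
    have := hgood.2.1
    rwa [leadingCoeff, hF] at this

theorem period_two {K N : Type} [Field K] [NumberField K] [Field N] [NumberField N]
    [Algebra K N] [IsGalois K N] {f : ℕ} (hf1 : 1 ≤ f) (hf : ∀ σ : N ≃ₐ[K] N, σ ^ f = 1)
    (v v' : HeightOneSpectrum (𝓞 K)) {p p' : ℕ} (hp : p.Prime) (hp' : p'.Prime) (hpp : p ≠ p')
    (hpv : v.valuation K (p : K) < 1) (hpv' : v'.valuation K (p' : K) < 1) {q : ℕ}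
    (hq : Ideal.absNorm v.asIdeal ≤ q) (hq' : Ideal.absNorm v'.asIdeal ≤ q) {F : K[X]} {d : ℕ}
    (hd : 2 ≤ d) (hF : F.natDegree = d) {δ : K} (hgood : GoodAt v F δ) (hgood' : GoodAt v' F δ)
    {P : N × N} {n : ℕ}
    (hn : 0 < n) (hP : (henon (F.map (algebraMap K N)) (algebraMap K N δ))^[n] P = P) :
    (henon (F.map (algebraMap K N)) (algebraMap K N δ))^[EE (q ^ f)] P = P := by
  obtain ⟨t, ht⟩ := period_galois hf1 hf v hp hpv hq hd hF hgood hn hP
  obtain ⟨t', ht'⟩ := period_galois hf1 hf v' hp' hpv' hq' hd hF hgood' hn hP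
  have h1 := Function.isPeriodicPt_iff_minimalPeriod_dvd.1 ht
  have h2 := Function.isPeriodicPt_iff_minimalPeriod_dvd.1 ht'
  exact Function.isPeriodicPt_iff_minimalPeriod_dvd.2 (dvd_of_two hp hp' hpp h1 h2)

end Pool.Agent.H912.DY
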