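import Pool.Agent.H912.DY.H2

/-!
# Almost all vectors of algebraic integers have a simple pole somewhere (helper912)
-/

set_option autoImplicit false
set_option linter.unusedSectionVars false

open Finset Filter Topology IsDedekindDomain
open scoped NumberField

namespace Pool.Agent.H912.DY

variable {K : Type} [Field K] [NumberField K] {J ι : Type} [Fintype J] [Fintype ι]

lemma card_quot_sq (v : HeightOneSpectrum (𝓞 K)) {p : ℕ} (hp : Ideal.absNorm v.asIdeal = p) :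
    Nat.card (𝓞 K ⧸ v.asIdeal ^ 2) = p ^ 2 := by
  have h1 : Nat.card (𝓞 K ⧸ v.asIdeal ^ 2) = Ideal.absNorm (v.asIdeal ^ 2) := by
    rw [Ideal.absNorm_apply, Submodule.cardQuot_apply]
  rw [h1, map_pow, hp]

/-- the number of residues mod `v ^ 2` in `v` -/
lemma card_nonunits (v : HeightOneSpectrum (𝓞 K)) {p : ℕ} (hp0 : 0 < p)
    (hp : Ideal.absNorm v.asIdeal = p) :
    {x : 𝓞 K ⧸ v.asIdeal ^ 2 | ∃ a ∈ v.asIdeal, Ideal.Quotient.mk _ a = x}.ncard = p := by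
  classical
  have hf2 : Finite (𝓞 K ⧸ v.asIdeal ^ 2) :=
    finite_quot (M := p ^ 2) (pow_pos hp0 2) (absNorm_pow_mem v hp 2)
  have hf1 : Finite (𝓞 K ⧸ v.asIdeal) := by
    refine finite_quot (M := p ^ 1) (pow_pos hp0 1) ?_
    have := absNorm_pow_mem v hp 1
    rwa [pow_one v.asIdeal] at this
  have : Fintype (𝓞 K ⧸ v.asIdeal ^ 2) := Fintype.ofFinite _
  have : Fintype (𝓞 K ⧸ v.asIdeal) := Fintype.ofFinite _
  let g : 𝓞 K ⧸ v.asIdeal ^ 2 →+* 𝓞 K ⧸ v.asIdeal :=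
    Ideal.Quotient.factor (Ideal.pow_le_self two_ne_zero)
  have hg : Function.Surjective g.toAddMonoidHom :=
    Ideal.Quotient.factor_surjective (Ideal.pow_le_self two_ne_zero)
  have h1 := card_preimage g.toAddMonoidHom hg {0}
  have h2 : Fintype.card (𝓞 K ⧸ v.asIdeal ^ 2) = p ^ 2 := by
    rw [← Nat.card_eq_fintype_card, card_quot_sq v hp]
  have h3 : Fintype.card (𝓞 K ⧸ v.asIdeal) = p := by
    rw [← Nat.card_eq_fintype_card, ← hp, Ideal.absNorm_apply, Submodule.cardQuot_apply]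
  rw [h2, h3, card_singleton, one_mul] at h1
  have h4 := Nat.eq_of_mul_eq_mul_right hp0 (h1.trans (sq p))
  refine Eq.trans ?_ h4
  rw [← Set.ncard_coe_finset]
  congr 1
  ext x
  simp only [Set.mem_setOf_eq, mem_coe, mem_filter, mem_univ, true_and, mem_singleton]
  constructor
  · rintro ⟨a, ha, rfl⟩
    exact Ideal.Quotient.eq_zero_iff_mem.2 ha
  · intro hx
    obtain ⟨a, rfl⟩ := Ideal.Quotient.mk_surjective x
    exact ⟨a, Ideal.Quotient.eq_zero_iff_mem.1 hx, rfl⟩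

/-- the residues of the vectors with a simple pole -/
def poleSet (k₀ : ι) (v : HeightOneSpectrum (𝓞 K)) : Set (ι → 𝓞 K ⧸ v.asIdeal ^ 2) :=
  {g | g k₀ ≠ 0 ∧ (∃ a ∈ v.asIdeal, Ideal.Quotient.mk _ a = g k₀) ∧
    ∀ k, k ≠ k₀ → ¬ ∃ a ∈ v.asIdeal, Ideal.Quotient.mk _ a = g k}

lemma mem_of_mk (v : HeightOneSpectrum (𝓞 K)) {b : 𝓞 K}
    (h : ∃ a ∈ v.asIdeal, Ideal.Quotient.mk (v.asIdeal ^ 2) a = Ideal.Quotient.mk _ b) :
    b ∈ v.asIdeal := by
  obtain ⟨a, ha, hab⟩ := h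
  rw [Ideal.Quotient.eq] at hab
  have h1 : a - b ∈ v.asIdeal := Ideal.pow_le_self two_ne_zero hab
  have h2 : b = a - (a - b) := by ring
  rw [h2]
  exact v.asIdeal.sub_mem ha h1

lemma simplePole_of_mem {k₀ : ι} {v : HeightOneSpectrum (𝓞 K)} {a : ι → 𝓞 K}
    (h : (fun k => Ideal.Quotient.mk (v.asIdeal ^ 2) (a k)) ∈ poleSet k₀ v) :
    SimplePole k₀ a v := by
  obtain ⟨h1, h2, h3⟩ := h
  refine ⟨mem_of_mk v h2, fun h4 => h1 (Ideal.Quotient.eq_zero_iff_mem.2 h4), fun k hk hak => ?_⟩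
  exact h3 k hk ⟨a k, hak, rfl⟩

open Classical in
lemma card_poleSet (k₀ : ι) (v : HeightOneSpectrum (𝓞 K)) {p : ℕ} (hp2 : 2 ≤ p)
    (hp : Ideal.absNorm v.asIdeal = p) :
    ((1 / 2 : ℝ) ^ Fintype.card ι) / p * Nat.card (ι → 𝓞 K ⧸ v.asIdeal ^ 2) ≤
      (poleSet k₀ v).ncard := by
  have hp0 : 0 < p := by omega
  have hf2 : Finite (𝓞 K ⧸ v.asIdeal ^ 2) :=
    finite_quot (M := p ^ 2) (pow_pos hp0 2) (absNorm_pow_mem v hp 2)
  have : Fintype (𝓞 K ⧸ v.asIdeal ^ 2) := Fintype.ofFinite _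
  set A : Finset (𝓞 K ⧸ v.asIdeal ^ 2) :=
    univ.filter (fun x => ∃ a ∈ v.asIdeal, Ideal.Quotient.mk _ a = x) with hA
  have hAc : A.card = p := by
    rw [← card_nonunits v hp0 hp, ← Set.ncard_coe_finset]
    congr 1
    ext x
    simp [hA]
  have h0A : (0 : 𝓞 K ⧸ v.asIdeal ^ 2) ∈ A := by
    rw [hA, mem_filter]
    exact ⟨mem_univ _, 0, v.asIdeal.zero_mem, map_zero _⟩
  have hR : Fintype.card (𝓞 K ⧸ v.asIdeal ^ 2) = p ^ 2 := by
    rw [← Nat.card_eq_fintype_card, card_quot_sq v hp]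
  let T : ι → Finset (𝓞 K ⧸ v.asIdeal ^ 2) := fun k => if k = k₀ then A.erase 0 else univ \ A
  have hT : poleSet k₀ v = ↑(Fintype.piFinset T) := by
    ext g
    rw [mem_coe, Fintype.mem_piFinset]
    constructor
    · rintro ⟨h1, h2, h3⟩ k
      by_cases hk : k = k₀
      · subst hk
        simp only [T, if_pos rfl, mem_erase, hA, mem_filter, mem_univ, true_and]
        exact ⟨h1, h2⟩
      · simp only [T, if_neg hk, Finset.mem_sdiff, hA, mem_filter, mem_univ, true_and]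
        exact h3 k hk
    · intro h
      have h1 := h k₀
      simp only [T, if_pos rfl, mem_erase, hA, mem_filter, mem_univ, true_and] at h1
      refine ⟨h1.1, h1.2, fun k hk => ?_⟩
      have h2 := h k
      simp only [T, if_neg hk, Finset.mem_sdiff, hA, mem_filter, mem_univ, true_and] at h2
      exact h2
  rw [hT, Set.ncard_coe_finset, Fintype.card_piFinset, Nat.card_eq_fintype_card, Fintype.card_fun,
    hR, ← mul_prod_erase univ _ (mem_univ k₀)]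
  have hT0 : (T k₀).card = p - 1 := by
    simp only [T, if_pos rfl, card_erase_of_mem h0A, hAc]
  have hT1 : ∀ k ∈ univ.erase k₀, (T k).card = p ^ 2 - p := by
    intro k hk
    simp only [T, if_neg (ne_of_mem_erase hk)]
    rw [card_sdiff_of_subset (subset_univ _), card_univ, hR, hAc]
  rw [hT0, prod_congr rfl hT1, prod_const, card_erase_of_mem (mem_univ _), card_univ]
  have hι : 0 < Fintype.card ι := Fintype.card_pos_iff.2 ⟨k₀⟩
  obtain ⟨m, hm⟩ : ∃ m, Fintype.card ι = m + 1 := ⟨Fintype.card ι - 1, by omega⟩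
  rw [hm, Nat.add_sub_cancel]
  have hpp : p ≤ p ^ 2 := by nlinarith
  push_cast [Nat.cast_sub (by omega : 1 ≤ p), Nat.cast_sub hpp]
  have hp2' : (2 : ℝ) ≤ p := by exact_mod_cast hp2
  have h1 : (1 / 2 : ℝ) * p ≤ p - 1 := by linarith
  have h2 : (1 / 2 : ℝ) * (p : ℝ) ^ 2 ≤ (p : ℝ) ^ 2 - p := by nlinarith
  calc (1 / 2 : ℝ) ^ (m + 1) / p * ((p : ℝ) ^ 2) ^ (m + 1) =
        ((1 / 2 : ℝ) * p) * ((1 / 2 : ℝ) * (p : ℝ) ^ 2) ^ m := by
        have : (p : ℝ) ≠ 0 := by positivity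
        rw [mul_pow, pow_succ, pow_succ]
        field_simp
    _ ≤ (p - 1) * ((p : ℝ) ^ 2 - p) ^ m := by
        refine mul_le_mul h1 (pow_le_pow_left₀ (by positivity) h2 _) (by positivity) ?_
        linarith

/-- **Almost all vectors of algebraic integers have a simple pole.** -/
theorem sieve_pole (ω : Module.Basis J ℤ (𝓞 K)) (k₀ : ι) {ε : ℝ} (hε : 0 < ε) :
    ∃ X₀ : ℕ, ∀ X : ℕ, X₀ ≤ X →
      ({a | a ∈ box ω ι X ∧ ¬ ∃ v : HeightOneSpectrum (𝓞 K), SimplePole k₀ a v}.ncard : ℝ) ≤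
        ε * (box ω ι X).ncard := by
  obtain ⟨X₀, hX₀⟩ := sieve (ι := ι) ω (fun v => poleSet k₀ v)
    (c := (1 / 2) ^ Fintype.card ι) (by positivity) 0
    (fun v p hp _ hv => card_poleSet k₀ v hp.two_le hv) hε
  refine ⟨X₀, fun X hX => le_trans ?_ (hX₀ X hX)⟩
  have h : {a | a ∈ box ω ι X ∧ ¬ ∃ v : HeightOneSpectrum (𝓞 K), SimplePole k₀ a v} ⊆
      {a | a ∈ box ω ι X ∧ ∀ (v : HeightOneSpectrum (𝓞 K)) (p : ℕ), p.Prime → 0 ≤ p →
        Ideal.absNorm v.asIdeal = p → (fun k => Ideal.Quotient.mk _ (a k)) ∉ poleSet k₀ v} := by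
    rintro a ⟨ha, ha'⟩
    refine ⟨ha, fun v p _ _ _ h => ha' ⟨v, simplePole_of_mem h⟩⟩
  exact_mod_cast Set.ncard_le_ncard h ((finite_box ω X).subset fun a ha => ha.1)

/-- from the count to the density -/
lemma tendsto_one (ω : Module.Basis J ℤ (𝓞 K)) {T : Set (ι → 𝓞 K)}
    (h : ∀ ε : ℝ, 0 < ε → ∃ X₀ : ℕ, ∀ X : ℕ, X₀ ≤ X →
      ({a | a ∈ box ω ι X ∧ a ∉ T}.ncard : ℝ) ≤ ε * (box ω ι X).ncard) :
    Tendsto (fun X : ℕ => ({a | a ∈ box ω ι X ∧ a ∈ T}.ncard : ℝ) / (box ω ι X).ncard)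
      atTop (𝓝 1) := by
  rw [Metric.tendsto_atTop]
  intro ε hε
  obtain ⟨X₀, hX₀⟩ := h (ε / 2) (by positivity)
  refine ⟨X₀, fun X hX => ?_⟩
  have h1 := hX₀ X hX
  have hb : (0 : ℝ) < (box ω ι X).ncard := by
    rw [ncard_box]
    positivity
  have h2 : {a | a ∈ box ω ι X ∧ a ∈ T}.ncard + {a | a ∈ box ω ι X ∧ a ∉ T}.ncard =
      (box ω ι X).ncard := by
    have h3 := Set.ncard_inter_add_ncard_diff_eq_ncard (box ω ι X) T (finite_box ω X)
    exact h3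
  have h3 : ({a | a ∈ box ω ι X ∧ a ∈ T}.ncard : ℝ) + {a | a ∈ box ω ι X ∧ a ∉ T}.ncard =
      (box ω ι X).ncard := by exact_mod_cast h2
  rw [Real.dist_eq, abs_lt]
  constructor
  · rw [neg_lt_sub_iff_lt_add, ← sub_lt_iff_lt_add', lt_div_iff₀ hb]
    nlinarith
  · rw [sub_lt_iff_lt_add, div_lt_iff₀ hb]
    have : (0 : ℝ) ≤ {a | a ∈ box ω ι X ∧ a ∉ T}.ncard := by positivity
    nlinarith

end Pool.Agent.H912.DY
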