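import Pool.Agent.H912.DY.P4
import Pool.Agent.H912.DY.S4

/-!
# Periodic points of Hénon maps over the maximal extension of exponent `f` (helper912)
-/

set_option autoImplicit false

open Finset Polynomial IsDedekindDomain
open scoped NumberField

namespace Pool.Agent.H912.DY

/-- the periodic points over `K[f]` -/
def perExp {K : Type} [Field K] (F : K[X]) (δ : K) (f : ℕ) :
    Set (AlgebraicClosure K × AlgebraicClosure K) :=
  {P | (∃ n : ℕ, 0 < n ∧ (henon (F.map (algebraMap K (AlgebraicClosure K)))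
    (algebraMap K (AlgebraicClosure K) δ))^[n] P = P) ∧ P.1 ∈ AE.expField K f ∧
    P.2 ∈ AE.expField K f}

/-- the periodic points over `K[f]` lie in number fields -/
theorem descend {K : Type} [Field K] [NumberField K] (F : K[X]) (δ : K) {f : ℕ}
    {P : AlgebraicClosure K × AlgebraicClosure K} {n : ℕ}
    (hP : (henon (F.map (algebraMap K (AlgebraicClosure K)))
      (algebraMap K (AlgebraicClosure K) δ))^[n] P = P) (h1 : P.1 ∈ AE.expField K f)
    (h2 : P.2 ∈ AE.expField K f) :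
    ∃ (N : IntermediateField K (AlgebraicClosure K)) (_ : NumberField N) (_ : IsGalois K N),
      (∀ σ : N ≃ₐ[K] N, σ ^ f = 1) ∧ ∃ Q : N × N, Prod.map (algebraMap N (AlgebraicClosure K))
        (algebraMap N (AlgebraicClosure K)) Q = P ∧
        (henon (F.map (algebraMap K N)) (algebraMap K N δ))^[n] Q = Q := by
  obtain ⟨N, hfd, hgal, hexp, hx⟩ := AE.exists_galois (f := f) ![P.1, P.2] (by
    intro i
    fin_cases i
    · exact h1
    · exact h2)
  have hfdQ : FiniteDimensional ℚ N := Module.Finite.trans K N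
  have hnf : NumberField N := ⟨⟩
  have h1' : P.1 ∈ N := hx 0
  have h2' : P.2 ∈ N := hx 1
  let Q : N × N := (⟨P.1, h1'⟩, ⟨P.2, h2'⟩)
  let φ : N →+* AlgebraicClosure K := (algebraMap N (AlgebraicClosure K))
  have hQ : Prod.map φ φ Q = P := rfl
  refine ⟨N, hnf, hgal, hexp, Q, hQ, ?_⟩
  have hinj : Function.Injective (Prod.map φ φ) := φ.injective.prodMap φ.injective
  apply hinj
  rw [henon_iterate, hQ]
  have h3 : (F.map (algebraMap K N)).map φ = F.map (algebraMap K (AlgebraicClosure K)) := by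
    rw [Polynomial.map_map]
    rfl
  rw [h3]
  exact hP

/-- two places of good reduction bound the periods over `K[f]` -/
theorem period_exp {K : Type} [Field K] [NumberField K] {f : ℕ} (hf1 : 1 ≤ f)
    (v v' : HeightOneSpectrum (𝓞 K)) {p p' : ℕ} (hp : p.Prime) (hp' : p'.Prime) (hpp : p ≠ p')
    (hpv : v.valuation K (p : K) < 1) (hpv' : v'.valuation K (p' : K) < 1) {q : ℕ}
    (hq : Ideal.absNorm v.asIdeal ≤ q) (hq' : Ideal.absNorm v'.asIdeal ≤ q) {F : K[X]} {d : ℕ}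
    (hd : 2 ≤ d) (hF : F.natDegree = d) {δ : K} (hgood : GoodAt v F δ) (hgood' : GoodAt v' F δ)
    {P : AlgebraicClosure K × AlgebraicClosure K} (hP : P ∈ perExp F δ f) :
    (henon (F.map (algebraMap K (AlgebraicClosure K)))
      (algebraMap K (AlgebraicClosure K) δ))^[EE (q ^ f)] P = P := by
  obtain ⟨⟨n, hn, hPn⟩, h1, h2⟩ := hP
  obtain ⟨N, hnf, hgal, hexp, Q, hQ, hQn⟩ := descend F δ hPn h1 h2
  have h3 := period_two hf1 hexp v v' hp hp' hpp hpv hpv' hq hq' hd hF hgood hgood' hn hQn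
  have h4 := congrArg (Prod.map (algebraMap N (AlgebraicClosure K))
    (algebraMap N (AlgebraicClosure K))) h3
  rw [henon_iterate, hQ] at h4
  have h5 : (F.map (algebraMap K N)).map (algebraMap N (AlgebraicClosure K)) =
      F.map (algebraMap K (AlgebraicClosure K)) := by
    rw [Polynomial.map_map]
    rfl
  rw [h5] at h4
  exact h4

/-- the number of the periodic points over `K[f]` -/
theorem card_exp {K : Type} [Field K] [NumberField K] {f : ℕ} (hf1 : 1 ≤ f)
    (v v' : HeightOneSpectrum (𝓞 K)) {p p' : ℕ} (hp : p.Prime) (hp' : p'.Prime) (hpp : p ≠ p')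
    (hpv : v.valuation K (p : K) < 1) (hpv' : v'.valuation K (p' : K) < 1) {q : ℕ}
    (hq : Ideal.absNorm v.asIdeal ≤ q) (hq' : Ideal.absNorm v'.asIdeal ≤ q) {F : K[X]} {d : ℕ}
    (hd : 2 ≤ d) (hF : F.natDegree = d) {δ : K} (hgood : GoodAt v F δ) (hgood' : GoodAt v' F δ) :
    (perExp F δ f).encard ≤ ((d ^ EE (q ^ f) : ℕ) : ℕ∞) := by
  obtain ⟨h1, h2⟩ := card_fixed (F := F.map (algebraMap K (AlgebraicClosure K))) hd
    (by rw [natDegree_map, hF]) (algebraMap K (AlgebraicClosure K) δ) (EE_pos (q ^ f))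
  refine (Set.encard_le_encard (t := {P | (henon (F.map (algebraMap K (AlgebraicClosure K)))
      (algebraMap K (AlgebraicClosure K) δ))^[EE (q ^ f)] P = P}) fun P hP =>
      period_exp hf1 v v' hp hp' hpp hpv hpv' hq hq' hd hF hgood hgood' hP).trans ?_
  rw [← h1.cast_ncard_eq]
  exact_mod_cast h2

/-- a simple pole of the constant coefficient: `d` divides the exponent -/
theorem henon_exponent {K : Type} [Field K] [NumberField K] {f : ℕ}
    (v : HeightOneSpectrum (𝓞 K)) {p : ℕ} (hp : p.Prime)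
    (hpv : v.valuation K (p : K) < 1) {F : K[X]} {d : ℕ} (hpd : ¬ p ∣ d) (hd : 2 ≤ d)
    (hF : F.natDegree = d) (h0 : v.valuation K (F.coeff 0) = WithZero.exp 1)
    (hi : ∀ i, i ≠ 0 → v.valuation K (F.coeff i) ≤ 1)
    (hlead : v.valuation K (F.coeff d) = 1) {δ : K} (hδ : v.valuation K δ ≤ 1)
    {P : AlgebraicClosure K × AlgebraicClosure K} (hP : P ∈ perExp F δ f) : d ∣ f := by
  obtain ⟨⟨n, hn, hPn⟩, h1, h2⟩ := hP
  obtain ⟨N, hnf, hgal, hexp, Q, hQ, hQn⟩ := descend F δ hPn h1 h2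
  have hvmax : v.asIdeal.IsMaximal := v.isMaximal
  obtain ⟨I, hIp, hIl⟩ := (inferInstance : Nonempty (v.asIdeal.primesOver (𝓞 N)))
  let w : HeightOneSpectrum (𝓞 N) := ⟨I, hIp, Ideal.ne_bot_of_liesOver_of_ne_bot v.ne_bot I⟩
  have hw : w.asIdeal.LiesOver v.asIdeal := hIl
  have he0 : v.asIdeal.ramificationIdx' w.asIdeal ≠ 0 :=
    Ideal.IsDedekindDomain.ramificationIdx'_ne_zero_of_liesOver w.asIdeal v.ne_bot
  have hval : ∀ x : K, w.valuation N (algebraMap K N x) =
      v.valuation K x ^ v.asIdeal.ramificationIdx' w.asIdeal := fun x =>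
    (HeightOneSpectrum.valuation_liesOver N v w x).symm
  obtain ⟨x, hx⟩ := henon_local (w.valuation N) (F := F.map (algebraMap K N)) hd
    (by rw [natDegree_map, hF])
    (by
      rw [coeff_map, hval, h0]
      exact one_lt_pow₀ (by rw [← WithZero.exp_zero, WithZero.exp_lt_exp]; norm_num) he0)
    (fun i hi' => by
      rw [coeff_map, hval]
      exact pow_le_one' (hi i hi') _)
    (by rw [coeff_map, hval, hlead, one_pow])
    (δ := algebraMap K N δ) (by
      rw [hval]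
      exact pow_le_one' hδ _) hn hQn
  rw [coeff_map] at hx
  exact dvd_exponent hexp v w hw hp hpv hpd h0 hx

/-- a prime above `p` of small norm -/
lemma exists_above {K : Type} [Field K] [NumberField K] {p : ℕ} (hp : p.Prime) :
    ∃ v : HeightOneSpectrum (𝓞 K), (p : 𝓞 K) ∈ v.asIdeal ∧
      Ideal.absNorm v.asIdeal ≤ p ^ Module.finrank ℚ K := by
  have hnorm : Ideal.absNorm (Ideal.span {(p : 𝓞 K)}) = p ^ Module.finrank ℚ K := by
    rw [Ideal.absNorm_span_singleton]
    have h1 : (p : 𝓞 K) = algebraMap ℤ (𝓞 K) (p : ℤ) := by simp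
    rw [h1, Algebra.norm_algebraMap, NumberField.RingOfIntegers.rank, Int.natAbs_pow,
      Int.natAbs_natCast]
  have hne : Ideal.span {(p : 𝓞 K)} ≠ ⊤ := by
    intro h
    rw [h, Ideal.absNorm_top] at hnorm
    exact absurd hnorm.symm (Nat.one_lt_pow Module.finrank_pos.ne' hp.one_lt).ne'
  obtain ⟨M, hM, hle⟩ := Ideal.exists_le_maximal _ hne
  have hmem : (p : 𝓞 K) ∈ M := hle (Ideal.mem_span_singleton_self _)
  have hbot : M ≠ ⊥ := by
    rintro rfl
    rw [Ideal.mem_bot] at hmem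
    exact hp.ne_zero (by exact_mod_cast hmem)
  refine ⟨⟨M, hM.isPrime, hbot⟩, hmem, ?_⟩
  show Ideal.absNorm M ≤ _
  rw [← hnorm]
  refine Nat.le_of_dvd ?_ (Ideal.absNorm_dvd_absNorm_of_le hle)
  rw [hnorm]
  exact pow_pos hp.pos _

/-- two good primes of bounded norm -/
theorem two_good (D s : ℕ) : ∃ q : ℕ, ∀ (K : Type) [Field K] [NumberField K],
    Module.finrank ℚ K ≤ D → ∀ B : Set (HeightOneSpectrum (𝓞 K)), B.encard ≤ s →
    ∃ (v v' : HeightOneSpectrum (𝓞 K)) (p p' : ℕ), v ∉ B ∧ v' ∉ B ∧ p.Prime ∧ p'.Prime ∧ p ≠ p' ∧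
      v.valuation K (p : K) < 1 ∧ v'.valuation K (p' : K) < 1 ∧
      Ideal.absNorm v.asIdeal ≤ q ∧ Ideal.absNorm v'.asIdeal ≤ q := by
  classical
  obtain ⟨Q, hQ, hQc⟩ := Nat.infinite_setOfPred_prime.exists_subset_card_eq (s + 2)
  refine ⟨(Q.sup id) ^ D, fun K _ _ hD B hB => ?_⟩
  have hval : ∀ (v : HeightOneSpectrum (𝓞 K)) (p : ℕ), v.valuation K (p : K) < 1 ↔
      (p : 𝓞 K) ∈ v.asIdeal := by
    intro v p
    rw [← HeightOneSpectrum.valuation_lt_one_iff_mem v (K := K) (p : 𝓞 K)]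
    simp
  have huniq : ∀ (v : HeightOneSpectrum (𝓞 K)) (p p' : ℕ), p.Prime → p'.Prime →
      (p : 𝓞 K) ∈ v.asIdeal → (p' : 𝓞 K) ∈ v.asIdeal → p = p' := by
    intro v p p' hp hp' h h'
    by_contra hne
    have h1 : IsCoprime (p : ℤ) (p' : ℤ) := by
      rw [Nat.isCoprime_iff_coprime]
      exact (Nat.coprime_primes hp hp').2 hne
    obtain ⟨x, y, hxy⟩ := h1
    have h2 : (x : 𝓞 K) * (p : 𝓞 K) + y * p' = 1 := by
      have h := congrArg (Int.cast : ℤ → 𝓞 K) hxy
      push_cast at h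
      exact h
    apply v.isPrime.ne_top
    rw [Ideal.eq_top_iff_one, ← h2]
    exact v.asIdeal.add_mem (v.asIdeal.mul_mem_left _ h) (v.asIdeal.mul_mem_left _ h')
  set T : Finset ℕ := Q.filter (fun p : ℕ => ∃ v ∈ B, ((p : ℕ) : 𝓞 K) ∈ v.asIdeal) with hT
  have hTc : T.card ≤ s := by
    have h1 : ∀ p : T, ∃ v ∈ B, ((p : ℕ) : 𝓞 K) ∈ v.asIdeal := fun p => (mem_filter.1 p.2).2
    choose g hg1 hg2 using h1
    have hginj : Function.Injective g := by
      intro p p' h
      apply Subtype.ext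
      refine huniq (g p) p p' (hQ (mem_filter.1 p.2).1) (hQ (mem_filter.1 p'.2).1) (hg2 p) ?_
      rw [h]
      exact hg2 p'
    have h2 : (Set.range g).encard ≤ B.encard := Set.encard_le_encard (by
      rintro _ ⟨p, rfl⟩
      exact hg1 p)
    rw [← Set.image_univ, hginj.encard_image, Set.encard_univ, ENat.card_eq_coe_fintype_card,
      Fintype.card_coe] at h2
    exact_mod_cast h2.trans hB
  have hdiff : 1 < (Q \ T).card := by
    have h1 := card_sdiff_add_card_eq_card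
      (filter_subset (fun p : ℕ => ∃ v ∈ B, ((p : ℕ) : 𝓞 K) ∈ v.asIdeal) Q)
    rw [← hT] at h1
    omega
  obtain ⟨p, hpm, p', hpm', hne⟩ := one_lt_card.1 hdiff
  have key : ∀ p ∈ Q \ T, p.Prime ∧ ∃ v : HeightOneSpectrum (𝓞 K), v ∉ B ∧
      v.valuation K (p : K) < 1 ∧ Ideal.absNorm v.asIdeal ≤ (Q.sup id) ^ D := by
    intro p hp
    rw [Finset.mem_sdiff] at hp
    have hpp : p.Prime := hQ hp.1
    obtain ⟨v, hv1, hv2⟩ := exists_above (K := K) hpp
    refine ⟨hpp, v, fun h => hp.2 (mem_filter.2 ⟨hp.1, v, h, hv1⟩), (hval v p).2 hv1,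
      hv2.trans ?_⟩
    have h1 : p ≤ Q.sup id := le_sup (f := id) hp.1
    exact (Nat.pow_le_pow_left h1 _).trans (Nat.pow_le_pow_right (hpp.pos.trans_le h1) hD)
  obtain ⟨hp, v, h1, h2, h3⟩ := key p hpm
  obtain ⟨hp', v', h1', h2', h3'⟩ := key p' hpm'
  exact ⟨v, v', p, p', h1, h1', hp, hp', hne, h2, h2', h3, h3'⟩

end Pool.Agent.H912.DY
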