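import Pool.Agent.H912.DY.P5

/-!
# Counting vectors of algebraic integers: two good primes and a simple pole (helper912)
-/

set_option autoImplicit false
set_option linter.unusedSectionVars false

open Finset Polynomial IsDedekindDomain
open scoped NumberField

namespace Pool.Agent.H912.DY

variable {K : Type} [Field K] [NumberField K] {J ι : Type} [Fintype J] [Fintype ι]

lemma count_v (ω : Module.Basis J ℤ (𝓞 K)) (v : HeightOneSpectrum (𝓞 K)) (k : ι) {X : ℕ}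
    (hX : Ideal.absNorm v.asIdeal ≤ 2 * X + 1) :
    {a | a ∈ box ω ι X ∧ a k ∈ v.asIdeal}.ncard * Ideal.absNorm v.asIdeal ≤
      2 ^ Fintype.card (ι × J) * (box ω ι X).ncard := by
  classical
  have hN0 : Ideal.absNorm v.asIdeal ≠ 0 := Ideal.absNorm_ne_zero_iff_mem_nonZeroDivisors.2
    (mem_nonZeroDivisors_iff_ne_zero.2 v.ne_bot)
  have hfin : Finite (𝓞 K ⧸ v.asIdeal) := Ideal.finiteQuotientOfFreeOfNeBot _ v.ne_bot
  have : Fintype (𝓞 K ⧸ v.asIdeal) := Fintype.ofFinite _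
  let S : Set (ι → 𝓞 K ⧸ v.asIdeal) := {g | g k = 0}
  have h1 := count_box (ι := ι) ω v.asIdeal (Nat.pos_of_ne_zero hN0) (Ideal.absNorm_mem _) S X hX
  have h2 : {a | a ∈ box ω ι X ∧ (fun i => Ideal.Quotient.mk v.asIdeal (a i)) ∈ S} =
      {a | a ∈ box ω ι X ∧ a k ∈ v.asIdeal} := by
    ext a
    have : (fun i => Ideal.Quotient.mk v.asIdeal (a i)) ∈ S ↔ a k ∈ v.asIdeal :=
      Ideal.Quotient.eq_zero_iff_mem
    exact and_congr_right fun _ => this
  rw [h2] at h1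
  have h3 := card_preimage (Pi.evalAddMonoidHom (fun _ : ι => 𝓞 K ⧸ v.asIdeal) k)
    (fun x => ⟨fun _ => x, rfl⟩) {0}
  have h4 : S.ncard * Ideal.absNorm v.asIdeal = Nat.card (ι → 𝓞 K ⧸ v.asIdeal) := by
    rw [card_singleton, one_mul] at h3
    rw [Nat.card_eq_fintype_card, ← h3, Ideal.absNorm_apply, Submodule.cardQuot_apply,
      Nat.card_eq_fintype_card, ← Set.ncard_coe_finset]
    congr 2
    ext g
    simp [S]
  have h5 : 0 < Nat.card (ι → 𝓞 K ⧸ v.asIdeal) := Nat.card_pos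
  have h6 := Nat.mul_le_mul_right (Ideal.absNorm v.asIdeal) h1
  have h7 : S.ncard * (2 ^ Fintype.card (ι × J) * (box ω ι X).ncard) * Ideal.absNorm v.asIdeal =
      (2 ^ Fintype.card (ι × J) * (box ω ι X).ncard) * Nat.card (ι → 𝓞 K ⧸ v.asIdeal) := by
    rw [← h4]
    ring
  rw [h7, mul_right_comm] at h6
  exact Nat.le_of_mul_le_mul_right h6 h5

lemma le_absNorm (v : HeightOneSpectrum (𝓞 K)) {p : ℕ} (hp : p.Prime)
    (hpv : (p : 𝓞 K) ∈ v.asIdeal) : p ≤ Ideal.absNorm v.asIdeal := by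
  have hN0 : Ideal.absNorm v.asIdeal ≠ 0 := Ideal.absNorm_ne_zero_iff_mem_nonZeroDivisors.2
    (mem_nonZeroDivisors_iff_ne_zero.2 v.ne_bot)
  refine Nat.le_of_dvd (Nat.pos_of_ne_zero hN0) ?_
  by_contra h
  have h1 : IsCoprime (p : ℤ) (Ideal.absNorm v.asIdeal : ℤ) := by
    rw [Nat.isCoprime_iff_coprime]
    exact (Nat.Prime.coprime_iff_not_dvd hp).2 h
  obtain ⟨x, y, hxy⟩ := h1
  have h2 : (x : 𝓞 K) * (p : 𝓞 K) + y * (Ideal.absNorm v.asIdeal : 𝓞 K) = 1 := by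
    have h := congrArg (Int.cast : ℤ → 𝓞 K) hxy
    push_cast at h
    exact h
  apply v.isPrime.ne_top
  rw [Ideal.eq_top_iff_one, ← h2]
  exact v.asIdeal.add_mem (v.asIdeal.mul_mem_left _ hpv)
    (v.asIdeal.mul_mem_left _ (Ideal.absNorm_mem _))

lemma val_nat_lt (v : HeightOneSpectrum (𝓞 K)) (p : ℕ) : v.valuation K (p : K) < 1 ↔
    (p : 𝓞 K) ∈ v.asIdeal := by
  rw [← HeightOneSpectrum.valuation_lt_one_iff_mem v (K := K) (p : 𝓞 K)]
  simp

/-- two primes of bounded norm where all coordinates are units -/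
def TwoUnits (q : ℕ) (a : ι → 𝓞 K) : Prop :=
  ∃ (v v' : HeightOneSpectrum (𝓞 K)) (p p' : ℕ), p.Prime ∧ p'.Prime ∧ p ≠ p' ∧
    v.valuation K (p : K) < 1 ∧ v'.valuation K (p' : K) < 1 ∧
    Ideal.absNorm v.asIdeal ≤ q ∧ Ideal.absNorm v'.asIdeal ≤ q ∧
    (∀ k, a k ∉ v.asIdeal) ∧ ∀ k, a k ∉ v'.asIdeal

theorem count_two (ι : Type) [Fintype ι] (D : ℕ) {ε : ℝ} (hε : 0 < ε) : ∃ q : ℕ,
    ∀ (K : Type) [Field K] [NumberField K], Module.finrank ℚ K ≤ D →
    ∀ (J : Type) [Fintype J] (ω : Module.Basis J ℤ (𝓞 K)), ∀ X : ℕ, q ≤ X →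
      ({a | a ∈ box ω ι X ∧ ¬ TwoUnits q a}.ncard : ℝ) ≤ ε * (box ω ι X).ncard := by
  classical
  set c : ℝ := 2 * Fintype.card ι * 2 ^ (Fintype.card ι * D) / ε with hc
  obtain ⟨p, hpc, hp⟩ := Nat.exists_infinite_primes (⌈c⌉₊ + 1)
  obtain ⟨p', hpp, hp'⟩ := Nat.exists_infinite_primes (p + 1)
  have hpc' : c ≤ p := (Nat.le_ceil c).trans (by exact_mod_cast (Nat.le_succ _).trans hpc)
  refine ⟨p' ^ D, fun K _ _ hD J _ ω X hX => ?_⟩
  obtain ⟨v, hv1, hv2⟩ := exists_above (K := K) hp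
  obtain ⟨v', hv1', hv2'⟩ := exists_above (K := K) hp'
  have hq : Ideal.absNorm v.asIdeal ≤ p' ^ D :=
    hv2.trans ((Nat.pow_le_pow_left (by omega) _).trans (Nat.pow_le_pow_right hp'.pos hD))
  have hq' : Ideal.absNorm v'.asIdeal ≤ p' ^ D :=
    hv2'.trans (Nat.pow_le_pow_right hp'.pos hD)
  have hJ : Fintype.card J ≤ D := by
    rw [← Module.finrank_eq_card_basis ω, NumberField.RingOfIntegers.rank]
    exact hD
  set B := (finite_box (ι := ι) ω X).toFinset with hB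
  have hsub : {a | a ∈ box ω ι X ∧ ¬ TwoUnits (p' ^ D) a} ⊆
      ↑(univ.biUnion (fun x : ι × Bool =>
        B.filter (fun a => a x.1 ∈ (if x.2 then v else v').asIdeal))) := by
    rintro a ⟨ha, ha'⟩
    by_contra h
    apply ha'
    have h1 : ∀ x : ι × Bool, a x.1 ∉ (if x.2 then v else v').asIdeal := by
      intro x hx
      apply h
      rw [mem_coe, mem_biUnion]
      exact ⟨x, mem_univ _, mem_filter.2 ⟨(Set.Finite.mem_toFinset _).2 ha, hx⟩⟩
    exact ⟨v, v', p, p', hp, hp', by omega, (val_nat_lt v p).2 hv1, (val_nat_lt v' p').2 hv1',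
      hq, hq', fun k => h1 (k, true), fun k => h1 (k, false)⟩
  have h1 : ({a | a ∈ box ω ι X ∧ ¬ TwoUnits (p' ^ D) a}.ncard : ℝ) ≤
      ∑ x : ι × Bool, ((B.filter (fun a => a x.1 ∈ (if x.2 then v else v').asIdeal)).card : ℝ) := by
    have h2 := Set.ncard_le_ncard hsub (Finset.finite_toSet _)
    rw [Set.ncard_coe_finset] at h2
    exact_mod_cast h2.trans card_biUnion_le
  have h2 : ∀ x : ι × Bool, ((B.filter (fun a => a x.1 ∈ (if x.2 then v else v').asIdeal)).card : ℝ) ≤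
      2 ^ (Fintype.card ι * D) * (box ω ι X).ncard / p := by
    intro x
    have h3 : (B.filter (fun a => a x.1 ∈ (if x.2 then v else v').asIdeal)).card =
        {a | a ∈ box ω ι X ∧ a x.1 ∈ (if x.2 then v else v').asIdeal}.ncard := by
      rw [← Set.ncard_coe_finset]
      congr 1
      ext a
      simp [hB]
    have hN : Ideal.absNorm (if x.2 then v else v').asIdeal ≤ 2 * X + 1 := by
      split_ifs
      · omega
      · omega
    have hpN : p ≤ Ideal.absNorm (if x.2 then v else v').asIdeal := by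
      split_ifs
      · exact le_absNorm v hp hv1
      · exact le_trans (by omega) (le_absNorm v' hp' hv1')
    have h4 := count_v ω (if x.2 then v else v') x.1 hN
    have hp0 : (0 : ℝ) < p := by exact_mod_cast hp.pos
    rw [h3, le_div_iff₀ hp0]
    have h5 : {a | a ∈ box ω ι X ∧ a x.1 ∈ (if x.2 then v else v').asIdeal}.ncard * p ≤
        2 ^ (Fintype.card ι * D) * (box ω ι X).ncard := by
      refine (Nat.mul_le_mul_left _ hpN).trans (h4.trans (Nat.mul_le_mul_right _ ?_))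
      refine Nat.pow_le_pow_right (by norm_num) ?_
      rw [Fintype.card_prod]
      exact Nat.mul_le_mul_left _ hJ
    exact_mod_cast h5
  refine h1.trans ((sum_le_sum fun x _ => h2 x).trans ?_)
  rw [sum_const, card_univ, Fintype.card_prod, Fintype.card_bool, nsmul_eq_mul]
  have hp0 : (0 : ℝ) < p := by exact_mod_cast hp.pos
  rw [hc, div_le_iff₀ hε] at hpc'
  have h3 : ((Fintype.card ι * 2 : ℕ) : ℝ) * (2 ^ (Fintype.card ι * D) * (box ω ι X).ncard / p) =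
      (2 * Fintype.card ι * 2 ^ (Fintype.card ι * D)) * (box ω ι X).ncard / p := by
    push_cast
    ring
  rw [h3, div_le_iff₀ hp0]
  have h4 : (0 : ℝ) ≤ (box ω ι X).ncard := by positivity
  nlinarith [mul_le_mul_of_nonneg_right hpc' h4]

/-- a simple pole at a large prime -/
theorem sieve_pole' (ω : Module.Basis J ℤ (𝓞 K)) (k₀ : ι) (p₀ : ℕ) {ε : ℝ} (hε : 0 < ε) :
    ∃ X₀ : ℕ, ∀ X : ℕ, X₀ ≤ X →
      ({a | a ∈ box ω ι X ∧ ¬ ∃ (v : HeightOneSpectrum (𝓞 K)) (p : ℕ), p.Prime ∧ p₀ ≤ p ∧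
        v.valuation K (p : K) < 1 ∧ SimplePole k₀ a v}.ncard : ℝ) ≤
        ε * (box ω ι X).ncard := by
  obtain ⟨X₀, hX₀⟩ := sieve (ι := ι) ω (fun v => poleSet k₀ v)
    (c := (1 / 2) ^ Fintype.card ι) (by positivity) p₀
    (fun v p hp _ hv => card_poleSet k₀ v hp.two_le hv) hε
  refine ⟨X₀, fun X hX => le_trans ?_ (hX₀ X hX)⟩
  have h : {a | a ∈ box ω ι X ∧ ¬ ∃ (v : HeightOneSpectrum (𝓞 K)) (p : ℕ), p.Prime ∧ p₀ ≤ p ∧
        v.valuation K (p : K) < 1 ∧ SimplePole k₀ a v} ⊆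
      {a | a ∈ box ω ι X ∧ ∀ (v : HeightOneSpectrum (𝓞 K)) (p : ℕ), p.Prime → p₀ ≤ p →
        Ideal.absNorm v.asIdeal = p → (fun k => Ideal.Quotient.mk _ (a k)) ∉ poleSet k₀ v} := by
    rintro a ⟨ha, ha'⟩
    refine ⟨ha, fun v p hp hp0 hv h => ha' ⟨v, p, hp, hp0, ?_, simplePole_of_mem h⟩⟩
    rw [val_nat_lt, ← hv]
    exact Ideal.absNorm_mem _
  exact_mod_cast Set.ncard_le_ncard h ((finite_box ω X).subset fun a ha => ha.1)

end Pool.Agent.H912.DY
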