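import Pool.Agent.H912.DY.H3
import Pool.Agent.H912.DY.P6

/-!
# Good reduction in suitable coordinates (helper912)
-/

set_option autoImplicit false

open Finset Polynomial IsDedekindDomain IsLocalRing Function
open scoped NumberField

namespace Pool.Agent.H912.DY

/-- the map in the coordinates `x = a x' + b`, `y = a y' + b` -/
noncomputable def conjF {L : Type} [Field L] (a b : L) (F : L[X]) (δ : L) : L[X] :=
  C a⁻¹ * (F.comp (C a * X + C b) - C ((1 + δ) * b))

lemma conjF_natDegree {L : Type} [Field L] {a : L} (ha : a ≠ 0) (b : L) (F : L[X]) (δ : L) :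
    (conjF a b F δ).natDegree = F.natDegree := by
  unfold conjF
  rw [natDegree_C_mul (inv_ne_zero ha), natDegree_sub_C, natDegree_comp, natDegree_linear ha,
    mul_one]

lemma conjF_map {L M : Type} [Field L] [Field M] (φ : L →+* M) (a b : L) (F : L[X]) (δ : L) :
    (conjF a b F δ).map φ = conjF (φ a) (φ b) (F.map φ) (φ δ) := by
  unfold conjF
  simp [Polynomial.map_comp]

/-- the change of coordinates -/
def chg {L : Type} [Field L] (a b : L) (P : L × L) : L × L := (a * P.1 + b, a * P.2 + b)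

/-- the inverse change of coordinates -/
def chg' {L : Type} [Field L] (a b : L) (P : L × L) : L × L := (a⁻¹ * (P.1 - b), a⁻¹ * (P.2 - b))

lemma chg_chg' {L : Type} [Field L] {a : L} (ha : a ≠ 0) (b : L) (P : L × L) :
    chg a b (chg' a b P) = P := by
  unfold chg chg'
  ext
  · simp [mul_inv_cancel_left₀ ha]
  · simp [mul_inv_cancel_left₀ ha]

lemma chg'_chg {L : Type} [Field L] {a : L} (ha : a ≠ 0) (b : L) (P : L × L) :
    chg' a b (chg a b P) = P := by
  unfold chg chg'
  ext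
  · simp [inv_mul_cancel_left₀ ha]
  · simp [inv_mul_cancel_left₀ ha]

lemma conj_semi {L : Type} [Field L] {a : L} (ha : a ≠ 0) (b : L) (F : L[X]) (δ : L) :
    Semiconj (chg a b) (henon (conjF a b F δ) δ) (henon F δ) := by
  intro P
  unfold chg henon conjF
  refine Prod.ext rfl ?_
  simp only [eval_mul, eval_C, eval_sub, eval_comp, eval_add, eval_X]
  field_simp
  ring

lemma conj_period {L : Type} [Field L] {a : L} (ha : a ≠ 0) (b : L) (F : L[X]) (δ : L)
    (P : L × L) (n : ℕ) : (henon (conjF a b F δ) δ)^[n] (chg' a b P) = chg' a b P ↔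
      (henon F δ)^[n] P = P := by
  have h := (conj_semi ha b F δ).iterate_right n (chg' a b P)
  rw [chg_chg' ha] at h
  constructor
  · intro h1
    rw [← h, h1, chg_chg' ha]
  · intro h1
    rw [h1] at h
    have h2 := congrArg (chg' a b) h
    rwa [chg'_chg ha] at h2

/-- **Two valuation rings.** -/
theorem two_rings {L : Type} [Field L] (A A' : ValuationSubring L) {p p' S : ℕ} (hp : p.Prime)
    (hp' : p'.Prime) (hpp : p ≠ p') [CharP (ResidueField A) p] [CharP (ResidueField A') p']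
    [Finite (ResidueField A)] [Finite (ResidueField A')] (hS : Nat.card (ResidueField A) ≤ S)
    (hS' : Nat.card (ResidueField A') ≤ S) {F : L[X]} {d : ℕ} (hd : 2 ≤ d) (hF : F.natDegree = d)
    {δ : L} {a b a' b' : L} (ha : a ≠ 0) (ha' : a' ≠ 0)
    (hi : ∀ i, A.valuation ((conjF a b F δ).coeff i) ≤ 1)
    (hlead : A.valuation (conjF a b F δ).leadingCoeff = 1) (hδ : A.valuation δ = 1)
    (hi' : ∀ i, A'.valuation ((conjF a' b' F δ).coeff i) ≤ 1)
    (hlead' : A'.valuation (conjF a' b' F δ).leadingCoeff = 1) (hδ' : A'.valuation δ = 1)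
    {P : L × L} {n : ℕ} (hn : 0 < n) (hP : (henon F δ)^[n] P = P) :
    (henon F δ)^[EE S] P = P := by
  have h1 := (conj_period ha b F δ P n).2 hP
  have h1' := (conj_period ha' b' F δ P n).2 hP
  have hdeg := (conjF_natDegree ha b F δ).trans hF
  have hdeg' := (conjF_natDegree ha' b' F δ).trans hF
  rw [leadingCoeff, hdeg] at hlead
  rw [leadingCoeff, hdeg'] at hlead'
  obtain ⟨t, ht⟩ := period_val A hp hS hd hdeg hi hlead hδ hn h1
  obtain ⟨t', ht'⟩ := period_val A' hp' hS' hd hdeg' hi' hlead' hδ' hn h1'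
  rw [conj_period ha] at ht
  rw [conj_period ha'] at ht'
  have h2 := isPeriodicPt_iff_minimalPeriod_dvd.1 ht
  have h3 := isPeriodicPt_iff_minimalPeriod_dvd.1 ht'
  exact isPeriodicPt_iff_minimalPeriod_dvd.2 (dvd_of_two hp hp' hpp h2 h3)

/-- good reduction in suitable coordinates -/
def GoodC {K : Type} [Field K] [NumberField K] (v : HeightOneSpectrum (𝓞 K)) (F : K[X])
    (δ : K) : Prop :=
  ∃ a b : K, a ≠ 0 ∧ GoodAt v (conjF a b F δ) δ

lemma goodC_of_good {K : Type} [Field K] [NumberField K] {v : HeightOneSpectrum (𝓞 K)} {F : K[X]}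
    {δ : K} (h : GoodAt v F δ) : GoodC v F δ := by
  refine ⟨1, 0, one_ne_zero, ?_⟩
  have h1 : conjF 1 0 F δ = F := by
    unfold conjF
    simp
  rw [h1]
  exact h

theorem period_galoisC {K N : Type} [Field K] [NumberField K] [Field N] [NumberField N]
    [Algebra K N] [IsGalois K N] {f : ℕ} (hf1 : 1 ≤ f) (hf : ∀ σ : N ≃ₐ[K] N, σ ^ f = 1)
    (v : HeightOneSpectrum (𝓞 K)) {p : ℕ} (hp : p.Prime)
    (hpv : v.valuation K (p : K) < 1) {q : ℕ} (hq : Ideal.absNorm v.asIdeal ≤ q) {F : K[X]} {d : ℕ}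
    (hd : 2 ≤ d) (hF : F.natDegree = d) {δ : K} (hgood : GoodC v F δ) {P : N × N} {n : ℕ}
    (hn : 0 < n) (hP : (henon (F.map (algebraMap K N)) (algebraMap K N δ))^[n] P = P) :
    ∃ t, (henon (F.map (algebraMap K N)) (algebraMap K N δ))^[EE (q ^ f) * p ^ t] P = P := by
  obtain ⟨a, b, ha, hg⟩ := hgood
  have ha' : algebraMap K N a ≠ 0 := by
    rwa [Ne, map_eq_zero]
  have h1 := (conj_period ha' (algebraMap K N b) _ _ P n).2 hP
  rw [← conjF_map] at h1
  obtain ⟨t, ht⟩ := period_galois hf1 hf v hp hpv hq hd ((conjF_natDegree ha b F δ).trans hF) hg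
    hn h1
  refine ⟨t, ?_⟩
  rw [conjF_map] at ht
  exact (conj_period ha' (algebraMap K N b) _ _ P _).1 ht

/-- the number of the periodic points over `K[f]` -/
theorem card_expC {K : Type} [Field K] [NumberField K] {f : ℕ} (hf1 : 1 ≤ f)
    (v v' : HeightOneSpectrum (𝓞 K)) {p p' : ℕ} (hp : p.Prime) (hp' : p'.Prime) (hpp : p ≠ p')
    (hpv : v.valuation K (p : K) < 1) (hpv' : v'.valuation K (p' : K) < 1) {q : ℕ}
    (hq : Ideal.absNorm v.asIdeal ≤ q) (hq' : Ideal.absNorm v'.asIdeal ≤ q) {F : K[X]} {d : ℕ}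
    (hd : 2 ≤ d) (hF : F.natDegree = d) {δ : K} (hgood : GoodC v F δ) (hgood' : GoodC v' F δ) :
    (perExp F δ f).encard ≤ ((d ^ EE (q ^ f) : ℕ) : ℕ∞) := by
  obtain ⟨h1, h2⟩ := card_fixed (F := F.map (algebraMap K (AlgebraicClosure K))) hd
    (by rw [natDegree_map, hF]) (algebraMap K (AlgebraicClosure K) δ) (EE_pos (q ^ f))
  have key : ∀ P ∈ perExp F δ f, (henon (F.map (algebraMap K (AlgebraicClosure K)))
      (algebraMap K (AlgebraicClosure K) δ))^[EE (q ^ f)] P = P := by
    rintro P ⟨⟨n, hn, hPn⟩, hP1, hP2⟩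
    obtain ⟨N, hnf, hgal, hexp, Q, hQ, hQn⟩ := descend F δ hPn hP1 hP2
    obtain ⟨t, ht⟩ := period_galoisC hf1 hexp v hp hpv hq hd hF hgood hn hQn
    obtain ⟨t', ht'⟩ := period_galoisC hf1 hexp v' hp' hpv' hq' hd hF hgood' hn hQn
    have h3 := isPeriodicPt_iff_minimalPeriod_dvd.2 (dvd_of_two hp hp' hpp
      (isPeriodicPt_iff_minimalPeriod_dvd.1 ht) (isPeriodicPt_iff_minimalPeriod_dvd.1 ht'))
    have h4 := congrArg (Prod.map (algebraMap N (AlgebraicClosure K))
      (algebraMap N (AlgebraicClosure K))) h3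
    rw [henon_iterate, hQ] at h4
    have h5 : (F.map (algebraMap K N)).map (algebraMap N (AlgebraicClosure K)) =
        F.map (algebraMap K (AlgebraicClosure K)) := by
      rw [Polynomial.map_map]
      rfl
    rw [h5] at h4
    exact h4
  refine (Set.encard_le_encard (t := {P | (henon (F.map (algebraMap K (AlgebraicClosure K)))
      (algebraMap K (AlgebraicClosure K) δ))^[EE (q ^ f)] P = P}) key).trans ?_
  rw [← h1.cast_ncard_eq]
  exact_mod_cast h2

end Pool.Agent.H912.DY
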