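import Pool.Agent.H912.DY.P7
import Pool.Agent.H912.AE.Kh

/-!
# Potentially good reduction (helper912)
-/

set_option autoImplicit false

open Finset Polynomial IsDedekindDomain IsLocalRing Function
open scoped NumberField

namespace Pool.Agent.H912.DY

lemma absNorm_le {K : Type} [Field K] [NumberField K] (v : HeightOneSpectrum (𝓞 K)) {p : ℕ}
    (hp : p.Prime) (hpv : (p : 𝓞 K) ∈ v.asIdeal) :
    Ideal.absNorm v.asIdeal ≤ p ^ Module.finrank ℚ K := by
  have hnorm : Ideal.absNorm (Ideal.span {(p : 𝓞 K)}) = p ^ Module.finrank ℚ K := by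
    rw [Ideal.absNorm_span_singleton]
    have h1 : (p : 𝓞 K) = algebraMap ℤ (𝓞 K) (p : ℤ) := by simp
    rw [h1, Algebra.norm_algebraMap, NumberField.RingOfIntegers.rank, Int.natAbs_pow,
      Int.natAbs_natCast]
  rw [← hnorm]
  refine Nat.le_of_dvd ?_ (Ideal.absNorm_dvd_absNorm_of_le
    ((Ideal.span_singleton_le_iff_mem _).2 hpv))
  rw [hnorm]
  exact pow_pos hp.pos _

/-- good reduction in suitable coordinates over an extension of degree at most `m` -/
def PGood (m : ℕ) {K : Type} [Field K] [NumberField K] (v : HeightOneSpectrum (𝓞 K)) (F : K[X])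
    (δ : K) : Prop :=
  ∃ (L : Type) (_ : Field L) (_ : NumberField L) (_ : Algebra K L)
    (w : HeightOneSpectrum (𝓞 L)), Module.finrank K L ≤ m ∧ w.asIdeal.LiesOver v.asIdeal ∧
      GoodC w (F.map (algebraMap K L)) (algebraMap K L δ)

/-- `K[f]` is contained in `L[f]` -/
lemma expField_lift {K L : Type} [Field K] [Field L] [Algebra K L]
    (φ : AlgebraicClosure K →ₐ[K] AlgebraicClosure L) {f : ℕ} {α : AlgebraicClosure K}
    (hα : α ∈ AE.expField K f) : φ α ∈ AE.expField L f := by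
  intro σ
  let _ : Algebra (AlgebraicClosure K) (AlgebraicClosure L) := φ.toRingHom.toAlgebra
  have hst : IsScalarTower K (AlgebraicClosure K) (AlgebraicClosure L) :=
    IsScalarTower.of_algebraMap_eq fun x => (φ.commutes x).symm
  let τ : AlgebraicClosure L ≃ₐ[K] AlgebraicClosure L := σ.restrictScalars K
  have h1 : ∀ j : ℕ, ∀ y : AlgebraicClosure K, (σ ^ j) (φ y) =
      φ (((τ.restrictNormal (AlgebraicClosure K)) ^ j) y) := by
    intro j
    induction j with
    | zero => intro y; simp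
    | succ j ih =>
      intro y
      rw [pow_succ, AlgEquiv.mul_apply, pow_succ, AlgEquiv.mul_apply, ← ih]
      congr 1
      exact (τ.restrictNormal_commutes (AlgebraicClosure K) y).symm
  rw [h1, hα]

/-- the period at a place of potentially good reduction -/
theorem period_pot {K : Type} [Field K] [NumberField K] {f m : ℕ} (hf1 : 1 ≤ f)
    (v : HeightOneSpectrum (𝓞 K)) {p : ℕ} (hp : p.Prime) (hpv : (p : 𝓞 K) ∈ v.asIdeal) {F : K[X]}
    {d : ℕ} (hd : 2 ≤ d) (hF : F.natDegree = d) {δ : K} (hgood : PGood m v F δ)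
    {P : AlgebraicClosure K × AlgebraicClosure K} (hP : P ∈ perExp F δ f) {S : ℕ}
    (hS : (p ^ (Module.finrank ℚ K * m)) ≤ S) :
    ∃ t, (henon (F.map (algebraMap K (AlgebraicClosure K)))
      (algebraMap K (AlgebraicClosure K) δ))^[EE (S ^ f) * p ^ t] P = P := by
  obtain ⟨L, _, _, _, w, hm, hw, hg⟩ := hgood
  obtain ⟨⟨n, hn, hPn⟩, hP1, hP2⟩ := hP
  let φ : AlgebraicClosure K →ₐ[K] AlgebraicClosure L := IsAlgClosed.lift
  have hmap : (F.map (algebraMap K (AlgebraicClosure K))).map (φ : AlgebraicClosure K →+*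
      AlgebraicClosure L) = (F.map (algebraMap K L)).map (algebraMap L (AlgebraicClosure L)) := by
    rw [Polynomial.map_map, Polynomial.map_map]
    congr 1
    rw [φ.comp_algebraMap, ← IsScalarTower.algebraMap_eq]
  have hδ : (φ : AlgebraicClosure K →+* AlgebraicClosure L)
      (algebraMap K (AlgebraicClosure K) δ) =
      algebraMap L (AlgebraicClosure L) (algebraMap K L δ) := by
    rw [← IsScalarTower.algebraMap_apply]
    exact φ.commutes δ
  have hit : ∀ (j : ℕ) (R : AlgebraicClosure K × AlgebraicClosure K),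
      Prod.map φ φ ((henon (F.map (algebraMap K (AlgebraicClosure K)))
        (algebraMap K (AlgebraicClosure K) δ))^[j] R) =
      (henon ((F.map (algebraMap K L)).map (algebraMap L (AlgebraicClosure L)))
        (algebraMap L (AlgebraicClosure L) (algebraMap K L δ)))^[j] (Prod.map φ φ R) := by
    intro j R
    have := henon_iterate (φ : AlgebraicClosure K →+* AlgebraicClosure L)
      (F.map (algebraMap K (AlgebraicClosure K))) (algebraMap K (AlgebraicClosure K) δ) j R
    rw [hmap, hδ] at this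
    exact this
  have hQn := hit n P
  rw [hPn] at hQn
  obtain ⟨N, hnf, hgal, hexp, Q, hQ, hQn'⟩ := descend (F.map (algebraMap K L)) (algebraMap K L δ)
    hQn.symm (expField_lift φ hP1) (expField_lift φ hP2)
  have hpw : (p : 𝓞 L) ∈ w.asIdeal := by
    have h1 : (p : 𝓞 K) ∈ w.asIdeal.under (𝓞 K) := by
      rw [← hw.over]
      exact hpv
    have h2 : algebraMap (𝓞 K) (𝓞 L) (p : 𝓞 K) ∈ w.asIdeal := h1
    rwa [map_natCast] at h2
  have hnorm : Ideal.absNorm w.asIdeal ≤ S := by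
    refine (absNorm_le w hp hpw).trans (le_trans ?_ hS)
    refine Nat.pow_le_pow_right hp.pos ?_
    rw [← Module.finrank_mul_finrank ℚ K L]
    exact Nat.mul_le_mul_left _ hm
  obtain ⟨t, ht⟩ := period_galoisC hf1 hexp w hp ((val_nat_lt w p).2 hpw) hnorm hd
    (by rw [natDegree_map, hF]) hg hn hQn'
  refine ⟨t, ?_⟩
  have h4 := congrArg (Prod.map (algebraMap N (AlgebraicClosure L))
    (algebraMap N (AlgebraicClosure L))) ht
  rw [henon_iterate, hQ] at h4
  have h5 : ((F.map (algebraMap K L)).map (algebraMap L N)).map (algebraMap N (AlgebraicClosure L))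
      = (F.map (algebraMap K L)).map (algebraMap L (AlgebraicClosure L)) := by
    rw [Polynomial.map_map (algebraMap L N)]
    rfl
  rw [h5] at h4
  have hinj : Injective (Prod.map φ φ) := φ.injective.prodMap φ.injective
  apply hinj
  rw [hit]
  exact h4

/-- the number of the periodic points over `K[f]` -/
theorem card_pot {K : Type} [Field K] [NumberField K] {f m : ℕ} (hf1 : 1 ≤ f)
    (v v' : HeightOneSpectrum (𝓞 K)) {p p' : ℕ} (hp : p.Prime) (hp' : p'.Prime) (hpp : p ≠ p')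
    (hpv : (p : 𝓞 K) ∈ v.asIdeal) (hpv' : (p' : 𝓞 K) ∈ v'.asIdeal) {F : K[X]}
    {d : ℕ} (hd : 2 ≤ d) (hF : F.natDegree = d) {δ : K} (hgood : PGood m v F δ)
    (hgood' : PGood m v' F δ) {S : ℕ} (hS : (p ^ (Module.finrank ℚ K * m)) ≤ S)
    (hS' : (p' ^ (Module.finrank ℚ K * m)) ≤ S) :
    (perExp F δ f).encard ≤ ((d ^ EE (S ^ f) : ℕ) : ℕ∞) := by
  obtain ⟨h1, h2⟩ := card_fixed (F := F.map (algebraMap K (AlgebraicClosure K))) hd
    (by rw [natDegree_map, hF]) (algebraMap K (AlgebraicClosure K) δ) (EE_pos (S ^ f))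
  have key : ∀ P ∈ perExp F δ f, (henon (F.map (algebraMap K (AlgebraicClosure K)))
      (algebraMap K (AlgebraicClosure K) δ))^[EE (S ^ f)] P = P := by
    intro P hP
    obtain ⟨t, ht⟩ := period_pot hf1 v hp hpv hd hF hgood hP hS
    obtain ⟨t', ht'⟩ := period_pot hf1 v' hp' hpv' hd hF hgood' hP hS'
    exact isPeriodicPt_iff_minimalPeriod_dvd.2 (dvd_of_two hp hp' hpp
      (isPeriodicPt_iff_minimalPeriod_dvd.1 ht) (isPeriodicPt_iff_minimalPeriod_dvd.1 ht'))
  refine (Set.encard_le_encard (t := {P | (henon (F.map (algebraMap K (AlgebraicClosure K)))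
      (algebraMap K (AlgebraicClosure K) δ))^[EE (S ^ f)] P = P}) key).trans ?_
  rw [← h1.cast_ncard_eq]
  exact_mod_cast h2

/-- two good primes above bounded rational primes -/
theorem two_good' (s : ℕ) : ∃ b : ℕ, ∀ (K : Type) [Field K] [NumberField K],
    ∀ B : Set (HeightOneSpectrum (𝓞 K)), B.encard ≤ s →
    ∃ (v v' : HeightOneSpectrum (𝓞 K)) (p p' : ℕ), v ∉ B ∧ v' ∉ B ∧ p.Prime ∧ p'.Prime ∧ p ≠ p' ∧
      (p : 𝓞 K) ∈ v.asIdeal ∧ (p' : 𝓞 K) ∈ v'.asIdeal ∧ p ≤ b ∧ p' ≤ b := by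
  classical
  obtain ⟨Q, hQ, hQc⟩ := Nat.infinite_setOfPred_prime.exists_subset_card_eq (s + 2)
  refine ⟨Q.sup id, fun K _ _ B hB => ?_⟩
  have huniq : ∀ (v : HeightOneSpectrum (𝓞 K)) (p p' : ℕ), p.Prime → p'.Prime →
      (p : 𝓞 K) ∈ v.asIdeal → (p' : 𝓞 K) ∈ v.asIdeal → p = p' := by
    intro v p p' hp hp' h h'
    by_contra hne
    have h1 : IsCoprime (p : ℤ) (p' : ℤ) := by
      rw [Nat.isCoprime_iff_coprime]
      exact (Nat.coprime_primes hp hp').2 hne
    obtain ⟨x, y, hxy⟩ := h1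
    have h2 : (x : 𝓞 K) * (p : 𝓞 K) + y * p' = 1 := by
      have h := congrArg (Int.cast : ℤ → 𝓞 K) hxy
      push_cast at h
      exact h
    apply v.isPrime.ne_top
    rw [Ideal.eq_top_iff_one, ← h2]
    exact v.asIdeal.add_mem (v.asIdeal.mul_mem_left _ h) (v.asIdeal.mul_mem_left _ h')
  set T : Finset ℕ := Q.filter (fun p : ℕ => ∃ v ∈ B, ((p : ℕ) : 𝓞 K) ∈ v.asIdeal) with hT
  have hTc : T.card ≤ s := by
    have h1 : ∀ p : T, ∃ v ∈ B, ((p : ℕ) : 𝓞 K) ∈ v.asIdeal := fun p => (mem_filter.1 p.2).2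
    choose g hg1 hg2 using h1
    have hginj : Function.Injective g := by
      intro p p' h
      apply Subtype.ext
      refine huniq (g p) p p' (hQ (mem_filter.1 p.2).1) (hQ (mem_filter.1 p'.2).1) (hg2 p) ?_
      rw [h]
      exact hg2 p'
    have h2 : (Set.range g).encard ≤ B.encard := Set.encard_le_encard (by
      rintro _ ⟨p, rfl⟩
      exact hg1 p)
    rw [← Set.image_univ, hginj.encard_image, Set.encard_univ, ENat.card_eq_coe_fintype_card,
      Fintype.card_coe] at h2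
    exact_mod_cast h2.trans hB
  have hdiff : 1 < (Q \ T).card := by
    have h1 := card_sdiff_add_card_eq_card
      (filter_subset (fun p : ℕ => ∃ v ∈ B, ((p : ℕ) : 𝓞 K) ∈ v.asIdeal) Q)
    rw [← hT] at h1
    omega
  obtain ⟨p, hpm, p', hpm', hne⟩ := one_lt_card.1 hdiff
  have key : ∀ p ∈ Q \ T, p.Prime ∧ p ≤ Q.sup id ∧ ∃ v : HeightOneSpectrum (𝓞 K), v ∉ B ∧
      (p : 𝓞 K) ∈ v.asIdeal := by
    intro p hp
    rw [Finset.mem_sdiff] at hp
    have hpp : p.Prime := hQ hp.1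
    obtain ⟨v, hv1, -⟩ := exists_above (K := K) hpp
    exact ⟨hpp, le_sup (f := id) hp.1, v, fun h => hp.2 (mem_filter.2 ⟨hp.1, v, h, hv1⟩), hv1⟩
  obtain ⟨hp, hb, v, h1, h2⟩ := key p hpm
  obtain ⟨hp', hb', v', h1', h2'⟩ := key p' hpm'
  exact ⟨v, v', p, p', h1, h1', hp, hp', hne, h2, h2', hb, hb'⟩

/-- **Few places of bad reduction.** -/
theorem few_bad (D d f s m : ℕ) (hd : 2 ≤ d) (hf : 1 ≤ f) : ∃ C : ℕ,
    ∀ (K : Type) [Field K] [NumberField K], Module.finrank ℚ K ≤ D →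
    ∀ (F : K[X]) (δ : K), F.natDegree = d →
    {v : HeightOneSpectrum (𝓞 K) | ¬ PGood m v F δ}.encard ≤ s →
    (perExp F δ f).encard ≤ C := by
  obtain ⟨b, hb⟩ := two_good' s
  refine ⟨d ^ EE ((b ^ (D * m)) ^ f), fun K _ _ hD F δ hF hs => ?_⟩
  obtain ⟨v, v', p, p', h1, h1', hp, hp', hne, h2, h2', h3, h3'⟩ := hb K _ hs
  have hS : ∀ p : ℕ, p.Prime → p ≤ b → p ^ (Module.finrank ℚ K * m) ≤ b ^ (D * m) := by
    intro p hp hpb
    exact (Nat.pow_le_pow_left hpb _).trans
      (Nat.pow_le_pow_right (hp.pos.trans_le hpb) (Nat.mul_le_mul_right _ hD))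
  exact card_pot hf v v' hp hp' hne h2 h2' hd hF (not_not.1 h1) (not_not.1 h1') (hS p hp h3)
    (hS p' hp' h3')

end Pool.Agent.H912.DY
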