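import Pool.Agent.H912.DY.H4

/-!
# Rational maps at a pole of one coefficient: contraction (helper912)
-/

set_option autoImplicit false

open Finset Polynomial

namespace Pool.Agent.H912.DY

section abstract

/-- a contraction has only fixed points as periodic points -/
lemma contr_fixed {X : Type*} {Γ : Type*} [LinearOrderedCommGroupWithZero Γ] (f : X → X)
    (D : Set X) (hD : ∀ P ∈ D, f P ∈ D) (ρ : X → X → Γ) {A : Γ} (hA : 1 < A)
    (hρ : ∀ P ∈ D, ∀ Q ∈ D, ρ (f P) (f Q) * A ≤ ρ P Q)
    (h0 : ∀ P ∈ D, ∀ Q ∈ D, ρ P Q = 0 → P = Q) {P : X} (hP : P ∈ D) {n : ℕ} (hn : 0 < n)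
    (hPn : f^[n] P = P) : f P = P := by
  have hmem : ∀ k, f^[k] P ∈ D := by
    intro k
    induction k with
    | zero => exact hP
    | succ k ih =>
      rw [Function.iterate_succ_apply']
      exact hD _ ih
  have h1 : ∀ k, ρ (f (f^[k] P)) (f^[k] P) * A ^ k ≤ ρ (f P) P := by
    intro k
    induction k with
    | zero => simp
    | succ k ih =>
      refine le_trans ?_ ih
      rw [Function.iterate_succ_apply', pow_succ']
      have h2 := hρ _ (hD _ (hmem k)) _ (hmem k)
      calc ρ (f (f (f^[k] P))) (f (f^[k] P)) * (A * A ^ k) =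
          (ρ (f (f (f^[k] P))) (f (f^[k] P)) * A) * A ^ k := by rw [mul_assoc]
        _ ≤ ρ (f (f^[k] P)) (f^[k] P) * A ^ k := mul_le_mul' h2 le_rfl
  have h2 := h1 n
  rw [hPn] at h2
  have h3 : ρ (f P) P = 0 := by
    by_contra h
    have h4 : 1 < A ^ n := one_lt_pow₀ hA hn.ne'
    have h5 : ρ (f P) P * 1 < ρ (f P) P * A ^ n :=
      mul_lt_mul_of_pos_left h4 (zero_lt_iff.2 h)
    rw [mul_one] at h5
    exact absurd h2 (not_le.2 h5)
  exact h0 _ (hD _ hP) _ hP h3

/-- a preperiodic orbit which enters the domain of a contraction `f^[e]` -/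
lemma contr_preper {X : Type*} {Γ : Type*} [LinearOrderedCommGroupWithZero Γ] (f : X → X) (e : ℕ)
    (D : Set X) (hD : ∀ P ∈ D, f^[e] P ∈ D) (ρ : X → X → Γ) {A : Γ} (hA : 1 < A)
    (hρ : ∀ P ∈ D, ∀ Q ∈ D, ρ (f^[e] P) (f^[e] Q) * A ≤ ρ P Q)
    (h0 : ∀ P ∈ D, ∀ Q ∈ D, ρ P Q = 0 → P = Q) (he : 0 < e) {P : X} {m n k : ℕ} (hn : 0 < n)
    (hP : f^[m + n] P = f^[m] P) (hk : f^[k] P ∈ D) :
    ∃ r s, f^[r] P ∈ D ∧ f^[e] (f^[r] P) = f^[r] P ∧ f^[m] P = f^[s] (f^[r] P) := by
  have hper : ∀ i, m ≤ i → f^[i + n] P = f^[i] P := by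
    intro i hi
    obtain ⟨t, rfl⟩ := Nat.exists_eq_add_of_le hi
    have h1 : m + t + n = t + (m + n) := by ring
    have h2 : m + t = t + m := by ring
    rw [h1, Function.iterate_add_apply, hP, ← Function.iterate_add_apply, ← h2]
  have hper' : ∀ j i, m ≤ i → f^[i + j * n] P = f^[i] P := by
    intro j
    induction j with
    | zero => simp
    | succ j ih =>
      intro i hi
      have h1 : i + (j + 1) * n = (i + j * n) + n := by ring
      rw [h1, hper _ (by omega), ih i hi]
  have hD' : ∀ j, f^[k + j * e] P ∈ D := by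
    intro j
    induction j with
    | zero => simpa using hk
    | succ j ih =>
      have h1 : k + (j + 1) * e = e + (k + j * e) := by ring
      rw [h1, Function.iterate_add_apply]
      exact hD _ ih
  have hr : m ≤ k + m * e := by nlinarith
  set r := k + m * e with hr'
  have hRD : f^[r] P ∈ D := hD' m
  have hRn : (f^[e])^[n] (f^[r] P) = f^[r] P := by
    rw [← Function.iterate_mul, ← Function.iterate_add_apply]
    have h1 : e * n + r = r + e * n := by ring
    rw [h1, hper' e r hr]
  have hfix := contr_fixed (f^[e]) D hD ρ hA hρ h0 hRD hn hRn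
  refine ⟨r, m + r * n - r, hRD, hfix, ?_⟩
  rw [← Function.iterate_add_apply]
  have h1 : r ≤ m + r * n := by nlinarith
  have h2 : m + r * n - r + r = m + r * n := by omega
  rw [h2, hper' r m le_rfl]

end abstract

section poly

variable {L : Type} {Γ : Type*} [Field L] [LinearOrderedCommGroupWithZero Γ] (w : Valuation L Γ)

lemma val_eval_le {v : L[X]} (hv : ∀ i, w (v.coeff i) ≤ 1) {x : L} (hx : w x ≤ 1) :
    w (v.eval x) ≤ 1 := by
  rw [eval_eq_sum_range]
  refine w.map_sum_le fun i _ => ?_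
  rw [map_mul, map_pow]
  exact mul_le_one' (hv i) (pow_le_one' hx i)

/-- the polynomial without its constant coefficient -/
lemma coeff_sub_const (u : L[X]) (i : ℕ) :
    (u - C (u.coeff 0)).coeff i = if i = 0 then 0 else u.coeff i := by
  rw [coeff_sub, coeff_C]
  by_cases h : i = 0
  · subst h
    simp
  · simp [h]

lemma val_eval_big {u : L[X]} (hu0 : 1 < w (u.coeff 0)) (hu : ∀ i, i ≠ 0 → w (u.coeff i) ≤ 1)
    {x : L} (hx : w x ≤ 1) : w (u.eval x) = w (u.coeff 0) := by
  have h1 : w ((u - C (u.coeff 0)).eval x) ≤ 1 := by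
    refine val_eval_le w (fun i => ?_) hx
    rw [coeff_sub_const]
    split_ifs with h
    · rw [map_zero]
      exact zero_le
    · exact hu i h
  have h2 : u.eval x = (u - C (u.coeff 0)).eval x + u.coeff 0 := by
    simp
  rw [h2]
  exact w.map_add_eq_of_lt_right (h1.trans_lt hu0)

/-- the quotient `v / u` is a contraction of the unit disc if `u` has a large constant coefficient -/
lemma contr_quot {u v : L[X]} (hu0 : 1 < w (u.coeff 0)) (hu : ∀ i, i ≠ 0 → w (u.coeff i) ≤ 1)
    (hv : ∀ i, w (v.coeff i) ≤ 1) {x y : L} (hx : w x ≤ 1) (hy : w y ≤ 1) :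
    w (v.eval x / u.eval x - v.eval y / u.eval y) * w (u.coeff 0) ≤ w (x - y) := by
  have hA := val_eval_big w hu0 hu hx
  have hB := val_eval_big w hu0 hu hy
  set A := w (u.coeff 0) with hAdef
  have hA0 : A ≠ 0 := (zero_lt_one.trans hu0).ne'
  have hux : u.eval x ≠ 0 := by
    intro h
    rw [h, map_zero] at hA
    exact hA0 hA.symm
  have huy : u.eval y ≠ 0 := by
    intro h
    rw [h, map_zero] at hB
    exact hA0 hB.symm
  have h1 : w (u.eval y - u.eval x) ≤ w (x - y) := by
    have h2 : u.eval y - u.eval x = -((u - C (u.coeff 0)).eval x - (u - C (u.coeff 0)).eval y) := by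
      simp
    rw [h2, Valuation.map_neg]
    refine val_eval_sub w (fun i => ?_) hx hy
    rw [coeff_sub_const]
    split_ifs with h
    · rw [map_zero]
      exact zero_le
    · exact hu i h
  have h2 := val_eval_sub w hv hx hy
  have h3 := val_eval_le w hv hx
  have h4 : v.eval x / u.eval x - v.eval y / u.eval y =
      (v.eval x * (u.eval y - u.eval x) + u.eval x * (v.eval x - v.eval y)) /
        (u.eval x * u.eval y) := by
    field_simp
    ring
  rw [h4, map_div₀, map_mul w (u.eval x) (u.eval y), hA, hB]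
  have h5 : w (v.eval x * (u.eval y - u.eval x) + u.eval x * (v.eval x - v.eval y)) ≤
      w (x - y) * A := by
    refine w.map_add_le ?_ ?_
    · rw [map_mul]
      calc w (v.eval x) * w (u.eval y - u.eval x) ≤ 1 * w (x - y) := mul_le_mul' h3 h1
        _ = w (x - y) * 1 := by rw [one_mul, mul_one]
        _ ≤ w (x - y) * A := mul_le_mul' le_rfl hu0.le
    · rw [map_mul, hA, mul_comm]
      exact mul_le_mul' h2 le_rfl
  calc w (v.eval x * (u.eval y - u.eval x) + u.eval x * (v.eval x - v.eval y)) / (A * A) * A ≤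
      (w (x - y) * A) / (A * A) * A := mul_le_mul' (div_le_div_of_nonneg_right h5 zero_le) le_rfl
    _ = w (x - y) := by field_simp

end poly

end Pool.Agent.H912.DY
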