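import Pool.Agent.H912.DY.R9
import Pool.Agent.H912.DY.P6

/-!
# A simple pole at a prime where one more expression is a unit (helper912)
-/

set_option autoImplicit false
set_option linter.unusedSectionVars false

open Finset Polynomial IsDedekindDomain
open scoped NumberField

namespace Pool.Agent.H912.DY

variable {K : Type} [Field K] [NumberField K] {J ι : Type} [Fintype J] [Fintype ι]

/-- the residues of the vectors with a simple pole such that one more expression is a unit -/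
def poleSet2 (k₀ k1 k2 k3 k4 : ι) (s t : 𝓞 K) (v : HeightOneSpectrum (𝓞 K)) :
    Set (ι → 𝓞 K ⧸ v.asIdeal ^ 2) :=
  {g | g ∈ poleSet k₀ v ∧ ¬ ∃ a ∈ v.asIdeal, Ideal.Quotient.mk (v.asIdeal ^ 2) a =
    Ideal.Quotient.mk _ t * g k1 * g k4 - Ideal.Quotient.mk _ s * g k2 * g k3}

lemma pole2_of_mem {k₀ k1 k2 k3 k4 : ι} {s t : 𝓞 K} {v : HeightOneSpectrum (𝓞 K)} {a : ι → 𝓞 K}
    (h : (fun k => Ideal.Quotient.mk (v.asIdeal ^ 2) (a k)) ∈ poleSet2 k₀ k1 k2 k3 k4 s t v) :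
    SimplePole k₀ a v ∧ t * a k1 * a k4 - s * a k2 * a k3 ∉ v.asIdeal := by
  refine ⟨simplePole_of_mem h.1, fun h1 => h.2 ⟨_, h1, ?_⟩⟩
  simp only [map_sub, map_mul]

open Classical in
lemma card_poleSet2 {k₀ k1 k2 k3 k4 : ι} (h1 : k1 ≠ k₀) (h4 : k4 ≠ k₀) (h12 : k2 ≠ k1)
    (h13 : k3 ≠ k1) (h14 : k4 ≠ k1) (s : 𝓞 K) {t : 𝓞 K} {v : HeightOneSpectrum (𝓞 K)} {p : ℕ}
    (hp : p.Prime) (hp3 : 3 ≤ p) (hv : Ideal.absNorm v.asIdeal = p) (ht : t ∉ v.asIdeal) :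
    ((1 / 2 : ℝ) ^ Fintype.card ι / 2) / p * Nat.card (ι → 𝓞 K ⧸ v.asIdeal ^ 2) ≤
      (poleSet2 k₀ k1 k2 k3 k4 s t v).ncard := by
  have hf2 : Finite (𝓞 K ⧸ v.asIdeal ^ 2) :=
    finite_quot (M := p ^ 2) (pow_pos hp.pos 2) (absNorm_pow_mem v hv 2)
  let φ : (ι → 𝓞 K ⧸ v.asIdeal ^ 2) → (ι → 𝓞 K ⧸ v.asIdeal ^ 2) := fun g =>
    Function.update g k1 (-g k1)
  have hφ : ∀ g, φ (φ g) = g := by
    intro g
    simp only [φ, Function.update_self, Function.update_idem, neg_neg, Function.update_eq_self]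
  have hprime : v.asIdeal.IsPrime := v.isPrime
  have h2v : (2 : 𝓞 K) ∉ v.asIdeal := by
    intro h2
    have h3 : (p : 𝓞 K) ∈ v.asIdeal := by
      rw [← hv]
      exact Ideal.absNorm_mem _
    have h5 : IsCoprime (2 : ℤ) (p : ℤ) := by
      have : Nat.Coprime 2 p := (Nat.coprime_primes Nat.prime_two hp).2 (by omega)
      exact_mod_cast Nat.isCoprime_iff_coprime.2 this
    obtain ⟨x, y, hxy⟩ := h5
    have h6 : (x : 𝓞 K) * 2 + y * (p : 𝓞 K) = 1 := by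
      have h := congrArg (Int.cast : ℤ → 𝓞 K) hxy
      push_cast at h
      exact h
    apply hprime.ne_top
    rw [Ideal.eq_top_iff_one, ← h6]
    exact v.asIdeal.add_mem (v.asIdeal.mul_mem_left _ h2) (v.asIdeal.mul_mem_left _ h3)
  have hφp : ∀ g ∈ poleSet k₀ v, φ g ∈ poleSet k₀ v := by
    rintro g ⟨g1, g2, g3⟩
    have e0 : φ g k₀ = g k₀ := Function.update_of_ne h1.symm _ _
    refine ⟨by rw [e0]; exact g1, by rw [e0]; exact g2, fun k hk => ?_⟩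
    by_cases hk1 : k = k1
    · subst hk1
      have e1 : φ g k = -g k := Function.update_self _ _ _
      rw [e1]
      rintro ⟨a, ha, hag⟩
      exact g3 k hk ⟨-a, v.asIdeal.neg_mem ha, by rw [map_neg, hag, neg_neg]⟩
    · have e1 : φ g k = g k := Function.update_of_ne hk1 _ _
      rw [e1]
      exact g3 k hk
  have hsub : poleSet k₀ v ⊆ poleSet2 k₀ k1 k2 k3 k4 s t v ∪ φ '' poleSet2 k₀ k1 k2 k3 k4 s t v := by
    intro g hg
    by_contra hcon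
    rw [Set.mem_union, not_or] at hcon
    have hA : ∃ a ∈ v.asIdeal, Ideal.Quotient.mk (v.asIdeal ^ 2) a =
        Ideal.Quotient.mk _ t * g k1 * g k4 - Ideal.Quotient.mk _ s * g k2 * g k3 := by
      by_contra h
      exact hcon.1 ⟨hg, h⟩
    have hB : ∃ a ∈ v.asIdeal, Ideal.Quotient.mk (v.asIdeal ^ 2) a =
        Ideal.Quotient.mk _ t * φ g k1 * φ g k4 - Ideal.Quotient.mk _ s * φ g k2 * φ g k3 := by
      by_contra h
      exact hcon.2 ⟨φ g, ⟨hφp g hg, h⟩, hφ g⟩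
    have e1 : φ g k1 = -g k1 := Function.update_self _ _ _
    have e2 : φ g k2 = g k2 := Function.update_of_ne h12 _ _
    have e3 : φ g k3 = g k3 := Function.update_of_ne h13 _ _
    have e4 : φ g k4 = g k4 := Function.update_of_ne h14 _ _
    rw [e1, e2, e3, e4] at hB
    obtain ⟨a, ha, ha'⟩ := hA
    obtain ⟨b, hb, hb'⟩ := hB
    obtain ⟨c1, hc1⟩ := Ideal.Quotient.mk_surjective (g k1)
    obtain ⟨c4, hc4⟩ := Ideal.Quotient.mk_surjective (g k4)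
    have hc1v : c1 ∉ v.asIdeal := fun h => hg.2.2 k1 h1 ⟨c1, h, hc1⟩
    have hc4v : c4 ∉ v.asIdeal := fun h => hg.2.2 k4 h4 ⟨c4, h, hc4⟩
    have h5 : Ideal.Quotient.mk (v.asIdeal ^ 2) (a - b) =
        Ideal.Quotient.mk (v.asIdeal ^ 2) (2 * (t * (c1 * c4))) := by
      rw [map_sub, ha', hb', map_mul, map_mul, map_mul, hc1, hc4, map_ofNat]
      ring
    rw [Ideal.Quotient.eq] at h5
    have h6 : a - b - 2 * (t * (c1 * c4)) ∈ v.asIdeal := Ideal.pow_le_self two_ne_zero h5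
    have h7 : 2 * (t * (c1 * c4)) ∈ v.asIdeal := by
      have h8 : 2 * (t * (c1 * c4)) = (a - b) - (a - b - 2 * (t * (c1 * c4))) := by ring
      rw [h8]
      exact v.asIdeal.sub_mem (v.asIdeal.sub_mem ha hb) h6
    rcases hprime.mem_or_mem h7 with h | h
    · exact h2v h
    · rcases hprime.mem_or_mem h with h | h
      · exact ht h
      · rcases hprime.mem_or_mem h with h | h
        · exact hc1v h
        · exact hc4v h
  have hn : (poleSet k₀ v).ncard ≤ 2 * (poleSet2 k₀ k1 k2 k3 k4 s t v).ncard := by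
    refine (Set.ncard_le_ncard hsub (Set.toFinite _)).trans ((Set.ncard_union_le _ _).trans ?_)
    have := Set.ncard_image_le (f := φ) (Set.toFinite (poleSet2 k₀ k1 k2 k3 k4 s t v))
    omega
  have hc := card_poleSet k₀ v hp.two_le hv
  have hn' : ((poleSet k₀ v).ncard : ℝ) ≤ 2 * ((poleSet2 k₀ k1 k2 k3 k4 s t v).ncard : ℝ) := by
    exact_mod_cast hn
  have h5 : ((1 / 2 : ℝ) ^ Fintype.card ι / 2) / p * Nat.card (ι → 𝓞 K ⧸ v.asIdeal ^ 2) =
      (((1 / 2 : ℝ) ^ Fintype.card ι) / p * Nat.card (ι → 𝓞 K ⧸ v.asIdeal ^ 2)) / 2 := by ring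
  rw [h5]
  linarith

/-- **A simple pole at a large prime where one more expression is a unit.** -/
theorem sieve_pole2 (ω : Module.Basis J ℤ (𝓞 K)) {k₀ k1 k2 k3 k4 : ι} (h1 : k1 ≠ k₀) (h4 : k4 ≠ k₀)
    (h12 : k2 ≠ k1) (h13 : k3 ≠ k1) (h14 : k4 ≠ k1) (s : 𝓞 K) {t : 𝓞 K} (ht : t ≠ 0) (p₀ : ℕ)
    {ε : ℝ} (hε : 0 < ε) : ∃ X₀ : ℕ, ∀ X : ℕ, X₀ ≤ X →
      ({a | a ∈ box ω ι X ∧ ¬ ∃ (v : HeightOneSpectrum (𝓞 K)) (p : ℕ), p.Prime ∧ p₀ ≤ p ∧
        v.valuation K (p : K) < 1 ∧ SimplePole k₀ a v ∧ t ∉ v.asIdeal ∧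
        t * a k1 * a k4 - s * a k2 * a k3 ∉ v.asIdeal}.ncard : ℝ) ≤
        ε * (box ω ι X).ncard := by
  have htv : ∀ (v : HeightOneSpectrum (𝓞 K)) (p : ℕ),
      max p₀ (max 3 (Ideal.absNorm (Ideal.span {t}) + 1)) ≤ p →
      Ideal.absNorm v.asIdeal = p → t ∉ v.asIdeal := by
    intro v p hp hv h
    have h5 : v.asIdeal ∣ Ideal.span {t} :=
      Ideal.dvd_iff_le.2 (Ideal.span_le.2 (Set.singleton_subset_iff.2 h))
    have h6 : Ideal.absNorm (Ideal.span {t}) ≠ 0 := by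
      rw [Ne, Ideal.absNorm_eq_zero_iff, Ideal.span_singleton_eq_bot]
      exact ht
    have h7 := Nat.le_of_dvd (Nat.pos_of_ne_zero h6) (map_dvd Ideal.absNorm h5)
    rw [hv] at h7
    have h8 := (le_max_right 3 _).trans ((le_max_right p₀ _).trans hp)
    omega
  obtain ⟨X₀, hX₀⟩ := sieve (ι := ι) ω (fun v => poleSet2 k₀ k1 k2 k3 k4 s t v)
    (c := (1 / 2) ^ Fintype.card ι / 2) (by positivity)
    (max p₀ (max 3 (Ideal.absNorm (Ideal.span {t}) + 1)))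
    (fun v p hp hp0 hv => card_poleSet2 h1 h4 h12 h13 h14 s hp
      ((le_max_left 3 _).trans ((le_max_right p₀ _).trans hp0)) hv (htv v p hp0 hv)) hε
  refine ⟨X₀, fun X hX => le_trans ?_ (hX₀ X hX)⟩
  have h : {a | a ∈ box ω ι X ∧ ¬ ∃ (v : HeightOneSpectrum (𝓞 K)) (p : ℕ), p.Prime ∧ p₀ ≤ p ∧
        v.valuation K (p : K) < 1 ∧ SimplePole k₀ a v ∧ t ∉ v.asIdeal ∧
        t * a k1 * a k4 - s * a k2 * a k3 ∉ v.asIdeal} ⊆
      {a | a ∈ box ω ι X ∧ ∀ (v : HeightOneSpectrum (𝓞 K)) (p : ℕ), p.Prime →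
        max p₀ (max 3 (Ideal.absNorm (Ideal.span {t}) + 1)) ≤ p →
        Ideal.absNorm v.asIdeal = p →
        (fun k => Ideal.Quotient.mk _ (a k)) ∉ poleSet2 k₀ k1 k2 k3 k4 s t v} := by
    rintro a ⟨ha, ha'⟩
    refine ⟨ha, fun v p hp hp0 hv h => ha' ⟨v, p, hp, (le_max_left _ _).trans hp0, ?_,
      (pole2_of_mem h).1, htv v p hp0 hv, (pole2_of_mem h).2⟩⟩
    rw [val_nat_lt, ← hv]
    exact Ideal.absNorm_mem _
  exact_mod_cast Set.ncard_le_ncard h ((finite_box ω X).subset fun a ha => ha.1)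

end Pool.Agent.H912.DY
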