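import Pool.Agent.H912.DY.R10

/-!
# Rational maps: the numerators of the iterates are irreducible (helper912)
-/

set_option autoImplicit false

open Finset Polynomial IsDedekindDomain
open scoped NumberField

namespace Pool.Agent.H912.DY

/-- numerator and denominator of the iterates -/
noncomputable def iter {K : Type} [Field K] (d : ℕ) (p q : K[X]) : ℕ → K[X] × K[X]
  | 0 => (X, 1)
  | n + 1 => (hom d (fun i => C (p.coeff i)) (iter d p q n).1 (iter d p q n).2,
      hom d (fun i => C (q.coeff i)) (iter d p q n).1 (iter d p q n).2)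

lemma hom_natDegree' {K : Type} [Field K] {d m : ℕ} {c : ℕ → K} {F G : K[X]}
    (hF : F.natDegree ≤ m) (hG : G.natDegree ≤ m) :
    (hom d (fun i => C (c i)) F G).natDegree ≤ d * m := by
  unfold hom
  refine natDegree_sum_le_of_forall_le _ _ fun i hi => ?_
  rw [mem_range] at hi
  have h1 : (C (c i) * F ^ i).natDegree ≤ i * m :=
    (natDegree_C_mul_le _ _).trans (natDegree_pow_le_of_le i hF)
  have h2 : (G ^ (d - i)).natDegree ≤ (d - i) * m := natDegree_pow_le_of_le _ hG
  refine (natDegree_mul_le_of_le h1 h2).trans (le_of_eq ?_)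
  rw [← add_mul]
  congr 1
  omega

lemma iter_natDegree {K : Type} [Field K] (d : ℕ) (p q : K[X]) (n : ℕ) :
    (iter d p q n).1.natDegree ≤ d ^ n ∧ (iter d p q n).2.natDegree ≤ d ^ n := by
  induction n with
  | zero =>
    refine ⟨?_, ?_⟩
    · show (X : K[X]).natDegree ≤ d ^ 0
      rw [pow_zero]
      exact natDegree_X_le
    · show (1 : K[X]).natDegree ≤ d ^ 0
      rw [natDegree_one]
      exact Nat.zero_le _
  | succ n ih =>
    rw [pow_succ']
    exact ⟨hom_natDegree' ih.1 ih.2, hom_natDegree' ih.1 ih.2⟩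

open Classical in
/-- the point with homogeneous coordinates `a`, `b` -/
noncomputable def toP {L : Type} [Field L] (a b : L) : Option L :=
  if b = 0 then none else some (a / b)

lemma ratMap_toP {L : Type} [Field L] {d : ℕ} {p q : L[X]} (hp : p.natDegree ≤ d)
    (hq : q.natDegree ≤ d) {a b : L} (hab : a ≠ 0 ∨ b ≠ 0) :
    ratMap d p q (toP a b) = toP (hom d p.coeff a b) (hom d q.coeff a b) := by
  by_cases hb : b = 0
  · subst hb
    have ha : a ≠ 0 := hab.resolve_right (fun h => h rfl)
    have had : a ^ d ≠ 0 := pow_ne_zero _ ha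
    rw [hom_zero, hom_zero]
    have e0 : toP a (0 : L) = none := if_pos rfl
    rw [e0]
    unfold toP
    simp only [ratMap]
    by_cases h1 : q.coeff d = 0
    · rw [if_pos h1, if_pos (by rw [h1, zero_mul])]
    · rw [if_neg h1, if_neg (mul_ne_zero h1 had), mul_div_mul_right _ _ had]
  · have hbd : b ^ d ≠ 0 := pow_ne_zero _ hb
    rw [hom_of_ne hp hb, hom_of_ne hq hb]
    simp only [toP, if_neg hb, ratMap]
    by_cases h1 : q.eval (a / b) = 0
    · rw [if_pos h1, if_pos (by rw [h1, mul_zero])]
    · rw [if_neg h1, if_neg (mul_ne_zero hbd h1), mul_div_mul_left _ _ hbd]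

lemma hom_ne {L : Type} [Field L] {d : ℕ} {p q : L[X]} (hp : p.natDegree ≤ d)
    (hq : q.natDegree ≤ d) (hno : ∀ x, p.eval x ≠ 0 ∨ q.eval x ≠ 0) (hqd : q.coeff d ≠ 0) {a b : L}
    (hab : a ≠ 0 ∨ b ≠ 0) : hom d p.coeff a b ≠ 0 ∨ hom d q.coeff a b ≠ 0 := by
  by_cases hb : b = 0
  · subst hb
    right
    rw [hom_zero]
    exact mul_ne_zero hqd (pow_ne_zero _ (hab.resolve_right (fun h => h rfl)))
  · have hbd : b ^ d ≠ 0 := pow_ne_zero _ hb
    rw [hom_of_ne hp hb, hom_of_ne hq hb]
    exact (hno (a / b)).imp (mul_ne_zero hbd) (mul_ne_zero hbd)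

/-- the values of the numerators and denominators of the iterates -/
lemma PoleQ.iter_eval {K : Type} [Field K] [NumberField K] {v : HeightOneSpectrum (𝓞 K)}
    {p q : K[X]} {d : ℕ} (h : PoleQ v p q d 0) (hd : 1 ≤ d) (x : AlgebraicClosure K) (n : ℕ) :
    (aeval x (iter d p q n).1 ≠ 0 ∨ aeval x (iter d p q n).2 ≠ 0) ∧
      (rbar d p q)^[n] (some x) = toP (aeval x (iter d p q n).1) (aeval x (iter d p q n).2) := by
  have hp' : (p.map (algebraMap K (AlgebraicClosure K))).natDegree ≤ d := by
    rw [natDegree_map]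
    exact h.hp
  have hq' : (q.map (algebraMap K (AlgebraicClosure K))).natDegree ≤ d := by
    rw [natDegree_map]
    exact h.hq
  have hqd : (q.map (algebraMap K (AlgebraicClosure K))).coeff d ≠ 0 := by
    rw [coeff_map]
    exact (_root_.map_ne_zero _).2 h.qd
  induction n with
  | zero =>
    have e1 : aeval x (iter d p q 0).1 = x := aeval_X x
    have e2 : aeval x (iter d p q 0).2 = 1 := map_one _
    rw [e1, e2]
    refine ⟨Or.inr one_ne_zero, ?_⟩
    simp only [toP, one_ne_zero, if_false, div_one, Function.iterate_zero, id]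
  | succ n ih =>
    have e : ∀ c : K[X], aeval x (hom d (fun i => C (c.coeff i)) (iter d p q n).1
        (iter d p q n).2) = hom d (c.map (algebraMap K (AlgebraicClosure K))).coeff
          (aeval x (iter d p q n).1) (aeval x (iter d p q n).2) := by
      intro c
      rw [aeval_hom, eval_map_algebraMap, eval_map_algebraMap]
    have e1 : aeval x (iter d p q (n + 1)).1 = _ := e p
    have e2 : aeval x (iter d p q (n + 1)).2 = _ := e q
    rw [e1, e2]
    refine ⟨hom_ne hp' hq' (h.no_common hd) hqd ih.1, ?_⟩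
    rw [Function.iterate_succ_apply', ih.2]
    exact ratMap_toP hp' hq' ih.1

/-- **The numerators of the iterates are irreducible.** -/
theorem PoleQ.irreducible {K : Type} [Field K] [NumberField K] {v : HeightOneSpectrum (𝓞 K)}
    {p q : K[X]} {d : ℕ} (h : PoleQ v p q d 0) (hd : 2 ≤ d) {α : K} (hα : v.valuation K α ≤ 1)
    (hα' : v.valuation K (p.coeff d - α * q.coeff d) = 1) {n : ℕ} (hn : 1 ≤ n) :
    IsCoprime (iter d p q n).1 (iter d p q n).2 ∧
      Irreducible ((iter d p q n).1 - C α * (iter d p q n).2) ∧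
      ((iter d p q n).1 - C α * (iter d p q n).2).natDegree = d ^ n := by
  have hd1 : 1 ≤ d := by omega
  refine ⟨?_, ?_⟩
  · rw [isCoprime_iff_aeval_ne_zero_of_isAlgClosed K (AlgebraicClosure K)]
    exact fun x => (h.iter_eval hd1 x n).1
  · obtain ⟨⟨P, hP⟩, hall⟩ := h.stable hd hα hα' n
    obtain ⟨x, rfl, hx⟩ := hall P hP
    set H := (iter d p q n).1 - C α * (iter d p q n).2 with hH
    have hHd : H.natDegree ≤ d ^ n := by
      refine (natDegree_sub_le _ _).trans (max_le (iter_natDegree d p q n).1 ?_)
      exact (natDegree_C_mul_le _ _).trans (iter_natDegree d p q n).2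
    have hval : ∀ y : AlgebraicClosure K, aeval y H =
        aeval y (iter d p q n).1 - algebraMap K (AlgebraicClosure K) α *
          aeval y (iter d p q n).2 := by
      intro y
      rw [hH, map_sub, map_mul, aeval_C]
    have hroot : aeval x H = 0 := by
      rw [(h.iter_eval hd1 x n).2] at hP
      rw [hval]
      simp only [toP] at hP
      by_cases hb : aeval x (iter d p q n).2 = 0
      · rw [if_pos hb] at hP
        exact absurd hP (Option.some_ne_none _).symm
      · rw [if_neg hb] at hP
        have h1 := Option.some.inj hP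
        rw [div_eq_iff hb] at h1
        rw [h1, sub_self]
    have hH0 : H ≠ 0 := by
      intro h0
      have h1 := hval (algebraMap K (AlgebraicClosure K) 0)
      rw [h0, map_zero] at h1
      obtain ⟨h2, h3⟩ := h.iter_eval hd1 (algebraMap K (AlgebraicClosure K) 0) n
      have hb : aeval (algebraMap K (AlgebraicClosure K) 0) (iter d p q n).2 ≠ 0 := by
        intro hb
        rw [hb, mul_zero, sub_zero] at h1
        exact h2.elim (fun h4 => h4 h1.symm) (fun h4 => h4 hb)
      have h4 : (rbar d p q)^[n] (some (algebraMap K (AlgebraicClosure K) 0)) =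
          some (algebraMap K (AlgebraicClosure K) α) := by
        rw [h3]
        simp only [toP]
        rw [if_neg hb, Option.some.injEq, div_eq_iff hb]
        linear_combination -h1
      obtain ⟨z, hz, hz1⟩ := hall _ h4
      rw [← Option.some.inj hz, IntermediateField.finrank_adjoin_simple_eq_one_iff.2
        (IntermediateField.algebraMap_mem _ 0)] at hz1
      have h5 : d ≤ d ^ n := Nat.le_self_pow (by omega) d
      omega
    rw [finrank_adjoin] at hx
    obtain ⟨h1, h2⟩ := irr_of_root hH0 hroot (by rw [hx]; exact hHd)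
    exact ⟨h1, by rw [← h2, hx]⟩

end Pool.Agent.H912.DY
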