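import Pool.Agent.H912.DY.R11

/-!
# Rational maps: eventual stability for all points at a simple pole (helper912)
-/

set_option autoImplicit false

open Finset Polynomial IsDedekindDomain
open scoped NumberField

namespace Pool.Agent.H912.DY

section general

variable {L : Type} {Γ : Type*} [Field L] [LinearOrderedCommGroupWithZero Γ] {w : Valuation L Γ}
  {p q : L[X]} {d : ℕ}

lemma Loc0.not_near (h : Loc0 w d p q) {y : L} (hy : w y ≤ 1) :
    (some y : Option L) ∉ Near w (w (p.coeff 0)) := by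
  rintro ⟨h1, h2⟩
  have hy0 : y ≠ 0 := fun h0 => h1 (by rw [h0])
  have h3 : w y⁻¹ * w (p.coeff 0) ≤ 1 := h2
  rw [map_inv₀] at h3
  have hwy : 0 < w y := zero_lt_iff.2 ((Valuation.ne_zero_iff _).2 hy0)
  have h4 : w (p.coeff 0) ≤ w y := by
    have h5 := mul_le_mul_of_nonneg_left h3 hwy.le
    rwa [← mul_assoc, mul_inv_cancel₀ hwy.ne', one_mul, mul_one] at h5
  exact absurd (h4.trans hy) (not_le.2 h.big)

/-- the points with image near infinity -/
lemma Loc0.back1 (h : Loc0 w d p q) (hd : 2 ≤ d) {P : Option L}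
    (hP : ratMap d p q P ∈ Near w (w (p.coeff 0))) : ∃ x, P = some x ∧ w x ≤ 1 := by
  have hbig : ∀ P : Option L, P ≠ some 0 → w (ic P) ^ d * w (p.coeff 0) ≤ 1 →
      ratMap d p q P ∉ Near w (w (p.coeff 0)) := by
    intro P h1 h2
    obtain ⟨y, hy, hy1⟩ := h.large h1 h2
    rw [hy]
    exact h.not_near hy1
  cases P with
  | none =>
    exfalso
    refine hbig none (Option.some_ne_none _).symm ?_ hP
    show w (0 : L) ^ d * _ ≤ 1
    rw [map_zero, zero_pow (by omega), zero_mul]
    exact zero_le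
  | some x =>
    refine ⟨x, rfl, ?_⟩
    by_contra hx
    rw [not_le] at hx
    have hx0 : x ≠ 0 := by
      rintro rfl
      rw [map_zero] at hx
      exact absurd hx (not_lt.2 zero_le)
    rcases lt_or_ge (w x ^ d) (w (p.coeff 0)) with hx1 | hx1
    · obtain ⟨y, hy, hy1⟩ := h.annulus hx hx1
      rw [hy] at hP
      obtain ⟨h1, h2⟩ := hP
      have h2' : w y⁻¹ * w (p.coeff 0) ≤ 1 := h2
      have hy0 : y ≠ 0 := fun h0 => h1 (by rw [h0])
      have hwy : w y ≠ 0 := (Valuation.ne_zero_iff _).2 hy0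
      rw [← hy1, map_inv₀, ← mul_assoc, inv_mul_cancel₀ hwy, one_mul] at h2'
      exact absurd h2' (not_le.2 (one_lt_pow₀ hx (by omega)))
    · refine hbig (some x) (fun h1 => hx0 (Option.some.inj h1)) ?_ hP
      show w x⁻¹ ^ d * _ ≤ 1
      rw [map_inv₀, inv_pow]
      exact inv_mul_le_one_of_le₀ hx1 zero_le

/-- the points with integral image -/
lemma Loc0.back2 (h : Loc0 w d p q) {P : Option L} {y : L}
    (hP : ratMap d p q P = some y) (hy : w y ≤ 1) : P ∈ Near w (w (p.coeff 0)) ∨
      ∃ x, P = some x ∧ 1 < w x ∧ w x < w (p.coeff 0) ∧ w (p.coeff 0) ≤ w x ^ d := by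
  cases P with
  | none =>
    left
    refine ⟨(Option.some_ne_none _).symm, ?_⟩
    show w (0 : L) * _ ≤ 1
    rw [map_zero, zero_mul]
    exact zero_le
  | some x =>
    rcases le_or_gt (w x) 1 with hx | hx
    · have h1 := h.small hx
      rw [hP] at h1
      exact absurd h1 (h.not_near hy)
    have hx0 : x ≠ 0 := by
      rintro rfl
      rw [map_zero] at hx
      exact absurd hx (not_lt.2 zero_le)
    rcases lt_or_ge (w x ^ d) (w (p.coeff 0)) with hx1 | hx1
    · obtain ⟨z, hz, hz1⟩ := h.annulus hx hx1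
      rw [hP] at hz
      rw [← Option.some.inj hz] at hz1
      have h1 : w y * w x ^ d ≤ 1 * w x ^ d := mul_le_mul' hy le_rfl
      rw [hz1, one_mul] at h1
      exact absurd hx1 (not_lt.2 h1)
    rcases lt_or_ge (w x) (w (p.coeff 0)) with hx2 | hx2
    · exact Or.inr ⟨x, rfl, hx, hx2, hx1⟩
    · left
      refine ⟨fun h1 => hx0 (Option.some.inj h1), ?_⟩
      show w x⁻¹ * _ ≤ 1
      rw [map_inv₀]
      exact inv_mul_le_one_of_le₀ hx2 zero_le

lemma Loc0.near_iter (h : Loc0 w d p q) (hd : 2 ≤ d) (k : ℕ) {P : Option L}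
    (hP : P ∈ Near w (w (p.coeff 0))) :
    (ratMap d p q)^[2 * k] P ∈ Near w (w (p.coeff 0)) := by
  induction k with
  | zero => exact hP
  | succ k ih =>
    have h1 : 2 * (k + 1) = 2 * k + 1 + 1 := by ring
    rw [h1, Function.iterate_succ_apply', Function.iterate_succ_apply']
    exact h.near_two hd ih

lemma Loc0.contr_iter (h : Loc0 w d p q) (hd : 2 ≤ d) (k : ℕ) {P Q : Option L}
    (hP : P ∈ Near w (w (p.coeff 0))) (hQ : Q ∈ Near w (w (p.coeff 0))) :
    w (ic ((ratMap d p q)^[2 * k] P) - ic ((ratMap d p q)^[2 * k] Q)) * w (p.coeff 0) ^ k ≤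
      w (ic P - ic Q) := by
  induction k with
  | zero =>
    rw [pow_zero, mul_one]
    exact le_rfl
  | succ k ih =>
    have h1 : 2 * (k + 1) = 2 * k + 1 + 1 := by ring
    rw [h1, Function.iterate_succ_apply', Function.iterate_succ_apply',
      Function.iterate_succ_apply', Function.iterate_succ_apply']
    have hP' := h.near_iter hd k hP
    have hQ' := h.near_iter hd k hQ
    have h2 := h.contr hd hP'.1 hP'.2 hQ'.1 hQ'.2
    rw [pow_succ', ← mul_assoc]
    exact (mul_le_mul' h2 le_rfl).trans ih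

/-- the distance of a point near infinity from its iterates -/
lemma Loc0.first (h : Loc0 w d p q) (hd : 2 ≤ d) {Q : Option L}
    (hQ : Q ∈ Near w (w (p.coeff 0)))
    (hne : ic Q - ic (ratMap d p q (ratMap d p q Q)) ≠ 0) (k : ℕ) :
    w (ic Q - ic ((ratMap d p q)^[2 * (k + 1)] Q)) =
      w (ic Q - ic (ratMap d p q (ratMap d p q Q))) := by
  induction k with
  | zero => rfl
  | succ k ih =>
    set τ := ic Q - ic (ratMap d p q (ratMap d p q Q)) with hτ
    have h1 : 2 * (k + 1 + 1) = 2 * (k + 1) + 1 + 1 := by ring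
    rw [h1, Function.iterate_succ_apply', Function.iterate_succ_apply']
    set R := (ratMap d p q)^[2 * (k + 1)] Q with hR
    have hRn : R ∈ Near w (w (p.coeff 0)) := h.near_iter hd (k + 1) hQ
    have h2 := h.contr hd hQ.1 hQ.2 hRn.1 hRn.2
    rw [ih] at h2
    have hτ0 : 0 < w τ := zero_lt_iff.2 ((Valuation.ne_zero_iff _).2 hne)
    have h3 : w (ic (ratMap d p q (ratMap d p q Q)) - ic (ratMap d p q (ratMap d p q R))) <
        w τ := by
      rcases eq_or_ne (w (ic (ratMap d p q (ratMap d p q Q)) -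
        ic (ratMap d p q (ratMap d p q R)))) 0 with h0 | h0
      · rw [h0]
        exact hτ0
      · refine lt_of_lt_of_le ?_ h2
        calc _ = w (ic (ratMap d p q (ratMap d p q Q)) -
              ic (ratMap d p q (ratMap d p q R))) * 1 := (mul_one _).symm
          _ < _ := mul_lt_mul_of_pos_left h.big (zero_lt_iff.2 h0)
    have h4 : ic Q - ic (ratMap d p q (ratMap d p q R)) = τ +
        (ic (ratMap d p q (ratMap d p q Q)) - ic (ratMap d p q (ratMap d p q R))) := by
      rw [hτ]
      ring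
    rw [h4]
    exact w.map_add_eq_of_lt_left h3

end general

section discrete

variable {L : Type} [Field L] {w : Valuation L (WithZero (Multiplicative ℤ))}
  {p q : L[X]} {d : ℕ}

/-- the point is outside of the exceptional discs; its value is `a` -/
def St (w : Valuation L (WithZero (Multiplicative ℤ))) (d : ℕ) (p q : L[X]) (e : ℤ)
    (P : Option L) (a : ℤ) : Prop :=
  ∃ x, P = some x ∧ ((a = 0 ∧ w x ≤ 1 ∧ w (p.coeff d - x * q.coeff d) = 1) ∨
    (0 < a ∧ a < e ∧ w x = WithZero.exp a))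

lemma Loc0.st_step (h : Loc0 w d p q) (hd : 2 ≤ d) {e : ℤ} (hA : w (p.coeff 0) = WithZero.exp e)
    {P : Option L} {a : ℤ} (hP : St w d p q e (ratMap d p q P) a) :
    ∃ a', St w d p q e P a' ∧ d * a' = e - a := by
  have he : 0 < e := by
    have := h.big
    rw [hA, ← WithZero.exp_zero, WithZero.exp_lt_exp] at this
    exact this
  have hqd0 : q.coeff d ≠ 0 := by
    intro h1
    have := h.hqd
    rw [h1, map_zero] at this
    exact zero_ne_one this
  have hgen : ∀ (β : L) (B : WithZero (Multiplicative ℤ)), 0 < B → B < w (p.coeff 0) → w β ≤ B →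
      1 ≤ B → w (p.coeff d - β * q.coeff d) = B → ∀ y : L, q.eval y ≠ 0 →
      p.eval y / q.eval y = β → 1 < w y ∧ B * w y ^ d = w (p.coeff 0) := by
    intro β B hB hBA hβ hB1 hlead y hq hy
    have hc : ∀ i, (p - C β * q).coeff i = p.coeff i - β * q.coeff i := fun i => by
      rw [coeff_sub, coeff_C_mul]
    refine root_big w (H := p - C β * q) (by omega) ?_ hB hBA ?_ ?_ ?_ ?_
    · refine (natDegree_sub_le _ _).trans (max_le h.hp ?_)
      exact (natDegree_C_mul_le _ _).trans h.hq
    · rw [hc, w.map_sub_eq_of_lt_left]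
      rw [map_mul]
      exact (mul_le_mul' hβ (h.hqi 0)).trans_lt (by rwa [mul_one])
    · intro i hi
      rw [hc]
      refine w.map_sub_le ((h.hpi i hi).trans hB1) ?_
      rw [map_mul]
      exact (mul_le_mul' hβ (h.hqi i)).trans (mul_one B).le
    · rw [hc, hlead]
    · rw [eval_sub, eval_mul, eval_C]
      rw [div_eq_iff hq] at hy
      rw [hy, sub_self]
  obtain ⟨x', hx', hcase⟩ := hP
  cases P with
  | none =>
    exfalso
    simp only [ratMap] at hx'
    rw [if_neg hqd0] at hx'
    have h3 := Option.some.inj hx'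
    rcases hcase with ⟨-, -, h4⟩ | ⟨h4, -, h5⟩
    · rw [← h3, div_mul_cancel₀ _ hqd0, sub_self, map_zero] at h4
      exact zero_ne_one h4
    · rw [← h3, map_div₀, h.hpd, h.hqd, div_one, ← WithZero.exp_zero, WithZero.exp_inj] at h5
      omega
  | some x =>
    simp only [ratMap] at hx'
    by_cases hq : q.eval x = 0
    · rw [if_pos hq] at hx'
      exact absurd hx' (Option.some_ne_none _).symm
    rw [if_neg hq] at hx'
    have hx'' := Option.some.inj hx'
    have key : ∀ b : ℤ, 0 ≤ b → b < e → 1 < w x → WithZero.exp b * w x ^ d = WithZero.exp e →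
        ∃ a', St w d p q e (some x) a' ∧ d * a' = e - b := by
      intro b hb hbe h1 h2
      have hx0 : w x ≠ 0 := (zero_lt_one.trans h1).ne'
      have h3 : w x = WithZero.exp (WithZero.log (w x)) := (WithZero.exp_log hx0).symm
      set a' := WithZero.log (w x) with ha'
      rw [h3, ← WithZero.exp_nsmul, ← WithZero.exp_add, WithZero.exp_inj, nsmul_eq_mul] at h2
      rw [h3, ← WithZero.exp_zero, WithZero.exp_lt_exp] at h1
      have hd2 : (2 : ℤ) ≤ d := by exact_mod_cast hd
      refine ⟨a', ⟨x, rfl, Or.inr ⟨h1, ?_, h3⟩⟩, by linarith⟩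
      nlinarith
    rcases hcase with ⟨rfl, h4, h5⟩ | ⟨h4, h4', h5⟩
    · obtain ⟨h1, h2⟩ := hgen x' 1 zero_lt_one h.big h4 le_rfl h5 x hq hx''
      refine key 0 le_rfl he h1 ?_
      rw [WithZero.exp_zero, h2, hA]
    · have hlt : (1 : WithZero (Multiplicative ℤ)) < w x' := by
        rw [h5, ← WithZero.exp_zero, WithZero.exp_lt_exp]
        exact h4
      have hlead : w (p.coeff d - x' * q.coeff d) = w x' := by
        rw [w.map_sub_eq_of_lt_right]
        · rw [map_mul, h.hqd, mul_one]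
        · rw [map_mul, h.hqd, mul_one, h.hpd]
          exact hlt
      obtain ⟨h1, h2⟩ := hgen x' (w x') (zero_lt_one.trans hlt) (by
        rw [h5, hA, WithZero.exp_lt_exp]
        exact h4') le_rfl hlt.le hlead x hq hx''
      refine key a h4.le h4' h1 ?_
      rw [← h5, h2, hA]

lemma Loc0.st_iter (h : Loc0 w d p q) (hd : 2 ≤ d) {e : ℤ} (hA : w (p.coeff 0) = WithZero.exp e)
    (k : ℕ) : ∀ {P : Option L} {a : ℤ}, St w d p q e ((ratMap d p q)^[k] P) a →
      ∃ a', (d : ℤ) ^ k * ((d + 1) * a' - e) = (-1) ^ k * ((d + 1) * a - e) := by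
  induction k with
  | zero =>
    intro P a _
    exact ⟨a, by rw [pow_zero, pow_zero]⟩
  | succ k ih =>
    intro P a hP
    rw [Function.iterate_succ_apply'] at hP
    obtain ⟨a1, h1, h2⟩ := h.st_step hd hA hP
    obtain ⟨a', h3⟩ := ih h1
    refine ⟨a', ?_⟩
    rw [pow_succ', pow_succ', mul_assoc, h3]
    linear_combination (-1 : ℤ) ^ k * (d + 1) * h2

/-- a good point -/
def Gd (w : Valuation L (WithZero (Multiplicative ℤ))) (d : ℕ) (p q : L[X]) (e : ℤ)
    (P : Option L) : Prop := ∃ a : ℤ, St w d p q e P a ∧ (d + 1) * a ≠ e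

/-- **The growth of the ramification.** -/
lemma Loc0.growth (h : Loc0 w d p q) (hd : 2 ≤ d) {e : ℤ} (hA : w (p.coeff 0) = WithZero.exp e)
    {k : ℕ} {P : Option L} (hP : Gd w d p q e ((ratMap d p q)^[k] P)) : (d : ℤ) ^ k ≤ d * e := by
  have he : 0 < e := by
    have := h.big
    rw [hA, ← WithZero.exp_zero, WithZero.exp_lt_exp] at this
    exact this
  obtain ⟨a, h1, h2⟩ := hP
  obtain ⟨a', h3⟩ := h.st_iter hd hA k h1
  have hd2 : (2 : ℤ) ≤ d := by exact_mod_cast hd
  have ha : 0 ≤ a ∧ a < e := by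
    obtain ⟨x, -, ⟨rfl, -, -⟩ | ⟨h4, h5, -⟩⟩ := h1
    · exact ⟨le_rfl, he⟩
    · exact ⟨h4.le, h5⟩
  have hD : (d + 1) * a - e ≠ 0 := sub_ne_zero.2 h2
  have h4 : |(d : ℤ) ^ k * ((d + 1) * a' - e)| = |(d + 1) * a - e| := by
    rw [h3, abs_mul, abs_pow, abs_neg, abs_one, one_pow, one_mul]
  have h5 : (d + 1) * a' - e ≠ 0 := by
    intro h0
    rw [h0, mul_zero, abs_zero] at h4
    exact hD (abs_eq_zero.1 h4.symm)
  have h6 : (1 : ℤ) ≤ |(d + 1) * a' - e| := Int.one_le_abs h5
  have h7 : |(d + 1) * a - e| ≤ d * e := by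
    rw [abs_le]
    constructor
    · nlinarith [ha.1]
    · nlinarith [ha.2]
  rw [abs_mul, abs_of_nonneg (by positivity : (0 : ℤ) ≤ (d : ℤ) ^ k)] at h4
  have h8 : (0 : ℤ) ≤ (d : ℤ) ^ k := by positivity
  nlinarith

/-- going back from a point near infinity -/
lemma Loc0.back_near (h : Loc0 w d p q) (hd : 2 ≤ d) {e : ℤ}
    (hA : w (p.coeff 0) = WithZero.exp e) (k : ℕ) : ∀ P : Option L,
      (ratMap d p q)^[2 * k] P ∈ Near w (w (p.coeff 0)) →
      (∃ j, j ≤ 2 * k ∧ Gd w d p q e ((ratMap d p q)^[j] P)) ∨ P ∈ Near w (w (p.coeff 0)) := by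
  have he : 0 < e := by
    have := h.big
    rw [hA, ← WithZero.exp_zero, WithZero.exp_lt_exp] at this
    exact this
  induction k with
  | zero =>
    intro P hP
    exact Or.inr hP
  | succ k ih =>
    intro P hP
    have h1 : 2 * (k + 1) = 2 * k + 1 + 1 := by ring
    rw [h1, Function.iterate_succ_apply', Function.iterate_succ_apply'] at hP
    obtain ⟨y, hy, hy1⟩ := h.back1 hd hP
    by_cases h2 : w (p.coeff d - y * q.coeff d) = 1
    · left
      refine ⟨2 * k + 1, by omega, 0, ?_, by rw [mul_zero]; exact he.ne⟩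
      rw [Function.iterate_succ_apply', hy]
      exact ⟨y, rfl, Or.inl ⟨rfl, hy1, h2⟩⟩
    · rcases h.back2 hy hy1 with h3 | ⟨x, hx, h3, h4, h5⟩
      · rcases ih P h3 with ⟨j, hj, h4⟩ | h4
        · exact Or.inl ⟨j, by omega, h4⟩
        · exact Or.inr h4
      · left
        refine ⟨2 * k, by omega, WithZero.log (w x), ?_, ?_⟩
        · rw [hx]
          have hx0 : w x ≠ 0 := (zero_lt_one.trans h3).ne'
          have h6 : w x = WithZero.exp (WithZero.log (w x)) := (WithZero.exp_log hx0).symm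
          refine ⟨x, rfl, Or.inr ⟨?_, ?_, h6⟩⟩
          · rw [h6, ← WithZero.exp_zero, WithZero.exp_lt_exp] at h3
            exact h3
          · rw [h6, hA, WithZero.exp_lt_exp] at h4
            exact h4
        · have hx0 : w x ≠ 0 := (zero_lt_one.trans h3).ne'
          have h6 : w x = WithZero.exp (WithZero.log (w x)) := (WithZero.exp_log hx0).symm
          set a := WithZero.log (w x) with ha
          rw [h6, ← WithZero.exp_zero, WithZero.exp_lt_exp] at h3
          rw [h6, hA, ← WithZero.exp_nsmul, WithZero.exp_le_exp, nsmul_eq_mul] at h5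
          intro h7
          nlinarith

end discrete

end Pool.Agent.H912.DY
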