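import Pool.Agent.H912.DY.R12

/-!
# Rational maps: eventual stability for all points (helper912)
-/

set_option autoImplicit false

open Finset Polynomial IsDedekindDomain
open scoped NumberField

namespace Pool.Agent.H912.DY

lemma ic_map {L M : Type} [Field L] [Field M] (φ : L →+* M) (P : Option L) :
    ic (Option.map φ P) = φ (ic P) := by
  cases P with
  | none => exact (map_zero φ).symm
  | some x => exact (map_inv₀ φ x).symm

lemma ram_le_finrank {K L : Type} [Field K] [NumberField K] [Field L] [NumberField L]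
    [Algebra K L] (v : HeightOneSpectrum (𝓞 K)) (w : HeightOneSpectrum (𝓞 L))
    (hw : w.asIdeal.LiesOver v.asIdeal) :
    v.asIdeal.ramificationIdx' w.asIdeal ≤ Module.finrank K L := by
  have hmax : v.asIdeal.IsMaximal := v.isMaximal
  rw [← Ideal.sum_ramification_inertia (R := 𝓞 K) (S := 𝓞 L) K L v.ne_bot]
  have hmem : w.asIdeal ∈ IsDedekindDomain.primesOverFinset v.asIdeal (𝓞 L) := by
    rw [IsDedekindDomain.mem_primesOverFinset_iff v.ne_bot]
    exact ⟨w.isPrime, hw⟩
  refine le_trans ?_ (single_le_sum (f := fun Q => v.asIdeal.ramificationIdx' Q *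
    v.asIdeal.inertiaDeg' Q) (fun _ _ => Nat.zero_le _) hmem)
  refine Nat.le_mul_of_pos_right _ ?_
  exact Ideal.inertiaDeg'_pos v.asIdeal w.asIdeal

variable {K : Type} [Field K] [NumberField K] {v v' : HeightOneSpectrum (𝓞 K)} {p q : K[X]}
  {d : ℕ}

/-- the backward orbit of a point near infinity -/
theorem near_bound (h : PoleQ v p q d 0) (hd : 2 ≤ d) {Q : Option K}
    (hQ : Q ∈ Near (v.valuation K) (v.valuation K (p.coeff 0)))
    (hne : ratMap d p q (ratMap d p q Q) ≠ Q) : ∃ k : ℕ, ∀ (L : Type) [Field L] [NumberField L]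
      [Algebra K L] (w : HeightOneSpectrum (𝓞 L)), w.asIdeal.LiesOver v.asIdeal →
      ∀ (P : Option L) (r : ℕ), (ratMap d (p.map (algebraMap K L)) (q.map (algebraMap K L)))^[2 * k
        + r] P = Option.map (algebraMap K L) Q →
        (d : ℤ) ^ r ≤ d * ((v.asIdeal.ramificationIdx' w.asIdeal : ℕ) : ℤ) := by
  have hl := h.loc0 (by omega : 1 ≤ d)
  have hQ2 := hl.near_two hd hQ
  set τ := ic Q - ic (ratMap d p q (ratMap d p q Q)) with hτ
  have hτ0 : τ ≠ 0 := by
    intro h0
    rw [hτ, sub_eq_zero] at h0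
    exact hne (ic_inj hQ2.1 hQ.1 h0.symm)
  set c := -WithZero.log (v.valuation K τ) with hc
  have hvτ : v.valuation K τ = WithZero.exp (-c) := by
    rw [hc, neg_neg]
    exact (WithZero.exp_log ((Valuation.ne_zero_iff _).2 hτ0)).symm
  refine ⟨c.toNat + 1, fun L _ _ _ w hw P r hP => ?_⟩
  set e := v.asIdeal.ramificationIdx' w.asIdeal with he
  have he0 : e ≠ 0 :=
    Ideal.IsDedekindDomain.ramificationIdx'_ne_zero_of_liesOver w.asIdeal v.ne_bot
  have hval : ∀ x : K, w.valuation L (algebraMap K L x) = v.valuation K x ^ e := fun x =>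
    (HeightOneSpectrum.valuation_liesOver L v w x).symm
  have hloc := h.loc0' (by omega : 1 ≤ d) w hw
  set p' := p.map (algebraMap K L) with hp'
  set q' := q.map (algebraMap K L) with hq'
  have hA : w.valuation L (p'.coeff 0) = WithZero.exp (e : ℤ) := by
    rw [hp', coeff_map, hval, h.pole, ← WithZero.exp_nsmul]
    congr 1
    simp
  set Q' := Option.map (algebraMap K L) Q with hQ'
  have hQn : Q' ∈ Near (w.valuation L) (w.valuation L (p'.coeff 0)) := by
    refine ⟨fun h0 => ?_, ?_⟩
    · apply hQ.1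
      rw [hQ', Option.map_eq_some_iff] at h0
      obtain ⟨a, ha, ha0⟩ := h0
      rw [ha, (map_eq_zero _).1 ha0]
    · rw [hQ', ic_map, hp', coeff_map, hval, hval, ← mul_pow]
      exact pow_le_one' hQ.2 _
  have hτ' : w.valuation L (ic Q' - ic (ratMap d p' q' (ratMap d p' q' Q'))) =
      WithZero.exp (-(c * e)) := by
    rw [hQ', ← ratMap_map, ← ratMap_map, ic_map, ic_map, ← map_sub, hval, ← hτ, hvτ,
      ← WithZero.exp_nsmul]
    congr 1
    simp only [nsmul_eq_mul]
    ring
  rw [Function.iterate_add_apply] at hP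
  rcases hloc.back_near hd hA (c.toNat + 1) ((ratMap d p' q')^[r] P) (by rw [hP]; exact hQn) with
    ⟨j, hj, h1⟩ | h1
  · rw [← Function.iterate_add_apply] at h1
    refine le_trans ?_ (hloc.growth hd hA h1)
    exact pow_le_pow_right₀ (by exact_mod_cast (by omega : 1 ≤ d)) (by omega)
  · exfalso
    have h2 := hloc.contr_iter hd (c.toNat + 1) h1 hQn
    have hne' : ic Q' - ic (ratMap d p' q' (ratMap d p' q' Q')) ≠ 0 := by
      intro h0
      rw [h0, map_zero] at hτ'
      exact WithZero.exp_ne_zero hτ'.symm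
    rw [hP, hloc.first hd hQn hne' c.toNat, hτ', hA] at h2
    have hle : ∀ R : Option L, R ∈ Near (w.valuation L) (w.valuation L (p'.coeff 0)) →
        w.valuation L (ic R) ≤ 1 := by
      intro R hR
      by_contra hcon
      rw [not_le] at hcon
      have h3 : 1 < w.valuation L (ic R) * w.valuation L (p'.coeff 0) :=
        one_lt_mul'' hcon hloc.big
      exact absurd hR.2 (not_le.2 h3)
    have h3 : w.valuation L (ic ((ratMap d p' q')^[r] P) - ic Q') ≤ 1 :=
      (w.valuation L).map_sub_le (hle _ h1) (hle _ hQn)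
    have h4 := h2.trans h3
    rw [← WithZero.exp_nsmul, ← WithZero.exp_add, ← WithZero.exp_zero, WithZero.exp_le_exp,
      nsmul_eq_mul] at h4
    push_cast at h4
    have he1 : (1 : ℤ) ≤ e := by
      have : 1 ≤ e := Nat.one_le_iff_ne_zero.2 he0
      exact_mod_cast this
    have h5 : c ≤ c.toNat := Int.self_le_toNat c
    nlinarith

/-- there are no rational points of period one or two -/
lemma PoleQ.no_two (h : PoleQ v p q d 0) (h' : PoleQ v' p q d d) (hd : 2 ≤ d) (Q : Option K) :
    ratMap d p q (ratMap d p q Q) ≠ Q := by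
  intro hQ
  have h1 : (rbar d p q)^[2] (Option.map (algebraMap K (AlgebraicClosure K)) Q) =
      Option.map (algebraMap K (AlgebraicClosure K)) Q := by
    have h2 := ratMap_iterate (algebraMap K (AlgebraicClosure K)) d p q 2 Q
    have h3 : (ratMap d p q)^[2] Q = Q := hQ
    rw [h3] at h2
    exact h2.symm
  obtain ⟨x, hx, c1, c2, -⟩ := h.preper h' hd (P := Option.map _ Q) (m := 0) (n := 2) two_pos
    (by rw [zero_add]; exact h1)
  obtain ⟨y, hy, hy1⟩ := Option.map_eq_some_iff.1 hx
  have hone : Module.finrank K (IntermediateField.adjoin K {x}) = 1 := by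
    rw [← hy1]
    exact IntermediateField.finrank_adjoin_simple_eq_one_iff.2
      (IntermediateField.algebraMap_mem _ y)
  rw [Function.iterate_zero, id, hone] at c1 c2
  by_cases hfix : rbar d p q (Option.map (algebraMap K (AlgebraicClosure K)) Q) =
      Option.map (algebraMap K (AlgebraicClosure K)) Q
  · have := Nat.le_of_dvd one_pos (c1 hfix)
    omega
  · have h2 := Nat.le_of_dvd one_pos (c2 hfix h1)
    have h3 : 2 * 1 ≤ d * (d - 1) := Nat.mul_le_mul hd (by omega)
    omega

/-- **The degrees of the points of the backward orbit of an arbitrary point.** -/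
theorem PoleQ.backward_all (h : PoleQ v p q d 0) (h' : PoleQ v' p q d d) (hd : 2 ≤ d) (α : K) :
    ∃ M : ℕ, ∀ (n : ℕ) (x : AlgebraicClosure K),
      (rbar d p q)^[n] (some x) = some (algebraMap K (AlgebraicClosure K) α) →
      d ^ n ≤ d ^ M * Module.finrank K (IntermediateField.adjoin K {x}) := by
  have hl := h.loc0 (by omega : 1 ≤ d)
  by_cases h1 : v.valuation K α ≤ 1 ∧ v.valuation K (p.coeff d - α * q.coeff d) = 1
  · refine ⟨0, fun n x hx => ?_⟩
    obtain ⟨y, hy, hy1⟩ := (h.stable hd h1.1 h1.2 n).2 _ hx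
    rw [Option.some.inj hy, hy1, pow_zero, one_mul]
  -- the point is near infinity, or its image is
  obtain ⟨s, hs⟩ : ∃ s : ℕ, (ratMap d p q)^[s] (some α) ∈
      Near (v.valuation K) (v.valuation K (p.coeff 0)) := by
    rcases le_or_gt (v.valuation K α) 1 with h2 | h2
    · exact ⟨1, hl.small h2⟩
    · refine ⟨0, ?_⟩
      have hα0 : α ≠ 0 := by
        rintro rfl
        rw [map_zero] at h2
        exact absurd h2 (not_lt.2 zero_le)
      refine ⟨fun h3 => hα0 (Option.some.inj h3), ?_⟩
      show v.valuation K α⁻¹ * v.valuation K (p.coeff 0) ≤ 1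
      have h3 : v.valuation K α = WithZero.exp (WithZero.log (v.valuation K α)) :=
        (WithZero.exp_log ((Valuation.ne_zero_iff _).2 hα0)).symm
      rw [h3, ← WithZero.exp_zero, WithZero.exp_lt_exp] at h2
      rw [map_inv₀, h3, h.pole, ← WithZero.exp_neg, ← WithZero.exp_add, ← WithZero.exp_zero,
        WithZero.exp_le_exp]
      omega
  obtain ⟨k, hk⟩ := near_bound h hd hs (h.no_two h' hd _)
  refine ⟨2 * k + 1, fun n x hx => ?_⟩
  have hnf := adjoin_nf x
  set L := IntermediateField.adjoin K {x} with hL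
  have hfd : FiniteDimensional K L :=
    IntermediateField.adjoin.finiteDimensional (Algebra.IsIntegral.isIntegral x)
  have hpos : 0 < Module.finrank K L := Module.finrank_pos
  have hd0 : 0 < d := by omega
  rcases Nat.lt_or_ge (s + n) (2 * k) with hlt | hge
  · calc d ^ n ≤ d ^ (2 * k + 1) := Nat.pow_le_pow_right hd0 (by omega)
      _ ≤ d ^ (2 * k + 1) * Module.finrank K L := Nat.le_mul_of_pos_right _ hpos
  obtain ⟨r, hr⟩ : ∃ r, s + n = 2 * k + r := ⟨s + n - 2 * k, by omega⟩
  have hxL : x ∈ L := IntermediateField.subset_adjoin K _ (Set.mem_singleton x)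
  have hQ : (some x : Option (AlgebraicClosure K)) =
      Option.map (algebraMap L (AlgebraicClosure K)) (some ⟨x, hxL⟩) := rfl
  rw [hQ, rbar_iterate] at hx
  have hx' := map_inj' (algebraMap L (AlgebraicClosure K))
    (a₂ := Option.map (algebraMap K L) (some α)) hx
  have hvmax : v.asIdeal.IsMaximal := v.isMaximal
  obtain ⟨I, hIp, hIl⟩ := (inferInstance : Nonempty (v.asIdeal.primesOver (𝓞 L)))
  let w : HeightOneSpectrum (𝓞 L) := ⟨I, hIp, Ideal.ne_bot_of_liesOver_of_ne_bot v.ne_bot I⟩
  have hw : w.asIdeal.LiesOver v.asIdeal := hIl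
  have h2 := hk L w hw (some ⟨x, hxL⟩) r (by
    rw [← hr, Function.iterate_add_apply, hx', ← ratMap_iterate])
  have h3 := ram_le_finrank v w hw
  have h4 : d ^ r ≤ d * Module.finrank K L := by
    have h5 : d ^ r ≤ d * v.asIdeal.ramificationIdx' w.asIdeal := by exact_mod_cast h2
    exact h5.trans (Nat.mul_le_mul_left d h3)
  calc d ^ n ≤ d ^ (2 * k + r) := Nat.pow_le_pow_right hd0 (by omega)
    _ = d ^ (2 * k) * d ^ r := pow_add _ _ _
    _ ≤ d ^ (2 * k) * (d * Module.finrank K L) := Nat.mul_le_mul_left _ h4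
    _ = d ^ (2 * k + 1) * Module.finrank K L := by ring

/-- counting irreducible factors -/
lemma card_factors {F : Type} [Field F] {H : F[X]} (hH : H ≠ 0) {N B : ℕ} (hN : 0 < N)
    (hHN : H.natDegree ≤ N) (hg : ∀ g, Irreducible g → g ∣ H → N ≤ B * g.natDegree) :
    Multiset.card (UniqueFactorizationMonoid.factors H) ≤ B := by
  set S := UniqueFactorizationMonoid.factors H with hS
  have h0 : (0 : F[X]) ∉ S := fun h =>
    (UniqueFactorizationMonoid.irreducible_of_factor (0 : F[X]) h).ne_zero rfl
  have h1 : S.prod.natDegree = H.natDegree :=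
    natDegree_eq_of_degree_eq (degree_eq_degree_of_associated
      (UniqueFactorizationMonoid.factors_prod hH))
  rw [natDegree_multiset_prod _ h0] at h1
  have h2 : ∀ y ∈ S.map (fun g => B * g.natDegree), N ≤ y := by
    intro y hy
    obtain ⟨g, hgS, rfl⟩ := Multiset.mem_map.1 hy
    exact hg g (UniqueFactorizationMonoid.irreducible_of_factor g hgS)
      (UniqueFactorizationMonoid.dvd_of_mem_factors hgS)
  have h3 := Multiset.card_nsmul_le_sum h2
  rw [Multiset.card_map, Multiset.sum_map_mul_left, h1, smul_eq_mul] at h3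
  exact Nat.le_of_mul_le_mul_right (h3.trans (Nat.mul_le_mul_left B hHN)) hN

/-- **Eventual stability for all points.** -/
theorem PoleQ.eventually (h : PoleQ v p q d 0) (h' : PoleQ v' p q d d) (hd : 2 ≤ d) (α : K) :
    ∃ B : ℕ, ∀ n : ℕ, IsCoprime (iter d p q n).1 (iter d p q n).2 ∧
      (iter d p q n).1 - C α * (iter d p q n).2 ≠ 0 ∧
      Multiset.card (UniqueFactorizationMonoid.factors
        ((iter d p q n).1 - C α * (iter d p q n).2)) ≤ B := by
  have hd1 : 1 ≤ d := by omega
  obtain ⟨M, hM⟩ := h.backward_all h' hd α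
  refine ⟨d ^ M, fun n => ?_⟩
  have hcop : IsCoprime (iter d p q n).1 (iter d p q n).2 := by
    rw [isCoprime_iff_aeval_ne_zero_of_isAlgClosed K (AlgebraicClosure K)]
    exact fun x => (h.iter_eval hd1 x n).1
  have hHd : ∀ β : K, ((iter d p q n).1 - C β * (iter d p q n).2).natDegree ≤ d ^ n := by
    intro β
    refine (natDegree_sub_le _ _).trans (max_le (iter_natDegree d p q n).1 ?_)
    exact (natDegree_C_mul_le _ _).trans (iter_natDegree d p q n).2
  have hval : ∀ (y : AlgebraicClosure K) (β : K),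
      aeval y ((iter d p q n).1 - C β * (iter d p q n).2) =
      aeval y (iter d p q n).1 - algebraMap K (AlgebraicClosure K) β *
        aeval y (iter d p q n).2 := by
    intro y β
    rw [map_sub, map_mul, aeval_C]
  -- the zeros of the numerator
  have hroot : ∀ x : AlgebraicClosure K,
      aeval x ((iter d p q n).1 - C α * (iter d p q n).2) = 0 →
      (rbar d p q)^[n] (some x) = some (algebraMap K (AlgebraicClosure K) α) := by
    intro x hx
    rw [hval] at hx
    obtain ⟨h2, h3⟩ := h.iter_eval hd1 x n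
    have hb : aeval x (iter d p q n).2 ≠ 0 := by
      intro hb
      rw [hb, mul_zero, sub_zero] at hx
      exact h2.elim (fun h4 => h4 hx) (fun h4 => h4 hb)
    rw [h3]
    simp only [toP]
    rw [if_neg hb, Option.some.injEq, div_eq_iff hb]
    linear_combination hx
  have hne : (iter d p q n).1 - C α * (iter d p q n).2 ≠ 0 := by
    intro h0
    -- all points have the image `α`; but `0` and `1` cannot both be `α`
    have hall : ∀ x : AlgebraicClosure K,
        (rbar d p q)^[n] (some x) = some (algebraMap K (AlgebraicClosure K) α) :=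
      fun x => hroot x (by rw [h0, map_zero])
    have hbig := hM (n + 0) (algebraMap K (AlgebraicClosure K) 0) (hall _)
    rcases Nat.eq_zero_or_pos n with rfl | hn
    · have h1 := hall (algebraMap K (AlgebraicClosure K) (α + 1))
      rw [Function.iterate_zero, id, Option.some.injEq] at h1
      have h2 := (algebraMap K (AlgebraicClosure K)).injective h1
      simp at h2
    · obtain ⟨⟨P, hP⟩, hdeg⟩ := h.stable hd (α := 0) (by rw [map_zero]; exact zero_le) (by
        rw [zero_mul, sub_zero]
        exact h.unit d le_rfl (by omega)) n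
      obtain ⟨y, rfl, -⟩ := hdeg P hP
      rw [hall y, Option.some.injEq] at hP
      have hα0 := (algebraMap K (AlgebraicClosure K)).injective hP
      obtain ⟨z, hz, hz1⟩ := hdeg (some (algebraMap K (AlgebraicClosure K) 0)) (by
        rw [hall, hα0])
      rw [← Option.some.inj hz, IntermediateField.finrank_adjoin_simple_eq_one_iff.2
        (IntermediateField.algebraMap_mem _ 0)] at hz1
      have h5 : d ≤ d ^ n := Nat.le_self_pow (by omega) d
      omega
  refine ⟨hcop, hne, card_factors hne (pow_pos (by omega : 0 < d) n) (hHd α) ?_⟩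
  intro g hg hgd
  obtain ⟨x, hx⟩ : ∃ x : AlgebraicClosure K, aeval x g = 0 := by
    refine IsAlgClosed.exists_aeval_eq_zero _ g ?_
    rw [degree_eq_natDegree hg.ne_zero]
    exact_mod_cast hg.natDegree_pos.ne'
  obtain ⟨g', hg'⟩ := hgd
  have hx' := hM n x (hroot x (by rw [hg', map_mul, hx, zero_mul]))
  rw [finrank_adjoin] at hx'
  exact hx'.trans (Nat.mul_le_mul_left _ (natDegree_le_of_dvd (minpoly.dvd K x hx) hg.ne_zero))

end Pool.Agent.H912.DY
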