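import Pool.Agent.H912.DY.R1

/-!
# Rational maps at a pole of the leading or of the constant coefficient (helper912)
-/

set_option autoImplicit false

open Finset Polynomial

namespace Pool.Agent.H912.DY

open Classical in
/-- The rational map `p / q` on the projective line `L ∪ {∞}` (`none` is `∞`), for polynomials `p`, `q`
of degree at most `d`. -/
noncomputable def ratMap {L : Type} [Field L] (d : ℕ) (p q : L[X]) : Option L → Option L
  | none => if q.coeff d = 0 then none else some (p.coeff d / q.coeff d)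
  | some x => if q.eval x = 0 then none else some (p.eval x / q.eval x)

/-- the coordinate at infinity -/
noncomputable def ic {L : Type} [Field L] : Option L → L
  | none => 0
  | some x => x⁻¹

section

variable {L : Type} [Field L]

lemma ic_inj {P Q : Option L} (hP : P ≠ some 0) (hQ : Q ≠ some 0) (h : ic P = ic Q) : P = Q := by
  cases P with
  | none =>
    cases Q with
    | none => rfl
    | some y =>
      have h1 : (0 : L) = y⁻¹ := h
      exact absurd (by rw [inv_eq_zero.1 h1.symm]) hQ
  | some x =>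
    cases Q with
    | none =>
      have h1 : x⁻¹ = (0 : L) := h
      exact absurd (by rw [inv_eq_zero.1 h1]) hP
    | some y =>
      have h1 : x⁻¹ = y⁻¹ := h
      rw [inv_inj.1 h1]

lemma eval_reflect {d : ℕ} {p : L[X]} (hp : p.natDegree ≤ d) {x : L} (hx : x ≠ 0) :
    p.eval x = x ^ d * (reflect d p).eval x⁻¹ := by
  have : Invertible x := invertibleOfNonzero hx
  have h := eval₂_reflect_mul_pow (RingHom.id L) x d p hp
  rw [invOf_eq_inv, ← eval, ← eval] at h
  rw [← h, mul_comm]

lemma coeff_reflect' {d : ℕ} {p : L[X]} (hp : p.natDegree ≤ d) (i : ℕ) :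
    (reflect d p).coeff i = if i ≤ d then p.coeff (d - i) else 0 := by
  rw [coeff_reflect]
  split_ifs with h
  · rw [revAt_le h]
  · rw [revAt_eq_self_of_lt (by omega)]
    exact coeff_eq_zero_of_natDegree_lt (by omega)

/-- the map in the coordinate at infinity -/
lemma ratMap_eq {d : ℕ} {p q : L[X]} (hp : p.natDegree ≤ d) (hq : q.natDegree ≤ d)
    {P : Option L} (hP : P ≠ some 0) (h0 : (reflect d q).eval (ic P) ≠ 0) :
    ratMap d p q P = some ((reflect d p).eval (ic P) / (reflect d q).eval (ic P)) := by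
  cases P with
  | none =>
    have h1 : ∀ r : L[X], r.natDegree ≤ d → (reflect d r).eval (ic (none : Option L)) =
        r.coeff d := by
      intro r hr
      show (reflect d r).eval 0 = _
      rw [← coeff_zero_eq_eval_zero, coeff_reflect' hr, if_pos (Nat.zero_le _), Nat.sub_zero]
    rw [h1 q hq] at h0
    rw [h1 p hp, h1 q hq]
    simp only [ratMap]
    rw [if_neg h0]
  | some x =>
    have hx : x ≠ 0 := fun h => hP (by rw [h])
    have h1 : ic (some x) = x⁻¹ := rfl
    rw [h1] at h0 ⊢
    have h2 : q.eval x ≠ 0 := by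
      rw [eval_reflect hq hx]
      exact mul_ne_zero (pow_ne_zero _ hx) h0
    simp only [ratMap]
    rw [if_neg h2, eval_reflect hp hx, eval_reflect hq hx,
      mul_div_mul_left _ _ (pow_ne_zero d hx)]

lemma ratMap_eq_none {d : ℕ} {p q : L[X]} (hq : q.natDegree ≤ d)
    {P : Option L} (hP : P ≠ some 0) (h0 : (reflect d q).eval (ic P) = 0) :
    ratMap d p q P = none := by
  cases P with
  | none =>
    have h1 : (reflect d q).eval (ic (none : Option L)) = q.coeff d := by
      show (reflect d q).eval 0 = _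
      rw [← coeff_zero_eq_eval_zero, coeff_reflect' hq, if_pos (Nat.zero_le _), Nat.sub_zero]
    rw [h1] at h0
    simp only [ratMap]
    rw [if_pos h0]
  | some x =>
    have hx : x ≠ 0 := fun h => hP (by rw [h])
    have h1 : ic (some x) = x⁻¹ := rfl
    rw [h1] at h0
    simp only [ratMap]
    rw [if_pos]
    rw [eval_reflect hq hx, h0, mul_zero]

/-- the map in the coordinate at infinity, on both sides -/
lemma ic_ratMap {d : ℕ} {p q : L[X]} (hp : p.natDegree ≤ d) (hq : q.natDegree ≤ d)
    {P : Option L} (hP : P ≠ some 0) :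
    ic (ratMap d p q P) = (reflect d q).eval (ic P) / (reflect d p).eval (ic P) := by
  by_cases h0 : (reflect d q).eval (ic P) = 0
  · rw [ratMap_eq_none hq hP h0, h0, zero_div]
    rfl
  · rw [ratMap_eq hp hq hP h0]
    show (_ / _)⁻¹ = _
    rw [inv_div]

lemma ratMap_ne {d : ℕ} {p q : L[X]} (hp : p.natDegree ≤ d) (hq : q.natDegree ≤ d)
    {P : Option L} (hP : P ≠ some 0) (h0 : (reflect d p).eval (ic P) ≠ 0) :
    ratMap d p q P ≠ some 0 := by
  by_cases h1 : (reflect d q).eval (ic P) = 0
  · rw [ratMap_eq_none hq hP h1]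
    exact (Option.some_ne_none _).symm
  · rw [ratMap_eq hp hq hP h1]
    intro h
    exact div_ne_zero h0 h1 (Option.some.inj h)

lemma ic_ratMap_some {d : ℕ} {p q : L[X]} (x : L) :
    ic (ratMap d p q (some x)) = q.eval x / p.eval x := by
  simp only [ratMap]
  split_ifs with h
  · rw [h, zero_div]
    rfl
  · show (_ / _)⁻¹ = _
    rw [inv_div]

lemma ratMap_some_ne {d : ℕ} {p q : L[X]} {x : L} (h0 : p.eval x ≠ 0) :
    ratMap d p q (some x) ≠ some 0 := by
  simp only [ratMap]
  split_ifs with h
  · exact (Option.some_ne_none _).symm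
  · intro h1
    exact div_ne_zero h0 h (Option.some.inj h1)

end

section poleD

variable {L : Type} {Γ : Type*} [Field L] [LinearOrderedCommGroupWithZero Γ] (w : Valuation L Γ)

/-- the leading coefficient of `p` is large, the other coefficients are integral, the constant
coefficients are units -/
structure LocD (d : ℕ) (p q : L[X]) : Prop where
  hp : p.natDegree ≤ d
  hq : q.natDegree ≤ d
  big : 1 < w (p.coeff d)
  hpi : ∀ i, i ≠ d → w (p.coeff i) ≤ 1
  hp0 : w (p.coeff 0) = 1
  hqi : ∀ i, w (q.coeff i) ≤ 1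
  hq0 : w (q.coeff 0) = 1

variable {w} {d : ℕ} {p q : L[X]}

lemma LocD.u0 (h : LocD w d p q) : (reflect d p).coeff 0 = p.coeff d := by
  rw [coeff_reflect' h.hp, if_pos (Nat.zero_le _), Nat.sub_zero]

lemma LocD.ui (h : LocD w d p q) (i : ℕ) (hi : i ≠ 0) : w ((reflect d p).coeff i) ≤ 1 := by
  rw [coeff_reflect' h.hp]
  split_ifs with h1
  · exact h.hpi _ (by omega)
  · rw [map_zero]
    exact zero_le

lemma LocD.vi (h : LocD w d p q) (i : ℕ) : w ((reflect d q).coeff i) ≤ 1 := by
  rw [coeff_reflect' h.hq]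
  split_ifs with h1
  · exact h.hqi _
  · rw [map_zero]
    exact zero_le

/-- the unit disc around infinity is mapped into a smaller disc -/
lemma LocD.maps (h : LocD w d p q) {P : Option L} (hP : P ≠ some 0) (hP1 : w (ic P) ≤ 1) :
    ratMap d p q P ≠ some 0 ∧ w (ic (ratMap d p q P)) * w (p.coeff d) ≤ 1 := by
  have h1 := val_eval_big w (u := reflect d p) (by rw [h.u0]; exact h.big) h.ui hP1
  rw [h.u0] at h1
  have hA0 : w (p.coeff d) ≠ 0 := (zero_lt_one.trans h.big).ne'
  have h2 : (reflect d p).eval (ic P) ≠ 0 := by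
    intro h3
    rw [h3, map_zero] at h1
    exact hA0 h1.symm
  refine ⟨ratMap_ne h.hp h.hq hP h2, ?_⟩
  rw [ic_ratMap h.hp h.hq hP, map_div₀, h1, div_mul_cancel₀ _ hA0]
  exact val_eval_le w h.vi hP1

lemma LocD.le_one (h : LocD w d p q) {x : L} (hx : w x * w (p.coeff d) ≤ 1) : w x ≤ 1 := by
  refine le_trans ?_ hx
  calc w x = w x * 1 := (mul_one _).symm
    _ ≤ _ := mul_le_mul' le_rfl h.big.le

lemma LocD.contr (h : LocD w d p q) {P Q : Option L} (hP : P ≠ some 0) (hP1 : w (ic P) ≤ 1)
    (hQ : Q ≠ some 0) (hQ1 : w (ic Q) ≤ 1) :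
    w (ic (ratMap d p q P) - ic (ratMap d p q Q)) * w (p.coeff d) ≤ w (ic P - ic Q) := by
  rw [ic_ratMap h.hp h.hq hP, ic_ratMap h.hp h.hq hQ]
  have h1 := contr_quot w (u := reflect d p) (v := reflect d q) (by rw [h.u0]; exact h.big) h.ui
    h.vi hP1 hQ1
  rw [h.u0] at h1
  exact h1

/-- all other points are mapped to this disc in two steps -/
lemma LocD.enter (h : LocD w d p q) (hd : 1 ≤ d) (P : Option L) :
    (∃ x, P = some x ∧ w x ^ d * w (p.coeff d) = 1) ∨
      (ratMap d p q (ratMap d p q P) ≠ some 0 ∧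
        w (ic (ratMap d p q (ratMap d p q P))) ≤ 1) := by
  have hA0 : w (p.coeff d) ≠ 0 := (zero_lt_one.trans h.big).ne'
  by_cases hP : P ≠ some 0 ∧ w (ic P) ≤ 1
  · right
    obtain ⟨h1, h2⟩ := h.maps hP.1 hP.2
    obtain ⟨h3, h4⟩ := h.maps h1 (h.le_one h2)
    exact ⟨h3, h.le_one h4⟩
  · -- now `P = some x` with `w x < 1`
    obtain ⟨x, rfl, hx⟩ : ∃ x, P = some x ∧ w x < 1 := by
      cases P with
      | none =>
        exfalso
        refine hP ⟨(Option.some_ne_none _).symm, ?_⟩
        show w (0 : L) ≤ 1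
        rw [map_zero]
        exact zero_le
      | some x =>
        refine ⟨x, rfl, ?_⟩
        by_contra hx
        rw [not_lt] at hx
        have hx0 : x ≠ 0 := by
          rintro rfl
          rw [map_zero] at hx
          exact absurd hx (not_le.2 zero_lt_one)
        refine hP ⟨fun h1 => hx0 (Option.some.inj h1), ?_⟩
        show w x⁻¹ ≤ 1
        rw [map_inv₀]
        exact inv_le_one_of_one_le₀ hx
    by_cases heq : w x ^ d * w (p.coeff d) = 1
    · exact Or.inl ⟨x, rfl, heq⟩
    right
    -- `q x` is a unit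
    have hqx : w (q.eval x) = 1 := by
      have h1 : w ((q - C (q.coeff 0)).eval x) < 1 := by
        rw [eval_eq_sum_range]
        refine w.map_sum_lt one_ne_zero fun i _ => ?_
        rw [coeff_sub_const]
        split_ifs with hi
        · rw [zero_mul, map_zero]
          exact zero_lt_one
        · rw [map_mul, map_pow]
          exact (mul_le_mul' (h.hqi i) le_rfl).trans_lt (by
            rw [one_mul]
            exact pow_lt_one₀ zero_le hx hi)
      have h2 : q.eval x = q.coeff 0 + (q - C (q.coeff 0)).eval x := by simp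
      rw [h2, w.map_add_eq_of_lt_left (by rw [h.hq0]; exact h1), h.hq0]
    have hqx0 : q.eval x ≠ 0 := by
      intro h1
      rw [h1, map_zero] at hqx
      exact zero_ne_one hqx
    -- `p x`
    have hpx : 1 ≤ w (p.eval x) := by
      -- the sum without the leading and the constant term
      have h1 : p.eval x = p.coeff d * x ^ d + (p.coeff 0 + ∑ i ∈ Ico 1 d, p.coeff i * x ^ i) := by
        rw [eval_eq_sum_range' (by have := h.hp; omega : p.natDegree < d + 1), sum_range_succ,
          range_eq_Ico, sum_eq_sum_Ico_succ_bot (by omega : 0 < d), pow_zero, mul_one]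
        ring
      have h2 : w (∑ i ∈ Ico 1 d, p.coeff i * x ^ i) < 1 := by
        refine w.map_sum_lt one_ne_zero fun i hi => ?_
        rw [mem_Ico] at hi
        rw [map_mul, map_pow]
        exact (mul_le_mul' (h.hpi i (by omega)) le_rfl).trans_lt (by
          rw [one_mul]
          exact pow_lt_one₀ zero_le hx (by omega))
      have h3 : w (p.coeff 0 + ∑ i ∈ Ico 1 d, p.coeff i * x ^ i) = 1 := by
        rw [w.map_add_eq_of_lt_left (by rw [h.hp0]; exact h2), h.hp0]
      have h4 : w (p.coeff d * x ^ d) = w x ^ d * w (p.coeff d) := by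
        rw [map_mul, map_pow, mul_comm]
      rw [h1]
      rcases lt_or_gt_of_ne heq with h5 | h5
      · rw [w.map_add_eq_of_lt_right (by rw [h3, h4]; exact h5), h3]
      · rw [w.map_add_eq_of_lt_left (by rw [h3, h4]; exact h5), h4]
        exact h5.le
    have hpx0 : p.eval x ≠ 0 := by
      intro h1
      rw [h1, map_zero] at hpx
      exact absurd hpx (not_le.2 zero_lt_one)
    have h5 := ratMap_some_ne (d := d) (q := q) hpx0
    have h6 : w (ic (ratMap d p q (some x))) ≤ 1 := by
      rw [ic_ratMap_some, map_div₀, hqx, one_div]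
      exact inv_le_one_of_one_le₀ hpx
    obtain ⟨h7, h8⟩ := h.maps h5 h6
    exact ⟨h7, h.le_one h8⟩

/-- **The local theorem at a pole of the leading coefficient.** -/
theorem LocD.special (h : LocD w d p q) (hd : 1 ≤ d) {P : Option L} {m n : ℕ} (hn : 0 < n)
    (hP : (ratMap d p q)^[m + n] P = (ratMap d p q)^[m] P)
    (hfix : ratMap d p q ((ratMap d p q)^[m] P) ≠ (ratMap d p q)^[m] P) :
    ∃ x, P = some x ∧ w x ^ d * w (p.coeff d) = 1 := by
  rcases h.enter hd P with h1 | h1
  · exact h1
  exfalso
  obtain ⟨r, s, -, h3, h4⟩ := contr_preper (ratMap d p q) 1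
    {P | P ≠ some 0 ∧ w (ic P) ≤ 1}
    (fun P hP => ⟨(h.maps hP.1 hP.2).1, h.le_one (h.maps hP.1 hP.2).2⟩)
    (fun P Q => w (ic P - ic Q)) h.big
    (fun P hP Q hQ => h.contr hP.1 hP.2 hQ.1 hQ.2)
    (fun P hP Q hQ h0 => by
      rw [Valuation.zero_iff, sub_eq_zero] at h0
      exact ic_inj hP.1 hQ.1 h0) one_pos hn hP (k := 2) h1
  apply hfix
  rw [h4]
  have h5 : ratMap d p q ((ratMap d p q)^[r] P) = (ratMap d p q)^[r] P := h3
  rw [Function.iterate_fixed h5, h5]

/-- infinity is not periodic -/
theorem LocD.infty (h : LocD w d p q) {m n : ℕ} (hn : 0 < n)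
    (hP : (ratMap d p q)^[m + n] (none : Option L) = (ratMap d p q)^[m] none) :
    ratMap d p q ((ratMap d p q)^[m] none) = (ratMap d p q)^[m] none := by
  by_contra hfix
  by_cases hd : 1 ≤ d
  · obtain ⟨x, h1, -⟩ := h.special hd hn hP hfix
    exact absurd h1 (Option.some_ne_none _).symm
  · have hd0 : d = 0 := by omega
    subst hd0
    have h1 := h.big
    rw [h.hp0] at h1
    exact lt_irrefl _ h1

end poleD

end Pool.Agent.H912.DY
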