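import Pool.Agent.H912.DY.R2

/-!
# Rational maps at a pole of the constant coefficient of the numerator (helper912)
-/

set_option autoImplicit false

open Finset Polynomial

namespace Pool.Agent.H912.DY

/-- the sizes of the points of an orbit in an annulus -/
lemma seq_annulus {Γ : Type*} [LinearOrderedCommGroupWithZero Γ] {d : ℕ} (hd : 2 ≤ d) {A : Γ}
    (hA : A ≠ 0) {R : ℕ → Γ} (hR : ∀ i, R (i + 1) * R i ^ d = A) {m n : ℕ} (hn : 0 < n)
    (hper : ∀ i, m ≤ i → R (i + n) = R i) : R 0 ^ (d + 1) = A := by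
  have hne : ∀ i, R i ≠ 0 := by
    intro i h
    have h1 := hR i
    rw [h, zero_pow (by omega), mul_zero] at h1
    exact hA h1.symm
  -- two steps
  have htwo : ∀ i, R (i + 2) * A ^ d = A * R i ^ (d * d) := by
    intro i
    have h1 := hR i
    have h2 := hR (i + 1)
    calc R (i + 2) * A ^ d = R (i + 2) * (R (i + 1) * R i ^ d) ^ d := by rw [h1]
      _ = (R (i + 1 + 1) * R (i + 1) ^ d) * R i ^ (d * d) := by
        rw [mul_pow, ← pow_mul, mul_assoc]
      _ = A * R i ^ (d * d) := by rw [h2]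
  obtain ⟨e, rfl⟩ : ∃ e, d = e + 2 := ⟨d - 2, by omega⟩
  have hgt : ∀ i, A < R i ^ (e + 2 + 1) → R i < R (i + 2) := by
    intro i h
    by_contra hcon
    rw [not_lt] at hcon
    have h1 := htwo i
    have h2 : A * R i ^ ((e + 2) * (e + 2)) ≤ R i * A ^ (e + 2) := by
      rw [← h1]
      exact mul_le_mul' hcon le_rfl
    have h3 : A ^ (e + 1) < (R i ^ (e + 2 + 1)) ^ (e + 1) :=
      pow_lt_pow_left₀ h zero_le (by omega)
    have h4 : A * R i ^ ((e + 2) * (e + 2)) = (A * R i) * (R i ^ (e + 2 + 1)) ^ (e + 1) := by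
      rw [← pow_mul, mul_assoc, ← pow_succ']
      congr 2
      ring
    have h5 : R i * A ^ (e + 2) = (A * R i) * A ^ (e + 1) := by
      rw [mul_comm A (R i), mul_assoc, ← pow_succ']
    rw [h4, h5] at h2
    exact absurd h2 (not_le.2 (mul_lt_mul_of_pos_left h3 (zero_lt_iff.2 (mul_ne_zero hA (hne i)))))
  have hlt : ∀ i, R i ^ (e + 2 + 1) < A → R (i + 2) < R i := by
    intro i h
    by_contra hcon
    rw [not_lt] at hcon
    have h1 := htwo i
    have h2 : R i * A ^ (e + 2) ≤ A * R i ^ ((e + 2) * (e + 2)) := by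
      rw [← h1]
      exact mul_le_mul' hcon le_rfl
    have h3 : (R i ^ (e + 2 + 1)) ^ (e + 1) < A ^ (e + 1) :=
      pow_lt_pow_left₀ h zero_le (by omega)
    have h4 : A * R i ^ ((e + 2) * (e + 2)) = (A * R i) * (R i ^ (e + 2 + 1)) ^ (e + 1) := by
      rw [← pow_mul, mul_assoc, ← pow_succ']
      congr 2
      ring
    have h5 : R i * A ^ (e + 2) = (A * R i) * A ^ (e + 1) := by
      rw [mul_comm A (R i), mul_assoc, ← pow_succ']
    rw [h4, h5] at h2
    exact absurd h2 (not_le.2 (mul_lt_mul_of_pos_left h3 (zero_lt_iff.2 (mul_ne_zero hA (hne i)))))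
  have hend : R (2 * (m + n)) = R (2 * m) := by
    have h1 := hper (2 * m) (by omega)
    have h2 := hper (2 * m + n) (by omega)
    have h3 : 2 * (m + n) = 2 * m + n + n := by ring
    rw [h3, h2, h1]
  rcases lt_trichotomy (R 0 ^ (e + 2 + 1)) A with h | h | h
  · exfalso
    have h1 : ∀ j, R (2 * j) ^ (e + 2 + 1) < A ∧ R (2 * (j + 1)) < R (2 * j) := by
      intro j
      induction j with
      | zero => exact ⟨h, hlt 0 h⟩
      | succ j ih =>
        have h2 : R (2 * (j + 1)) ^ (e + 2 + 1) < A :=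
          (pow_lt_pow_left₀ ih.2 zero_le (by omega)).trans ih.1
        exact ⟨h2, hlt _ h2⟩
    have h2 : StrictAnti fun j => R (2 * j) := strictAnti_nat_of_succ_lt fun j => (h1 j).2
    have h3 := h2 (show m < m + n by omega)
    simp only at h3
    rw [hend] at h3
    exact lt_irrefl _ h3
  · exact h
  · exfalso
    have h1 : ∀ j, A < R (2 * j) ^ (e + 2 + 1) ∧ R (2 * j) < R (2 * (j + 1)) := by
      intro j
      induction j with
      | zero => exact ⟨h, hgt 0 h⟩
      | succ j ih =>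
        have h2 : A < R (2 * (j + 1)) ^ (e + 2 + 1) :=
          ih.1.trans (pow_lt_pow_left₀ ih.2 zero_le (by omega))
        exact ⟨h2, hgt _ h2⟩
    have h2 : StrictMono fun j => R (2 * j) := strictMono_nat_of_lt_succ fun j => (h1 j).2
    have h3 := h2 (show m < m + n by omega)
    simp only at h3
    rw [hend] at h3
    exact lt_irrefl _ h3

section pole0

variable {L : Type} {Γ : Type*} [Field L] [LinearOrderedCommGroupWithZero Γ] (w : Valuation L Γ)

/-- the constant coefficient of `p` is large, the other coefficients are integral, the leading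
coefficients are units -/
structure Loc0 (d : ℕ) (p q : L[X]) : Prop where
  hp : p.natDegree ≤ d
  hq : q.natDegree ≤ d
  big : 1 < w (p.coeff 0)
  hpi : ∀ i, i ≠ 0 → w (p.coeff i) ≤ 1
  hpd : w (p.coeff d) = 1
  hqi : ∀ i, w (q.coeff i) ≤ 1
  hqd : w (q.coeff d) = 1

variable {w} {d : ℕ} {p q : L[X]}

lemma Loc0.u0 (h : Loc0 w d p q) : (reflect d p).coeff 0 = p.coeff d := by
  rw [coeff_reflect' h.hp, if_pos (Nat.zero_le _), Nat.sub_zero]

lemma Loc0.ud (h : Loc0 w d p q) : (reflect d p).coeff d = p.coeff 0 := by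
  rw [coeff_reflect' h.hp, if_pos le_rfl, Nat.sub_self]

lemma Loc0.ui (h : Loc0 w d p q) (i : ℕ) (hi : i ≠ d) : w ((reflect d p).coeff i) ≤ 1 := by
  rw [coeff_reflect' h.hp]
  split_ifs with h1
  · exact h.hpi _ (by omega)
  · rw [map_zero]
    exact zero_le

lemma Loc0.vi (h : Loc0 w d p q) (i : ℕ) : w ((reflect d q).coeff i) ≤ 1 := by
  rw [coeff_reflect' h.hq]
  split_ifs with h1
  · exact h.hqi _
  · rw [map_zero]
    exact zero_le

lemma Loc0.v0 (h : Loc0 w d p q) : w ((reflect d q).coeff 0) = 1 := by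
  rw [coeff_reflect' h.hq, if_pos (Nat.zero_le _), Nat.sub_zero]
  exact h.hqd

/-- the value of a polynomial with unit constant coefficient at a small point -/
lemma val_eval_unit {v : L[X]} (hv0 : w (v.coeff 0) = 1) (hv : ∀ i, w (v.coeff i) ≤ 1) {x : L}
    (hx : w x < 1) : w (v.eval x) = 1 := by
  have h1 : w ((v - C (v.coeff 0)).eval x) < 1 := by
    rw [eval_eq_sum_range]
    refine w.map_sum_lt one_ne_zero fun i _ => ?_
    rw [coeff_sub_const]
    split_ifs with hi
    · rw [zero_mul, map_zero]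
      exact zero_lt_one
    · rw [map_mul, map_pow]
      exact (mul_le_mul' (hv i) le_rfl).trans_lt (by
        rw [one_mul]
        exact pow_lt_one₀ zero_le hx hi)
  have h2 : v.eval x = v.coeff 0 + (v - C (v.coeff 0)).eval x := by simp
  rw [h2, w.map_add_eq_of_lt_left (by rw [hv0]; exact h1), hv0]

/-- the unit disc is mapped to a small disc around infinity -/
lemma Loc0.small (h : Loc0 w d p q) {x : L} (hx : w x ≤ 1) :
    ratMap d p q (some x) ≠ some 0 ∧ w (ic (ratMap d p q (some x))) * w (p.coeff 0) ≤ 1 := by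
  have h1 := val_eval_big w h.big h.hpi hx
  have hA0 : w (p.coeff 0) ≠ 0 := (zero_lt_one.trans h.big).ne'
  have h2 : p.eval x ≠ 0 := by
    intro h3
    rw [h3, map_zero] at h1
    exact hA0 h1.symm
  refine ⟨ratMap_some_ne h2, ?_⟩
  rw [ic_ratMap_some, map_div₀, h1, div_mul_cancel₀ _ hA0]
  exact val_eval_le w h.hqi hx

/-- the reflected numerator -/
lemma Loc0.eval_u (h : Loc0 w d p q) (t : L) :
    (reflect d p).eval t = ((reflect d p) - C (p.coeff 0) * X ^ d).eval t + p.coeff 0 * t ^ d := by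
  simp

lemma Loc0.u'i (h : Loc0 w d p q) (i : ℕ) :
    w (((reflect d p) - C (p.coeff 0) * X ^ d).coeff i) ≤ 1 := by
  rw [coeff_sub, coeff_C_mul, coeff_X_pow]
  split_ifs with hi
  · rw [hi, h.ud, mul_one, sub_self, map_zero]
    exact zero_le
  · rw [mul_zero, sub_zero]
    exact h.ui i hi

lemma Loc0.u'0 (h : Loc0 w d p q) (hd : 2 ≤ d) :
    w (((reflect d p) - C (p.coeff 0) * X ^ d).coeff 0) = 1 := by
  rw [coeff_sub, coeff_C_mul, coeff_X_pow, if_neg (by omega), mul_zero, sub_zero, h.u0, h.hpd]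

lemma Loc0.lt_one (h : Loc0 w d p q) {t : L} (ht : w t ^ d * w (p.coeff 0) ≤ 1) : w t < 1 := by
  by_contra hcon
  rw [not_lt] at hcon
  have h1 : 1 < w t ^ d * w (p.coeff 0) := by
    calc (1 : Γ) < w (p.coeff 0) := h.big
      _ = 1 * w (p.coeff 0) := (one_mul _).symm
      _ ≤ w t ^ d * w (p.coeff 0) := mul_le_mul' (one_le_pow₀ hcon) le_rfl
  exact absurd ht (not_le.2 h1)

lemma Loc0.pow_le (h : Loc0 w d p q) (hd : 2 ≤ d) {t : L} (ht : w t * w (p.coeff 0) ≤ 1) :
    w t ^ d * w (p.coeff 0) ≤ 1 ∧ w (p.coeff 0 * t ^ d) < 1 := by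
  have h1 : w t < 1 := by
    by_contra hcon
    rw [not_lt] at hcon
    have h1 : 1 < w t * w (p.coeff 0) := by
      calc (1 : Γ) < w (p.coeff 0) := h.big
        _ = 1 * w (p.coeff 0) := (one_mul _).symm
        _ ≤ w t * w (p.coeff 0) := mul_le_mul' hcon le_rfl
    exact absurd ht (not_le.2 h1)
  obtain ⟨e, rfl⟩ : ∃ e, d = e + 1 := ⟨d - 1, by omega⟩
  have h2 : w t ^ (e + 1) * w (p.coeff 0) < 1 := by
    calc w t ^ (e + 1) * w (p.coeff 0) = w t ^ e * (w t * w (p.coeff 0)) := by
          rw [pow_succ, mul_assoc]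
      _ ≤ w t ^ e * 1 := mul_le_mul' le_rfl ht
      _ < 1 := by
        rw [mul_one]
        exact pow_lt_one₀ zero_le h1 (by omega)
  refine ⟨h2.le, ?_⟩
  rw [map_mul, map_pow, mul_comm]
  exact h2

/-- a disc around infinity is mapped to the unit disc -/
lemma Loc0.large (h : Loc0 w d p q) {P : Option L} (hP : P ≠ some 0)
    (hP1 : w (ic P) ^ d * w (p.coeff 0) ≤ 1) :
    ∃ y, ratMap d p q P = some y ∧ w y ≤ 1 := by
  have ht := h.lt_one hP1
  have hv := val_eval_unit h.v0 h.vi ht
  have hv0 : (reflect d q).eval (ic P) ≠ 0 := by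
    intro h1
    rw [h1, map_zero] at hv
    exact zero_ne_one hv
  refine ⟨_, ratMap_eq h.hp h.hq hP hv0, ?_⟩
  rw [map_div₀, hv, div_one, h.eval_u]
  refine w.map_add_le (val_eval_le w h.u'i ht.le) ?_
  rw [map_mul, map_pow, mul_comm]
  exact hP1

lemma Loc0.large_unit (h : Loc0 w d p q) (hd : 2 ≤ d) {P : Option L} (hP : P ≠ some 0)
    (hP1 : w (ic P) * w (p.coeff 0) ≤ 1) :
    ∃ y, ratMap d p q P = some y ∧ w y = 1 := by
  obtain ⟨h1, h2⟩ := h.pow_le hd hP1
  have ht := h.lt_one h1
  have hv := val_eval_unit h.v0 h.vi ht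
  have hv0 : (reflect d q).eval (ic P) ≠ 0 := by
    intro h1
    rw [h1, map_zero] at hv
    exact zero_ne_one hv
  refine ⟨_, ratMap_eq h.hp h.hq hP hv0, ?_⟩
  have h3 := val_eval_unit (h.u'0 hd) h.u'i ht
  rw [map_div₀, hv, div_one, h.eval_u, w.map_add_eq_of_lt_left (by rw [h3]; exact h2), h3]

/-- the annulus -/
lemma Loc0.annulus (h : Loc0 w d p q) {x : L} (hx : 1 < w x)
    (hx1 : w x ^ d < w (p.coeff 0)) :
    ∃ y, ratMap d p q (some x) = some y ∧ w y * w x ^ d = w (p.coeff 0) := by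
  have hx0 : x ≠ 0 := by
    rintro rfl
    rw [map_zero] at hx
    exact absurd hx (not_lt.2 zero_le)
  have ht : w x⁻¹ < 1 := by
    rw [map_inv₀]
    exact inv_lt_one_of_one_lt₀ hx
  have hv := val_eval_unit h.v0 h.vi ht
  have hq : w (q.eval x) = w x ^ d := by
    rw [eval_reflect h.hq hx0, map_mul, map_pow, hv, mul_one]
  have hq0 : q.eval x ≠ 0 := by
    intro h1
    rw [h1, map_zero] at hq
    exact pow_ne_zero d (zero_lt_one.trans hx).ne' hq.symm
  have hp : w (p.eval x) = w (p.coeff 0) := by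
    have h1 : p.eval x = p.coeff 0 + (p - C (p.coeff 0)).eval x := by simp
    have h2 : w ((p - C (p.coeff 0)).eval x) < w (p.coeff 0) := by
      have h3 : (p - C (p.coeff 0)).natDegree < d + 1 := by
        have := (natDegree_sub_C (p := p) (a := p.coeff 0))
        have := h.hp
        omega
      rw [eval_eq_sum_range' h3]
      refine w.map_sum_lt (zero_lt_one.trans h.big).ne' fun i hi => ?_
      rw [coeff_sub_const]
      rw [mem_range] at hi
      split_ifs with hi0
      · rw [zero_mul, map_zero]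
        exact zero_lt_one.trans h.big
      · rw [map_mul, map_pow]
        refine (mul_le_mul' (h.hpi i hi0) le_rfl).trans_lt ?_
        rw [one_mul]
        exact (pow_le_pow_right₀ hx.le (by omega)).trans_lt hx1
    rw [h1, w.map_add_eq_of_lt_left h2]
  refine ⟨p.eval x / q.eval x, ?_, ?_⟩
  · simp only [ratMap]
    rw [if_neg hq0]
  · rw [map_div₀, hp, hq, div_mul_cancel₀]
    exact pow_ne_zero d (zero_lt_one.trans hx).ne'

/-- the second iterate is a contraction near infinity -/
lemma Loc0.contr (h : Loc0 w d p q) (hd : 2 ≤ d) {P Q : Option L} (hP : P ≠ some 0)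
    (hP1 : w (ic P) * w (p.coeff 0) ≤ 1) (hQ : Q ≠ some 0)
    (hQ1 : w (ic Q) * w (p.coeff 0) ≤ 1) :
    w (ic (ratMap d p q (ratMap d p q P)) - ic (ratMap d p q (ratMap d p q Q))) *
      w (p.coeff 0) ≤ w (ic P - ic Q) := by
  obtain ⟨hPd, hPd'⟩ := h.pow_le hd hP1
  obtain ⟨hQd, hQd'⟩ := h.pow_le hd hQ1
  have hPt := h.lt_one hPd
  have hQt := h.lt_one hQd
  have hvP := val_eval_unit h.v0 h.vi hPt
  have hvQ := val_eval_unit h.v0 h.vi hQt
  have hvP0 : (reflect d q).eval (ic P) ≠ 0 := by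
    intro h1
    rw [h1, map_zero] at hvP
    exact zero_ne_one hvP
  have hvQ0 : (reflect d q).eval (ic Q) ≠ 0 := by
    intro h1
    rw [h1, map_zero] at hvQ
    exact zero_ne_one hvQ
  obtain ⟨y, hy, hy1⟩ := h.large hP hPd
  obtain ⟨z, hz, hz1⟩ := h.large hQ hQd
  rw [hy, hz, ic_ratMap_some, ic_ratMap_some]
  refine (contr_quot w h.big h.hpi h.hqi hy1 hz1).trans ?_
  -- the first step
  rw [ratMap_eq h.hp h.hq hP hvP0] at hy
  rw [ratMap_eq h.hp h.hq hQ hvQ0] at hz
  have hy' := (Option.some.inj hy).symm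
  have hz' := (Option.some.inj hz).symm
  set s := ic P with hs
  set t := ic Q with ht
  have huP : w ((reflect d p).eval s) ≤ 1 := by
    rw [h.eval_u]
    exact w.map_add_le (val_eval_le w h.u'i hPt.le) hPd'.le
  have hpow : w (p.coeff 0 * (s ^ d - t ^ d)) ≤ w (s - t) := by
    have h2 : s ^ d - t ^ d = (s - t) * ∑ k ∈ range d, s ^ k * t ^ (d - 1 - k) :=
      ((Commute.all s t).mul_geom_sum₂ d).symm
    have h3 : w (p.coeff 0 * ∑ k ∈ range d, s ^ k * t ^ (d - 1 - k)) ≤ 1 := by
      rw [mul_sum]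
      refine w.map_sum_le fun k hk => ?_
      rw [mem_range] at hk
      rw [map_mul, map_mul, map_pow, map_pow]
      rcases Nat.eq_zero_or_pos k with rfl | hk0
      · have h4 : d - 1 - 0 = (d - 2) + 1 := by omega
        rw [pow_zero, one_mul, h4, pow_succ]
        calc w (p.coeff 0) * (w t ^ (d - 2) * w t) = w t ^ (d - 2) * (w t * w (p.coeff 0)) := by
              rw [mul_comm, mul_assoc]
          _ ≤ 1 := mul_le_one' (pow_le_one' hQt.le _) hQ1
      · obtain ⟨j, rfl⟩ : ∃ j, k = j + 1 := ⟨k - 1, by omega⟩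
        rw [pow_succ]
        calc w (p.coeff 0) * (w s ^ j * w s * w t ^ (d - 1 - (j + 1))) =
            (w s * w (p.coeff 0)) * (w s ^ j * w t ^ (d - 1 - (j + 1))) := by
              rw [mul_comm (w s ^ j) (w s), ← mul_assoc, ← mul_assoc, ← mul_assoc,
                mul_comm (w (p.coeff 0))]
          _ ≤ 1 := mul_le_one' hP1 (mul_le_one' (pow_le_one' hPt.le _) (pow_le_one' hQt.le _))
    have h4 : p.coeff 0 * (s ^ d - t ^ d) =
        (s - t) * (p.coeff 0 * ∑ k ∈ range d, s ^ k * t ^ (d - 1 - k)) := by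
      rw [h2]
      ring
    rw [h4, map_mul]
    calc w (s - t) * w (p.coeff 0 * ∑ k ∈ range d, s ^ k * t ^ (d - 1 - k)) ≤ w (s - t) * 1 :=
          mul_le_mul' le_rfl h3
      _ = w (s - t) := mul_one _
  have hu : w ((reflect d p).eval s - (reflect d p).eval t) ≤ w (s - t) := by
    have h1 : (reflect d p).eval s - (reflect d p).eval t =
        (((reflect d p) - C (p.coeff 0) * X ^ d).eval s -
          ((reflect d p) - C (p.coeff 0) * X ^ d).eval t) + p.coeff 0 * (s ^ d - t ^ d) := by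
      simp
      ring
    rw [h1]
    exact w.map_add_le (val_eval_sub w h.u'i hPt.le hQt.le) hpow
  have hv : w ((reflect d q).eval t - (reflect d q).eval s) ≤ w (s - t) := by
    rw [w.map_sub_swap]
    exact val_eval_sub w h.vi hPt.le hQt.le
  rw [hy', hz']
  have h5 : (reflect d p).eval s / (reflect d q).eval s - (reflect d p).eval t /
      (reflect d q).eval t = ((reflect d p).eval s * ((reflect d q).eval t - (reflect d q).eval s) +
        (reflect d q).eval s * ((reflect d p).eval s - (reflect d p).eval t)) /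
        ((reflect d q).eval s * (reflect d q).eval t) := by
    field_simp
    ring
  rw [h5, map_div₀, map_mul w ((reflect d q).eval s) ((reflect d q).eval t), hvP, hvQ, mul_one,
    div_one]
  refine w.map_add_le ?_ ?_
  · rw [map_mul]
    calc w ((reflect d p).eval s) * w ((reflect d q).eval t - (reflect d q).eval s) ≤
        1 * w (s - t) := mul_le_mul' huP hv
      _ = w (s - t) := one_mul _
  · rw [map_mul, hvP, one_mul]
    exact hu

/-- the disc around infinity -/
def Near (w : Valuation L Γ) (A : Γ) : Set (Option L) := {P | P ≠ some 0 ∧ w (ic P) * A ≤ 1}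

lemma Loc0.near_two (h : Loc0 w d p q) (hd : 2 ≤ d) {P : Option L}
    (hP : P ∈ Near w (w (p.coeff 0))) :
    ratMap d p q (ratMap d p q P) ∈ Near w (w (p.coeff 0)) := by
  obtain ⟨y, hy, hy1⟩ := h.large_unit hd hP.1 hP.2
  rw [hy]
  exact h.small hy1.le

lemma Loc0.unique (h : Loc0 w d p q) (hd : 2 ≤ d) {P Q : Option L}
    (hP : P ∈ Near w (w (p.coeff 0))) (hQ : Q ∈ Near w (w (p.coeff 0)))
    (hP2 : ratMap d p q (ratMap d p q P) = P) (hQ2 : ratMap d p q (ratMap d p q Q) = Q) :
    P = Q := by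
  have h1 := h.contr hd hP.1 hP.2 hQ.1 hQ.2
  rw [hP2, hQ2] at h1
  have h2 : w (ic P - ic Q) = 0 := by
    by_contra h3
    have h4 : w (ic P - ic Q) * 1 < w (ic P - ic Q) * w (p.coeff 0) :=
      mul_lt_mul_of_pos_left h.big (zero_lt_iff.2 h3)
    rw [mul_one] at h4
    exact absurd h1 (not_le.2 h4)
  rw [Valuation.zero_iff, sub_eq_zero] at h2
  exact ic_inj hP.1 hQ.1 h2

/-- the points outside of the annulus -/
lemma Loc0.enter (h : Loc0 w d p q) (P : Option L) :
    (∃ x, P = some x ∧ 1 < w x ∧ w x ^ d < w (p.coeff 0)) ∨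
      ratMap d p q P ∈ Near w (w (p.coeff 0)) ∨
      ratMap d p q (ratMap d p q P) ∈ Near w (w (p.coeff 0)) := by
  have hlarge : ∀ P : Option L, P ≠ some 0 → w (ic P) ^ d * w (p.coeff 0) ≤ 1 →
      ratMap d p q (ratMap d p q P) ∈ Near w (w (p.coeff 0)) := by
    intro P hP hP1
    obtain ⟨y, hy, hy1⟩ := h.large hP hP1
    rw [hy]
    exact h.small hy1
  cases P with
  | none =>
    by_cases hd : d = 0
    · exfalso
      subst hd
      have h1 := h.big
      rw [h.hpd] at h1
      exact lt_irrefl _ h1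
    right
    right
    refine hlarge none (Option.some_ne_none _).symm ?_
    show w (0 : L) ^ d * _ ≤ 1
    rw [map_zero, zero_pow hd, zero_mul]
    exact zero_le
  | some x =>
    rcases le_or_gt (w x) 1 with hx | hx
    · exact Or.inr (Or.inl (h.small hx))
    rcases lt_or_ge (w x ^ d) (w (p.coeff 0)) with hx1 | hx1
    · exact Or.inl ⟨x, rfl, hx, hx1⟩
    right
    right
    have hx0 : x ≠ 0 := by
      rintro rfl
      rw [map_zero] at hx
      exact absurd hx (not_lt.2 zero_le)
    refine hlarge (some x) (fun h1 => hx0 (Option.some.inj h1)) ?_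
    show w x⁻¹ ^ d * _ ≤ 1
    rw [map_inv₀, inv_pow]
    exact inv_mul_le_one_of_le₀ hx1 zero_le

/-- preperiodic points whose orbit does not come near infinity -/
lemma Loc0.all_good (h : Loc0 w d p q) (hd : 2 ≤ d) {P : Option L} {m n : ℕ} (hn : 0 < n)
    (hP : (ratMap d p q)^[m + n] P = (ratMap d p q)^[m] P)
    (hnot : ∀ k, (ratMap d p q)^[k] P ∉ Near w (w (p.coeff 0))) :
    ∃ x, P = some x ∧ w x ^ (d + 1) = w (p.coeff 0) := by
  have h1 : ∀ k, ∃ x, (ratMap d p q)^[k] P = some x ∧ 1 < w x ∧ w x ^ d < w (p.coeff 0) := by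
    intro k
    rcases h.enter ((ratMap d p q)^[k] P) with h1 | h1 | h1
    · exact h1
    · exfalso
      apply hnot (k + 1)
      rw [Function.iterate_succ_apply']
      exact h1
    · exfalso
      apply hnot (k + 2)
      rw [Function.iterate_succ_apply', Function.iterate_succ_apply']
      exact h1
  choose x hx hx1 hx2 using h1
  have hR : ∀ i, w (x (i + 1)) * w (x i) ^ d = w (p.coeff 0) := by
    intro i
    obtain ⟨y, hy, hy1⟩ := h.annulus (hx1 i) (hx2 i)
    rw [← hx i, ← Function.iterate_succ_apply' (ratMap d p q), hx (i + 1)] at hy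
    rw [Option.some.inj hy]
    exact hy1
  refine ⟨x 0, hx 0, ?_⟩
  refine seq_annulus hd (zero_lt_one.trans h.big).ne' (R := fun i => w (x i)) hR (m := m) (n := n)
    hn ?_
  intro i hi
  obtain ⟨t, rfl⟩ := Nat.exists_eq_add_of_le hi
  have h2 : (ratMap d p q)^[m + t + n] P = (ratMap d p q)^[m + t] P := by
    have h3 : m + t + n = t + (m + n) := by ring
    have h4 : m + t = t + m := by ring
    rw [h3, Function.iterate_add_apply, hP, ← Function.iterate_add_apply, ← h4]
  rw [hx, hx] at h2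
  rw [Option.some.inj h2]

/-- **The local theorem at a pole of the constant coefficient.** -/
theorem Loc0.special (h : Loc0 w d p q) (hd : 2 ≤ d) {P : Option L} {m n : ℕ} (hn : 0 < n)
    (hP : (ratMap d p q)^[m + n] P = (ratMap d p q)^[m] P)
    (hC : (ratMap d p q)^[2] ((ratMap d p q)^[m] P) ≠ (ratMap d p q)^[m] P ∨
      ratMap d p q ((ratMap d p q)^[m] P) = (ratMap d p q)^[m] P) :
    ∃ x, P = some x ∧ w x ^ (d + 1) = w (p.coeff 0) := by
  refine h.all_good hd hn hP fun k hk => ?_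
  obtain ⟨r, s, h2, h3, h4⟩ := contr_preper (ratMap d p q) 2 (Near w (w (p.coeff 0)))
    (fun P hP => h.near_two hd hP)
    (fun P Q => w (ic P - ic Q)) h.big
    (fun P hP Q hQ => h.contr hd hP.1 hP.2 hQ.1 hQ.2)
    (fun P hP Q hQ h0 => by
      rw [Valuation.zero_iff, sub_eq_zero] at h0
      exact ic_inj hP.1 hQ.1 h0) two_pos hn hP hk
  rcases hC with hC | hC
  · apply hC
    rw [h4, ← Function.iterate_add_apply, add_comm 2 s, Function.iterate_add_apply, h3]
  · set R := (ratMap d p q)^[r] P with hR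
    rw [h4] at hC
    have h5 : (ratMap d p q)^[s * 2] R = R := by
      rw [mul_comm, Function.iterate_mul]
      exact Function.iterate_fixed h3 s
    have h6 : (ratMap d p q)^[s * 2] R = (ratMap d p q)^[s] R := by
      have h7 : s * 2 = s + s := by ring
      rw [h7, Function.iterate_add_apply, Function.iterate_fixed hC]
    rw [← h6, h5] at hC
    obtain ⟨y, hy, hy1⟩ := h.large_unit hd h2.1 h2.2
    rw [hy] at hC
    have h8 := h2.2
    rw [← hC] at h8
    have h9 : w (ic (some y)) = 1 := by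
      show w y⁻¹ = 1
      rw [map_inv₀, hy1, inv_one]
    rw [h9, one_mul] at h8
    exact absurd h8 (not_le.2 h.big)

/-- the points of period two -/
theorem Loc0.two (h : Loc0 w d p q) (hd : 2 ≤ d) {P : Option L}
    (hP : ratMap d p q (ratMap d p q P) = P) :
    (∃ x, P = some x ∧ w x ^ (d + 1) = w (p.coeff 0)) ∨ P ∈ Near w (w (p.coeff 0)) ∨
      (ratMap d p q P ∈ Near w (w (p.coeff 0)) ∧ ∃ x, P = some x ∧ w x = 1) := by
  by_cases hnot : ∀ k, (ratMap d p q)^[k] P ∉ Near w (w (p.coeff 0))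
  · exact Or.inl (h.all_good hd (m := 0) (n := 2) two_pos hP hnot)
  push Not at hnot
  obtain ⟨k, hk⟩ := hnot
  right
  have h2 : ∀ j, (ratMap d p q)^[j * 2] P = P := by
    intro j
    rw [mul_comm, Function.iterate_mul]
    exact Function.iterate_fixed hP j
  rcases Nat.even_or_odd' k with ⟨j, hj | hj⟩
  · left
    rw [hj, mul_comm, h2] at hk
    exact hk
  · right
    rw [hj, mul_comm, add_comm, Function.iterate_add_apply, h2] at hk
    refine ⟨hk, ?_⟩
    obtain ⟨y, hy, hy1⟩ := h.large_unit hd hk.1 hk.2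
    refine ⟨y, ?_, hy1⟩
    rw [← hy]
    exact hP.symm

end pole0

end Pool.Agent.H912.DY
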