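import Pool.Agent.H912.DY.R3
import Pool.Agent.H912.DY.H2
import Pool.Agent.H912.DY.T3

/-!
# Rational maps: degrees of the preperiodic points (helper912)
-/

set_option autoImplicit false

open Finset Polynomial IsDedekindDomain
open scoped NumberField

namespace Pool.Agent.H912.DY

lemma ratMap_map {L M : Type} [Field L] [Field M] (φ : L →+* M) (d : ℕ) (p q : L[X])
    (P : Option L) :
    Option.map φ (ratMap d p q P) = ratMap d (p.map φ) (q.map φ) (Option.map φ P) := by
  cases P with
  | none =>
    have h2 : (q.map φ).coeff d = φ (q.coeff d) := coeff_map _ _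
    have h3 : (p.map φ).coeff d = φ (p.coeff d) := coeff_map _ _
    simp only [ratMap, Option.map_none]
    by_cases h : q.coeff d = 0
    · rw [if_pos h, if_pos (by rw [h2, h, map_zero])]
      rfl
    · rw [if_neg h, if_neg (by rw [h2]; exact (map_ne_zero φ).2 h), h2, h3, Option.map_some,
        map_div₀]
  | some x =>
    have h2 : (q.map φ).eval (φ x) = φ (q.eval x) := eval_map_apply _ _
    have h3 : (p.map φ).eval (φ x) = φ (p.eval x) := eval_map_apply _ _
    simp only [ratMap, Option.map_some]
    by_cases h : q.eval x = 0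
    · rw [if_pos h, if_pos (by rw [h2, h, map_zero])]
      rfl
    · rw [if_neg h, if_neg (by rw [h2]; exact (map_ne_zero φ).2 h), h2, h3, Option.map_some,
        map_div₀]

lemma ratMap_iterate {L M : Type} [Field L] [Field M] (φ : L →+* M) (d : ℕ) (p q : L[X]) (n : ℕ)
    (P : Option L) :
    Option.map φ ((ratMap d p q)^[n] P) =
      (ratMap d (p.map φ) (q.map φ))^[n] (Option.map φ P) := by
  have h : Function.Semiconj (Option.map φ) (ratMap d p q) (ratMap d (p.map φ) (q.map φ)) :=
    ratMap_map φ d p q
  exact h.iterate_right n P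

/-- The coefficient number `j` of `p` has a simple pole at `v`, all other coefficients of `p` and `q`
up to degree `d` are units. -/
structure PoleQ {K : Type} [Field K] [NumberField K] (v : HeightOneSpectrum (𝓞 K)) (p q : K[X])
    (d j : ℕ) : Prop where
  hp : p.natDegree ≤ d
  hq : q.natDegree ≤ d
  pole : v.valuation K (p.coeff j) = WithZero.exp 1
  unit : ∀ i, i ≤ d → i ≠ j → v.valuation K (p.coeff i) = 1
  unitq : ∀ i, i ≤ d → v.valuation K (q.coeff i) = 1

section

variable {K : Type} [Field K] [NumberField K] {v : HeightOneSpectrum (𝓞 K)} {p q : K[X]}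
  {d : ℕ}

lemma one_lt_exp : (1 : WithZero (Multiplicative ℤ)) < WithZero.exp 1 := by
  rw [← WithZero.exp_zero, WithZero.exp_lt_exp]
  norm_num

lemma PoleQ.le {j : ℕ} (h : PoleQ v p q d j) (i : ℕ) (hi : i ≠ j) :
    v.valuation K (p.coeff i) ≤ 1 := by
  by_cases hid : i ≤ d
  · exact (h.unit i hid hi).le
  · rw [coeff_eq_zero_of_natDegree_lt (by have := h.hp; omega), map_zero]
    exact zero_le

lemma PoleQ.leq {j : ℕ} (h : PoleQ v p q d j) (i : ℕ) : v.valuation K (q.coeff i) ≤ 1 := by
  by_cases hid : i ≤ d
  · exact (h.unitq i hid).le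
  · rw [coeff_eq_zero_of_natDegree_lt (by have := h.hq; omega), map_zero]
    exact zero_le

lemma PoleQ.locD (h : PoleQ v p q d d) (hd : 1 ≤ d) : LocD (v.valuation K) d p q :=
  ⟨h.hp, h.hq, by rw [h.pole]; exact one_lt_exp, h.le, h.unit 0 (by omega) (by omega), h.leq,
    h.unitq 0 (by omega)⟩

lemma PoleQ.loc0 (h : PoleQ v p q d 0) (hd : 1 ≤ d) : Loc0 (v.valuation K) d p q :=
  ⟨h.hp, h.hq, by rw [h.pole]; exact one_lt_exp, h.le, h.unit d le_rfl (by omega), h.leq,
    h.unitq d le_rfl⟩

variable {L : Type} [Field L] [NumberField L] [Algebra K L]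

lemma PoleQ.locD' (h : PoleQ v p q d d) (hd : 1 ≤ d) (w : HeightOneSpectrum (𝓞 L))
    (hw : w.asIdeal.LiesOver v.asIdeal) :
    LocD (w.valuation L) d (p.map (algebraMap K L)) (q.map (algebraMap K L)) := by
  have h1 := h.locD hd
  have he : v.asIdeal.ramificationIdx' w.asIdeal ≠ 0 :=
    Ideal.IsDedekindDomain.ramificationIdx'_ne_zero_of_liesOver w.asIdeal v.ne_bot
  have hval : ∀ x : K, w.valuation L (algebraMap K L x) =
      v.valuation K x ^ v.asIdeal.ramificationIdx' w.asIdeal := fun x =>
    (HeightOneSpectrum.valuation_liesOver L v w x).symm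
  refine ⟨by rw [natDegree_map]; exact h.hp, by rw [natDegree_map]; exact h.hq, ?_, ?_, ?_, ?_, ?_⟩
  · rw [coeff_map, hval]
    exact one_lt_pow₀ h1.big he
  · intro i hi
    rw [coeff_map, hval]
    exact pow_le_one' (h1.hpi i hi) _
  · rw [coeff_map, hval, h1.hp0, one_pow]
  · intro i
    rw [coeff_map, hval]
    exact pow_le_one' (h1.hqi i) _
  · rw [coeff_map, hval, h1.hq0, one_pow]

lemma PoleQ.loc0' (h : PoleQ v p q d 0) (hd : 1 ≤ d) (w : HeightOneSpectrum (𝓞 L))
    (hw : w.asIdeal.LiesOver v.asIdeal) :
    Loc0 (w.valuation L) d (p.map (algebraMap K L)) (q.map (algebraMap K L)) := by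
  have h1 := h.loc0 hd
  have he : v.asIdeal.ramificationIdx' w.asIdeal ≠ 0 :=
    Ideal.IsDedekindDomain.ramificationIdx'_ne_zero_of_liesOver w.asIdeal v.ne_bot
  have hval : ∀ x : K, w.valuation L (algebraMap K L x) =
      v.valuation K x ^ v.asIdeal.ramificationIdx' w.asIdeal := fun x =>
    (HeightOneSpectrum.valuation_liesOver L v w x).symm
  refine ⟨by rw [natDegree_map]; exact h.hp, by rw [natDegree_map]; exact h.hq, ?_, ?_, ?_, ?_, ?_⟩
  · rw [coeff_map, hval]
    exact one_lt_pow₀ h1.big he
  · intro i hi
    rw [coeff_map, hval]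
    exact pow_le_one' (h1.hpi i hi) _
  · rw [coeff_map, hval, h1.hpd, one_pow]
  · intro i
    rw [coeff_map, hval]
    exact pow_le_one' (h1.hqi i) _
  · rw [coeff_map, hval, h1.hqd, one_pow]

end

/-- the map on the line over the algebraic closure -/
noncomputable def rbar {K : Type} [Field K] (d : ℕ) (p q : K[X]) :
    Option (AlgebraicClosure K) → Option (AlgebraicClosure K) :=
  ratMap d (p.map (algebraMap K (AlgebraicClosure K))) (q.map (algebraMap K (AlgebraicClosure K)))

/-- maps over intermediate fields -/
lemma rbar_iterate {K : Type} [Field K] (d : ℕ) (p q : K[X])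
    (L : IntermediateField K (AlgebraicClosure K)) (n : ℕ) (Q : Option L) :
    (rbar d p q)^[n] (Option.map (algebraMap L (AlgebraicClosure K)) Q) =
      Option.map (algebraMap L (AlgebraicClosure K))
        ((ratMap d (p.map (algebraMap K L)) (q.map (algebraMap K L)))^[n] Q) := by
  have h1 : ∀ r : K[X], (r.map (algebraMap K L)).map (algebraMap L (AlgebraicClosure K)) =
      r.map (algebraMap K (AlgebraicClosure K)) := fun r => by
    rw [Polynomial.map_map]
    rfl
  have h := ratMap_iterate (algebraMap L (AlgebraicClosure K)) d (p.map (algebraMap K L))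
    (q.map (algebraMap K L)) n Q
  rw [h1, h1] at h
  exact h.symm

lemma rbar_none {K : Type} [Field K] (d : ℕ) (p q : K[X]) (n : ℕ) :
    (rbar d p q)^[n] none =
      Option.map (algebraMap K (AlgebraicClosure K)) ((ratMap d p q)^[n] none) := by
  have h := ratMap_iterate (algebraMap K (AlgebraicClosure K)) d p q n none
  exact h.symm

lemma map_inj' {L M : Type} [Field L] [Field M] (φ : L →+* M) :
    Function.Injective (Option.map φ) := Option.map_injective φ.injective

/-- a number field with the point -/
lemma adjoin_nf {K : Type} [Field K] [NumberField K] (x : AlgebraicClosure K) :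
    NumberField (IntermediateField.adjoin K {x}) := by
  have hfd : FiniteDimensional K (IntermediateField.adjoin K {x}) :=
    IntermediateField.adjoin.finiteDimensional (Algebra.IsIntegral.isIntegral x)
  have hfdQ : FiniteDimensional ℚ (IntermediateField.adjoin K {x}) := Module.Finite.trans K _
  exact ⟨⟩

/-- **A pole of the leading coefficient.** -/
theorem lead_dvd {K : Type} [Field K] [NumberField K] {v : HeightOneSpectrum (𝓞 K)} {p q : K[X]}
    {d : ℕ} (hd : 1 ≤ d) (h : PoleQ v p q d d) {P : Option (AlgebraicClosure K)} {m n : ℕ}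
    (hn : 0 < n) (hP : (rbar d p q)^[m + n] P = (rbar d p q)^[m] P)
    (hfix : rbar d p q ((rbar d p q)^[m] P) ≠ (rbar d p q)^[m] P) :
    ∃ x, P = some x ∧ d ∣ Module.finrank K (IntermediateField.adjoin K {x}) := by
  cases P with
  | none =>
    exfalso
    rw [rbar_none, rbar_none] at hP
    have hP' := map_inj' _ hP
    rw [← Function.iterate_succ_apply' (rbar d p q), rbar_none, rbar_none] at hfix
    obtain ⟨x, hx, -⟩ := (h.locD hd).special hd hn hP' (fun h1 => hfix (by
      rw [Function.iterate_succ_apply', h1]))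
    exact absurd hx (Option.some_ne_none _).symm
  | some x =>
    refine ⟨x, rfl, ?_⟩
    have hnf := adjoin_nf x
    set L := IntermediateField.adjoin K {x} with hL
    have hxL : x ∈ L := IntermediateField.subset_adjoin K _ (Set.mem_singleton x)
    have hQ : (some x : Option (AlgebraicClosure K)) =
        Option.map (algebraMap L (AlgebraicClosure K)) (some ⟨x, hxL⟩) := rfl
    rw [hQ, rbar_iterate, rbar_iterate] at hP
    have hP' := map_inj' _ hP
    rw [hQ, ← Function.iterate_succ_apply' (rbar d p q), rbar_iterate, rbar_iterate] at hfix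
    refine dvd_finrank v fun w hw => ?_
    obtain ⟨y, hy, hy1⟩ := (h.locD' hd w hw).special hd hn hP' (fun h1 => hfix (by
      rw [Function.iterate_succ_apply', h1]))
    rw [coeff_map] at hy1
    have hy0 : w.valuation L y ^ d ≠ 0 := by
      intro h0
      rw [h0, zero_mul] at hy1
      exact zero_ne_one hy1
    refine dvd_ramification v w h.pole (d := d) (x := y⁻¹) ?_
    rw [map_inv₀, inv_pow]
    exact (eq_inv_of_mul_eq_one_right hy1).symm

/-- **A pole of the constant coefficient.** -/
theorem const_dvd {K : Type} [Field K] [NumberField K] {v : HeightOneSpectrum (𝓞 K)} {p q : K[X]}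
    {d : ℕ} (hd : 2 ≤ d) (h : PoleQ v p q d 0) {P : Option (AlgebraicClosure K)} {m n : ℕ}
    (hn : 0 < n) (hP : (rbar d p q)^[m + n] P = (rbar d p q)^[m] P)
    (hC : (rbar d p q)^[2] ((rbar d p q)^[m] P) ≠ (rbar d p q)^[m] P ∨
      rbar d p q ((rbar d p q)^[m] P) = (rbar d p q)^[m] P) :
    ∃ x, P = some x ∧ d + 1 ∣ Module.finrank K (IntermediateField.adjoin K {x}) := by
  rw [← Function.iterate_add_apply, ← Function.iterate_succ_apply' (rbar d p q)] at hC
  cases P with
  | none =>
    exfalso
    rw [rbar_none, rbar_none] at hP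
    have hP' := map_inj' _ hP
    rw [rbar_none, rbar_none, rbar_none] at hC
    obtain ⟨x, hx, -⟩ := (h.loc0 (by omega)).special hd hn hP' (by
      rcases hC with hC | hC
      · left
        intro h1
        rw [← Function.iterate_add_apply] at h1
        exact hC (by rw [h1])
      · right
        have h1 := map_inj' _ hC
        rwa [Function.iterate_succ_apply'] at h1)
    exact absurd hx (Option.some_ne_none _).symm
  | some x =>
    refine ⟨x, rfl, ?_⟩
    have hnf := adjoin_nf x
    set L := IntermediateField.adjoin K {x} with hL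
    have hxL : x ∈ L := IntermediateField.subset_adjoin K _ (Set.mem_singleton x)
    have hQ : (some x : Option (AlgebraicClosure K)) =
        Option.map (algebraMap L (AlgebraicClosure K)) (some ⟨x, hxL⟩) := rfl
    rw [hQ, rbar_iterate, rbar_iterate] at hP
    have hP' := map_inj' _ hP
    rw [hQ, rbar_iterate, rbar_iterate, rbar_iterate] at hC
    refine dvd_finrank v fun w hw => ?_
    obtain ⟨y, hy, hy1⟩ := (h.loc0' (by omega) w hw).special hd hn hP' (by
      rcases hC with hC | hC
      · left
        intro h1
        rw [← Function.iterate_add_apply] at h1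
        exact hC (by rw [h1])
      · right
        have h1 := map_inj' _ hC
        rwa [Function.iterate_succ_apply'] at h1)
    rw [coeff_map] at hy1
    exact dvd_ramification v w h.pole hy1

end Pool.Agent.H912.DY
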