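import Pool.Agent.H912.DY.R4
import Pool.Agent.H912.DY.H6

/-!
# Rational maps: the degree of the points of period two (helper912)
-/

set_option autoImplicit false

open Finset Polynomial IsDedekindDomain
open scoped NumberField

namespace Pool.Agent.H912.DY

lemma log_prod {ι : Type*} (s : Finset ι) (f : ι → WithZero (Multiplicative ℤ))
    (hf : ∀ i ∈ s, f i ≠ 0) : WithZero.log (∏ i ∈ s, f i) = ∑ i ∈ s, WithZero.log (f i) := by
  classical
  induction s using Finset.induction_on with
  | empty => simp
  | insert i s hi ih =>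
    rw [prod_insert hi, sum_insert hi, WithZero.log_mul (hf i (mem_insert_self i s))
      (prod_ne_zero_iff.2 fun j hj => hf j (mem_insert_of_mem hj)),
      ih fun j hj => hf j (mem_insert_of_mem hj)]

/-- the degree of the points of period two at a pole of the constant coefficient, over a Galois
extension -/
theorem two_count {K N : Type} [Field K] [NumberField K] [Field N] [NumberField N] [Algebra K N]
    [IsGalois K N] {v : HeightOneSpectrum (𝓞 K)} {p q : K[X]}
    {d : ℕ} (hd : 2 ≤ d) (h : PoleQ v p q d 0) {y : N}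
    (hy : ratMap d (p.map (algebraMap K N)) (q.map (algebraMap K N))
      (ratMap d (p.map (algebraMap K N)) (q.map (algebraMap K N)) (some y)) = some y) :
    ∃ k t, t ≤ 2 ∧ (minpoly K y).natDegree = (d + 1) * k + t := by
  classical
  have hvmax : v.asIdeal.IsMaximal := v.isMaximal
  have hfin : FiniteDimensional K N := Module.Finite.of_restrictScalars_finite ℚ K N
  obtain ⟨I, hIp, hIl⟩ := (inferInstance : Nonempty (v.asIdeal.primesOver (𝓞 N)))
  let w : HeightOneSpectrum (𝓞 N) := ⟨I, hIp, Ideal.ne_bot_of_liesOver_of_ne_bot v.ne_bot I⟩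
  have hw : w.asIdeal.LiesOver v.asIdeal := hIl
  set e := v.asIdeal.ramificationIdx' w.asIdeal with he
  have he0 : e ≠ 0 :=
    Ideal.IsDedekindDomain.ramificationIdx'_ne_zero_of_liesOver w.asIdeal v.ne_bot
  have hval : ∀ x : K, w.valuation N (algebraMap K N x) = v.valuation K x ^ e := fun x =>
    (HeightOneSpectrum.valuation_liesOver N v w x).symm
  have hloc := h.loc0' (by omega) w hw
  set F := ratMap d (p.map (algebraMap K N)) (q.map (algebraMap K N)) with hF
  set A := w.valuation N ((p.map (algebraMap K N)).coeff 0) with hA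
  have hAe : A = WithZero.exp (e : ℤ) := by
    rw [hA, coeff_map, hval, h.pole, ← WithZero.exp_nsmul]
    congr 1
    simp
  set g := minpoly K y with hg
  have hint : IsIntegral K y := Algebra.IsIntegral.isIntegral y
  have hsplit : (g.map (algebraMap K N)).Splits := Normal.splits inferInstance y
  -- all conjugates are points of period two
  have hσ : ∀ σ : N ≃ₐ[K] N, ∀ P : Option N, Option.map σ (F P) = F (Option.map σ P) := by
    intro σ P
    have h1 := ratMap_map (σ : N →+* N) d (p.map (algebraMap K N)) (q.map (algebraMap K N)) P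
    have h2 : ∀ r : K[X], (r.map (algebraMap K N)).map (σ : N →+* N) = r.map (algebraMap K N) := by
      intro r
      rw [Polynomial.map_map]
      congr 1
      ext a
      simp
    rw [h2, h2] at h1
    exact h1
  have hσ2 : ∀ (σ : N ≃ₐ[K] N) (z : N), F (F (some z)) = some z →
      F (F (some (σ z))) = some (σ z) := by
    intro σ z hz
    have h1 : (some (σ z) : Option N) = Option.map σ (some z) := rfl
    rw [h1, ← hσ, ← hσ, hz]
  set R := (g.map (algebraMap K N)).roots with hR
  have hg0 : g.map (algebraMap K N) ≠ 0 :=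
    (Polynomial.map_ne_zero_iff (algebraMap K N).injective).2 (minpoly.ne_zero hint)
  have hnodup : R.Nodup := by
    refine nodup_roots ?_
    exact (minpoly.irreducible hint).separable.map
  set S : Finset N := R.toFinset with hS
  have hroot : ∀ z ∈ S, F (F (some z)) = some z := by
    intro z hz
    rw [hS, Multiset.mem_toFinset, hR, mem_roots hg0, IsRoot.def, eval_map_algebraMap] at hz
    have h1 : IsConjRoot K z y := by
      rw [isConjRoot_def]
      exact (minpoly.eq_of_irreducible_of_monic (minpoly.irreducible hint) hz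
        (minpoly.monic hint)).symm
    obtain ⟨σ, hσ1⟩ := h1.exists_algEquiv
    rw [← hσ1]
    exact hσ2 σ y hy
  have hcard : S.card = g.natDegree := by
    rw [hS, Multiset.toFinset_card_of_nodup hnodup, hR, ← hsplit.natDegree_eq_card_roots,
      natDegree_map]
  have hprod : ∏ z ∈ S, z = algebraMap K N ((-1) ^ g.natDegree * g.coeff 0) := by
    have h1 := hsplit.coeff_zero_eq_prod_roots_of_monic ((minpoly.monic hint).map _)
    rw [coeff_map, natDegree_map, ← hR] at h1
    have h2 : ∏ z ∈ S, z = R.prod := by
      have h3 : S.val = R := by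
        rw [hS, Multiset.toFinset_val]
        exact Multiset.dedup_eq_self.2 hnodup
      rw [prod_eq_multiset_prod, h3, Multiset.map_id']
    rw [h2, map_mul, map_pow, map_neg, map_one, h1, ← mul_assoc, ← mul_pow]
    simp
  -- the types of the conjugates
  have htype : ∀ z ∈ S, (w.valuation N z ^ (d + 1) = A) ∨
      (some z ∈ Near (w.valuation N) A) ∨
      (F (some z) ∈ Near (w.valuation N) A ∧ w.valuation N z = 1) := by
    intro z hz
    rcases hloc.two hd (hroot z hz) with ⟨x, hx, h1⟩ | h1 | ⟨h1, x, hx, h2⟩
    · left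
      rw [Option.some.inj hx]
      exact h1
    · exact Or.inr (Or.inl h1)
    · right
      right
      rw [Option.some.inj hx]
      exact ⟨by rw [← hx]; exact h1, h2⟩
  have hA0 : A ≠ 0 := by
    rw [hAe]
    exact WithZero.exp_ne_zero
  have hz0 : ∀ z ∈ S, z ≠ 0 := by
    rintro z hz rfl
    rcases htype 0 hz with h1 | h1 | ⟨-, h1⟩
    · rw [map_zero, zero_pow (by omega)] at h1
      exact hA0 h1.symm
    · exact h1.1 rfl
    · rw [map_zero] at h1
      exact zero_ne_one h1
  have hwz0 : ∀ z ∈ S, w.valuation N z ≠ 0 := fun z hz => (Valuation.ne_zero_iff _).2 (hz0 z hz)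
  set J := S.filter (fun z => w.valuation N z ^ (d + 1) = A) with hJ
  set T := S.filter (fun z => ¬ w.valuation N z ^ (d + 1) = A) with hT
  have hJT : J.card + T.card = S.card := card_filter_add_card_filter_not _
  -- the points which are not in the annulus
  have hTcard : T.card ≤ 2 := by
    have h1 : T ⊆ (S.filter fun z => some z ∈ Near (w.valuation N) A) ∪
        (S.filter fun z => F (some z) ∈ Near (w.valuation N) A) := by
      intro z hz
      rw [hT, mem_filter] at hz
      rw [mem_union, mem_filter, mem_filter]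
      rcases htype z hz.1 with h1 | h1 | ⟨h1, -⟩
      · exact absurd h1 hz.2
      · exact Or.inl ⟨hz.1, h1⟩
      · exact Or.inr ⟨hz.1, h1⟩
    refine (card_le_card h1).trans ((card_union_le _ _).trans ?_)
    have h2 : (S.filter fun z => some z ∈ Near (w.valuation N) A).card ≤ 1 := by
      rw [card_le_one]
      intro a ha b hb
      rw [mem_filter] at ha hb
      exact Option.some.inj (hloc.unique hd ha.2 hb.2 (hroot a ha.1) (hroot b hb.1))
    have h3 : (S.filter fun z => F (some z) ∈ Near (w.valuation N) A).card ≤ 1 := by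
      rw [card_le_one]
      intro a ha b hb
      rw [mem_filter] at ha hb
      have h4 := hloc.unique hd ha.2 hb.2 (by rw [← hF, hroot a ha.1]) (by rw [← hF, hroot b hb.1])
      have h5 : F (F (some a)) = F (F (some b)) := by rw [h4]
      rw [hroot a ha.1, hroot b hb.1] at h5
      exact Option.some.inj h5
    omega
  -- their values
  have hTval : ∀ z ∈ T, ∃ j : ℤ, WithZero.log (w.valuation N z) = j * e := by
    intro z hz
    rw [hT, mem_filter] at hz
    rcases htype z hz.1 with h1 | h1 | ⟨-, h1⟩
    · exact absurd h1 hz.2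
    · obtain ⟨j, hj⟩ := val_fixed v w hw (hz0 z hz.1) (fun τ hτ => by
        have h2 : (some (τ z) : Option N) ∈ Near (w.valuation N) A := by
          refine ⟨fun h3 => ?_, ?_⟩
          · have h4 := Option.some.inj h3
            exact hz0 z hz.1 ((map_eq_zero τ).1 h4)
          · show w.valuation N (τ z)⁻¹ * A ≤ 1
            have h3 : w.valuation N z⁻¹ * A ≤ 1 := h1.2
            rw [map_inv₀, inertia_eq v w hw hτ, ← map_inv₀]
            exact h3
        exact Option.some.inj (hloc.unique hd h2 h1 (hσ2 τ z (hroot z hz.1)) (hroot z hz.1)))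
      exact ⟨j, by rw [hj, WithZero.log_exp]⟩
    · exact ⟨0, by rw [h1, WithZero.log_one, zero_mul]⟩
  choose! j hj using hTval
  have hJval : ∀ z ∈ J, ((d : ℤ) + 1) * WithZero.log (w.valuation N z) = e := by
    intro z hz
    rw [hJ, mem_filter] at hz
    have h1 := congrArg WithZero.log hz.2
    rw [WithZero.log_pow, hAe, WithZero.log_exp] at h1
    rw [← h1]
    simp
  -- the norm
  have hsum : ∃ i : ℤ, ∑ z ∈ S, WithZero.log (w.valuation N z) = i * e := by
    refine ⟨WithZero.log (v.valuation K ((-1) ^ g.natDegree * g.coeff 0)), ?_⟩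
    rw [← log_prod S (fun z => w.valuation N z) hwz0, ← map_prod, hprod, hval, WithZero.log_pow]
    simp [mul_comm]
  obtain ⟨i, hi⟩ := hsum
  have hsplit2 : ∑ z ∈ S, WithZero.log (w.valuation N z) =
      ∑ z ∈ J, WithZero.log (w.valuation N z) + ∑ z ∈ T, WithZero.log (w.valuation N z) :=
    (sum_filter_add_sum_filter_not S _ _).symm
  have hTsum : ∑ z ∈ T, WithZero.log (w.valuation N z) = (∑ z ∈ T, j z) * e := by
    rw [sum_mul]
    exact sum_congr rfl hj
  have hJsum : ((d : ℤ) + 1) * ∑ z ∈ J, WithZero.log (w.valuation N z) = J.card * e := by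
    rw [mul_sum, sum_congr rfl hJval, sum_const, nsmul_eq_mul]
  have he0' : (e : ℤ) ≠ 0 := by exact_mod_cast he0
  have hkey : (J.card : ℤ) = ((d : ℤ) + 1) * (i - ∑ z ∈ T, j z) := by
    apply mul_right_cancel₀ he0'
    rw [← hJsum]
    have h1 : ∑ z ∈ J, WithZero.log (w.valuation N z) = i * e - (∑ z ∈ T, j z) * e := by
      rw [← hi, hsplit2, hTsum]
      ring
    rw [h1]
    ring
  have hdvd : d + 1 ∣ J.card := by
    have h1 : ((d + 1 : ℕ) : ℤ) ∣ (J.card : ℤ) := ⟨i - ∑ z ∈ T, j z, by rw [hkey]; push_cast; ring⟩
    exact_mod_cast h1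
  obtain ⟨k, hk⟩ := hdvd
  exact ⟨k, T.card, hTcard, by rw [← hcard, ← hJT, hk]⟩

/-- **The degree of the points of period two.** -/
theorem two_degree {K : Type} [Field K] [NumberField K] {v : HeightOneSpectrum (𝓞 K)} {p q : K[X]}
    {d : ℕ} (hd : 2 ≤ d) (h : PoleQ v p q d 0) {x : AlgebraicClosure K}
    (hx : (rbar d p q)^[2] (some x) = some x) :
    ∃ k t, t ≤ 2 ∧ (minpoly K x).natDegree = (d + 1) * k + t := by
  have hfd : FiniteDimensional K (IntermediateField.adjoin K {x}) :=
    IntermediateField.adjoin.finiteDimensional (Algebra.IsIntegral.isIntegral x)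
  let N := IntermediateField.normalClosure K (IntermediateField.adjoin K {x}) (AlgebraicClosure K)
  have hfdN : FiniteDimensional K N := normalClosure.is_finiteDimensional K _ _
  have hnorm : Normal K N := normalClosure.normal K _ _
  have hgal : IsGalois K N := ⟨⟩
  have hfdQ : FiniteDimensional ℚ N := Module.Finite.trans K N
  have hnf : NumberField N := ⟨⟩
  have hxN : x ∈ N := (IntermediateField.le_normalClosure (IntermediateField.adjoin K {x}))
    (IntermediateField.subset_adjoin K _ (Set.mem_singleton x))
  have h1 : (some x : Option (AlgebraicClosure K)) =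
      Option.map (algebraMap N (AlgebraicClosure K)) (some ⟨x, hxN⟩) := rfl
  rw [h1, rbar_iterate] at hx
  obtain ⟨k, t, ht, hk⟩ := two_count (N := N) hd h (map_inj' _ hx)
  refine ⟨k, t, ht, ?_⟩
  rw [← hk]
  have h2 : minpoly K x = minpoly K (⟨x, hxN⟩ : N) :=
    minpoly.algebraMap_eq (algebraMap N (AlgebraicClosure K)).injective (⟨x, hxN⟩ : N)
  rw [h2]

end Pool.Agent.H912.DY
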