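import Pool.Agent.H912.DY.R5

/-!
# Rational maps: the fixed points and the points of period two (helper912)
-/

set_option autoImplicit false

open Finset Polynomial IsDedekindDomain
open scoped NumberField

namespace Pool.Agent.H912.DY

/-- the homogenization of a polynomial of degree at most `d` -/
def hom {R : Type*} [CommRing R] (d : ℕ) (c : ℕ → R) (a b : R) : R :=
  ∑ i ∈ range (d + 1), c i * a ^ i * b ^ (d - i)

lemma hom_of_ne {L : Type} [Field L] {d : ℕ} {c : L[X]} (hc : c.natDegree ≤ d) {a b : L}
    (hb : b ≠ 0) : hom d c.coeff a b = b ^ d * c.eval (a / b) := by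
  unfold hom
  rw [eval_eq_sum_range' (by omega : c.natDegree < d + 1), mul_sum]
  refine sum_congr rfl fun i hi => ?_
  rw [mem_range] at hi
  have h1 : b ^ d = b ^ i * b ^ (d - i) := by
    rw [← pow_add]
    congr 1
    omega
  rw [h1, div_pow]
  field_simp

lemma hom_zero {L : Type} [Field L] (d : ℕ) (c : L[X]) (a : L) :
    hom d c.coeff a 0 = c.coeff d * a ^ d := by
  unfold hom
  rw [sum_eq_single d]
  · simp
  · intro i hi hid
    rw [mem_range] at hi
    rw [zero_pow (by omega), mul_zero]
  · intro h
    exact absurd (mem_range.2 (by omega)) h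

/-- the polynomial of the fixed points -/
noncomputable def fixR {L : Type} [Field L] (p q : L[X]) : L[X] := X * q - p

/-- the polynomial of the points of period two -/
noncomputable def twoR {L : Type} [Field L] (d : ℕ) (p q : L[X]) : L[X] :=
  X * hom d (fun i => C (q.coeff i)) p q - hom d (fun i => C (p.coeff i)) p q

lemma aeval_hom {K M : Type} [Field K] [Field M] [Algebra K M] (d : ℕ) (c p q : K[X]) (x : M) :
    aeval x (hom d (fun i => C (c.coeff i)) p q) =
      hom d (c.map (algebraMap K M)).coeff ((p.map (algebraMap K M)).eval x)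
        ((q.map (algebraMap K M)).eval x) := by
  unfold hom
  rw [map_sum]
  refine sum_congr rfl fun i _ => ?_
  rw [map_mul, map_mul, map_pow, map_pow, aeval_C, coeff_map, eval_map_algebraMap,
    eval_map_algebraMap]

lemma Loc0.coprime {L : Type} {Γ : Type*} [Field L] [LinearOrderedCommGroupWithZero Γ]
    {w : Valuation L Γ} {d : ℕ} {p q : L[X]} (h : Loc0 w d p q) (x : L) :
    p.eval x ≠ 0 ∨ q.eval x ≠ 0 := by
  rcases le_or_gt (w x) 1 with hx | hx
  · left
    have h1 := val_eval_big w h.big h.hpi hx
    intro h2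
    rw [h2, map_zero] at h1
    exact (zero_lt_one.trans h.big).ne h1
  · right
    have hx0 : x ≠ 0 := by
      rintro rfl
      rw [map_zero] at hx
      exact absurd hx (not_lt.2 zero_le)
    have ht : w x⁻¹ < 1 := by
      rw [map_inv₀]
      exact inv_lt_one_of_one_lt₀ hx
    have hv := val_eval_unit h.v0 h.vi ht
    rw [eval_reflect h.hq hx0]
    refine mul_ne_zero (pow_ne_zero _ hx0) fun h1 => ?_
    rw [h1, map_zero] at hv
    exact zero_ne_one hv

section

variable {K : Type} [Field K] [NumberField K] {v : HeightOneSpectrum (𝓞 K)} {p q : K[X]} {d : ℕ}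

/-- `p` and `q` have no common zero -/
lemma PoleQ.no_common (h : PoleQ v p q d 0) (hd : 1 ≤ d) (x : AlgebraicClosure K) :
    (p.map (algebraMap K (AlgebraicClosure K))).eval x ≠ 0 ∨
      (q.map (algebraMap K (AlgebraicClosure K))).eval x ≠ 0 := by
  have hnf := adjoin_nf x
  set L := IntermediateField.adjoin K {x} with hL
  have hxL : x ∈ L := IntermediateField.subset_adjoin K _ (Set.mem_singleton x)
  have hvmax : v.asIdeal.IsMaximal := v.isMaximal
  obtain ⟨I, hIp, hIl⟩ := (inferInstance : Nonempty (v.asIdeal.primesOver (𝓞 L)))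
  let w : HeightOneSpectrum (𝓞 L) := ⟨I, hIp, Ideal.ne_bot_of_liesOver_of_ne_bot v.ne_bot I⟩
  have hw : w.asIdeal.LiesOver v.asIdeal := hIl
  have h1 := (h.loc0' hd w hw).coprime ⟨x, hxL⟩
  have h2 : ∀ r : K[X], (r.map (algebraMap K (AlgebraicClosure K))).eval x =
      algebraMap L (AlgebraicClosure K) ((r.map (algebraMap K L)).eval ⟨x, hxL⟩) := by
    intro r
    rw [← eval_map_apply, Polynomial.map_map]
    rfl
  rw [h2, h2]
  refine h1.imp (fun h3 h4 => h3 ?_) (fun h3 h4 => h3 ?_)
  · exact (map_eq_zero _).1 h4
  · exact (map_eq_zero _).1 h4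

lemma PoleQ.coprime (h : PoleQ v p q d 0) (hd : 1 ≤ d) : IsCoprime p q := by
  rw [isCoprime_iff_aeval_ne_zero_of_isAlgClosed K (AlgebraicClosure K)]
  intro x
  have h1 := h.no_common hd x
  rwa [eval_map_algebraMap, eval_map_algebraMap] at h1

lemma PoleQ.qd (h : PoleQ v p q d 0) : q.coeff d ≠ 0 := by
  intro h1
  have h2 := h.unitq d le_rfl
  rw [h1, map_zero] at h2
  exact zero_ne_one h2

lemma PoleQ.natDegree_q (h : PoleQ v p q d 0) : q.natDegree = d :=
  le_antisymm h.hq (le_natDegree_of_ne_zero h.qd)

lemma PoleQ.fixR_natDegree (h : PoleQ v p q d 0) : (fixR p q).natDegree = d + 1 := by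
  have hq0 : q ≠ 0 := by
    intro h1
    have h2 := h.qd
    rw [h1, coeff_zero] at h2
    exact h2 rfl
  have h1 : (X * q).natDegree = d + 1 := by
    rw [natDegree_X_mul hq0, h.natDegree_q]
  unfold fixR
  rw [natDegree_sub_eq_left_of_natDegree_lt (by rw [h1]; have := h.hp; omega), h1]

/-- the fixed points are the zeros of `fixR` -/
lemma PoleQ.fix_iff (h : PoleQ v p q d 0) (hd : 1 ≤ d) (x : AlgebraicClosure K) :
    rbar d p q (some x) = some x ↔ aeval x (fixR p q) = 0 := by
  have h1 := h.no_common hd x
  have h2 : aeval x (fixR p q) = x * (q.map (algebraMap K (AlgebraicClosure K))).eval x -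
      (p.map (algebraMap K (AlgebraicClosure K))).eval x := by
    unfold fixR
    rw [map_sub, map_mul, aeval_X, eval_map_algebraMap, eval_map_algebraMap]
  rw [h2]
  set a := (p.map (algebraMap K (AlgebraicClosure K))).eval x with ha
  set b := (q.map (algebraMap K (AlgebraicClosure K))).eval x with hb
  unfold rbar
  simp only [ratMap]
  rw [← ha, ← hb]
  by_cases hb0 : b = 0
  · rw [if_pos hb0]
    constructor
    · intro h3
      exact absurd h3 (Option.some_ne_none _).symm
    · intro h3
      rw [hb0, mul_zero, zero_sub, neg_eq_zero] at h3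
      exact (h1.elim (fun h4 => h4 h3) fun h4 => h4 hb0).elim
  · rw [if_neg hb0]
    constructor
    · intro h3
      have h4 := Option.some.inj h3
      rw [div_eq_iff hb0] at h4
      rw [h4, sub_self]
    · intro h3
      congr 1
      rw [div_eq_iff hb0]
      linear_combination -h3

/-- the points of period two are zeros of `twoR` -/
lemma PoleQ.two_iff (h : PoleQ v p q d 0) (hd : 1 ≤ d) (x : AlgebraicClosure K) :
    rbar d p q (rbar d p q (some x)) = some x ↔ aeval x (twoR d p q) = 0 := by
  have h1 := h.no_common hd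
  set P := p.map (algebraMap K (AlgebraicClosure K)) with hP
  set Q := q.map (algebraMap K (AlgebraicClosure K)) with hQ
  have hPd : P.natDegree ≤ d := by rw [hP, natDegree_map]; exact h.hp
  have hQd : Q.natDegree ≤ d := by rw [hQ, natDegree_map]; exact h.hq
  have h2 : aeval x (twoR d p q) = x * hom d Q.coeff (P.eval x) (Q.eval x) -
      hom d P.coeff (P.eval x) (Q.eval x) := by
    unfold twoR
    rw [map_sub, map_mul, aeval_X, aeval_hom, aeval_hom]
  rw [h2]
  have hqd : Q.coeff d ≠ 0 := by
    rw [hQ, coeff_map]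
    exact (_root_.map_ne_zero _).2 h.qd
  unfold rbar
  rw [← hP, ← hQ]
  by_cases hb0 : Q.eval x = 0
  · have h3 : ratMap d P Q (some x) = none := by
      simp only [ratMap]
      rw [if_pos hb0]
    have h4 : ratMap d P Q none = some (P.coeff d / Q.coeff d) := by
      simp only [ratMap]
      rw [if_neg hqd]
    have ha : P.eval x ≠ 0 := (h1 x).resolve_right (fun h5 => h5 hb0)
    rw [h3, h4, hb0, hom_zero, hom_zero]
    constructor
    · intro h5
      have h6 := Option.some.inj h5
      rw [div_eq_iff hqd] at h6
      rw [h6]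
      ring
    · intro h5
      congr 1
      rw [div_eq_iff hqd]
      have h6 : (x * Q.coeff d - P.coeff d) * P.eval x ^ d = 0 := by
        rw [← h5]
        ring
      have h7 := (mul_eq_zero.1 h6).resolve_right (pow_ne_zero _ ha)
      linear_combination -h7
  · have h3 : ratMap d P Q (some x) = some (P.eval x / Q.eval x) := by
      simp only [ratMap]
      rw [if_neg hb0]
    rw [h3, hom_of_ne hQd hb0, hom_of_ne hPd hb0]
    set y := P.eval x / Q.eval x with hy
    have hpow := pow_ne_zero d hb0
    by_cases hc0 : Q.eval y = 0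
    · have h4 : ratMap d P Q (some y) = none := by
        simp only [ratMap]
        rw [if_pos hc0]
      rw [h4, hc0, mul_zero, mul_zero, zero_sub, neg_eq_zero]
      constructor
      · intro h5
        exact absurd h5 (Option.some_ne_none _).symm
      · intro h5
        exact (((h1 y).resolve_right (fun h6 => h6 hc0)) ((mul_eq_zero.1 h5).resolve_left hpow)).elim
    · have h4 : ratMap d P Q (some y) = some (P.eval y / Q.eval y) := by
        simp only [ratMap]
        rw [if_neg hc0]
      rw [h4]
      constructor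
      · intro h5
        have h6 := Option.some.inj h5
        rw [div_eq_iff hc0] at h6
        rw [h6]
        ring
      · intro h5
        congr 1
        rw [div_eq_iff hc0]
        have h6 : Q.eval x ^ d * (x * Q.eval y - P.eval y) = 0 := by
          rw [← h5]
          ring
        have h7 := (mul_eq_zero.1 h6).resolve_left hpow
        linear_combination -h7

lemma hom_natDegree {c : ℕ → K} (hp : p.natDegree ≤ d) (hq : q.natDegree ≤ d) :
    (hom d (fun i => C (c i)) p q).natDegree ≤ d * d := by
  unfold hom
  refine natDegree_sum_le_of_forall_le _ _ fun i hi => ?_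
  rw [mem_range] at hi
  have h1 : (C (c i) * p ^ i).natDegree ≤ i * d :=
    (natDegree_C_mul_le _ _).trans (natDegree_pow_le_of_le i hp)
  have h2 : (q ^ (d - i)).natDegree ≤ (d - i) * d := natDegree_pow_le_of_le _ hq
  refine (natDegree_mul_le_of_le h1 h2).trans (le_of_eq ?_)
  rw [← add_mul]
  congr 1
  omega

lemma hom_coeff {c : ℕ → K} (hp : p.natDegree ≤ d) (hq : q.natDegree ≤ d) :
    (hom d (fun i => C (c i)) p q).coeff (d * d) = hom d c (p.coeff d) (q.coeff d) := by
  unfold hom
  rw [finsetSum_coeff]
  refine sum_congr rfl fun i hi => ?_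
  rw [mem_range] at hi
  have h1 : (C (c i) * p ^ i).natDegree ≤ i * d :=
    (natDegree_C_mul_le _ _).trans (natDegree_pow_le_of_le i hp)
  have h2 : (q ^ (d - i)).natDegree ≤ (d - i) * d := natDegree_pow_le_of_le _ hq
  have h3 : d * d = i * d + (d - i) * d := by
    rw [← add_mul]
    congr 1
    omega
  rw [h3, coeff_mul_add_eq_of_natDegree_le h1 h2, coeff_C_mul, coeff_pow_of_natDegree_le hp,
    coeff_pow_of_natDegree_le hq]

/-- the degree of `twoR` -/
lemma PoleQ.twoR_natDegree (h : PoleQ v p q d 0) {v' : HeightOneSpectrum (𝓞 K)}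
    (h' : PoleQ v' p q d d) (hd : 1 ≤ d) : (twoR d p q).natDegree = d * d + 1 := by
  have hne : (hom d (fun i => C (q.coeff i)) p q).coeff (d * d) ≠ 0 := by
    rw [hom_coeff h.hp h.hq]
    have h1 : hom d (fun i => q.coeff i) (p.coeff d) (q.coeff d) =
        q.coeff d ^ d * q.eval (p.coeff d / q.coeff d) := hom_of_ne h.hq h.qd
    rw [h1]
    refine mul_ne_zero (pow_ne_zero _ h.qd) fun h2 => ?_
    have h3 : ratMap d p q none = some (p.coeff d / q.coeff d) := by
      simp only [ratMap]
      rw [if_neg h.qd]
    have h4 : ratMap d p q (some (p.coeff d / q.coeff d)) = none := by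
      simp only [ratMap]
      rw [if_pos h2]
    have h5 := (h'.locD hd).infty (m := 0) (n := 2) two_pos (by
      show ratMap d p q (ratMap d p q none) = none
      rw [h3, h4])
    have h6 : ratMap d p q none = none := h5
    rw [h3] at h6
    exact absurd h6 (Option.some_ne_none _)
  have hne0 : hom d (fun i => C (q.coeff i)) p q ≠ 0 := by
    intro h1
    rw [h1, coeff_zero] at hne
    exact hne rfl
  have h1 : (hom d (fun i => C (q.coeff i)) p q).natDegree = d * d :=
    le_antisymm (hom_natDegree h.hp h.hq) (le_natDegree_of_ne_zero hne)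
  have h2 : (X * hom d (fun i => C (q.coeff i)) p q).natDegree = d * d + 1 := by
    rw [natDegree_X_mul hne0, h1]
  unfold twoR
  rw [natDegree_sub_eq_left_of_natDegree_lt, h2]
  rw [h2]
  exact (hom_natDegree h.hp h.hq).trans_lt (Nat.lt_succ_self _)

end

/-- if all zeros of `G` are zeros of the irreducible polynomial `H` -/
lemma natDegree_dvd_of_roots {K : Type} [Field K] {H : K[X]} (hH : Irreducible H) :
    ∀ (n : ℕ) (G : K[X]), G ≠ 0 → G.natDegree = n →
      (∀ x : AlgebraicClosure K, aeval x G = 0 → aeval x H = 0) → H.natDegree ∣ n := by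
  intro n
  induction n using Nat.strong_induction_on with
  | _ n ih =>
    intro G hG hn hroots
    rcases Nat.eq_zero_or_pos n with rfl | hpos
    · exact dvd_zero _
    obtain ⟨x, hx⟩ : ∃ x : AlgebraicClosure K, aeval x G = 0 := by
      refine IsAlgClosed.exists_aeval_eq_zero _ G ?_
      rw [degree_eq_natDegree hG, hn]
      exact_mod_cast hpos.ne'
    have hx' := hroots x hx
    have hint : IsIntegral K x := Algebra.IsIntegral.isIntegral x
    have h1 : minpoly K x ∣ G := minpoly.dvd K x hx
    have h2 : Associated (minpoly K x) H :=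
      (minpoly.irreducible hint).associated_of_dvd hH (minpoly.dvd K x hx')
    have h3 : H ∣ G := h2.dvd_iff_dvd_left.1 h1
    obtain ⟨G', rfl⟩ := h3
    have hG' : G' ≠ 0 := right_ne_zero_of_mul hG
    have h4 := natDegree_mul hH.ne_zero hG'
    have hHpos : 0 < H.natDegree := hH.natDegree_pos
    have h5 := ih G'.natDegree (by omega) G' hG' rfl (fun y hy => hroots y (by
      rw [map_mul, hy, mul_zero]))
    rw [← hn, h4]
    exact dvd_add dvd_rfl h5

end Pool.Agent.H912.DY
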