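import Pool.Agent.H912.DY.R6

/-!
# Rational maps: degrees and numbers of the points of period one and two (helper912)
-/

set_option autoImplicit false

open Finset Polynomial IsDedekindDomain
open scoped NumberField

namespace Pool.Agent.H912.DY

section

variable {K : Type} [Field K] [NumberField K] {v v' : HeightOneSpectrum (𝓞 K)} {p q : K[X]}
  {d : ℕ}

lemma finrank_adjoin (x : AlgebraicClosure K) :
    Module.finrank K (IntermediateField.adjoin K {x}) = (minpoly K x).natDegree :=
  IntermediateField.adjoin.finrank (Algebra.IsIntegral.isIntegral x)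

/-- infinity is not a fixed point -/
lemma PoleQ.none_ne (h : PoleQ v p q d 0) : rbar d p q none ≠ none := by
  have h1 : rbar d p q none = Option.map (algebraMap K (AlgebraicClosure K))
      (ratMap d p q none) := rbar_none d p q 1
  rw [h1]
  simp only [ratMap]
  rw [if_neg h.qd]
  exact Option.some_ne_none _

/-- the polynomial of the fixed points is irreducible -/
theorem PoleQ.irr (h : PoleQ v p q d 0) (hd : 2 ≤ d) : Irreducible (fixR p q) ∧
    ∀ x : AlgebraicClosure K, aeval x (fixR p q) = 0 → (minpoly K x).natDegree = d + 1 := by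
  have hdeg := h.fixR_natDegree
  have hne : fixR p q ≠ 0 := by
    intro h1
    rw [h1, natDegree_zero] at hdeg
    omega
  have hmin : ∀ x : AlgebraicClosure K, aeval x (fixR p q) = 0 →
      Irreducible (fixR p q) ∧ (minpoly K x).natDegree = (fixR p q).natDegree := by
    intro x hx
    refine irr_of_root hne hx ?_
    have h1 := (h.fix_iff (by omega) x).2 hx
    obtain ⟨y, hy, hy1⟩ := const_dvd hd h (P := some x) (m := 0) (n := 1) one_pos h1 (Or.inr h1)
    rw [← Option.some.inj hy, finrank_adjoin] at hy1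
    rw [hdeg]
    exact Nat.le_of_dvd (minpoly.natDegree_pos (Algebra.IsIntegral.isIntegral x)) hy1
  obtain ⟨x, hx⟩ : ∃ x : AlgebraicClosure K, aeval x (fixR p q) = 0 := by
    refine IsAlgClosed.exists_aeval_eq_zero _ (fixR p q) ?_
    rw [degree_eq_natDegree hne, hdeg]
    exact_mod_cast (by omega : d + 1 ≠ 0)
  exact ⟨(hmin x hx).1, fun y hy => by rw [(hmin y hy).2, hdeg]⟩

/-- **The fixed points.** -/
theorem PoleQ.fixed (h : PoleQ v p q d 0) (hd : 2 ≤ d) :
    {P | rbar d p q P = P}.ncard = d + 1 ∧
    ∀ P, rbar d p q P = P → ∃ x, P = some x ∧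
      Module.finrank K (IntermediateField.adjoin K {x}) = d + 1 := by
  obtain ⟨hirr, hmin⟩ := h.irr hd
  have hiff := h.fix_iff (by omega : 1 ≤ d)
  constructor
  · have h1 : {P | rbar d p q P = P} = some '' ((fixR p q).rootSet (AlgebraicClosure K)) := by
      ext P
      rw [Set.mem_image]
      constructor
      · intro hP
        cases P with
        | none => exact absurd hP h.none_ne
        | some x => exact ⟨x, (mem_rootSet_of_ne hirr.ne_zero).2 ((hiff x).1 hP), rfl⟩
      · rintro ⟨x, hx, rfl⟩
        exact (hiff x).2 ((mem_rootSet_of_ne hirr.ne_zero).1 hx)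
    rw [h1, Set.ncard_image_of_injective _ (Option.some_injective _), ncard_rootSet hirr,
      h.fixR_natDegree]
  · intro P hP
    cases P with
    | none => exact absurd hP h.none_ne
    | some x => exact ⟨x, rfl, by rw [finrank_adjoin, hmin x ((hiff x).1 hP)]⟩

/-- the degree of a point of period two -/
theorem PoleQ.two_deg (h : PoleQ v p q d 0) (h' : PoleQ v' p q d d) (hd : 2 ≤ d)
    {x : AlgebraicClosure K} (hx : aeval x (twoR d p q) = 0) (hx1 : aeval x (fixR p q) ≠ 0) :
    (minpoly K x).natDegree = d * (d - 1) := by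
  obtain ⟨hirr, hmin⟩ := h.irr hd
  have hint : IsIntegral K x := Algebra.IsIntegral.isIntegral x
  have htwo := (h.two_iff (by omega) x).2 hx
  have hnf : rbar d p q (some x) ≠ some x := fun h1 => hx1 ((h.fix_iff (by omega) x).1 h1)
  -- the upper bound
  have hdeg := h.twoR_natDegree h' (by omega : 1 ≤ d)
  have hne : twoR d p q ≠ 0 := by
    intro h1
    rw [h1, natDegree_zero] at hdeg
    omega
  have hfd : fixR p q ∣ twoR d p q := by
    obtain ⟨y, hy⟩ : ∃ y : AlgebraicClosure K, aeval y (fixR p q) = 0 := by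
      refine IsAlgClosed.exists_aeval_eq_zero _ (fixR p q) ?_
      rw [degree_eq_natDegree hirr.ne_zero, h.fixR_natDegree]
      exact_mod_cast (by omega : d + 1 ≠ 0)
    have h1 := (h.fix_iff (by omega) y).2 hy
    have h2 : aeval y (twoR d p q) = 0 := (h.two_iff (by omega) y).1 (by rw [h1, h1])
    have h3 : Associated (minpoly K y) (fixR p q) :=
      (minpoly.irreducible (Algebra.IsIntegral.isIntegral y)).associated_of_dvd hirr
        (minpoly.dvd K y hy)
    exact h3.dvd_iff_dvd_left.1 (minpoly.dvd K y h2)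
  have hcop : IsCoprime (fixR p q) (minpoly K x) := by
    rw [hirr.coprime_iff_not_dvd]
    intro h1
    have h3 : Associated (fixR p q) (minpoly K x) :=
      hirr.associated_of_dvd (minpoly.irreducible hint) h1
    apply hx1
    obtain ⟨c, hc⟩ := h3.symm.dvd
    rw [hc, map_mul, minpoly.aeval, zero_mul]
  have hle : (d + 1) + (minpoly K x).natDegree ≤ d * d + 1 := by
    have h1 := natDegree_le_of_dvd (hcop.mul_dvd hfd (minpoly.dvd K x hx)) hne
    rw [natDegree_mul hirr.ne_zero (minpoly.ne_zero hint), h.fixR_natDegree, hdeg] at h1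
    exact h1
  -- the divisibilities
  obtain ⟨y, hy, hy1⟩ := lead_dvd (by omega) h' (P := some x) (m := 0) (n := 2) two_pos htwo hnf
  rw [← Option.some.inj hy, finrank_adjoin] at hy1
  obtain ⟨k, t, ht, hk⟩ := two_degree hd h htwo
  obtain ⟨j, hj⟩ := hy1
  have hpos : 0 < (minpoly K x).natDegree := minpoly.natDegree_pos hint
  have hj1 : 1 ≤ j := by
    rcases Nat.eq_zero_or_pos j with rfl | h1
    · rw [hj, mul_zero] at hpos
      exact absurd hpos (lt_irrefl _)
    · exact h1
  have hj2 : j + 1 ≤ d := by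
    by_contra hcon
    rw [not_le] at hcon
    have h1 : d ≤ j := by omega
    have h2 : d * d ≤ d * j := Nat.mul_le_mul_left d h1
    rw [hj] at hle
    omega
  -- `(d + 1) (j - k) = j + t`
  have hkey : ((d : ℤ) + 1) * (j - k) = j + t := by
    have h1 : (d : ℤ) * j = (d + 1) * k + t := by
      have h2 : d * j = (d + 1) * k + t := by rw [← hj, hk]
      exact_mod_cast h2
    linear_combination h1
  have hjk : (j : ℤ) - k = 1 := by
    have h1 : 0 < (j : ℤ) - k := by
      by_contra hcon
      rw [not_lt] at hcon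
      have h2 : ((d : ℤ) + 1) * (j - k) ≤ 0 :=
        mul_nonpos_of_nonneg_of_nonpos (by positivity) hcon
      have h3 : (1 : ℤ) ≤ j := by exact_mod_cast hj1
      have h4 : (0 : ℤ) ≤ t := by positivity
      omega
    have h5 : (j : ℤ) - k < 2 := by
      by_contra hcon
      rw [not_lt] at hcon
      have h2 : ((d : ℤ) + 1) * 2 ≤ ((d : ℤ) + 1) * (j - k) :=
        mul_le_mul_of_nonneg_left hcon (by positivity)
      have h3 : (j : ℤ) + 1 ≤ d := by exact_mod_cast hj2
      have h4 : (t : ℤ) ≤ 2 := by exact_mod_cast ht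
      omega
    omega
  rw [hjk, mul_one] at hkey
  have h6 : j = d - 1 := by omega
  rw [hj, h6]

/-- **The points of period two.** -/
theorem PoleQ.two (h : PoleQ v p q d 0) (h' : PoleQ v' p q d d) (hd : 2 ≤ d) :
    {P | (rbar d p q)^[2] P = P ∧ rbar d p q P ≠ P}.ncard = d * (d - 1) ∧
    ∀ P, (rbar d p q)^[2] P = P → rbar d p q P ≠ P → ∃ x, P = some x ∧
      Module.finrank K (IntermediateField.adjoin K {x}) = d * (d - 1) := by
  obtain ⟨hirr, hmin⟩ := h.irr hd
  have hdeg := h.twoR_natDegree h' (by omega : 1 ≤ d)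
  have hne : twoR d p q ≠ 0 := by
    intro h1
    rw [h1, natDegree_zero] at hdeg
    omega
  have hfix := h.fix_iff (by omega : 1 ≤ d)
  have htwo := h.two_iff (by omega : 1 ≤ d)
  have hnone : ¬ ((rbar d p q)^[2] none = none ∧ rbar d p q none ≠ none) := by
    rintro ⟨h1, h2⟩
    obtain ⟨y, hy, -⟩ := lead_dvd (by omega) h' (P := none) (m := 0) (n := 2) two_pos h1 h2
    exact absurd hy (Option.some_ne_none _).symm
  have hset : ∀ x : AlgebraicClosure K, ((rbar d p q)^[2] (some x) = some x ∧
      rbar d p q (some x) ≠ some x) ↔ aeval x (twoR d p q) = 0 ∧ aeval x (fixR p q) ≠ 0 := by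
    intro x
    rw [← htwo, Ne, hfix]
    rfl
  -- there is a point of period two
  obtain ⟨x₀, hx₀, hx₀'⟩ : ∃ x : AlgebraicClosure K,
      aeval x (twoR d p q) = 0 ∧ aeval x (fixR p q) ≠ 0 := by
    by_contra hcon
    push Not at hcon
    have h1 := natDegree_dvd_of_roots hirr _ (twoR d p q) hne rfl hcon
    rw [hdeg, h.fixR_natDegree] at h1
    have h2 : d * d + 1 = (d + 1) * (d - 1) + 2 := by
      obtain ⟨e, rfl⟩ : ∃ e, d = e + 1 := ⟨d - 1, by omega⟩
      rw [Nat.add_sub_cancel]
      ring
    rw [h2] at h1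
    have h3 := (Nat.dvd_add_right (dvd_mul_right (d + 1) (d - 1))).1 h1
    have h4 := Nat.le_of_dvd two_pos h3
    omega
  set g := minpoly K x₀ with hg
  have hint : IsIntegral K x₀ := Algebra.IsIntegral.isIntegral x₀
  have hgirr : Irreducible g := minpoly.irreducible hint
  have hgdeg : g.natDegree = d * (d - 1) := h.two_deg h' hd hx₀ hx₀'
  -- all points of period two are conjugate
  have hconj : ∀ x : AlgebraicClosure K, aeval x (twoR d p q) = 0 → aeval x (fixR p q) ≠ 0 →
      aeval x g = 0 := by
    intro x hx hx'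
    by_contra hgx
    have hintx : IsIntegral K x := Algebra.IsIntegral.isIntegral x
    have hirrx := minpoly.irreducible hintx
    have h1 : IsCoprime g (minpoly K x) := by
      rw [hgirr.coprime_iff_not_dvd]
      intro h2
      have h3 : Associated g (minpoly K x) := hgirr.associated_of_dvd hirrx h2
      obtain ⟨c, hc⟩ := h3.symm.dvd
      apply hgx
      rw [hc, map_mul, minpoly.aeval, zero_mul]
    have h2 := natDegree_le_of_dvd (h1.mul_dvd (minpoly.dvd K x₀ hx₀) (minpoly.dvd K x hx)) hne
    rw [natDegree_mul hgirr.ne_zero (minpoly.ne_zero hintx), hgdeg, h.two_deg h' hd hx hx',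
      hdeg] at h2
    -- need the fixed points as well if `d = 2`
    have hfd : fixR p q ∣ twoR d p q := by
      obtain ⟨y, hy⟩ : ∃ y : AlgebraicClosure K, aeval y (fixR p q) = 0 := by
        refine IsAlgClosed.exists_aeval_eq_zero _ (fixR p q) ?_
        rw [degree_eq_natDegree hirr.ne_zero, h.fixR_natDegree]
        exact_mod_cast (by omega : d + 1 ≠ 0)
      have h1 := (hfix y).2 hy
      have h2 : aeval y (twoR d p q) = 0 := (htwo y).1 (by rw [h1, h1])
      have h3 : Associated (minpoly K y) (fixR p q) :=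
        (minpoly.irreducible (Algebra.IsIntegral.isIntegral y)).associated_of_dvd hirr
          (minpoly.dvd K y hy)
      exact h3.dvd_iff_dvd_left.1 (minpoly.dvd K y h2)
    have hcop : ∀ z : AlgebraicClosure K, aeval z (fixR p q) ≠ 0 →
        IsCoprime (fixR p q) (minpoly K z) := by
      intro z hz
      rw [hirr.coprime_iff_not_dvd]
      intro h1
      have h3 : Associated (fixR p q) (minpoly K z) :=
        hirr.associated_of_dvd (minpoly.irreducible (Algebra.IsIntegral.isIntegral z)) h1
      apply hz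
      obtain ⟨c, hc⟩ := h3.symm.dvd
      rw [hc, map_mul, minpoly.aeval, zero_mul]
    have h4 := natDegree_le_of_dvd ((IsCoprime.mul_right (hcop x₀ hx₀') (hcop x hx')).mul_dvd hfd
      (h1.mul_dvd (minpoly.dvd K x₀ hx₀) (minpoly.dvd K x hx))) hne
    rw [natDegree_mul hirr.ne_zero (mul_ne_zero hgirr.ne_zero (minpoly.ne_zero hintx)),
      natDegree_mul hgirr.ne_zero (minpoly.ne_zero hintx), hgdeg, h.two_deg h' hd hx hx',
      hdeg, h.fixR_natDegree] at h4
    have h5 : d * d = d * (d - 1) + d := by
      obtain ⟨e, rfl⟩ : ∃ e, d = e + 1 := ⟨d - 1, by omega⟩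
      rw [Nat.add_sub_cancel]
      ring
    have h6 : 0 < d * (d - 1) := Nat.mul_pos (by omega) (by omega)
    omega
  -- all conjugates are points of period two
  have hconj' : ∀ x : AlgebraicClosure K, aeval x g = 0 →
      aeval x (twoR d p q) = 0 ∧ aeval x (fixR p q) ≠ 0 := by
    intro x hx
    obtain ⟨c, hc⟩ := minpoly.dvd K x₀ hx₀
    refine ⟨by rw [hc, ← hg, map_mul, hx, zero_mul], fun h1 => hx₀' ?_⟩
    have h2 : minpoly K x = g :=
      (minpoly.eq_of_irreducible_of_monic hgirr hx (minpoly.monic hint)).symm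
    obtain ⟨c', hc'⟩ := minpoly.dvd K x h1
    rw [hc', h2, map_mul, hg, minpoly.aeval, zero_mul]
  constructor
  · have h1 : {P | (rbar d p q)^[2] P = P ∧ rbar d p q P ≠ P} =
        some '' (g.rootSet (AlgebraicClosure K)) := by
      ext P
      rw [Set.mem_image]
      constructor
      · intro hP
        cases P with
        | none => exact absurd hP hnone
        | some x =>
          obtain ⟨h2, h3⟩ := (hset x).1 hP
          exact ⟨x, (mem_rootSet_of_ne hgirr.ne_zero).2 (hconj x h2 h3), rfl⟩
      · rintro ⟨x, hx, rfl⟩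
        exact (hset x).2 (hconj' x ((mem_rootSet_of_ne hgirr.ne_zero).1 hx))
    rw [h1, Set.ncard_image_of_injective _ (Option.some_injective _), ncard_rootSet hgirr, hgdeg]
  · intro P h1 h2
    cases P with
    | none => exact absurd ⟨h1, h2⟩ hnone
    | some x =>
      obtain ⟨h3, h4⟩ := (hset x).1 ⟨h1, h2⟩
      exact ⟨x, rfl, by rw [finrank_adjoin, h.two_deg h' hd h3 h4]⟩

/-- **The degrees of the preperiodic points.** -/
theorem PoleQ.preper (h : PoleQ v p q d 0) (h' : PoleQ v' p q d d) (hd : 2 ≤ d)
    {P : Option (AlgebraicClosure K)} {m n : ℕ} (hn : 0 < n)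
    (hP : (rbar d p q)^[m + n] P = (rbar d p q)^[m] P) :
    ∃ x, P = some x ∧
      (rbar d p q ((rbar d p q)^[m] P) = (rbar d p q)^[m] P →
        d + 1 ∣ Module.finrank K (IntermediateField.adjoin K {x})) ∧
      (rbar d p q ((rbar d p q)^[m] P) ≠ (rbar d p q)^[m] P →
        (rbar d p q)^[2] ((rbar d p q)^[m] P) = (rbar d p q)^[m] P →
        d * (d - 1) ∣ Module.finrank K (IntermediateField.adjoin K {x})) ∧
      ((rbar d p q)^[2] ((rbar d p q)^[m] P) ≠ (rbar d p q)^[m] P →
        d * (d + 1) ∣ Module.finrank K (IntermediateField.adjoin K {x})) := by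
  by_cases h1 : rbar d p q ((rbar d p q)^[m] P) = (rbar d p q)^[m] P
  · obtain ⟨x, hx, hx1⟩ := const_dvd hd h hn hP (Or.inr h1)
    refine ⟨x, hx, fun _ => hx1, fun h2 => absurd h1 h2, fun h2 => ?_⟩
    exact absurd (by
      show rbar d p q (rbar d p q ((rbar d p q)^[m] P)) = _
      rw [h1, h1]) h2
  · obtain ⟨x, rfl, hx1⟩ := lead_dvd (by omega) h' hn hP h1
    refine ⟨x, rfl, fun h2 => absurd h2 h1, fun _ h2 => ?_, fun h2 => ?_⟩
    · obtain ⟨c, hc, hc1⟩ := (h.two h' hd).2 _ h2 h1
      rw [← hc1]
      have hxL : x ∈ IntermediateField.adjoin K {x} :=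
        IntermediateField.subset_adjoin K _ (Set.mem_singleton x)
      have h3 : (some x : Option (AlgebraicClosure K)) =
          Option.map (algebraMap (IntermediateField.adjoin K {x}) (AlgebraicClosure K))
            (some ⟨x, hxL⟩) := rfl
      rw [h3, rbar_iterate] at hc
      have h4 : c ∈ IntermediateField.adjoin K {x} := by
        rw [Option.map_eq_some_iff] at hc
        obtain ⟨b, -, hb⟩ := hc
        rw [← hb]
        exact b.2
      have h5 : IntermediateField.adjoin K {c} ≤ IntermediateField.adjoin K {x} := by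
        rw [IntermediateField.adjoin_le_iff]
        exact Set.singleton_subset_iff.2 h4
      exact IntermediateField.finrank_dvd_of_le_right h5
    · obtain ⟨y, hy, hy1⟩ := const_dvd hd h hn hP (Or.inl h2)
      rw [← Option.some.inj hy] at hy1
      refine Nat.Coprime.mul_dvd_of_dvd_of_dvd ?_ hx1 hy1
      simp

end

end Pool.Agent.H912.DY
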