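import Pool.Agent.H912.DY.R7
import Pool.Agent.H912.DY.H5
import Pool.Agent.H912.AE.Kh

/-!
# Rational maps: preperiodic points over the maximal Galois extension of exponent `f` (helper912)
-/

set_option autoImplicit false

open Finset Polynomial IsDedekindDomain
open scoped NumberField

namespace Pool.Agent.H912.DY

/-- a Galois extension of exponent `f` with the given point, and a place above `v` -/
lemma galois_place {K : Type} [Field K] [NumberField K] {f : ℕ} {x : AlgebraicClosure K}
    (hx : x ∈ AE.expField K f) (v : HeightOneSpectrum (𝓞 K)) :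
    ∃ (N : IntermediateField K (AlgebraicClosure K)) (_ : NumberField N) (_ : IsGalois K N),
      (∀ σ : N ≃ₐ[K] N, σ ^ f = 1) ∧ x ∈ N ∧
        ∃ w : HeightOneSpectrum (𝓞 N), w.asIdeal.LiesOver v.asIdeal := by
  obtain ⟨N, hfd, hgal, hexp, hxN⟩ := AE.exists_galois (f := f) ![x] (fun i => by
    fin_cases i
    exact hx)
  have hfdQ : FiniteDimensional ℚ N := Module.Finite.trans K N
  have hnf : NumberField N := ⟨⟩
  have hvmax : v.asIdeal.IsMaximal := v.isMaximal
  obtain ⟨I, hIp, hIl⟩ := (inferInstance : Nonempty (v.asIdeal.primesOver (𝓞 N)))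
  exact ⟨N, hnf, hgal, hexp, hxN 0,
    ⟨I, hIp, Ideal.ne_bot_of_liesOver_of_ne_bot v.ne_bot I⟩, hIl⟩

/-- **A pole of the leading coefficient.** -/
theorem lead_exp {K : Type} [Field K] [NumberField K] {v : HeightOneSpectrum (𝓞 K)} {p q : K[X]}
    {d : ℕ} (hd : 1 ≤ d) (h : PoleQ v p q d d) {l : ℕ} (hl : l.Prime)
    (hlv : v.valuation K (l : K) < 1) (hld : ¬ l ∣ d) {f : ℕ} {x : AlgebraicClosure K}
    (hx : x ∈ AE.expField K f) {m n : ℕ} (hn : 0 < n)
    (hP : (rbar d p q)^[m + n] (some x) = (rbar d p q)^[m] (some x))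
    (hfix : rbar d p q ((rbar d p q)^[m] (some x)) ≠ (rbar d p q)^[m] (some x)) : d ∣ f := by
  obtain ⟨L, hnf, hgal, hexp, hxL, w, hw⟩ := galois_place hx v
  have hQ : (some x : Option (AlgebraicClosure K)) =
      Option.map (algebraMap L (AlgebraicClosure K)) (some ⟨x, hxL⟩) := rfl
  rw [hQ, rbar_iterate, rbar_iterate] at hP
  have hP' := map_inj' _ hP
  rw [hQ, ← Function.iterate_succ_apply' (rbar d p q), rbar_iterate, rbar_iterate] at hfix
  obtain ⟨y, hy, hy1⟩ := (h.locD' hd w hw).special hd hn hP' (fun h1 => hfix (by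
    rw [Function.iterate_succ_apply', h1]))
  rw [coeff_map] at hy1
  refine dvd_exponent hexp v w hw hl hlv hld h.pole (x := y⁻¹) ?_
  rw [map_inv₀, inv_pow]
  exact (eq_inv_of_mul_eq_one_right hy1).symm

/-- **A pole of the constant coefficient.** -/
theorem const_exp {K : Type} [Field K] [NumberField K] {v : HeightOneSpectrum (𝓞 K)} {p q : K[X]}
    {d : ℕ} (hd : 2 ≤ d) (h : PoleQ v p q d 0) {l : ℕ} (hl : l.Prime)
    (hlv : v.valuation K (l : K) < 1) (hld : ¬ l ∣ d + 1) {f : ℕ} {x : AlgebraicClosure K}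
    (hx : x ∈ AE.expField K f) {m n : ℕ} (hn : 0 < n)
    (hP : (rbar d p q)^[m + n] (some x) = (rbar d p q)^[m] (some x))
    (hC : (rbar d p q)^[2] ((rbar d p q)^[m] (some x)) ≠ (rbar d p q)^[m] (some x) ∨
      rbar d p q ((rbar d p q)^[m] (some x)) = (rbar d p q)^[m] (some x)) : d + 1 ∣ f := by
  rw [← Function.iterate_add_apply, ← Function.iterate_succ_apply' (rbar d p q)] at hC
  obtain ⟨L, hnf, hgal, hexp, hxL, w, hw⟩ := galois_place hx v
  have hQ : (some x : Option (AlgebraicClosure K)) =
      Option.map (algebraMap L (AlgebraicClosure K)) (some ⟨x, hxL⟩) := rfl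
  rw [hQ, rbar_iterate, rbar_iterate] at hP
  have hP' := map_inj' _ hP
  rw [hQ, rbar_iterate, rbar_iterate, rbar_iterate] at hC
  obtain ⟨y, hy, hy1⟩ := (h.loc0' (by omega) w hw).special hd hn hP' (by
    rcases hC with hC | hC
    · left
      intro h1
      rw [← Function.iterate_add_apply] at h1
      exact hC (by rw [h1])
    · right
      have h1 := map_inj' _ hC
      rwa [Function.iterate_succ_apply'] at h1)
  rw [coeff_map] at hy1
  exact dvd_exponent hexp v w hw hl hlv hld h.pole hy1

/-- **A pole in the middle of the polynomial.** -/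
theorem root_exponent {K : Type} [Field K] [NumberField K] {f : ℕ}
    (v : HeightOneSpectrum (𝓞 K)) {l : ℕ} (hl : l.Prime)
    (hlv : v.valuation K (l : K) < 1) {H : K[X]} {e j : ℕ} (hle : e < l) (hj : 1 ≤ j) (hje : j < e)
    (hirr : Irreducible H) (hdeg : H.natDegree = e)
    (hc0 : v.valuation K (H.coeff 0) = 1) (hcd : v.valuation K (H.coeff e) = 1)
    (hcj : v.valuation K (H.coeff j) = WithZero.exp 1)
    (hci : ∀ i, i ≠ j → v.valuation K (H.coeff i) ≤ 1)
    {x : AlgebraicClosure K} (hx : x ∈ AE.expField K f) (hxH : aeval x H = 0) :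
    j ∣ f ∧ e - j ∣ f := by
  obtain ⟨N, hnf, hgal, hexp, hxN, w, hw⟩ := galois_place hx v
  have hx' : aeval (⟨x, hxN⟩ : N) H = 0 := by
    apply (algebraMap N (AlgebraicClosure K)).injective
    rw [map_zero, ← aeval_algebraMap_apply]
    exact hxH
  have hsplit : (H.map (algebraMap K N)).Splits := by
    have h4 := hgal.to_normal.splits (⟨x, hxN⟩ : N)
    have h5 := minpoly.eq_of_irreducible hirr hx'
    rw [← h5, Polynomial.map_mul] at h4
    have h6 : H.leadingCoeff ≠ 0 := leadingCoeff_ne_zero.2 hirr.ne_zero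
    have h7 : H.map (algebraMap K N) = (H.map (algebraMap K N) *
        (C H.leadingCoeff⁻¹).map (algebraMap K N)) *
          C (algebraMap K N H.leadingCoeff) := by
      rw [mul_assoc, map_C, ← C_mul, ← map_mul, inv_mul_cancel₀ h6, map_one, C_1, mul_one]
    rw [h7]
    exact h4.mul (Splits.C _)
  have he0 : v.asIdeal.ramificationIdx' w.asIdeal ≠ 0 :=
    Ideal.IsDedekindDomain.ramificationIdx'_ne_zero_of_liesOver w.asIdeal v.ne_bot
  have hval : ∀ x : K, w.valuation N (algebraMap K N x) =
      v.valuation K x ^ v.asIdeal.ramificationIdx' w.asIdeal := fun x =>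
    (HeightOneSpectrum.valuation_liesOver N v w x).symm
  have hb0 : w.valuation N ((H.map (algebraMap K N)).coeff 0) = 1 := by
    rw [coeff_map, hval, hc0, one_pow]
  have hbj : 1 < w.valuation N ((H.map (algebraMap K N)).coeff j) := by
    rw [coeff_map, hval, hcj]
    exact one_lt_pow₀ one_lt_exp he0
  have hbd : w.valuation N ((H.map (algebraMap K N)).coeff e) = 1 := by
    rw [coeff_map, hval, hcd, one_pow]
  have hbi : ∀ i, i ≠ j → w.valuation N ((H.map (algebraMap K N)).coeff i) ≤ 1 := by
    intro i hi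
    rw [coeff_map, hval]
    exact pow_le_one' (hci i hi) _
  have hbdeg : (H.map (algebraMap K N)).natDegree = e := by
    rw [natDegree_map, hdeg]
  obtain ⟨⟨y, hy, hy1⟩, ⟨z, hz, hz1⟩⟩ := both_types (w.valuation N) hsplit hbdeg hb0 hbj hbd
  have hty := (root_types (w.valuation N) hj hje hbdeg hb0 hbi hbd hy).1 hy1
  have htz := (root_types (w.valuation N) hj hje hbdeg hb0 hbi hbd hz).2 hz1
  rw [coeff_map] at hty htz
  exact ⟨dvd_exponent hexp v w hw hl hlv
      (fun h => absurd (Nat.le_of_dvd (by omega) h) (by omega)) hcj htz,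
    dvd_exponent hexp v w hw hl hlv
      (fun h => absurd (Nat.le_of_dvd (by omega) h) (by omega)) hcj hty⟩

lemma fixR_coeff {L : Type} [Field L] (p q : L[X]) (i : ℕ) :
    (fixR p q).coeff i = (if i = 0 then 0 else q.coeff (i - 1)) - p.coeff i := by
  unfold fixR
  rw [coeff_sub]
  congr 1
  cases i with
  | zero => simp
  | succ i => simp [coeff_X_mul]

/-- a pole of the coefficient number `j` of the numerator and a fixed point of exponent `f` -/
theorem PoleQ.fixed_exp {K : Type} [Field K] [NumberField K] {v : HeightOneSpectrum (𝓞 K)}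
    {p q : K[X]} {d j : ℕ} (h : PoleQ v p q d j) (hj : 1 ≤ j) (hjd : j ≤ d) {l : ℕ} (hl : l.Prime)
    (hlv : v.valuation K (l : K) < 1) (hld : d + 1 < l) (hirr : Irreducible (fixR p q))
    (hdeg : (fixR p q).natDegree = d + 1) {f : ℕ} {x : AlgebraicClosure K}
    (hx : x ∈ AE.expField K f) (hxH : aeval x (fixR p q) = 0) : j ∣ f := by
  refine (root_exponent v hl hlv hld hj (by omega) hirr hdeg ?_ ?_ ?_ ?_ hx hxH).1
  · rw [fixR_coeff, if_pos rfl, zero_sub, Valuation.map_neg]
    exact h.unit 0 (by omega) (by omega)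
  · rw [fixR_coeff, if_neg (by omega), Nat.add_sub_cancel,
      coeff_eq_zero_of_natDegree_lt (by have := h.hp; omega : p.natDegree < d + 1), sub_zero]
    exact h.unitq d le_rfl
  · rw [fixR_coeff, if_neg (by omega), Valuation.map_sub_eq_of_lt_right, h.pole]
    rw [h.pole]
    exact (h.leq _).trans_lt one_lt_exp
  · intro i hi
    rw [fixR_coeff]
    refine (v.valuation K).map_sub_le ?_ (h.le i hi)
    split_ifs
    · rw [map_zero]
      exact zero_le
    · exact h.leq _

end Pool.Agent.H912.DY

namespace Pool.Agent.H912.DY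

/-- some conjugate of a point of period two and of degree at least three is in the annulus -/
theorem two_conj {K N : Type} [Field K] [NumberField K] [Field N] [NumberField N] [Algebra K N]
    [IsGalois K N] {v : HeightOneSpectrum (𝓞 K)} {p q : K[X]}
    {d : ℕ} (hd : 2 ≤ d) (h : PoleQ v p q d 0) (w : HeightOneSpectrum (𝓞 N))
    (hw : w.asIdeal.LiesOver v.asIdeal) {y : N}
    (hy : ratMap d (p.map (algebraMap K N)) (q.map (algebraMap K N))
      (ratMap d (p.map (algebraMap K N)) (q.map (algebraMap K N)) (some y)) = some y)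
    (hdeg : 3 ≤ (minpoly K y).natDegree) :
    ∃ z : N, w.valuation N z ^ (d + 1) = w.valuation N (algebraMap K N (p.coeff 0)) := by
  classical
  have hfin : FiniteDimensional K N := Module.Finite.of_restrictScalars_finite ℚ K N
  have hloc := h.loc0' (by omega) w hw
  set F := ratMap d (p.map (algebraMap K N)) (q.map (algebraMap K N)) with hF
  set A := w.valuation N ((p.map (algebraMap K N)).coeff 0) with hA
  set g := minpoly K y with hg
  have hint : IsIntegral K y := Algebra.IsIntegral.isIntegral y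
  have hsplit : (g.map (algebraMap K N)).Splits := Normal.splits inferInstance y
  -- all conjugates are points of period two
  have hσ : ∀ σ : N ≃ₐ[K] N, ∀ P : Option N, Option.map σ (F P) = F (Option.map σ P) := by
    intro σ P
    have h1 := ratMap_map (σ : N →+* N) d (p.map (algebraMap K N)) (q.map (algebraMap K N)) P
    have h2 : ∀ r : K[X], (r.map (algebraMap K N)).map (σ : N →+* N) = r.map (algebraMap K N) := by
      intro r
      rw [Polynomial.map_map]
      congr 1
      ext a
      simp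
    rw [h2, h2] at h1
    exact h1
  have hσ2 : ∀ (σ : N ≃ₐ[K] N) (z : N), F (F (some z)) = some z →
      F (F (some (σ z))) = some (σ z) := by
    intro σ z hz
    have h1 : (some (σ z) : Option N) = Option.map σ (some z) := rfl
    rw [h1, ← hσ, ← hσ, hz]
  set R := (g.map (algebraMap K N)).roots with hR
  have hg0 : g.map (algebraMap K N) ≠ 0 :=
    (Polynomial.map_ne_zero_iff (algebraMap K N).injective).2 (minpoly.ne_zero hint)
  have hnodup : R.Nodup := by
    refine nodup_roots ?_
    exact (minpoly.irreducible hint).separable.map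
  set S : Finset N := R.toFinset with hS
  have hroot : ∀ z ∈ S, F (F (some z)) = some z := by
    intro z hz
    rw [hS, Multiset.mem_toFinset, hR, mem_roots hg0, IsRoot.def, eval_map_algebraMap] at hz
    have h1 : IsConjRoot K z y := by
      rw [isConjRoot_def]
      exact (minpoly.eq_of_irreducible_of_monic (minpoly.irreducible hint) hz
        (minpoly.monic hint)).symm
    obtain ⟨σ, hσ1⟩ := h1.exists_algEquiv
    rw [← hσ1]
    exact hσ2 σ y hy
  have hcard : S.card = g.natDegree := by
    rw [hS, Multiset.toFinset_card_of_nodup hnodup, hR, ← hsplit.natDegree_eq_card_roots,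
      natDegree_map]
  by_contra hcon
  push Not at hcon
  have hno : ∀ z : N, w.valuation N z ^ (d + 1) ≠ A := by
    intro z
    rw [hA, coeff_map]
    exact hcon z
  -- the types of the conjugates
  have htype : ∀ z ∈ S, (some z ∈ Near (w.valuation N) A) ∨
      F (some z) ∈ Near (w.valuation N) A := by
    intro z hz
    rcases hloc.two hd (hroot z hz) with ⟨x, hx, h1⟩ | h1 | ⟨h1, x, hx, h2⟩
    · exact absurd h1 (hno x)
    · exact Or.inl h1
    · exact Or.inr h1
  have h1 : S ⊆ (S.filter fun z => some z ∈ Near (w.valuation N) A) ∪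
      (S.filter fun z => F (some z) ∈ Near (w.valuation N) A) := by
    intro z hz
    rw [mem_union, mem_filter, mem_filter]
    rcases htype z hz with h1 | h1
    · exact Or.inl ⟨hz, h1⟩
    · exact Or.inr ⟨hz, h1⟩
  have h2 : (S.filter fun z => some z ∈ Near (w.valuation N) A).card ≤ 1 := by
    rw [card_le_one]
    intro a ha b hb
    rw [mem_filter] at ha hb
    exact Option.some.inj (hloc.unique hd ha.2 hb.2 (hroot a ha.1) (hroot b hb.1))
  have h3 : (S.filter fun z => F (some z) ∈ Near (w.valuation N) A).card ≤ 1 := by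
    rw [card_le_one]
    intro a ha b hb
    rw [mem_filter] at ha hb
    have h4 := hloc.unique hd ha.2 hb.2 (by rw [← hF, hroot a ha.1]) (by rw [← hF, hroot b hb.1])
    have h5 : F (F (some a)) = F (F (some b)) := by rw [h4]
    rw [hroot a ha.1, hroot b hb.1] at h5
    exact Option.some.inj h5
  have h4 := (card_le_card h1).trans (card_union_le _ _)
  omega

/-- the points of period two over the maximal extension of exponent `f` -/
theorem two_exp {K : Type} [Field K] [NumberField K] {v : HeightOneSpectrum (𝓞 K)} {p q : K[X]}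
    {d : ℕ} (hd : 2 ≤ d) (h : PoleQ v p q d 0) {l : ℕ} (hl : l.Prime)
    (hlv : v.valuation K (l : K) < 1) (hld : ¬ l ∣ d + 1) {f : ℕ} {x : AlgebraicClosure K}
    (hx : x ∈ AE.expField K f) (h2 : (rbar d p q)^[2] (some x) = some x)
    (hdeg : 3 ≤ (minpoly K x).natDegree) : d + 1 ∣ f := by
  obtain ⟨N, hnf, hgal, hexp, hxN, w, hw⟩ := galois_place hx v
  have h1 : (some x : Option (AlgebraicClosure K)) =
      Option.map (algebraMap N (AlgebraicClosure K)) (some ⟨x, hxN⟩) := rfl
  rw [h1, rbar_iterate] at h2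
  have h3 : minpoly K x = minpoly K (⟨x, hxN⟩ : N) :=
    minpoly.algebraMap_eq (algebraMap N (AlgebraicClosure K)).injective (⟨x, hxN⟩ : N)
  rw [h3] at hdeg
  obtain ⟨z, hz⟩ := two_conj (N := N) hd h w hw (map_inj' _ h2) hdeg
  exact dvd_exponent hexp v w hw hl hlv hld h.pole hz

/-- the orbit of a point over `K[f]` -/
lemma orbit_exp {K : Type} [Field K] {p q : K[X]} {d f : ℕ} {x : AlgebraicClosure K}
    (hx : x ∈ AE.expField K f) (m : ℕ) {y : AlgebraicClosure K}
    (hy : (rbar d p q)^[m] (some x) = some y) : y ∈ AE.expField K f := by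
  have h1 : (some x : Option (AlgebraicClosure K)) =
      Option.map (algebraMap (AE.expField K f) (AlgebraicClosure K)) (some ⟨x, hx⟩) := rfl
  rw [h1, rbar_iterate, Option.map_eq_some_iff] at hy
  obtain ⟨b, -, hb⟩ := hy
  rw [← hb]
  exact b.2

/-- **The exponents of the preperiodic points.** -/
theorem PoleQ.preper_exp {K : Type} [Field K] [NumberField K] {p q : K[X]} {d : ℕ}
    {V : ℕ → HeightOneSpectrum (𝓞 K)} {l : ℕ → ℕ} (h : ∀ j, j ≤ d → PoleQ (V j) p q d j)
    (hl : ∀ j, j ≤ d → (l j).Prime) (hlv : ∀ j, j ≤ d → (V j).valuation K (l j : K) < 1)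
    (hld : ∀ j, j ≤ d → d + 1 < l j) (hd : 2 ≤ d)
    {f : ℕ} {x : AlgebraicClosure K} (hx : x ∈ AE.expField K f) {m n : ℕ} (hn : 0 < n)
    (hP : (rbar d p q)^[m + n] (some x) = (rbar d p q)^[m] (some x)) :
    (rbar d p q ((rbar d p q)^[m] (some x)) = (rbar d p q)^[m] (some x) →
        ∀ j, 1 ≤ j → j ≤ d + 1 → j ∣ f) ∧
      (rbar d p q ((rbar d p q)^[m] (some x)) ≠ (rbar d p q)^[m] (some x) →
        (rbar d p q)^[2] ((rbar d p q)^[m] (some x)) = (rbar d p q)^[m] (some x) →
        d ∣ f ∧ (3 ≤ d → d + 1 ∣ f)) ∧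
      ((rbar d p q)^[2] ((rbar d p q)^[m] (some x)) ≠ (rbar d p q)^[m] (some x) →
        d ∣ f ∧ d + 1 ∣ f) := by
  have h0 := h 0 (Nat.zero_le d)
  have hdd := h d le_rfl
  have hnd0 : ¬ l 0 ∣ d + 1 := fun h1 => by
    have h2 := Nat.le_of_dvd (by omega) h1
    have h3 := hld 0 (Nat.zero_le d)
    omega
  have hndd : ¬ l d ∣ d := fun h1 => by
    have h2 := Nat.le_of_dvd (by omega) h1
    have h3 := hld d le_rfl
    omega
  have hlead := fun hfix => lead_exp (by omega) hdd (hl d le_rfl) (hlv d le_rfl) hndd hx hn hP hfix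
  have hconst := fun hC => const_exp hd h0 (hl 0 (Nat.zero_le d)) (hlv 0 (Nat.zero_le d)) hnd0 hx hn
    hP hC
  -- the point of the cycle
  obtain ⟨y, hy⟩ : ∃ y, (rbar d p q)^[m] (some x) = some y := by
    obtain ⟨y, hy, -⟩ := h0.preper hdd hd (P := (rbar d p q)^[m] (some x)) (m := 0) hn (by
      rw [Function.iterate_zero, id, zero_add, ← Function.iterate_add_apply, add_comm n m]
      exact hP)
    exact ⟨y, hy⟩
  have hyf := orbit_exp hx m hy
  refine ⟨fun hfix j hj1 hjd => ?_, fun hfix htwo => ⟨hlead hfix, fun h3 => ?_⟩,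
    fun htwo => ⟨hlead (fun hfix => htwo ?_), hconst (Or.inl htwo)⟩⟩
  · rcases Nat.lt_or_ge d j with hj | hj
    · obtain rfl : j = d + 1 := by omega
      exact hconst (Or.inr hfix)
    · rw [hy] at hfix
      exact (h j hj).fixed_exp hj1 hj (hl j hj) (hlv j hj) (hld j hj) (h0.irr hd).1
        h0.fixR_natDegree hyf ((h0.fix_iff (by omega) y).1 hfix)
  · rw [hy] at hfix htwo
    have hdeg := h0.two_deg hdd hd ((h0.two_iff (by omega) y).1 htwo)
      (fun h1 => hfix ((h0.fix_iff (by omega) y).2 h1))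
    refine two_exp hd h0 (hl 0 (Nat.zero_le d)) (hlv 0 (Nat.zero_le d)) hnd0 hyf htwo ?_
    rw [hdeg]
    calc 3 ≤ d := h3
      _ = d * 1 := (mul_one d).symm
      _ ≤ d * (d - 1) := Nat.mul_le_mul_left d (by omega)
  · show rbar d p q (rbar d p q ((rbar d p q)^[m] (some x))) = _
    rw [hfix, hfix]

/-- the converse for the fixed points -/
theorem PoleQ.fixed_mem {K : Type} [Field K] [NumberField K] {v : HeightOneSpectrum (𝓞 K)}
    {p q : K[X]} {d : ℕ} (h : PoleQ v p q d 0) (hd : 2 ≤ d) {f : ℕ}
    (hf : ∀ j, 1 ≤ j → j ≤ d + 1 → j ∣ f) {x : AlgebraicClosure K}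
    (hx : rbar d p q (some x) = some x) : x ∈ AE.expField K f := by
  have hdeg := h.fixR_natDegree
  have hxH := (h.fix_iff (by omega) x).1 hx
  have h1 := AE.mem_expField_mul (K := K) (f := 1) (g := f) (d := d + 1) hf (α := x)
    (P := (fixR p q).map (algebraMap K (AE.expField K 1)))
    ((Polynomial.map_ne_zero_iff (algebraMap K (AE.expField K 1)).injective).2
      (h.irr hd).1.ne_zero)
    (by rw [natDegree_map, hdeg]) (by
      rw [eval₂_map]
      exact hxH)
  rwa [one_mul] at h1

end Pool.Agent.H912.DY
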