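import Pool.Agent.H912.DY.R7

/-!
# Rational maps: the backward orbit of a point is one Galois orbit (helper912)
-/

set_option autoImplicit false

open Finset Polynomial IsDedekindDomain
open scoped NumberField

namespace Pool.Agent.H912.DY

/-- the roots of a polynomial with a large constant coefficient -/
lemma root_big {L : Type} {Γ : Type*} [Field L] [LinearOrderedCommGroupWithZero Γ]
    (w : Valuation L Γ) {H : L[X]} {d : ℕ} (hd : 1 ≤ d) (hH : H.natDegree ≤ d) {A B : Γ}
    (hB : 0 < B) (hBA : B < A) (h0 : w (H.coeff 0) = A) (hi : ∀ i, i ≠ 0 → w (H.coeff i) ≤ B)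
    (hd' : w (H.coeff d) = B) {y : L} (hy : H.eval y = 0) : 1 < w y ∧ B * w y ^ d = A := by
  obtain ⟨e, rfl⟩ : ∃ e, d = e + 1 := ⟨d - 1, by omega⟩
  rw [eval_eq_sum_range' (Nat.lt_succ_of_le hH), sum_range_succ', pow_zero, mul_one] at hy
  have h1 : 1 < w y := by
    by_contra hcon
    rw [not_lt] at hcon
    have h2 : w (∑ i ∈ range (e + 1), H.coeff (i + 1) * y ^ (i + 1)) ≤ B := by
      refine w.map_sum_le fun i _ => ?_
      rw [map_mul, map_pow]
      exact (mul_le_mul' (hi _ (by omega)) (pow_le_one' hcon _)).trans (mul_one B).le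
    have h3 : H.coeff 0 = -∑ i ∈ range (e + 1), H.coeff (i + 1) * y ^ (i + 1) := by
      linear_combination hy
    rw [h3, w.map_neg] at h0
    rw [h0] at h2
    exact absurd hBA (not_lt.2 h2)
  refine ⟨h1, ?_⟩
  rw [sum_range_succ] at hy
  have h2 : H.coeff (e + 1) * y ^ (e + 1) + H.coeff 0 =
      -∑ i ∈ range e, H.coeff (i + 1) * y ^ (i + 1) := by
    linear_combination hy
  have hpos : 0 < B * w y ^ (e + 1) := by
    have h3 : (0 : Γ) < w y := zero_lt_one.trans h1
    exact mul_pos hB (pow_pos h3 _)
  have h3 := val_cancel w h2 (by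
    rw [w.map_neg, map_mul, hd', map_pow]
    refine w.map_sum_lt hpos.ne' fun i hi' => ?_
    rw [map_mul, map_pow]
    refine (mul_le_mul' (hi _ (by omega)) le_rfl).trans_lt ?_
    exact mul_lt_mul_of_pos_left (pow_lt_pow_right₀ h1 (by have := mem_range.1 hi'; omega)) hB)
  rw [h0, map_mul, hd', map_pow] at h3
  exact h3.symm

section

variable {L : Type} {Γ : Type*} [Field L] [LinearOrderedCommGroupWithZero Γ] {w : Valuation L Γ}
  {p q : L[X]} {d : ℕ}

/-- the valuations of the points of the backward orbit -/
theorem Loc0.backward (h : Loc0 w d p q) (hd : 2 ≤ d) {α : L} (hα : w α ≤ 1)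
    (hα' : w (p.coeff d - α * q.coeff d) = 1) (n : ℕ) :
    ∀ P : Option L, (ratMap d p q)^[n + 1] P = some α → ∃ x, P = some x ∧ 1 < w x ∧
      w x < w (p.coeff 0) ∧ ∃ c : ℤ, IsCoprime c (d : ℤ) ∧
        w x ^ (d ^ (n + 1)) = w (p.coeff 0) ^ c := by
  have hA0 : w (p.coeff 0) ≠ 0 := (zero_lt_one.trans h.big).ne'
  have hqd0 : q.coeff d ≠ 0 := by
    intro h1
    have := h.hqd
    rw [h1, map_zero] at this
    exact zero_ne_one this
  have hgen : ∀ (β : L) (B : Γ), 0 < B → B < w (p.coeff 0) → w β ≤ B →
      1 ≤ B → w (p.coeff d - β * q.coeff d) = B → ∀ y : L, q.eval y ≠ 0 →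
      p.eval y / q.eval y = β → 1 < w y ∧ B * w y ^ d = w (p.coeff 0) := by
    intro β B hB hBA hβ hB1 hlead y hq hy
    have hc : ∀ i, (p - C β * q).coeff i = p.coeff i - β * q.coeff i := fun i => by
      rw [coeff_sub, coeff_C_mul]
    refine root_big w (H := p - C β * q) (by omega) ?_ hB hBA ?_ ?_ ?_ ?_
    · refine (natDegree_sub_le _ _).trans (max_le h.hp ?_)
      exact (natDegree_C_mul_le _ _).trans h.hq
    · rw [hc, w.map_sub_eq_of_lt_left]
      rw [map_mul]
      exact (mul_le_mul' hβ (h.hqi 0)).trans_lt (by rwa [mul_one])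
    · intro i hi
      rw [hc]
      refine w.map_sub_le ((h.hpi i hi).trans hB1) ?_
      rw [map_mul]
      exact (mul_le_mul' hβ (h.hqi i)).trans (mul_one B).le
    · rw [hc, hlead]
    · rw [eval_sub, eval_mul, eval_C]
      rw [div_eq_iff hq] at hy
      rw [hy, sub_self]
  induction n with
  | zero =>
    intro P hP
    rw [zero_add, Function.iterate_one] at hP
    cases P with
    | none =>
      exfalso
      simp only [ratMap] at hP
      rw [if_neg hqd0] at hP
      have h1 := Option.some.inj hP
      rw [div_eq_iff hqd0] at h1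
      rw [h1, sub_self, map_zero] at hα'
      exact zero_ne_one hα'
    | some x =>
      simp only [ratMap] at hP
      by_cases hq : q.eval x = 0
      · rw [if_pos hq] at hP
        exact absurd hP (Option.some_ne_none _).symm
      · rw [if_neg hq] at hP
        obtain ⟨h1, h2⟩ := hgen α 1 zero_lt_one h.big hα le_rfl hα' x hq (Option.some.inj hP)
        rw [one_mul] at h2
        refine ⟨x, rfl, h1, ?_, 1, isCoprime_one_left, ?_⟩
        · rw [← h2]
          calc w x = w x ^ 1 := (pow_one _).symm
            _ < w x ^ d := pow_lt_pow_right₀ h1 (by omega)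
        · rw [zero_add, pow_one, zpow_one, h2]
  | succ n ih =>
    intro P hP
    rw [Function.iterate_succ_apply] at hP
    obtain ⟨x', hx', h1, h2, c, hc, hc'⟩ := ih _ hP
    cases P with
    | none =>
      exfalso
      simp only [ratMap] at hx'
      rw [if_neg hqd0] at hx'
      have h3 := Option.some.inj hx'
      rw [← h3, map_div₀, h.hpd, h.hqd, div_one] at h1
      exact lt_irrefl _ h1
    | some x =>
      simp only [ratMap] at hx'
      by_cases hq : q.eval x = 0
      · rw [if_pos hq] at hx'
        exact absurd hx' (Option.some_ne_none _).symm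
      · rw [if_neg hq] at hx'
        have hlead : w (p.coeff d - x' * q.coeff d) = w x' := by
          rw [w.map_sub_eq_of_lt_right]
          · rw [map_mul, h.hqd, mul_one]
          · rw [map_mul, h.hqd, mul_one, h.hpd]
            exact h1
        have h0' : 0 < w x' := zero_lt_one.trans h1
        obtain ⟨h3, h4⟩ := hgen x' (w x') h0' h2 le_rfl h1.le hlead x hq (Option.some.inj hx')
        refine ⟨x, rfl, h3, ?_, (d : ℤ) ^ (n + 1) - c, ?_, ?_⟩
        · rw [← h4]
          have h5 : w x ≤ w x ^ d := le_self_pow₀ h3.le (by omega)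
          refine h5.trans_lt ?_
          calc w x ^ d = 1 * w x ^ d := (one_mul _).symm
            _ < w x' * w x ^ d := mul_lt_mul_of_pos_right h1 (pow_pos (zero_lt_one.trans h3) _)
        · obtain ⟨a, b, hab⟩ := hc
          refine ⟨-a, b + a * (d : ℤ) ^ n, ?_⟩
          rw [pow_succ]
          linear_combination hab
        · have h5 : w x ^ d = w (p.coeff 0) * (w x')⁻¹ := by
            rw [← h4, mul_comm (w x'), mul_assoc, mul_inv_cancel₀ h0'.ne', mul_one]
          rw [pow_succ d (n + 1), mul_comm, pow_mul, h5, mul_pow, inv_pow, hc', zpow_sub₀ hA0,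
            div_eq_mul_inv]
          norm_cast
end

/-- **The degrees of the points of the backward orbit: divisibility.** -/
theorem backward_dvd {K : Type} [Field K] [NumberField K] {v : HeightOneSpectrum (𝓞 K)} {p q : K[X]}
    {d : ℕ} (hd : 2 ≤ d) (h : PoleQ v p q d 0) {α : K} (hα : v.valuation K α ≤ 1)
    (hα' : v.valuation K (p.coeff d - α * q.coeff d) = 1) {P : Option (AlgebraicClosure K)} {n : ℕ}
    (hP : (rbar d p q)^[n + 1] P = some (algebraMap K (AlgebraicClosure K) α)) :
    ∃ x, P = some x ∧ d ^ (n + 1) ∣ Module.finrank K (IntermediateField.adjoin K {x}) := by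
  cases P with
  | none =>
    exfalso
    rw [rbar_none] at hP
    have hP' := map_inj' _ (a₁ := (ratMap d p q)^[n + 1] none) (a₂ := some α) hP
    obtain ⟨x, hx, -⟩ := (h.loc0 (by omega)).backward hd hα hα' n _ hP'
    exact absurd hx (Option.some_ne_none _).symm
  | some x =>
    refine ⟨x, rfl, ?_⟩
    have hnf := adjoin_nf x
    set L := IntermediateField.adjoin K {x} with hL
    have hxL : x ∈ L := IntermediateField.subset_adjoin K _ (Set.mem_singleton x)
    have hQ : (some x : Option (AlgebraicClosure K)) =
        Option.map (algebraMap L (AlgebraicClosure K)) (some ⟨x, hxL⟩) := rfl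
    rw [hQ, rbar_iterate] at hP
    have hP' := map_inj' (algebraMap L (AlgebraicClosure K)) (a₂ := some (algebraMap K L α)) hP
    refine dvd_finrank v fun w hw => ?_
    have hval : ∀ x : K, w.valuation L (algebraMap K L x) =
        v.valuation K x ^ v.asIdeal.ramificationIdx' w.asIdeal := fun x =>
      (HeightOneSpectrum.valuation_liesOver L v w x).symm
    obtain ⟨y, hy, -, -, c, hc, hy1⟩ := (h.loc0' (by omega) w hw).backward hd
      (α := algebraMap K L α) (by
        rw [hval]
        exact pow_le_one' hα _) (by
        rw [coeff_map, coeff_map, ← map_mul, ← map_sub, hval, hα', one_pow]) n _ hP'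
    rw [coeff_map] at hy1
    obtain ⟨a, b, hab⟩ := (hc.pow_right : IsCoprime c ((d : ℤ) ^ (n + 1)))
    have hA0 : w.valuation L (algebraMap K L (p.coeff 0)) ≠ 0 := by
      rw [hval, h.pole]
      exact pow_ne_zero _ WithZero.exp_ne_zero
    refine dvd_ramification v w h.pole (x := y ^ a * algebraMap K L (p.coeff 0) ^ b) ?_
    rw [map_mul, map_zpow₀, map_zpow₀, mul_pow, ← zpow_natCast, ← zpow_natCast, ← zpow_mul,
      ← zpow_mul, mul_comm a, zpow_mul, zpow_natCast, hy1, ← zpow_mul, ← zpow_add₀ hA0]
    have h3 : c * a + b * ((d ^ (n + 1) : ℕ) : ℤ) = 1 := by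
      push_cast
      linear_combination hab
    rw [h3, zpow_one]

/-- the degree of a point over that of its image -/
lemma degree_step {K : Type} [Field K] [NumberField K] {p q : K[X]} {d : ℕ} (hp : p.natDegree ≤ d)
    (hq : q.natDegree ≤ d) {x y : AlgebraicClosure K}
    (hne : algebraMap K (AlgebraicClosure K) (p.coeff d) -
      y * algebraMap K (AlgebraicClosure K) (q.coeff d) ≠ 0)
    (hxy : rbar d p q (some x) = some y) :
    Module.finrank K (IntermediateField.adjoin K {x}) ≤
      Module.finrank K (IntermediateField.adjoin K {y}) * d := by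
  set E := IntermediateField.adjoin K {y} with hE
  have hyE : y ∈ E := IntermediateField.subset_adjoin K _ (Set.mem_singleton y)
  have hfdE : FiniteDimensional K E :=
    IntermediateField.adjoin.finiteDimensional (Algebra.IsIntegral.isIntegral y)
  have hint : IsIntegral E x := (Algebra.IsIntegral.isIntegral (R := K) x).tower_top
  set H : E[X] := p.map (algebraMap K E) - C (⟨y, hyE⟩ : E) * q.map (algebraMap K E) with hH
  have hHd : H.natDegree ≤ d := by
    refine (natDegree_sub_le _ _).trans (max_le ?_ ?_)
    · rw [natDegree_map]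
      exact hp
    · refine (natDegree_C_mul_le _ _).trans ?_
      rw [natDegree_map]
      exact hq
  have hH0 : H ≠ 0 := by
    intro h1
    apply hne
    have h2 := congrArg (fun r : E[X] => algebraMap E (AlgebraicClosure K) (r.coeff d)) h1
    simp only [hH, coeff_sub, coeff_C_mul, coeff_map, coeff_zero, map_zero, map_sub, map_mul] at h2
    exact h2
  have hroot : aeval x H = 0 := by
    unfold rbar at hxy
    simp only [ratMap] at hxy
    by_cases hq0 : (q.map (algebraMap K (AlgebraicClosure K))).eval x = 0
    · rw [if_pos hq0] at hxy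
      exact absurd hxy (Option.some_ne_none _).symm
    · rw [if_neg hq0] at hxy
      have h1 := Option.some.inj hxy
      rw [div_eq_iff hq0] at h1
      rw [hH, map_sub, map_mul, aeval_C, aeval_map_algebraMap, aeval_map_algebraMap,
        ← eval_map_algebraMap, ← eval_map_algebraMap, h1]
      exact sub_self _
  have h1 : (minpoly E x).natDegree ≤ d :=
    (natDegree_le_of_dvd (minpoly.dvd E x hroot) hH0).trans hHd
  set M := IntermediateField.adjoin E {x} with hM
  have hfdM : FiniteDimensional E M := IntermediateField.adjoin.finiteDimensional hint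
  have hfdKM : FiniteDimensional K M := FiniteDimensional.trans K E M
  have h2 : Module.finrank K M = Module.finrank K E * (minpoly E x).natDegree := by
    rw [← Module.finrank_mul_finrank K E M, IntermediateField.adjoin.finrank hint]
  have h3 : IntermediateField.adjoin K {x} ≤ M.restrictScalars K := by
    rw [IntermediateField.adjoin_le_iff]
    exact Set.singleton_subset_iff.2 (IntermediateField.subset_adjoin E _ (Set.mem_singleton x))
  have h4 := IntermediateField.finrank_dvd_of_le_right h3
  have h5 : Module.finrank K (M.restrictScalars K) = Module.finrank K M := rfl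
  rw [h5] at h4
  have h6 := Nat.le_of_dvd Module.finrank_pos h4
  rw [h2] at h6
  exact h6.trans (Nat.mul_le_mul_left _ h1)

end Pool.Agent.H912.DY

namespace Pool.Agent.H912.DY

/-- **The backward orbit of a point is one Galois orbit.** -/
theorem PoleQ.stable {K : Type} [Field K] [NumberField K] {v : HeightOneSpectrum (𝓞 K)} {p q : K[X]}
    {d : ℕ} (h : PoleQ v p q d 0) (hd : 2 ≤ d) {α : K} (hα : v.valuation K α ≤ 1)
    (hα' : v.valuation K (p.coeff d - α * q.coeff d) = 1) (n : ℕ) :
    (∃ P, (rbar d p q)^[n] P = some (algebraMap K (AlgebraicClosure K) α)) ∧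
    ∀ P, (rbar d p q)^[n] P = some (algebraMap K (AlgebraicClosure K) α) →
      ∃ x, P = some x ∧ Module.finrank K (IntermediateField.adjoin K {x}) = d ^ n := by
  have hone : ∀ a : K, Module.finrank K (IntermediateField.adjoin K
      {algebraMap K (AlgebraicClosure K) a}) = 1 := fun a =>
    IntermediateField.finrank_adjoin_simple_eq_one_iff.2 (IntermediateField.algebraMap_mem _ a)
  have hqd0 : q.coeff d ≠ 0 := by
    intro h1
    have := h.unitq d le_rfl
    rw [h1, map_zero] at this
    exact zero_ne_one this
  induction n with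
  | zero =>
    refine ⟨⟨some (algebraMap K (AlgebraicClosure K) α), rfl⟩, fun P hP => ?_⟩
    rw [Function.iterate_zero, id] at hP
    exact ⟨_, hP, by rw [hone, pow_zero]⟩
  | succ n ih =>
    have hne : ∀ x' : AlgebraicClosure K,
        (rbar d p q)^[n] (some x') = some (algebraMap K (AlgebraicClosure K) α) →
        algebraMap K (AlgebraicClosure K) (p.coeff d) -
          x' * algebraMap K (AlgebraicClosure K) (q.coeff d) ≠ 0 := by
      intro x' hx' h0
      have hx1 : x' = algebraMap K (AlgebraicClosure K) (p.coeff d / q.coeff d) := by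
        rw [map_div₀, eq_div_iff ((_root_.map_ne_zero _).2 hqd0)]
        linear_combination -h0
      cases n with
      | zero =>
        rw [Function.iterate_zero, id, Option.some.injEq] at hx'
        rw [hx', ← map_mul, ← map_sub, map_eq_zero] at h0
        rw [h0, map_zero] at hα'
        exact zero_ne_one hα'
      | succ m =>
        obtain ⟨z, hz, hz1⟩ := backward_dvd hd h hα hα' hx'
        rw [← Option.some.inj hz, hx1, hone] at hz1
        have h2 := Nat.le_of_dvd one_pos hz1
        have h3 : d ≤ d ^ (m + 1) := Nat.le_self_pow (by omega) d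
        omega
    constructor
    · obtain ⟨⟨P', hP'⟩, hall⟩ := ih
      obtain ⟨x', rfl, -⟩ := hall P' hP'
      have hc := hne x' hP'
      set H : (AlgebraicClosure K)[X] := p.map (algebraMap K (AlgebraicClosure K)) -
        C x' * q.map (algebraMap K (AlgebraicClosure K)) with hH
      have hHd : H.coeff d ≠ 0 := by
        rw [hH, coeff_sub, coeff_C_mul, coeff_map, coeff_map]
        exact hc
      have hdeg : H.degree ≠ 0 := by
        intro h1
        have h2 := natDegree_eq_zero_iff_degree_le_zero.2 h1.le
        exact hHd (coeff_eq_zero_of_natDegree_lt (by omega))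
      obtain ⟨y, hy⟩ := IsAlgClosed.exists_root H hdeg
      rw [IsRoot.def, hH, eval_sub, eval_mul, eval_C] at hy
      have hq : (q.map (algebraMap K (AlgebraicClosure K))).eval y ≠ 0 := by
        intro hq0
        rw [hq0, mul_zero, sub_zero] at hy
        obtain ⟨a, b, hab⟩ := h.coprime (by omega)
        have h1 := congrArg (fun r : K[X] => (r.map (algebraMap K (AlgebraicClosure K))).eval y) hab
        simp only [Polynomial.map_add, Polynomial.map_mul, eval_add, eval_mul, hy, hq0, mul_zero,
          add_zero, Polynomial.map_one, eval_one] at h1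
        exact zero_ne_one h1
      refine ⟨some y, ?_⟩
      rw [Function.iterate_succ_apply]
      have h1 : rbar d p q (some y) = some x' := by
        unfold rbar
        simp only [ratMap]
        rw [if_neg hq, Option.some.injEq, div_eq_iff hq]
        linear_combination hy
      rw [h1, hP']
    · intro P hP
      obtain ⟨x, rfl, hx⟩ := backward_dvd hd h hα hα' hP
      refine ⟨x, rfl, ?_⟩
      rw [Function.iterate_succ_apply] at hP
      obtain ⟨x', hx', hdeg⟩ := ih.2 _ hP
      rw [hx'] at hP
      have h1 := degree_step h.hp h.hq (hne x' hP) hx'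
      rw [hdeg, ← pow_succ] at h1
      have hfd : FiniteDimensional K (IntermediateField.adjoin K {x}) :=
        IntermediateField.adjoin.finiteDimensional (Algebra.IsIntegral.isIntegral x)
      exact le_antisymm h1 (Nat.le_of_dvd Module.finrank_pos hx)

end Pool.Agent.H912.DY
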