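import Pool.Agent.H912.AE.Tws

/-!
# Counting vectors of algebraic integers in boxes modulo an ideal (helper912)
-/

set_option autoImplicit false

open Finset Filter Topology
open scoped NumberField

namespace Pool.Agent.H912.DY

/-- the preimage of a set under a surjective homomorphism of finite groups -/
lemma card_preimage {G H : Type*} [AddGroup G] [AddGroup H] [Fintype G] [Fintype H]
    [DecidableEq H] (f : G →+ H) (hf : Function.Surjective f) (S : Finset H) :
    ((univ : Finset G).filter (fun g => f g ∈ S)).card * Fintype.card H =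
      S.card * Fintype.card G := by
  have h0 : ∀ T : Finset H, ((univ : Finset G).filter (fun g => f g ∈ T)).card =
      T.card * ((univ : Finset G).filter (fun g => f g = 0)).card := by
    intro T
    rw [card_eq_sum_card_fiberwise (f := f) (t := T)
      (s := (univ : Finset G).filter (fun g => f g ∈ T)) (fun x hx => (mem_filter.1 hx).2),
      ← smul_eq_mul, ← sum_const]
    refine sum_congr rfl fun t ht => ?_
    rw [filter_filter]
    have h1 : (univ.filter fun g => f g ∈ T ∧ f g = t) = univ.filter fun g => f g = t := by
      refine filter_congr fun g _ => ?_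
      constructor
      · exact fun h => h.2
      · exact fun h => ⟨by rw [h]; exact ht, h⟩
    rw [h1]
    exact AddMonoidHom.card_fiber_eq_of_mem_range f (hf t) (hf 0)
  have h1 := h0 univ
  simp only [mem_univ, filter_true, card_univ] at h1
  rw [h0 S, h1]
  ring

variable {K : Type} [Field K] [NumberField K] {J ι : Type} [Fintype J] [Fintype ι]

/-- The vectors of algebraic integers whose coordinates with respect to `ω` are at most `X` in
absolute value. -/
def box (ω : Module.Basis J ℤ (𝓞 K)) (ι : Type) (X : ℕ) : Set (ι → 𝓞 K) :=
  {a | ∀ i j, |ω.repr (a i) j| ≤ (X : ℤ)}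

/-- the integer vectors in a box -/
lemma card_box' {ι' : Type} [Fintype ι'] [DecidableEq ι'] {M : ℕ} (hM : 0 < M) (X : ℕ)
    (P : Finset (ι' → ZMod M)) [DecidablePred fun c : ι' → ℤ => (fun i => (c i : ZMod M)) ∈ P] :
    ((Fintype.piFinset fun _ : ι' => Icc (-(X : ℤ)) X).filter
      (fun c => (fun i => (c i : ZMod M)) ∈ P)).card ≤
        P.card * ((2 * X + 1) / M + 1) ^ Fintype.card ι' := by
  classical
  let e := Fintype.equivFin ι'
  have h1 := AE.card_box (N := Fintype.card ι') hM (fun _ => -(X : ℤ)) (fun _ => 2 * X + 1)
    (P.image fun p i => p (e.symm i))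
  rw [prod_const, card_univ, Fintype.card_fin] at h1
  refine le_trans ?_ (h1.trans (Nat.mul_le_mul_right _ card_image_le))
  refine card_le_card_of_injOn (fun c i => c (e.symm i)) ?_ ?_
  · intro c hc
    rw [mem_coe, mem_filter, Fintype.mem_piFinset] at hc
    rw [mem_coe, mem_filter, Fintype.mem_piFinset]
    refine ⟨fun i => ?_, ?_⟩
    · have h2 := mem_Icc.1 (hc.1 (e.symm i))
      rw [mem_Ico]
      push_cast
      exact ⟨h2.1, by omega⟩
    · rw [mem_image]
      exact ⟨_, hc.2, rfl⟩
  · intro c _ c' _ h
    funext i
    have := congrFun h (e i)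
    simpa using this

end Pool.Agent.H912.DY
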