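import Pool.Agent.H912.DY.S1

/-!
# Counting vectors of algebraic integers in boxes modulo an ideal, II (helper912)
-/

set_option autoImplicit false

open Finset Filter Topology
open scoped NumberField

namespace Pool.Agent.H912.DY

set_option linter.unusedSectionVars false

variable {K : Type} [Field K] [NumberField K] {J ι : Type} [Fintype J] [Fintype ι]

/-- the vector of algebraic integers with given coordinates -/
noncomputable def toA (ω : Module.Basis J ℤ (𝓞 K)) (c : ι × J → ℤ) (i : ι) : 𝓞 K :=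
  ∑ j, (c (i, j) : 𝓞 K) * ω j

lemma toA_repr (ω : Module.Basis J ℤ (𝓞 K)) (c : ι × J → ℤ) (i : ι) (j : J) :
    ω.repr (toA ω c i) j = c (i, j) := by
  have h1 : toA ω c i = ω.equivFun.symm (fun j => c (i, j)) := by
    rw [Module.Basis.equivFun_symm_apply]
    unfold toA
    refine sum_congr rfl fun j _ => ?_
    rw [zsmul_eq_mul]
  rw [h1, ← Module.Basis.equivFun_apply, LinearEquiv.apply_symm_apply]

lemma toA_inj (ω : Module.Basis J ℤ (𝓞 K)) : Function.Injective (toA (ι := ι) ω) := by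
  intro c c' h
  funext ⟨i, j⟩
  rw [← toA_repr ω c i j, ← toA_repr ω c' i j, h]

lemma toA_of_repr (ω : Module.Basis J ℤ (𝓞 K)) (a : ι → 𝓞 K) :
    toA ω (fun x : ι × J => ω.repr (a x.1) x.2) = a := by
  funext i
  refine Eq.trans ?_ (ω.sum_repr (a i))
  unfold toA
  exact sum_congr rfl fun j _ => (zsmul_eq_mul _ _).symm

open Classical in
lemma box_eq (ω : Module.Basis J ℤ (𝓞 K)) (X : ℕ) (T : Set (ι → 𝓞 K)) :
    {a | a ∈ box ω ι X ∧ a ∈ T} =
      toA ω '' ↑((Fintype.piFinset fun _ : ι × J => Icc (-(X : ℤ)) X).filter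
        (fun c => toA ω c ∈ T)) := by
  ext a
  constructor
  · rintro ⟨h1, h2⟩
    refine ⟨fun x : ι × J => ω.repr (a x.1) x.2, ?_, toA_of_repr ω a⟩
    rw [mem_coe, mem_filter, Fintype.mem_piFinset, toA_of_repr]
    refine ⟨fun x => ?_, h2⟩
    rw [mem_Icc]
    exact abs_le.1 (h1 x.1 x.2)
  · rintro ⟨c, hc, rfl⟩
    rw [mem_coe, mem_filter, Fintype.mem_piFinset] at hc
    refine ⟨fun i j => ?_, hc.2⟩
    rw [toA_repr]
    exact abs_le.2 (mem_Icc.1 (hc.1 (i, j)))

open Classical in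
lemma ncard_box_sep (ω : Module.Basis J ℤ (𝓞 K)) (X : ℕ) (T : Set (ι → 𝓞 K)) :
    {a | a ∈ box ω ι X ∧ a ∈ T}.ncard =
      ((Fintype.piFinset fun _ : ι × J => Icc (-(X : ℤ)) X).filter
        (fun c => toA ω c ∈ T)).card := by
  rw [box_eq, Set.ncard_image_of_injective _ (toA_inj ω), Set.ncard_coe_finset]

lemma finite_box (ω : Module.Basis J ℤ (𝓞 K)) (X : ℕ) : (box ω ι X).Finite := by
  classical
  have h1 := box_eq (ι := ι) ω X Set.univ
  simp only [Set.mem_univ, and_true] at h1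
  have h2 : box ω ι X = {a | a ∈ box ω ι X} := rfl
  rw [h2, h1]
  exact (Finset.finite_toSet _).image _

lemma ncard_box (ω : Module.Basis J ℤ (𝓞 K)) (X : ℕ) :
    (box ω ι X).ncard = (2 * X + 1) ^ (Fintype.card (ι × J)) := by
  classical
  have h1 := ncard_box_sep (ι := ι) ω X Set.univ
  simp only [Set.mem_univ, and_true, filter_true] at h1
  have h2 : box ω ι X = {a | a ∈ box ω ι X} := rfl
  rw [h2, h1, Fintype.card_piFinset, prod_const, card_univ, Int.card_Icc]
  congr 1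
  omega

/-- counting in boxes modulo an ideal -/
theorem count_box (ω : Module.Basis J ℤ (𝓞 K)) (I : Ideal (𝓞 K)) {M : ℕ} (hM : 0 < M)
    (hMI : (M : 𝓞 K) ∈ I) [Finite (𝓞 K ⧸ I)] (S : Set (ι → 𝓞 K ⧸ I)) (X : ℕ)
    (hX : M ≤ 2 * X + 1) :
    {a | a ∈ box ω ι X ∧ (fun i => Ideal.Quotient.mk I (a i)) ∈ S}.ncard *
      Nat.card (ι → 𝓞 K ⧸ I) ≤ S.ncard * (2 ^ Fintype.card (ι × J) * (box ω ι X).ncard) := by
  classical
  have : NeZero M := ⟨hM.ne'⟩
  have : Fintype (𝓞 K ⧸ I) := Fintype.ofFinite _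
  have hchar : CharP (𝓞 K ⧸ I) (ringChar (𝓞 K ⧸ I)) := ringChar.charP _
  have hdvd : ringChar (𝓞 K ⧸ I) ∣ M := by
    rw [← CharP.cast_eq_zero_iff (𝓞 K ⧸ I)]
    have := Ideal.Quotient.eq_zero_iff_mem.2 hMI
    rwa [map_natCast] at this
  let χ : ZMod M →+* 𝓞 K ⧸ I := ZMod.castHom hdvd (𝓞 K ⧸ I)
  let ψ : (ι × J → ZMod M) →+ (ι → 𝓞 K ⧸ I) := AddMonoidHom.mk'
    (fun c i => ∑ j, χ (c (i, j)) * Ideal.Quotient.mk I (ω j)) (fun c c' => by
      funext i
      simp only [Pi.add_apply, map_add, add_mul, sum_add_distrib])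
  have hψ : ∀ c : ι × J → ℤ, ψ (fun x => (c x : ZMod M)) =
      fun i => Ideal.Quotient.mk I (toA ω c i) := by
    intro c
    funext i
    show ∑ j, χ ((c (i, j) : ℤ) : ZMod M) * Ideal.Quotient.mk I (ω j) = _
    unfold toA
    rw [map_sum]
    refine sum_congr rfl fun j _ => ?_
    rw [map_mul, map_intCast, map_intCast]
  have hsurj : Function.Surjective ψ := by
    intro y
    have h1 : ∀ i, ∃ a : 𝓞 K, Ideal.Quotient.mk I a = y i := fun i =>
      Ideal.Quotient.mk_surjective (y i)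
    choose a ha using h1
    refine ⟨fun x => ((ω.repr (a x.1) x.2 : ℤ) : ZMod M), ?_⟩
    rw [hψ, toA_of_repr]
    funext i
    exact ha i
  let P : Finset (ι × J → ZMod M) := univ.filter (fun c => ψ c ∈ S.toFinset)
  have h1 : P.card * Fintype.card (ι → 𝓞 K ⧸ I) = S.toFinset.card * Fintype.card (ι × J → ZMod M) :=
    card_preimage ψ hsurj S.toFinset
  have h2 : {a | a ∈ box ω ι X ∧ (fun i => Ideal.Quotient.mk I (a i)) ∈ S}.ncard ≤
      P.card * ((2 * X + 1) / M + 1) ^ Fintype.card (ι × J) := by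
    have h3 := ncard_box_sep (ι := ι) ω X {a | (fun i => Ideal.Quotient.mk I (a i)) ∈ S}
    have h4 : {a | a ∈ box ω ι X ∧ (fun i => Ideal.Quotient.mk I (a i)) ∈ S} =
      {a | a ∈ box ω ι X ∧ a ∈ {a | (fun i => Ideal.Quotient.mk I (a i)) ∈ S}} := rfl
    rw [h4, h3]
    refine le_trans (le_of_eq ?_) (card_box' hM X P)
    congr 1
    refine filter_congr fun c _ => ?_
    rw [mem_filter, hψ, Set.mem_toFinset]
    simp
  have h3 : M * ((2 * X + 1) / M + 1) ≤ 2 * (2 * X + 1) := by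
    have := Nat.mul_div_le (2 * X + 1) M
    rw [mul_add, mul_one]
    omega
  rw [Nat.card_eq_fintype_card, ncard_box, ← mul_pow, Set.ncard_eq_toFinset_card' S]
  calc _ ≤ (P.card * ((2 * X + 1) / M + 1) ^ Fintype.card (ι × J)) *
        Fintype.card (ι → 𝓞 K ⧸ I) := Nat.mul_le_mul_right _ h2
    _ = (P.card * Fintype.card (ι → 𝓞 K ⧸ I)) * ((2 * X + 1) / M + 1) ^ Fintype.card (ι × J) := by
        ring
    _ = S.toFinset.card * (M * ((2 * X + 1) / M + 1)) ^ Fintype.card (ι × J) := by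
        rw [h1, Fintype.card_fun (α := ι × J) (β := ZMod M), ZMod.card, mul_pow]
        ring
    _ ≤ _ := Nat.mul_le_mul_left _ (Nat.pow_le_pow_left h3 _)

end Pool.Agent.H912.DY
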