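import Pool.Agent.H912.AE.Fr

/-!
# The exponent of a Galois group and the ramification indices (helper912)
-/

set_option autoImplicit false

open Finset IsDedekindDomain
open scoped NumberField

namespace Pool.Agent.H912.DY

lemma choose_prime {p : ℕ} (hp : p.Prime) {h : ℕ} (hh : ¬ p ∣ h) (k : ℕ) :
    ¬ p ∣ (p ^ k * h).choose (p ^ k) := by
  induction k with
  | zero => simpa using hh
  | succ k ih =>
    have : Fact p.Prime := ⟨hp⟩
    have h1 := Choose.choose_modEq_choose_mod_mul_choose_div_nat (n := p ^ (k + 1) * h)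
      (k := p ^ (k + 1)) (p := p)
    have h2 : p ^ (k + 1) * h % p = 0 := by
      rw [pow_succ, mul_right_comm]
      exact Nat.mul_mod_left _ _
    have h3 : p ^ (k + 1) % p = 0 := by
      rw [pow_succ]
      exact Nat.mul_mod_left _ _
    have h4 : p ^ (k + 1) * h / p = p ^ k * h := by
      rw [pow_succ, mul_right_comm]
      exact Nat.mul_div_cancel _ hp.pos
    have h5 : p ^ (k + 1) / p = p ^ k := by
      rw [pow_succ]
      exact Nat.mul_div_cancel _ hp.pos
    rw [h2, h3, h4, h5, Nat.choose_self, one_mul] at h1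
    rw [h1.dvd_iff dvd_rfl]
    exact ih

section val

variable {N : Type} {Γ : Type*} [Field N] [LinearOrderedCommGroupWithZero Γ] (w : Valuation N Γ)

lemma val_nat_le (n : ℕ) : w (n : N) ≤ 1 := by
  induction n with
  | zero => simp
  | succ n ih =>
    rw [Nat.cast_succ]
    exact (w.map_add _ _).trans (max_le ih (by rw [map_one]))

lemma val_int_le (n : ℤ) : w (n : N) ≤ 1 := by
  obtain ⟨m, rfl | rfl⟩ := n.eq_nat_or_neg
  · rw [Int.cast_natCast]
    exact val_nat_le w m
  · rw [Int.cast_neg, w.map_neg, Int.cast_natCast]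
    exact val_nat_le w m

lemma val_nat_eq {p n : ℕ} (hp : p.Prime) (hwp : w (p : N) < 1) (hn : ¬ p ∣ n) :
    w (n : N) = 1 := by
  refine le_antisymm (val_nat_le w n) ?_
  by_contra h
  rw [not_le] at h
  have h1 : IsCoprime (p : ℤ) (n : ℤ) := by
    rw [Nat.isCoprime_iff_coprime]
    exact (Nat.Prime.coprime_iff_not_dvd hp).2 hn
  obtain ⟨x, y, hxy⟩ := h1
  have h2 : (x : N) * (p : N) + y * n = 1 := by
    have h := congrArg (Int.cast : ℤ → N) hxy
    push_cast at h
    exact h
  have h3 : w ((x : N) * (p : N) + y * n) < 1 := by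
    refine w.map_add_lt ?_ ?_
    · rw [map_mul]
      exact (mul_le_mul' (val_int_le w x) le_rfl).trans_lt (by rwa [one_mul])
    · rw [map_mul]
      exact (mul_le_mul' (val_int_le w y) le_rfl).trans_lt (by rwa [one_mul])
  rw [h2, map_one] at h3
  exact lt_irrefl _ h3

lemma prod_cong {ι : Type*} (s : Finset ι) (t : ι → N) {a : N} (ha : a ≠ 0)
    (h : ∀ i ∈ s, w (t i - a) < w a) : w (∏ i ∈ s, t i - a ^ s.card) < w a ^ s.card := by
  classical
  have ha0 : w a ≠ 0 := (Valuation.ne_zero_iff w).2 ha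
  have hpos : ∀ n : ℕ, 0 < w a ^ n := fun n => zero_lt_iff.2 (pow_ne_zero n ha0)
  induction s using Finset.induction_on with
  | empty => simp
  | insert i s hi ih =>
    have ih' := ih fun j hj => h j (mem_insert_of_mem hj)
    have h1 : w (∏ i ∈ s, t i) = w a ^ s.card := by
      rw [← map_pow] at ih' ⊢
      exact Valuation.map_eq_of_sub_lt w ih'
    rw [prod_insert hi, card_insert_of_notMem hi]
    have h2 : t i * ∏ i ∈ s, t i - a ^ (s.card + 1) =
        (t i - a) * ∏ i ∈ s, t i + a * (∏ i ∈ s, t i - a ^ s.card) := by ring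
    rw [h2]
    refine w.map_add_lt ?_ ?_
    · rw [map_mul, h1, pow_succ, mul_comm (w a ^ s.card)]
      exact mul_lt_mul_of_pos_right (h i (mem_insert_self i s)) (hpos _)
    · rw [map_mul, pow_succ, mul_comm (w a ^ s.card)]
      exact mul_lt_mul_of_pos_left ih' (zero_lt_iff.2 ha0)

/-- an elementary symmetric function -/
lemma val_esymm {H : Type*} [Fintype H] (t : H → N) {a : N} (ha : a ≠ 0)
    (ht : ∀ i, w (t i - a) < w a) {p k h : ℕ} (hp : p.Prime) (hwp : w (p : N) < 1)
    (hh : ¬ p ∣ h) (hcard : Fintype.card H = p ^ k * h) :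
    w (∑ S ∈ powersetCard (p ^ k) (univ : Finset H), ∏ i ∈ S, t i) = w a ^ (p ^ k) := by
  have ha0 : w a ≠ 0 := (Valuation.ne_zero_iff w).2 ha
  have h1 : w (((powersetCard (p ^ k) (univ : Finset H)).card : N)) = 1 := by
    rw [card_powersetCard, card_univ, hcard]
    exact val_nat_eq w hp hwp (choose_prime hp hh k)
  have h2 : w (((powersetCard (p ^ k) (univ : Finset H)).card : N) * a ^ (p ^ k)) =
      w a ^ (p ^ k) := by
    rw [map_mul, h1, one_mul, map_pow]
  rw [← h2]
  refine Valuation.map_eq_of_sub_lt w ?_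
  rw [h2]
  have h3 : ∑ S ∈ powersetCard (p ^ k) (univ : Finset H), ∏ i ∈ S, t i -
      ((powersetCard (p ^ k) (univ : Finset H)).card : N) * a ^ (p ^ k) =
      ∑ S ∈ powersetCard (p ^ k) (univ : Finset H), (∏ i ∈ S, t i - a ^ (p ^ k)) := by
    rw [sum_sub_distrib, sum_const, nsmul_eq_mul]
  rw [h3]
  refine w.map_sum_lt (pow_ne_zero _ ha0) fun S hS => ?_
  have h4 := prod_cong w S t ha fun i _ => ht i
  rwa [(mem_powersetCard.1 hS).2] at h4

end val

/-- an elementary symmetric function of the conjugates is fixed -/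
lemma esymm_fixed {K N : Type} [Field K] [Field N] [Algebra K N] (I : Subgroup (N ≃ₐ[K] N))
    [Fintype I] (a : N) (j : ℕ) (τ : N ≃ₐ[K] N) (hτ : τ ∈ I) :
    τ (∑ S ∈ powersetCard j (univ : Finset I), ∏ i ∈ S, (i : N ≃ₐ[K] N) a) =
      ∑ S ∈ powersetCard j (univ : Finset I), ∏ i ∈ S, (i : N ≃ₐ[K] N) a := by
  classical
  rw [map_sum]
  refine sum_equiv ((Equiv.mulLeft (⟨τ, hτ⟩ : I)).finsetCongr) (fun S => ?_) (fun S _ => ?_)
  · simp [mem_powersetCard]
  · rw [map_prod, Equiv.finsetCongr_apply, prod_map]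
    rfl

end Pool.Agent.H912.DY
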