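import Pool.Agent.H912.DY.T1

/-!
# Elements fixed by the inertia group (helper912)
-/

set_option autoImplicit false

open Finset IsDedekindDomain
open scoped NumberField

namespace Pool.Agent.H912.DY

/-- the prime below -/
noncomputable def below {M N : Type} [Field M] [NumberField M] [Field N] [NumberField N]
    [Algebra M N] (w : HeightOneSpectrum (𝓞 N)) : HeightOneSpectrum (𝓞 M) where
  asIdeal := w.asIdeal.under (𝓞 M)
  isPrime := inferInstance
  ne_bot := by
    have := w.ne_bot
    exact mt Ideal.eq_bot_of_comap_eq_bot this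

lemma liesOver_below {M N : Type} [Field M] [NumberField M] [Field N] [NumberField N]
    [Algebra M N] (w : HeightOneSpectrum (𝓞 N)) :
    w.asIdeal.LiesOver (below (M := M) w).asIdeal := ⟨rfl⟩

lemma card_inertia_eq {K N : Type} [Field K] [NumberField K] [Field N] [NumberField N]
    [Algebra K N] [IsGalois K N] (v : HeightOneSpectrum (𝓞 K)) (w : HeightOneSpectrum (𝓞 N))
    (hw : w.asIdeal.LiesOver v.asIdeal) :
    Nat.card (w.asIdeal.inertia (N ≃ₐ[K] N)) = v.asIdeal.ramificationIdx' w.asIdeal := by
  have hmax : v.asIdeal.IsMaximal := v.isMaximal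
  have hmax' : w.asIdeal.IsMaximal := w.isMaximal
  have hfin : Finite (𝓞 K ⧸ v.asIdeal) := Ideal.finiteQuotientOfFreeOfNeBot _ v.ne_bot
  rw [Ideal.card_inertia_eq_ramificationIdxIn (G := N ≃ₐ[K] N) v.asIdeal w.asIdeal,
    Ideal.ramificationIdxIn_eq_ramificationIdx v.asIdeal w.asIdeal (N ≃ₐ[K] N),
    Ideal.ramificationIdx'_eq_ramificationIdx]
  exact v.ne_bot

/-- if the Galois group acts trivially modulo `w` then `w` takes only multiples of the degree on the
small field -/
lemma val_of_inertia {M N : Type} [Field M] [NumberField M] [Field N] [NumberField N]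
    [Algebra M N] [IsGalois M N] (w : HeightOneSpectrum (𝓞 N))
    (h : ∀ (τ : N ≃ₐ[M] N) (a : 𝓞 N), τ • a - a ∈ w.asIdeal) {y : M} (hy : y ≠ 0) :
    ∃ j : ℤ, w.valuation N (algebraMap M N y) = WithZero.exp (j * Module.finrank M N) := by
  have hlies := liesOver_below (M := M) w
  have h1 := card_inertia_eq (below (M := M) w) w hlies
  have h2 : w.asIdeal.inertia (N ≃ₐ[M] N) = ⊤ := by
    rw [eq_top_iff]
    intro τ _
    exact h τ
  rw [h2, Subgroup.card_top, IsGalois.card_aut_eq_finrank] at h1
  rw [← HeightOneSpectrum.valuation_liesOver N (below (M := M) w) w y, ← h1]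
  have h3 : (below (M := M) w).valuation M y ≠ 0 := (Valuation.ne_zero_iff _).2 hy
  refine ⟨WithZero.log ((below (M := M) w).valuation M y), ?_⟩
  conv_lhs => rw [← WithZero.exp_log h3]
  rw [← WithZero.exp_nsmul, nsmul_eq_mul, mul_comm]

/-- `w` takes only multiples of the ramification index on the inertia field -/
lemma val_fixed {K N : Type} [Field K] [NumberField K] [Field N] [NumberField N]
    [Algebra K N] [IsGalois K N] (v : HeightOneSpectrum (𝓞 K)) (w : HeightOneSpectrum (𝓞 N))
    (hw : w.asIdeal.LiesOver v.asIdeal) {y : N} (hy : y ≠ 0)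
    (hfix : ∀ τ ∈ w.asIdeal.inertia (N ≃ₐ[K] N), τ y = y) :
    ∃ j : ℤ, w.valuation N y = WithZero.exp (j * (v.asIdeal.ramificationIdx' w.asIdeal : ℕ)) := by
  set I := w.asIdeal.inertia (N ≃ₐ[K] N) with hI
  let M : IntermediateField K N := IntermediateField.fixedField I
  have hyM : y ∈ M := by
    rw [IntermediateField.mem_fixedField_iff]
    exact hfix
  have hM : FiniteDimensional K N := Module.Finite.of_restrictScalars_finite ℚ K N
  have h1 := val_of_inertia (M := M) w (fun τ a => by
    have h2 : τ.restrictScalars K ∈ I := by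
      have h3 : τ.restrictScalars K ∈ IntermediateField.fixingSubgroup M := by
        intro x
        exact τ.commutes x
      rwa [IntermediateField.fixingSubgroup_fixedField] at h3
    exact h2 a) (y := ⟨y, hyM⟩) (fun h => hy (congrArg Subtype.val h))
  have h2 : Module.finrank M N = v.asIdeal.ramificationIdx' w.asIdeal := by
    rw [← card_inertia_eq v w hw]
    exact IntermediateField.finrank_fixedField_eq_card I
  rw [h2] at h1
  exact h1

end Pool.Agent.H912.DY
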